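import Pool.Agent.Q42.UIC.Stm

/-! Project UIC, job near_inv (helper52). -/

set_option autoImplicit false

open MeasureTheory ProbabilityTheory

namespace Pool.Agent.Q42.UIC

namespace NI

variable {S : Type} [MeasurableSpace S]

theorem blk_one (b : Kernel S (ℝ × S)) [IsMarkovKernel b] : blk b 1 = b := by
  ext x s hs
  have h1 : Measurable (Set.indicator s (fun _ : ℝ × S => (1 : ENNReal))) := measurable_const.indicator hs
  rw [← lintegral_indicator_one hs, ← lintegral_indicator_one hs]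
  change ∫⁻ a, s.indicator (fun _ => (1 : ENNReal)) a ∂(conc (blk b 0) b x)
    = ∫⁻ a, s.indicator (fun _ => (1 : ENNReal)) a ∂(b x)
  rw [lintegral_conc _ _ _ _ h1]
  change ∫⁻ q, ∫⁻ r, s.indicator (fun _ => (1 : ENNReal)) (q.1 + r.1, r.2) ∂(b q.2)
    ∂(Kernel.deterministic (fun x : S => ((0 : ℝ), x)) (by fun_prop) x) = _
  rw [Kernel.deterministic_apply]
  have h2 : Measurable (fun q : ℝ × S => ∫⁻ r, s.indicator (fun _ => (1 : ENNReal)) (q.1 + r.1, r.2)
      ∂(b q.2)) := by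
    have h3 : Measurable (fun p : (ℝ × S) × (ℝ × S) =>
        s.indicator (fun _ => (1 : ENNReal)) (p.1.1 + p.2.1, p.2.2)) := h1.comp (by fun_prop)
    exact Measurable.lintegral_kernel_prod_right'
      (κ := b.comap (fun p : ℝ × S => p.2) (by fun_prop)) h3
  rw [lintegral_dirac' _ h2]
  simp

/-- integral against the one step block -/
theorem integral_base (Q : Kernel S S) [IsMarkovKernel Q] (f : S → ℝ) (hf : Measurable f)
    (F : ℝ × S → ℝ) (hF : Measurable F) (y : S) :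
    ∫ q, F q ∂(base Q f y) = ∫ z, F (f y, z) ∂(Q y) := by
  unfold base
  have hm : Measurable (fun p : S × S => (f p.1, p.2)) := by fun_prop
  rw [Kernel.map_apply _ hm, integral_map hm.aemeasurable hF.aestronglyMeasurable,
    Kernel.prod_apply, Kernel.id_apply]
  rw [Measure.dirac_prod, integral_map (by fun_prop) (by
    exact (hF.comp hm).aestronglyMeasurable)]

theorem lintegral_base (Q : Kernel S S) [IsMarkovKernel Q] (f : S → ℝ) (hf : Measurable f)
    (F : ℝ × S → ENNReal) (hF : Measurable F) (y : S) :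
    ∫⁻ q, F q ∂(base Q f y) = ∫⁻ z, F (f y, z) ∂(Q y) := by
  unfold base
  have hm : Measurable (fun p : S × S => (f p.1, p.2)) := by fun_prop
  have hF2 : Measurable (fun p : S × S => F (f p.1, p.2)) := hF.comp hm
  rw [Kernel.map_apply _ hm, lintegral_map hF hm,
    Kernel.prod_apply, Kernel.id_apply]
  rw [Measure.dirac_prod, lintegral_map hF2 (by fun_prop)]

theorem endInv_blk (ν : Measure S) [IsProbabilityMeasure ν] (b : Kernel S (ℝ × S)) [IsMarkovKernel b]
    (hb : EndInv ν b) (n : ℕ) : EndInv ν (blk b n) := by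
  induction n with
  | zero =>
    unfold EndInv
    have hm : Measurable (fun p : S × (ℝ × S) => p.2.2) := by fun_prop
    ext s hs
    have h1 : Measurable (Set.indicator s (fun _ : S => (1 : ENNReal))) := measurable_const.indicator hs
    have h2 : Measurable (fun p : S × (ℝ × S) => s.indicator (fun _ => (1 : ENNReal)) p.2.2) := h1.comp hm
    rw [← lintegral_indicator_one hs, ← lintegral_indicator_one hs]
    change ∫⁻ a, s.indicator (fun _ => (1 : ENNReal)) a ∂_ = ∫⁻ a, s.indicator (fun _ => (1 : ENNReal)) a ∂_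
    rw [lintegral_map h1 hm, Measure.lintegral_compProd h2]
    refine lintegral_congr fun x => ?_
    change ∫⁻ q : ℝ × S, s.indicator (fun _ => (1 : ENNReal)) q.2
      ∂(Kernel.deterministic (fun x : S => ((0 : ℝ), x)) (by fun_prop) x) = _
    have h3 : Measurable (fun q : ℝ × S => s.indicator (fun _ => (1 : ENNReal)) q.2) :=
      h1.comp measurable_snd
    rw [Kernel.deterministic_apply, lintegral_dirac' _ h3]
  | succ n ih => exact endInv_conc ν _ _ ih hb

/-- Cauchy Schwarz -/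
theorem cs {X : Type} [MeasurableSpace X] (μ : Measure X) (s h : X → ℝ)
    (hs : MemLp s 2 μ) (hh : MemLp h 2 μ) :
    ∫ x, |s x| * |h x| ∂μ ≤ Real.sqrt (∫ x, s x ^ 2 ∂μ) * Real.sqrt (∫ x, h x ^ 2 ∂μ) := by
  have hs' : MemLp s (ENNReal.ofReal 2) μ := by simpa using hs
  have hh' : MemLp h (ENNReal.ofReal 2) μ := by simpa using hh
  have h1 := integral_mul_norm_le_Lp_mul_Lq (μ := μ) (f := s) (g := h) (p := 2) (q := 2)
    Real.HolderConjugate.two_two hs' hh'
  simp only [Real.norm_eq_abs] at h1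
  have e1 : ∀ x : ℝ, |x| ^ (2 : ℝ) = x ^ 2 := by
    intro x
    rw [Real.rpow_two, sq_abs]
  simp only [e1] at h1
  rw [Real.sqrt_eq_rpow, Real.sqrt_eq_rpow]
  exact h1

/-- the perturbation lemma -/
theorem pert {Y : Type} [MeasurableSpace Y] (ν : Measure S) [IsProbabilityMeasure ν] (κ : Kernel S Y)
    [IsMarkovKernel κ] (s h : S × Y → ℝ) (hs : MemLp s 2 (ν ⊗ₘ κ)) (hh : MemLp h 2 (ν ⊗ₘ κ)) :
    Integrable (fun x => ∫ y, (2 * (|s (x, y)| * |h (x, y)|) + h (x, y) ^ 2) ∂(κ x)) ν ∧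
    (∫ x, ∫ y, (2 * (|s (x, y)| * |h (x, y)|) + h (x, y) ^ 2) ∂(κ x) ∂ν
      ≤ 2 * (Real.sqrt (∫ p, s p ^ 2 ∂(ν ⊗ₘ κ)) * Real.sqrt (∫ p, h p ^ 2 ∂(ν ⊗ₘ κ)))
        + ∫ p, h p ^ 2 ∂(ν ⊗ₘ κ)) ∧
    (∀ᵐ x ∂ν, |∫ y, (s (x, y) + h (x, y)) ^ 2 ∂(κ x) - ∫ y, s (x, y) ^ 2 ∂(κ x)|
      ≤ ∫ y, (2 * (|s (x, y)| * |h (x, y)|) + h (x, y) ^ 2) ∂(κ x)) := by
  have i1 : Integrable (fun p => s p * h p) (ν ⊗ₘ κ) := hs.integrable_mul hh
  have i2 : Integrable (fun p => |s p| * |h p|) (ν ⊗ₘ κ) := by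
    have := i1.abs
    refine this.congr (Filter.Eventually.of_forall fun p => ?_)
    simp [abs_mul]
  have i3 : Integrable (fun p => h p ^ 2) (ν ⊗ₘ κ) := hh.integrable_sq
  have i4 : Integrable (fun p => s p ^ 2) (ν ⊗ₘ κ) := hs.integrable_sq
  have i5 : Integrable (fun p => 2 * (|s p| * |h p|) + h p ^ 2) (ν ⊗ₘ κ) := (i2.const_mul 2).add i3
  have k1 := (Measure.integrable_compProd_iff i1.aestronglyMeasurable).1 i1
  have k3 := (Measure.integrable_compProd_iff i3.aestronglyMeasurable).1 i3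
  have k4 := (Measure.integrable_compProd_iff i4.aestronglyMeasurable).1 i4
  have k5 := (Measure.integrable_compProd_iff i5.aestronglyMeasurable).1 i5
  refine ⟨?_, ?_, ?_⟩
  · refine k5.2.congr (Filter.Eventually.of_forall fun x => ?_)
    refine integral_congr_ae (Filter.Eventually.of_forall fun y => ?_)
    simp only []
    rw [Real.norm_eq_abs, abs_of_nonneg (by positivity)]
  · rw [← Measure.integral_compProd i5, integral_add (i2.const_mul 2) i3, integral_const_mul]
    have := cs (ν ⊗ₘ κ) s h hs hh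
    linarith
  · filter_upwards [k1.1, k3.1, k4.1, k5.1] with x h1 h3 h4 h5
    have e0 : ∀ y, (s (x, y) + h (x, y)) ^ 2 = s (x, y) ^ 2 + (2 * (s (x, y) * h (x, y)) + h (x, y) ^ 2) := by
      intro y; ring
    simp only [e0]
    have h6 : Integrable (fun y => 2 * (s (x, y) * h (x, y)) + h (x, y) ^ 2) (κ x) :=
      (h1.const_mul 2).add h3
    rw [integral_add h4 h6, add_sub_cancel_left]
    refine (abs_integral_le_integral_abs).trans ?_
    refine integral_mono_of_nonneg (Filter.Eventually.of_forall fun y => abs_nonneg _) h5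
      (Filter.Eventually.of_forall fun y => ?_)
    refine (abs_add_le _ _).trans ?_
    rw [abs_mul, abs_mul, abs_of_nonneg (sq_nonneg (h (x, y))), abs_of_pos (by norm_num : (0 : ℝ) < 2)]

end NI

open NI in
theorem near_inv : St_blk_add → St_near_inv := by
  intro hadd S _ ν _ Q _ hν f hf hf2 n hn w hw hmem hsq
  haveI := base_markov Q f hf
  set B := blk (base Q f) n with hB
  haveI : IsMarkovKernel B := blk_markov _ _
  have hinv : EndInv ν B := endInv_blk ν _ (endInv_base ν Q f hf hν) n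
  have hmc : Measurable (fun p : S × S => p.2) := measurable_snd
  set C : Kernel S (S × (ℝ × S)) := Q ⊗ₖ (B.comap (fun p : S × S => p.2) hmc) with hC
  haveI : IsMarkovKernel C := by rw [hC]; infer_instance
  -- second moment
  have mv : Measurable (fun q : ℝ × S => ENNReal.ofReal (q.1 ^ 2)) := by fun_prop
  have mvr : Measurable (fun q : ℝ × S => q.1 ^ 2) := by fun_prop
  have T1 : ∀ x, ∫ q, q.1 ^ 2 ∂(conc B (base Q f) x) = ∫ q, (q.1 + f q.2) ^ 2 ∂(B x) := by
    intro x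
    have m2 : Measurable (fun q : ℝ × S => (q.1 + f q.2) ^ 2) := by fun_prop
    rw [integral_eq_lintegral_of_nonneg_ae (Filter.Eventually.of_forall fun q => sq_nonneg _)
      mvr.aestronglyMeasurable, integral_eq_lintegral_of_nonneg_ae
      (Filter.Eventually.of_forall fun q => sq_nonneg _) m2.aestronglyMeasurable]
    congr 1
    rw [lintegral_conc _ _ _ _ mv]
    refine lintegral_congr fun q => ?_
    have m3 : Measurable (fun r : ℝ × S => ENNReal.ofReal ((q.1 + r.1) ^ 2)) := by fun_prop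
    rw [lintegral_base Q f hf _ m3]
    simp
  have T2 : ∀ x, ∫ q, q.1 ^ 2 ∂(conc (base Q f) B x) = ∫ p, (p.2.1 + f x) ^ 2 ∂(C x) := by
    intro x
    have m2 : Measurable (fun p : S × (ℝ × S) => (p.2.1 + f x) ^ 2) := by fun_prop
    rw [integral_eq_lintegral_of_nonneg_ae (Filter.Eventually.of_forall fun q => sq_nonneg _)
      mvr.aestronglyMeasurable, integral_eq_lintegral_of_nonneg_ae
      (Filter.Eventually.of_forall fun q => sq_nonneg _) m2.aestronglyMeasurable]
    congr 1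
    rw [lintegral_conc _ _ _ _ mv]
    have m3 : Measurable (fun p : (ℝ × S) × (ℝ × S) => ENNReal.ofReal ((p.1.1 + p.2.1) ^ 2)) := by
      fun_prop
    have m4 : Measurable (fun q : ℝ × S => ∫⁻ r, ENNReal.ofReal ((q.1 + r.1) ^ 2) ∂(B q.2)) :=
      Measurable.lintegral_kernel_prod_right'
        (κ := B.comap (fun p : ℝ × S => p.2) (by fun_prop)) m3
    rw [lintegral_base Q f hf _ m4, hC, Kernel.lintegral_compProd _ _ _ (by fun_prop)]
    refine lintegral_congr fun z => ?_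
    refine lintegral_congr fun r => ?_
    simp only []
    rw [add_comm]
  have hTT : conc B (base Q f) = conc (base Q f) B := by
    have h1 : blk (base Q f) (1 + n) = conc (blk (base Q f) 1) (blk (base Q f) n) := hadd _ 1 n
    rw [blk_one, add_comm] at h1
    exact h1
  -- laws
  have hme : Measurable (fun p : S × (ℝ × S) => p.2.2) := by fun_prop
  have hfE : MemLp (fun p : S × (ℝ × S) => f p.2.2) 2 (ν ⊗ₘ B) := by
    have h1 := hf2
    rw [← hinv] at h1
    exact (memLp_map_measure_iff hf.aestronglyMeasurable hme.aemeasurable).1 h1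
  have hfE2 : ∫ p, (fun p : S × (ℝ × S) => f p.2.2) p ^ 2 ∂(ν ⊗ₘ B) = ∫ x, f x ^ 2 ∂ν := by
    conv_rhs => rw [← hinv, integral_map hme.aemeasurable (hf.pow_const 2).aestronglyMeasurable]
  have hlaw2 : (ν ⊗ₘ C).map (fun p : S × (S × (ℝ × S)) => p.2) = ν ⊗ₘ B := by
    ext s hs
    have h1 : Measurable (Set.indicator s (fun _ : S × (ℝ × S) => (1 : ENNReal))) :=
      measurable_const.indicator hs
    have h2 : Measurable (fun p : S × (S × (ℝ × S)) => s.indicator (fun _ => (1 : ENNReal)) p.2) :=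
      h1.comp measurable_snd
    rw [← lintegral_indicator_one hs, ← lintegral_indicator_one hs]
    change ∫⁻ a, s.indicator (fun _ => (1 : ENNReal)) a ∂_ = ∫⁻ a, s.indicator (fun _ => (1 : ENNReal)) a ∂_
    rw [lintegral_map h1 measurable_snd, Measure.lintegral_compProd h2, Measure.lintegral_compProd h1]
    have h3 : Measurable (fun z => ∫⁻ r, s.indicator (fun _ => (1 : ENNReal)) (z, r) ∂(B z)) :=
      Measurable.lintegral_kernel_prod_right' h1
    conv_rhs => rw [← hν, Measure.lintegral_bind Q.aemeasurable h3.aemeasurable]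
    refine lintegral_congr fun x => ?_
    rw [hC, Kernel.lintegral_compProd _ _ _ h1]
    rfl
  have hsC : MemLp (fun p : S × (S × (ℝ × S)) => p.2.2.1) 2 (ν ⊗ₘ C) := by
    have h1 := hmem
    rw [← hlaw2] at h1
    have mm : Measurable (fun p : S × (ℝ × S) => p.2.1) := by fun_prop
    exact (memLp_map_measure_iff mm.aestronglyMeasurable measurable_snd.aemeasurable).1 h1
  have hsC2 : ∫ p, (fun p : S × (S × (ℝ × S)) => p.2.2.1) p ^ 2 ∂(ν ⊗ₘ C) = ∫ p, p.2.1 ^ 2 ∂(ν ⊗ₘ B) := by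
    have mm : Measurable (fun p : S × (ℝ × S) => p.2.1 ^ 2) := by fun_prop
    conv_rhs => rw [← hlaw2, integral_map measurable_snd.aemeasurable mm.aestronglyMeasurable]
  have hfst : (ν ⊗ₘ C).map Prod.fst = ν := Measure.fst_compProd ν C
  have hfC : MemLp (fun p : S × (S × (ℝ × S)) => f p.1) 2 (ν ⊗ₘ C) := by
    have h1 := hf2
    rw [← hfst] at h1
    exact (memLp_map_measure_iff hf.aestronglyMeasurable measurable_fst.aemeasurable).1 h1
  have hfC2 : ∫ p, (fun p : S × (S × (ℝ × S)) => f p.1) p ^ 2 ∂(ν ⊗ₘ C) = ∫ x, f x ^ 2 ∂ν := by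
    conv_rhs => rw [← hfst, integral_map measurable_fst.aemeasurable (hf.pow_const 2).aestronglyMeasurable]
  obtain ⟨a1, a2, a3⟩ := pert ν B (fun p => p.2.1) (fun p => f p.2.2) hmem hfE
  obtain ⟨c1, c2, c3⟩ := pert ν C (fun p => p.2.2.1) (fun p => f p.1) hsC hfC
  rw [hfE2] at a2
  rw [hsC2, hfC2] at c2
  -- QV
  have hsCi := hsC.integrable_sq
  have kC := (Measure.integrable_compProd_iff hsCi.aestronglyMeasurable).1 hsCi
  set F := ∫ x, f x ^ 2 ∂ν with hF
  have hF0 : 0 ≤ F := integral_nonneg fun x => sq_nonneg _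
  have hn' : (0 : ℝ) < n := by exact_mod_cast hn
  have hn1 : (1 : ℝ) ≤ n := by exact_mod_cast hn
  have hpt : ∀ᵐ x ∂ν, |∫ q, q.1 ^ 2 / n ∂(B x) - ∫ y, (∫ q, q.1 ^ 2 / n ∂(B y)) ∂(Q x)|
      ≤ (1 / (n : ℝ)) * ((∫ q, (2 * (|q.1| * |f q.2|) + f q.2 ^ 2) ∂(B x))
        + ∫ p, (2 * (|p.2.1| * |f x|) + f x ^ 2) ∂(C x)) := by
    filter_upwards [a3, c3, kC.1] with x hx1 hx2 hx3
    have e1 : ∫ y, (∫ q, q.1 ^ 2 / n ∂(B y)) ∂(Q x) = (∫ p, p.2.1 ^ 2 ∂(C x)) / n := by
      simp only [integral_div]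
      rw [hC, ProbabilityTheory.integral_compProd (by rw [← hC]; exact hx3)]
      rfl
    rw [e1, integral_div, ← sub_div, abs_div, abs_of_pos hn', div_eq_mul_inv, mul_comm, ← one_div]
    refine mul_le_mul_of_nonneg_left ?_ (by positivity)
    have hTx : ∫ q, (q.1 + f q.2) ^ 2 ∂(B x) = ∫ p, (p.2.1 + f x) ^ 2 ∂(C x) := by
      rw [← T1, ← T2, hTT]
    rw [hTx] at hx1
    rw [abs_le] at hx1 hx2 ⊢
    constructor
    · linarith [hx1.1, hx1.2, hx2.1, hx2.2]
    · linarith [hx1.1, hx1.2, hx2.1, hx2.2]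
  have hint := integral_mono_of_nonneg (Filter.Eventually.of_forall fun x => abs_nonneg _)
    ((a1.add c1).const_mul (1 / (n : ℝ))) hpt
  refine hint.trans ?_
  simp only [Pi.add_apply]
  rw [integral_const_mul, integral_add a1 c1]
  have hsq' : Real.sqrt (∫ p, p.2.1 ^ 2 ∂(ν ⊗ₘ B)) ≤ Real.sqrt (n * w) := Real.sqrt_le_sqrt hsq
  have hb1 : Real.sqrt (∫ p, p.2.1 ^ 2 ∂(ν ⊗ₘ B)) * Real.sqrt F ≤ Real.sqrt n * Real.sqrt (w * F) := by
    calc Real.sqrt (∫ p, p.2.1 ^ 2 ∂(ν ⊗ₘ B)) * Real.sqrt F ≤ Real.sqrt (n * w) * Real.sqrt F :=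
          mul_le_mul_of_nonneg_right hsq' (Real.sqrt_nonneg _)
      _ = Real.sqrt n * Real.sqrt (w * F) := by
          rw [Real.sqrt_mul hn'.le, Real.sqrt_mul hw, mul_assoc]
  have hsn : Real.sqrt n * Real.sqrt n = n := Real.mul_self_sqrt hn'.le
  have hsn0 : 0 < Real.sqrt n := Real.sqrt_pos.2 hn'
  have hsn1 : 1 ≤ Real.sqrt n := by
    rw [Real.one_le_sqrt]; exact hn1
  simp only [] at a2 c2
  have hA : (∫ x, ∫ q, (2 * (|q.1| * |f q.2|) + f q.2 ^ 2) ∂(B x) ∂ν)
      + ∫ x, ∫ p, (2 * (|p.2.1| * |f x|) + f x ^ 2) ∂(C x) ∂ν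
      ≤ 4 * (Real.sqrt n * Real.sqrt (w * F)) + 2 * F := by
    linarith
  have hfinal : 1 / (n : ℝ) * (4 * (Real.sqrt n * Real.sqrt (w * F)) + 2 * F)
      ≤ (4 * Real.sqrt (w * F) + 2 * F) / Real.sqrt n := by
    rw [le_div_iff₀ hsn0]
    have e1 : 1 / (n : ℝ) * (4 * (Real.sqrt n * Real.sqrt (w * F)) + 2 * F) * Real.sqrt n
        = 4 * Real.sqrt (w * F) + 2 * F * (Real.sqrt n / n) := by
      have h2 : 1 / (n : ℝ) * (Real.sqrt n * Real.sqrt n) = 1 := by
        rw [hsn]; field_simp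
      calc 1 / (n : ℝ) * (4 * (Real.sqrt n * Real.sqrt (w * F)) + 2 * F) * Real.sqrt n
          = 4 * Real.sqrt (w * F) * (1 / (n : ℝ) * (Real.sqrt n * Real.sqrt n))
            + 2 * F * (Real.sqrt n / n) := by ring
        _ = _ := by rw [h2]; ring
    rw [e1]
    have h3 : Real.sqrt n / n ≤ 1 := by
      rw [div_le_one hn']
      nlinarith
    nlinarith
  exact (mul_le_mul_of_nonneg_left hA (by positivity)).trans hfinal

end Pool.Agent.Q42.UIC
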