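import Pool.Agent.Q42.UIC.Stm
import Pool.Agent.Q184.UIC.Op

/-! Project UIC: the backward drift (helper184). -/

set_option autoImplicit false

open MeasureTheory ProbabilityTheory

namespace Pool.Agent.Q42.UIC

open Pool.Agent.Q184.UIC

theorem bwd_sum {S : Type} [MeasurableSpace S] {ν : Measure S} [IsProbabilityMeasure ν]
    {Q : Kernel S S} [IsMarkovKernel Q] (hν : ν.bind Q = ν) {f : S → ℝ} (hf : Measurable f)
    (hf2 : MemLp f 2 ν) (n : ℕ) {u : S → ℝ} (hu : Measurable u) {C : ℝ} (hC : ∀ x, |u x| ≤ C) :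
    ∫ p, p.2.1 * u p.2.2 ∂(ν ⊗ₘ blk (base Q f) n) =
      ∑ k ∈ Finset.range n, ∫ x, f x * (TT Q)^[k + 1] u x ∂ν := by
  have := base_markov Q f hf
  have hfi : Integrable f ν := hf2.integrable (by norm_num)
  have hEb := endInv_base ν Q f hf hν
  have hbd : ∀ (n : ℕ) {v : S → ℝ}, Measurable v → (∀ x, |v x| ≤ C) →
      Integrable (fun p : S × (ℝ × S) => p.2.1 * v p.2.2) (ν ⊗ₘ blk (base Q f) n) := by
    intro n v hv hvC
    refine (integrable_blk hν hf hf2 n).mul_bdd (c := C) ?_ ?_
    · exact (hv.comp (by fun_prop)).aestronglyMeasurable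
    · exact Filter.Eventually.of_forall fun p => by rw [Real.norm_eq_abs]; exact hvC _
  induction n generalizing u with
  | zero =>
    rw [Finset.range_zero, Finset.sum_empty, Measure.integral_compProd (hbd 0 hu hC)]
    have h2 : ∀ x, ∫ q : ℝ × S, q.1 * u q.2 ∂(blk (base Q f) 0 x) = 0 := by
      intro x
      have h3 : StronglyMeasurable (fun q : ℝ × S => q.1 * u q.2) :=
        (measurable_fst.mul (hu.comp measurable_snd)).stronglyMeasurable
      rw [blk_zero_apply, integral_dirac' (fun q : ℝ × S => q.1 * u q.2) _ h3]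
      simp
    simp only [h2]
    simp
  | succ n ih =>
    have hTu := TT_meas Q hu
    have hTC : ∀ x, |TT Q u x| ≤ C := fun x => TT_bdd Q hC x
    have h1 : ∫ p, p.2.1 * u p.2.2 ∂(ν ⊗ₘ blk (base Q f) (n + 1)) =
        ∫ p, (p.2.1 * TT Q u p.2.2 + f p.2.2 * TT Q u p.2.2) ∂(ν ⊗ₘ blk (base Q f) n) := by
      change ∫ p, p.2.1 * u p.2.2 ∂(ν ⊗ₘ conc (blk (base Q f) n) (base Q f)) = _
      rw [integral_compProd_conc ν _ _ (fun p => p.2.1 * u p.2.2) (hbd (n + 1) hu hC)]
      refine integral_congr_ae (Filter.Eventually.of_forall fun p => ?_)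
      change ∫ q, (p.2.1 + q.1) * u q.2 ∂(base Q f p.2.2) = _
      rw [integral_base Q hf p.2.2 (fun q : ℝ × S => (p.2.1 + q.1) * u q.2)
        ((measurable_const.add measurable_fst).mul (hu.comp measurable_snd)).stronglyMeasurable]
      change ∫ y, (p.2.1 + f p.2.2) * u y ∂(Q p.2.2) = p.2.1 * TT Q u p.2.2 + f p.2.2 * TT Q u p.2.2
      rw [integral_const_mul, ← add_mul]
      rfl
    have h2 : Integrable (fun x => f x * TT Q u x) ν := by
      refine hfi.mul_bdd (c := C) hTu.aestronglyMeasurable ?_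
      exact Filter.Eventually.of_forall fun x => by rw [Real.norm_eq_abs]; exact hTC _
    have hEn := endInv_blk ν (base Q f) hEb n
    rw [h1, integral_add (hbd n hTu hTC) (integrable_end hEn h2),
      integral_end hEn (g := fun x => f x * TT Q u x) h2.1, ih hTu hTC, Finset.sum_range_succ']
    rfl

theorem bwd_drift : St_bwd_drift := by
  intro S _ ν _ Q _ hν f hf hf2 n c hc u hu hC
  obtain ⟨C, hC⟩ := hC
  rw [bwd_sum hν hf hf2 n hu hC]
  have hc0 : ∀ k, 0 ≤ c k := fun k => (sq_nonneg _).trans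
    (hc k (fun _ => 0) measurable_const ⟨0, fun x => by simp⟩ (by simp))
  set A := ∫ x, u x ^ 2 ∂ν with hA
  have hA0 : 0 ≤ A := integral_nonneg fun x => sq_nonneg _
  -- homogeneity
  have hlin : ∀ (m : ℕ) (r : ℝ) (v : S → ℝ), (TT Q)^[m] (fun x => r * v x) =
      fun x => r * (TT Q)^[m] v x := by
    intro m
    induction m with
    | zero => intro r v; rfl
    | succ m ih =>
      intro r v
      rw [Function.iterate_succ_apply, Function.iterate_succ_apply]
      have : TT Q (fun x => r * v x) = fun x => r * TT Q v x := by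
        funext x
        unfold TT
        rw [integral_const_mul]
      rw [this, ih]
  have key : ∀ k, |∫ x, f x * (TT Q)^[k + 1] u x ∂ν| ≤ Real.sqrt (c k) * Real.sqrt A := by
    intro k
    set I := ∫ x, f x * (TT Q)^[k + 1] u x ∂ν with hI
    have hsc : ∀ r : ℝ, r ^ 2 * A ≤ 1 → (r * I) ^ 2 ≤ c k := by
      intro r hr
      have h1 := hc k (fun x => r * u x) (hu.const_mul r) ⟨|r| * C, fun x => by
        rw [abs_mul]; exact mul_le_mul_of_nonneg_left (hC x) (abs_nonneg r)⟩ (by
          have : ∀ x, (r * u x) ^ 2 = r ^ 2 * u x ^ 2 := fun x => by ring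
          simp only [this]
          rw [integral_const_mul]
          exact hr)
      have h2 : ∫ x, f x * (TT Q)^[k + 1] (fun x => r * u x) x ∂ν = r * I := by
        rw [hlin, hI, ← integral_const_mul]
        refine integral_congr_ae (Filter.Eventually.of_forall fun x => ?_)
        ring
      rw [← h2]
      exact h1
    rcases hA0.eq_or_lt with h0 | h0
    · rw [← h0, Real.sqrt_zero, mul_zero]
      by_contra hne
      push Not at hne
      have hI0 : I ≠ 0 := abs_pos.1 hne
      have h1 := hsc (Real.sqrt (c k + 1) / I) (by rw [← h0, mul_zero]; exact zero_le_one)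
      rw [div_mul_cancel₀ _ hI0, Real.sq_sqrt (by linarith [hc0 k])] at h1
      linarith
    · have hs : 0 < Real.sqrt A := Real.sqrt_pos.2 h0
      have h1 := hsc (1 / Real.sqrt A) (by
        rw [div_pow, one_pow, Real.sq_sqrt hA0, one_div, inv_mul_cancel₀ h0.ne'])
      have h2 := Real.abs_le_sqrt h1
      rw [abs_mul, abs_of_pos (by positivity : 0 < 1 / Real.sqrt A), one_div, inv_mul_le_iff₀ hs] at h2
      linarith
  have h3 : |∑ k ∈ Finset.range n, ∫ x, f x * (TT Q)^[k + 1] u x ∂ν| ≤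
      (∑ k ∈ Finset.range n, Real.sqrt (c k)) * Real.sqrt A := by
    refine (Finset.abs_sum_le_sum_abs _ _).trans ?_
    rw [Finset.sum_mul]
    exact Finset.sum_le_sum fun k _ => key k
  have h4 : 0 ≤ (∑ k ∈ Finset.range n, Real.sqrt (c k)) * Real.sqrt A :=
    mul_nonneg (Finset.sum_nonneg fun k _ => Real.sqrt_nonneg _) (Real.sqrt_nonneg _)
  calc (∑ k ∈ Finset.range n, ∫ x, f x * (TT Q)^[k + 1] u x ∂ν) ^ 2
      = |∑ k ∈ Finset.range n, ∫ x, f x * (TT Q)^[k + 1] u x ∂ν| ^ 2 := (sq_abs _).symm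
    _ ≤ ((∑ k ∈ Finset.range n, Real.sqrt (c k)) * Real.sqrt A) ^ 2 :=
        pow_le_pow_left₀ (abs_nonneg _) h3 2
    _ = _ := by rw [mul_pow, Real.sq_sqrt hA0]

end Pool.Agent.Q42.UIC
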