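import Pool.Agent.Q42.UIC.Stm
import Pool.Agent.Q184.UIC.Base

/-! Project UIC: characteristic functions of many blocks (helper184). -/

set_option autoImplicit false

open MeasureTheory ProbabilityTheory

namespace Pool.Agent.Q42.UIC

open Pool.Agent.Q184.UIC

theorem char_blocks : St_char_blocks := by
  intro S _ ν _ b _ hinv t ρ hρ m
  set e : ℝ → ℂ := fun s => Complex.exp (Complex.I * (t * s)) with he
  set φ : S → ℂ := fun x => ∫ q, e q.1 ∂(b x) with hφ
  have hem : Measurable e := by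
    rw [he]; fun_prop
  have hen : ∀ s, ‖e s‖ = 1 := by
    intro s
    rw [he]
    have : Complex.I * ((t : ℂ) * (s : ℂ)) = ((t * s : ℝ) : ℂ) * Complex.I := by push_cast; ring
    simp only [this, Complex.norm_exp_ofReal_mul_I]
  have headd : ∀ s s', e (s + s') = e s * e s' := by
    intro s s'
    simp only [he]
    rw [← Complex.exp_add]
    congr 1
    push_cast
    ring
  have hφm : StronglyMeasurable φ := by
    have h1 : StronglyMeasurable (fun q : ℝ × S => e q.1) :=
      (hem.comp measurable_fst).stronglyMeasurable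
    exact h1.integral_kernel
  have hφn : ∀ x, ‖φ x‖ ≤ 1 := by
    intro x
    refine (norm_integral_le_integral_norm _).trans ?_
    simp only [hen]
    simp
  have hint : ∀ (c : Kernel S (ℝ × S)) [IsMarkovKernel c],
      Integrable (fun p : S × (ℝ × S) => e p.2.1) (ν ⊗ₘ c) := by
    intro c _
    refine Integrable.of_bound (C := 1) ?_ ?_
    · exact (hem.comp (by fun_prop)).aestronglyMeasurable
    · exact Filter.Eventually.of_forall fun p => (hen _).le
  have hD : Integrable (fun x => φ x - ρ) ν := by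
    refine Integrable.of_bound (C := 2) (hφm.sub stronglyMeasurable_const).aestronglyMeasurable ?_
    refine Filter.Eventually.of_forall fun x => ?_
    have := norm_sub_le (φ x) ρ
    have := hφn x
    linarith
  change ‖∫ p, e p.2.1 ∂(ν ⊗ₘ blk b m) - ρ ^ m‖ ≤ m * ∫ x, ‖φ x - ρ‖ ∂ν
  induction m with
  | zero =>
    have h1 : ∫ p, e p.2.1 ∂(ν ⊗ₘ blk b 0) = 1 := by
      rw [Measure.integral_compProd (hint _)]
      have h2 : ∀ x, ∫ q : ℝ × S, e q.1 ∂(blk b 0 x) = 1 := by
        intro x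
        have h3 : StronglyMeasurable (fun q : ℝ × S => e q.1) :=
          (hem.comp measurable_fst).stronglyMeasurable
        rw [blk_zero_apply, integral_dirac' (fun q : ℝ × S => e q.1) _ h3]
        simp [he]
      simp only [h2]
      simp
    rw [h1]
    simp
  | succ m ih =>
    have h1 : ∫ p, e p.2.1 ∂(ν ⊗ₘ blk b (m + 1)) =
        ∫ p, e p.2.1 * φ p.2.2 ∂(ν ⊗ₘ blk b m) := by
      change ∫ p, e p.2.1 ∂(ν ⊗ₘ conc (blk b m) b) = _
      rw [integral_compProd_conc ν (blk b m) b (fun p => e p.2.1) (hint _)]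
      refine integral_congr_ae (Filter.Eventually.of_forall fun p => ?_)
      simp only [headd]
      rw [integral_const_mul]
    have hE := endInv_blk ν b hinv m
    have hie : Integrable (fun p : S × (ℝ × S) => e p.2.1 * φ p.2.2) (ν ⊗ₘ blk b m) := by
      refine Integrable.of_bound (C := 1) ?_ ?_
      · exact ((hem.comp (by fun_prop)).mul (hφm.measurable.comp (by fun_prop))).aestronglyMeasurable
      · refine Filter.Eventually.of_forall fun p => ?_
        rw [norm_mul, hen, one_mul]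
        exact hφn _
    have h2 : ∫ p, e p.2.1 ∂(ν ⊗ₘ blk b (m + 1)) - ρ ^ (m + 1) =
        ∫ p, e p.2.1 * (φ p.2.2 - ρ) ∂(ν ⊗ₘ blk b m) + ρ * (∫ p, e p.2.1 ∂(ν ⊗ₘ blk b m) - ρ ^ m) := by
      rw [h1]
      have h3 : ∀ p : S × (ℝ × S), e p.2.1 * (φ p.2.2 - ρ) = e p.2.1 * φ p.2.2 - ρ * e p.2.1 := by
        intro p; ring
      simp only [h3]
      rw [integral_sub hie ((hint _).const_mul ρ), integral_const_mul]
      ring
    rw [h2]
    have h4 : ‖∫ p, e p.2.1 * (φ p.2.2 - ρ) ∂(ν ⊗ₘ blk b m)‖ ≤ ∫ x, ‖φ x - ρ‖ ∂ν := by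
      refine (norm_integral_le_integral_norm _).trans ?_
      have h5 : ∀ p : S × (ℝ × S), ‖e p.2.1 * (φ p.2.2 - ρ)‖ = ‖φ p.2.2 - ρ‖ := by
        intro p
        rw [norm_mul, hen, one_mul]
      simp only [h5]
      rw [integral_end hE (g := fun x => ‖φ x - ρ‖) hD.1.norm]
    have h6 : 0 ≤ ∫ x, ‖φ x - ρ‖ ∂ν := integral_nonneg fun x => norm_nonneg _
    calc _ ≤ _ := norm_add_le _ _
      _ ≤ ∫ x, ‖φ x - ρ‖ ∂ν + 1 * (m * ∫ x, ‖φ x - ρ‖ ∂ν) := by
        rw [norm_mul]
        gcongr
      _ = _ := by push_cast; ring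

end Pool.Agent.Q42.UIC
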