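import Pool.Agent.Q42.UIC.Stm
import Pool.Agent.Q203.UIC.Clt3

/-! Project UIC: the central limit theorem from uniform integrability and convergence of variances. -/

set_option autoImplicit false

open MeasureTheory ProbabilityTheory Pool.Agent.Q203.UIC Filter Topology

namespace Pool.Agent.Q42.UIC

theorem clt_core : St_char_blocks → St_lev_eq_blk → St_blk_mul → St_blk_add → St_sq_conc →
    St_clt_core := by
  intro hchar hlb hmul hadd hsqc S _ ν _ b _ w v α β hw hv hα0 hβ0 hα hβ hb hui hvar τ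
  set D : ℕ → ℝ := fun l => ∫ x, |∫ q, q.1 ^ 2 / 2 ^ l ∂(lev b l x) - v| ∂ν with hD
  have hinv : ∀ l, EndInv ν (lev b l) := fun l => (hb l).inv
  have h2 : ∀ l, Integrable (fun p : S × (ℝ × S) => p.2.1 ^ 2) (ν ⊗ₘ lev b l) :=
    fun l => (hb l).mem.integrable_sq
  have hsq : ∀ l, ∫ p, p.2.1 ^ 2 ∂(ν ⊗ₘ lev b l) ≤ 2 ^ l * w := fun l => (hb l).sq
  rw [Metric.tendsto_atTop]
  intro ε hε
  set δ : ℝ := ε / (16 * (τ ^ 2 + 1)) with hδ
  have hδ0 : 0 < δ := by positivity
  have hδ1 : 4 * (τ ^ 2 * δ) ≤ ε / 4 := by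
    have h1 : (τ ^ 2 + 1) * δ = ε / 16 := by
      rw [hδ]; field_simp
    nlinarith
  obtain ⟨K, hK, l0, hl0⟩ := hui δ hδ0
  -- large number of blocks
  set F : ℕ → ℝ := fun m => 3 * Real.sqrt w * (|τ| / Real.sqrt m)
    + 4 * (Real.sqrt K * w * |τ| ^ 3 / Real.sqrt m) + v ^ 2 * τ ^ 4 / (4 * m) + v * τ ^ 2 / (2 * m)
    with hF
  have hFt : Tendsto F atTop (nhds 0) := by
    have hc : Tendsto (fun m : ℕ => (m : ℝ)) atTop atTop := tendsto_natCast_atTop_atTop
    have hs : Tendsto (fun m : ℕ => Real.sqrt m) atTop atTop := Real.tendsto_sqrt_atTop.comp hc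
    have t1 : Tendsto (fun m : ℕ => 3 * Real.sqrt w * (|τ| / Real.sqrt m)) atTop (nhds 0) := by
      simpa using (hs.const_div_atTop |τ|).const_mul (3 * Real.sqrt w)
    have t2 : Tendsto (fun m : ℕ => 4 * (Real.sqrt K * w * |τ| ^ 3 / Real.sqrt m)) atTop (nhds 0) := by
      simpa using (hs.const_div_atTop (Real.sqrt K * w * |τ| ^ 3)).const_mul 4
    have t3 : Tendsto (fun m : ℕ => v ^ 2 * τ ^ 4 / (4 * m)) atTop (nhds 0) :=
      (hc.const_mul_atTop (by norm_num : (0 : ℝ) < 4)).const_div_atTop _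
    have t4 : Tendsto (fun m : ℕ => v * τ ^ 2 / (2 * m)) atTop (nhds 0) :=
      (hc.const_mul_atTop (by norm_num : (0 : ℝ) < 2)).const_div_atTop _
    simpa using ((t1.add t2).add t3).add t4
  obtain ⟨m1, hm1⟩ := (Metric.tendsto_atTop.1 hFt) (ε / 4) (by positivity)
  set m0 := max m1 1 with hm0
  have hm01 : 1 ≤ m0 := le_max_right _ _
  -- large level
  have hαt : Tendsto (fun l => Real.sqrt (2 * m0) * |τ| * Real.sqrt (α l) + τ ^ 2 / 2 * D l) atTop
      (nhds 0) := by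
    have t1 : Tendsto (fun l => Real.sqrt (α l)) atTop (nhds 0) := by
      have h3 := (Real.continuous_sqrt.tendsto 0).comp hα.tendsto_atTop_zero
      rw [Real.sqrt_zero] at h3
      exact h3
    have t2 := (t1.const_mul (Real.sqrt (2 * m0) * |τ|)).add (hvar.const_mul (τ ^ 2 / 2))
    simpa using t2
  obtain ⟨l1, hl1⟩ := (Metric.tendsto_atTop.1 hαt) (ε / 4) (by positivity)
  refine ⟨m0 * 2 ^ (max l0 l1), fun N hN => ?_⟩
  -- decomposition of N
  have hm0p : 0 < m0 := by omega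
  have hq : 2 ^ (max l0 l1) ≤ N / m0 := by
    rw [Nat.le_div_iff_mul_le hm0p, mul_comm]
    exact hN
  have hq0 : N / m0 ≠ 0 := by
    have : 0 < 2 ^ (max l0 l1) := by positivity
    omega
  set l := Nat.log 2 (N / m0) with hl
  have hll : max l0 l1 ≤ l := by
    rw [hl]
    exact Nat.le_log_of_pow_le (by norm_num) hq
  have hl2 : 2 ^ l ≤ N / m0 := Nat.pow_log_le_self 2 hq0
  have hl3 : N / m0 < 2 ^ (l + 1) := Nat.lt_pow_succ_log_self (by norm_num) _
  set m := N / 2 ^ l with hm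
  set r := N % 2 ^ l with hr
  have h2l : 0 < 2 ^ l := by positivity
  have hNe : N = m * 2 ^ l + r := by
    rw [hm, hr, mul_comm]
    exact (Nat.div_add_mod N (2 ^ l)).symm
  have hmge : m0 ≤ m := by
    rw [hm, Nat.le_div_iff_mul_le h2l]
    have := (Nat.le_div_iff_mul_le hm0p).1 hl2
    rw [mul_comm]
    exact this
  have hmle : m ≤ 2 * m0 := by
    have h4 : N < 2 ^ (l + 1) * m0 := (Nat.div_lt_iff_lt_mul hm0p).1 hl3
    have h5 : m < 2 * m0 := by
      rw [hm, Nat.div_lt_iff_lt_mul h2l]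
      calc N < 2 ^ (l + 1) * m0 := h4
        _ = 2 * m0 * 2 ^ l := by rw [pow_succ]; ring
    exact h5.le
  have hrl : r < 2 ^ l := Nat.mod_lt _ h2l
  have main := core_bd hchar hlb hmul hadd ν b w v hw hv hinv h2 hsq l m r (by omega) hrl (α l) (β l)
    K δ τ (hα0 l) hK hδ0.le (hb l) (hl0 l (by omega))
  rw [← hNe] at main
  rw [dist_eq_norm]
  refine lt_of_le_of_lt main ?_
  have a1 := hm1 m (by omega)
  rw [Real.dist_eq, sub_zero] at a1
  have a2 := (abs_lt.1 a1).2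
  have b1 := hl1 l (by omega)
  rw [Real.dist_eq, sub_zero] at b1
  have b2 := (abs_lt.1 b1).2
  have c1 : Real.sqrt m * |τ| * Real.sqrt (α l) ≤ Real.sqrt (2 * m0) * |τ| * Real.sqrt (α l) := by
    have : Real.sqrt m ≤ Real.sqrt (2 * m0) := by
      refine Real.sqrt_le_sqrt ?_
      exact_mod_cast hmle
    gcongr
  simp only [hF] at a2
  simp only [hD] at b2
  linarith

end Pool.Agent.Q42.UIC
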