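import Pool.Agent.Q42.UIC.Stm

/-! Project UIC, job energy_avg (helper52). -/

set_option autoImplicit false

open MeasureTheory ProbabilityTheory

namespace Pool.Agent.Q42.UIC

namespace EA

variable {S : Type} [MeasurableSpace S]

/-- bounded measurable functions -/
def BM (u : S → ℝ) : Prop := Measurable u ∧ ∃ C : ℝ, ∀ x, |u x| ≤ C

theorem BM.integrable {u : S → ℝ} (h : BM u) (μ : Measure S) [IsFiniteMeasure μ] : Integrable u μ := by
  obtain ⟨C, hC⟩ := h.2
  exact Integrable.of_bound h.1.aestronglyMeasurable C (Filter.Eventually.of_forall hC)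

/-- the operator -/
noncomputable def T (Q : Kernel S S) (h : S → ℝ) : S → ℝ := fun y => ∫ z, h z ∂(Q y)

theorem T_bm (Q : Kernel S S) [IsMarkovKernel Q] {u : S → ℝ} (h : BM u) : BM (T Q u) := by
  refine ⟨?_, ?_⟩
  · exact (h.1.stronglyMeasurable.integral_kernel (κ := Q)).measurable
  · obtain ⟨C, hC⟩ := h.2
    refine ⟨C, fun x => ?_⟩
    have := norm_integral_le_of_norm_le_const (μ := Q x) (f := u) (C := C)
      (Filter.Eventually.of_forall hC)
    simpa [T] using this

theorem Tit_bm (Q : Kernel S S) [IsMarkovKernel Q] {u : S → ℝ} (h : BM u) (n : ℕ) :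
    BM ((T Q)^[n] u) := by
  induction n with
  | zero => simpa using h
  | succ n ih =>
    rw [Function.iterate_succ_apply']
    exact T_bm Q ih

theorem BM.add {u v : S → ℝ} (hu : BM u) (hv : BM v) : BM (fun x => u x + v x) := by
  obtain ⟨C, hC⟩ := hu.2
  obtain ⟨C', hC'⟩ := hv.2
  exact ⟨hu.1.add hv.1, C + C', fun x => (abs_add_le _ _).trans (add_le_add (hC x) (hC' x))⟩

theorem BM.sum {ι : Type} (s : Finset ι) {u : ι → S → ℝ} (hu : ∀ i ∈ s, BM (u i)) :
    BM (fun x => ∑ i ∈ s, u i x) := by
  classical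
  induction s using Finset.induction_on with
  | empty => exact ⟨by simp, 0, by simp⟩
  | insert a s ha ih =>
    have : (fun x => ∑ i ∈ insert a s, u i x) = fun x => u a x + ∑ i ∈ s, u i x := by
      funext x
      rw [Finset.sum_insert ha]
    rw [this]
    exact (hu a (Finset.mem_insert_self _ _)).add (ih fun i hi => hu i (Finset.mem_insert_of_mem hi))

theorem T_add (Q : Kernel S S) [IsMarkovKernel Q] {u v : S → ℝ} (hu : BM u) (hv : BM v) :
    T Q (fun x => u x + v x) = fun x => T Q u x + T Q v x := by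
  funext y
  exact integral_add (hu.integrable _) (hv.integrable _)

theorem Tit_add (Q : Kernel S S) [IsMarkovKernel Q] {u v : S → ℝ} (hu : BM u) (hv : BM v) (n : ℕ) :
    (T Q)^[n] (fun x => u x + v x) = fun x => (T Q)^[n] u x + (T Q)^[n] v x := by
  induction n with
  | zero => rfl
  | succ n ih =>
    rw [Function.iterate_succ_apply', ih, T_add Q (Tit_bm Q hu n) (Tit_bm Q hv n)]
    funext x
    rw [Function.iterate_succ_apply', Function.iterate_succ_apply']

variable {E : Type} [MeasurableSpace E]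

/-- the end state of a block acts like the power of the operator -/
theorem end_conc [Add E] [MeasurableAdd₂ E] (Q : Kernel S S) [IsMarkovKernel Q]
    (b c : Kernel S (E × S)) [IsMarkovKernel b] [IsMarkovKernel c] (m n : ℕ)
    (hb : ∀ u : S → ℝ, BM u → ∀ y, ∫ q, u q.2 ∂(b y) = (T Q)^[m] u y)
    (hc : ∀ u : S → ℝ, BM u → ∀ y, ∫ q, u q.2 ∂(c y) = (T Q)^[n] u y)
    (u : S → ℝ) (hu : BM u) (y : S) : ∫ q, u q.2 ∂(conc b c y) = (T Q)^[m + n] u y := by
  obtain ⟨C, hC⟩ := hu.2
  rw [integral_conc b c y (fun q => u q.2) ?_]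
  · simp only [hc u hu]
    rw [hb _ (Tit_bm Q hu n), Function.iterate_add_apply]
  · exact Integrable.of_bound (hu.1.comp measurable_snd).aestronglyMeasurable C
      (Filter.Eventually.of_forall fun q => hC _)

theorem end_base (Q : Kernel S S) [IsMarkovKernel Q] (f : S → ℝ) (hf : Measurable f)
    (u : S → ℝ) (hu : BM u) (y : S) : ∫ q, u q.2 ∂(base Q f y) = (T Q)^[1] u y := by
  unfold base
  have hm : Measurable (fun p : S × S => (f p.1, p.2)) := by fun_prop
  have hu2 : Measurable (fun q : ℝ × S => u q.2) := hu.1.comp measurable_snd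
  rw [Kernel.map_apply _ hm, integral_map hm.aemeasurable
    hu2.aestronglyMeasurable, Kernel.prod_apply, Kernel.id_apply]
  have h1 : ∫ x : S × S, u x.2 ∂((Measure.dirac y).prod (Q y)) = ∫ z, u z ∂(Q y) := by
    rw [integral_prod]
    · simp
    · obtain ⟨C, hC⟩ := hu.2
      exact Integrable.of_bound (hu.1.comp measurable_snd).aestronglyMeasurable C
        (Filter.Eventually.of_forall fun q => hC _)
  exact h1

theorem end_lev [Add E] [MeasurableAdd₂ E] (Q : Kernel S S) [IsMarkovKernel Q]
    (b : Kernel S (E × S)) [IsMarkovKernel b] (m : ℕ)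
    (hb : ∀ u : S → ℝ, BM u → ∀ y, ∫ q, u q.2 ∂(b y) = (T Q)^[m] u y) (k : ℕ) :
    ∀ u : S → ℝ, BM u → ∀ y, ∫ q, u q.2 ∂(lev b k y) = (T Q)^[m * 2 ^ k] u y := by
  induction k with
  | zero => simpa [lev] using hb
  | succ k ih =>
    intro u hu y
    have : m * 2 ^ (k + 1) = m * 2 ^ k + m * 2 ^ k := by ring
    rw [this]
    exact end_conc Q _ _ _ _ ih ih u hu y

theorem enr_markov (K : ℝ) (b : Kernel S (ℝ × S)) [IsMarkovKernel b] : IsMarkovKernel (enr K b) := by
  unfold enr
  exact Kernel.IsMarkovKernel.map _ (by fun_prop)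

end EA

open EA in
theorem energy_avg : St_conc_assoc → St_lev_eq_blk → St_energy_avg := by
  intro _ _ S _ Q _ f hf k j K hK x
  haveI := base_markov Q f hf
  haveI := enr_markov K (lev (base Q f) k)
  change (∑ i ∈ Finset.range (2 ^ k), (T Q)^[i]
        (fun y => ∫ q, q.1.2 ∂(lev (enr K (lev (base Q f) k)) j y)) x)
      = ∑ i ∈ Finset.range (2 ^ (k + j)), (T Q)^[i]
        (fun y => ∫ q, min (q.1 ^ 2) K ∂(lev (base Q f) k y)) x
  set e0 : S → ℝ := fun y => ∫ q, min (q.1 ^ 2) K ∂(lev (base Q f) k y) with he0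
  -- measurability of the map
  have hm : Measurable (fun q : ℝ × S => ((q.1, min (q.1 ^ 2) K), q.2)) := by fun_prop
  have hm1 : Measurable (fun q : ℝ × S => min (q.1 ^ 2) K) := by fun_prop
  have hb1 : ∀ q : ℝ × S, |min (q.1 ^ 2) K| ≤ K := by
    intro q
    rw [abs_of_nonneg (le_min (sq_nonneg _) hK)]
    exact min_le_right _ _
  have hbm0 : BM e0 := by
    refine ⟨(hm1.stronglyMeasurable.integral_kernel (κ := lev (base Q f) k)).measurable, K, fun y => ?_⟩
    have := norm_integral_le_of_norm_le_const (μ := lev (base Q f) k y)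
      (f := fun q : ℝ × S => min (q.1 ^ 2) K) (C := K) (Filter.Eventually.of_forall hb1)
    simpa [he0] using this
  -- end marginals
  have hlev : ∀ u : S → ℝ, BM u → ∀ y, ∫ q, u q.2 ∂(lev (base Q f) k y) = (T Q)^[2 ^ k] u y := by
    intro u hu y
    have := end_lev Q (base Q f) 1 (end_base Q f hf) k u hu y
    simpa using this
  have henr : ∀ u : S → ℝ, BM u → ∀ y, ∫ q, u q.2 ∂(enr K (lev (base Q f) k) y) = (T Q)^[2 ^ k] u y := by
    intro u hu y
    unfold enr
    have hu2 : Measurable (fun q : (ℝ × ℝ) × S => u q.2) := hu.1.comp measurable_snd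
    rw [Kernel.map_apply _ hm, integral_map hm.aemeasurable
      hu2.aestronglyMeasurable]
    exact hlev u hu y
  -- main induction
  have key : ∀ j : ℕ, (∀ᵐ q ∂(0 : Measure (ℝ × S)), True) ∧
      (∀ y, ∀ᵐ q ∂(lev (enr K (lev (base Q f) k)) j y), |q.1.2| ≤ K * 2 ^ j) ∧
      (∀ y, ∫ q, q.1.2 ∂(lev (enr K (lev (base Q f) k)) j y)
        = ∑ r ∈ Finset.range (2 ^ j), (T Q)^[r * 2 ^ k] e0 y) := by
    intro j
    refine ⟨by simp, ?_⟩
    induction j with
    | zero =>
      refine ⟨?_, ?_⟩
      · intro y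
        simp only [lev]
        unfold enr
        rw [Kernel.map_apply _ hm]
        rw [ae_map_iff hm.aemeasurable (measurableSet_le (by fun_prop) (by fun_prop))]
        refine Filter.Eventually.of_forall fun q => ?_
        simpa using hb1 q
      · intro y
        simp only [lev]
        unfold enr
        rw [Kernel.map_apply _ hm, integral_map hm.aemeasurable (by
          exact (measurable_snd.comp measurable_fst).aestronglyMeasurable)]
        simp [he0]
    | succ j ih =>
      obtain ⟨ih1, ih2⟩ := ih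
      have hsum : BM (fun y => ∑ r ∈ Finset.range (2 ^ j), (T Q)^[r * 2 ^ k] e0 y) :=
        BM.sum _ fun i _ => Tit_bm Q hbm0 _
      have hmm : Measurable (fun q : (ℝ × ℝ) × S => q.1.2) := by fun_prop
      have hint : ∀ y, Integrable (fun q : (ℝ × ℝ) × S => q.1.2) (lev (enr K (lev (base Q f) k)) j y) :=
        fun y => Integrable.of_bound hmm.aestronglyMeasurable _ (ih1 y)
      have hbound : ∀ y, ∀ᵐ q ∂(lev (enr K (lev (base Q f) k)) (j + 1) y), |q.1.2| ≤ K * 2 ^ (j + 1) := by
        intro y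
        change ∀ᵐ q ∂(conc (lev (enr K (lev (base Q f) k)) j) (lev (enr K (lev (base Q f) k)) j) y), _
        have hs : MeasurableSet {q : (ℝ × ℝ) × S | ¬ |q.1.2| ≤ K * 2 ^ (j + 1)} :=
          (measurableSet_le (f := fun q : (ℝ × ℝ) × S => |q.1.2|) (g := fun _ => K * 2 ^ (j + 1))
            (by fun_prop) (by fun_prop)).compl
        rw [ae_iff, ← lintegral_indicator_one hs]
        change ∫⁻ q, {q : (ℝ × ℝ) × S | ¬ |q.1.2| ≤ K * 2 ^ (j + 1)}.indicator (fun _ => (1 : ENNReal)) q
          ∂(conc (lev (enr K (lev (base Q f) k)) j) (lev (enr K (lev (base Q f) k)) j) y) = 0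
        rw [lintegral_conc _ _ _ _ (measurable_const.indicator hs)]
        rw [← lintegral_zero (μ := lev (enr K (lev (base Q f) k)) j y)]
        refine lintegral_congr_ae ?_
        filter_upwards [ih1 y] with q hq
        rw [← lintegral_zero (μ := lev (enr K (lev (base Q f) k)) j q.2)]
        refine lintegral_congr_ae ?_
        filter_upwards [ih1 q.2] with r hr
        have : |q.1.2 + r.1.2| ≤ K * 2 ^ (j + 1) := by
          calc |q.1.2 + r.1.2| ≤ |q.1.2| + |r.1.2| := abs_add_le _ _
            _ ≤ K * 2 ^ j + K * 2 ^ j := add_le_add hq hr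
            _ = K * 2 ^ (j + 1) := by ring
        simp [this]
      refine ⟨hbound, ?_⟩
      intro y
      change ∫ q, q.1.2 ∂(conc (lev (enr K (lev (base Q f) k)) j) (lev (enr K (lev (base Q f) k)) j) y) = _
      rw [integral_conc _ _ y (fun q : (ℝ × ℝ) × S => q.1.2)
        (Integrable.of_bound hmm.aestronglyMeasurable _ (hbound y))]
      have h1 : ∀ q : (ℝ × ℝ) × S, ∫ r, (q.1 + r.1).2 ∂(lev (enr K (lev (base Q f) k)) j q.2)
          = q.1.2 + ∑ r ∈ Finset.range (2 ^ j), (T Q)^[r * 2 ^ k] e0 q.2 := by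
        intro q
        change ∫ r, (q.1.2 + r.1.2) ∂(lev (enr K (lev (base Q f) k)) j q.2) = _
        rw [integral_add (integrable_const _) (hint q.2), ih2]
        simp
      simp only [h1]
      have hbs : Integrable (fun q : (ℝ × ℝ) × S => ∑ r ∈ Finset.range (2 ^ j), (T Q)^[r * 2 ^ k] e0 q.2)
          (lev (enr K (lev (base Q f) k)) j y) := by
        obtain ⟨C, hC⟩ := hsum.2
        exact Integrable.of_bound (hsum.1.comp measurable_snd).aestronglyMeasurable C
          (Filter.Eventually.of_forall fun q => hC _)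
      rw [integral_add (hint y) hbs, ih2]
      have h2 : ∫ q, (∑ r ∈ Finset.range (2 ^ j), (T Q)^[r * 2 ^ k] e0 q.2)
          ∂(lev (enr K (lev (base Q f) k)) j y)
          = ∑ r ∈ Finset.range (2 ^ j), (T Q)^[(2 ^ j + r) * 2 ^ k] e0 y := by
        rw [integral_finsetSum]
        · refine Finset.sum_congr rfl fun r _ => ?_
          have := end_lev Q _ (2 ^ k) henr j _ (Tit_bm Q hbm0 (r * 2 ^ k)) y
          have e1 : 2 ^ k * 2 ^ j + r * 2 ^ k = (2 ^ j + r) * 2 ^ k := by ring
          rw [this, ← Function.iterate_add_apply, e1]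
        · intro r _
          obtain ⟨C, hC⟩ := (Tit_bm Q hbm0 (r * 2 ^ k)).2
          exact Integrable.of_bound ((Tit_bm Q hbm0 (r * 2 ^ k)).1.comp measurable_snd).aestronglyMeasurable C
            (Filter.Eventually.of_forall fun q => hC _)
      rw [h2, pow_succ, mul_two, Finset.sum_range_add]
  have hfin := (key j).2.2
  have hfun : (fun y => ∫ q, q.1.2 ∂(lev (enr K (lev (base Q f) k)) j y))
      = fun y => ∑ r ∈ Finset.range (2 ^ j), (T Q)^[r * 2 ^ k] e0 y := funext hfin
  rw [hfun]
  -- iterate of a sum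
  have hTs : ∀ (i N : ℕ) (y : S), (T Q)^[i] (fun y => ∑ r ∈ Finset.range N, (T Q)^[r * 2 ^ k] e0 y) y
      = ∑ r ∈ Finset.range N, (T Q)^[i + r * 2 ^ k] e0 y := by
    intro i N
    induction N with
    | zero =>
      intro y
      simp only [Finset.range_zero, Finset.sum_empty]
      have : ∀ i : ℕ, (T Q)^[i] (fun _ : S => (0 : ℝ)) = fun _ => 0 := by
        intro i
        induction i with
        | zero => rfl
        | succ i ih =>
          rw [Function.iterate_succ_apply', ih]
          funext z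
          simp [T]
      rw [this]
    | succ N ih =>
      intro y
      have h3 : (fun y => ∑ r ∈ Finset.range (N + 1), (T Q)^[r * 2 ^ k] e0 y)
          = fun y => (∑ r ∈ Finset.range N, (T Q)^[r * 2 ^ k] e0 y) + (T Q)^[N * 2 ^ k] e0 y := by
        funext y
        rw [Finset.sum_range_succ]
      rw [h3, Tit_add Q (BM.sum _ fun i _ => Tit_bm Q hbm0 _) (Tit_bm Q hbm0 _), Finset.sum_range_succ,
        ← ih y, ← Function.iterate_add_apply]
  simp only [hTs]
  -- reindex
  have hre : ∀ (M N : ℕ) (g : ℕ → ℝ), ∑ i ∈ Finset.range M, ∑ r ∈ Finset.range N, g (i + r * M)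
      = ∑ m ∈ Finset.range (M * N), g m := by
    intro M N g
    induction N with
    | zero => simp
    | succ N ih =>
      rw [Nat.mul_succ, Finset.sum_range_add, ← ih, ← Finset.sum_add_distrib]
      refine Finset.sum_congr rfl fun i _ => ?_
      rw [Finset.sum_range_succ]
      congr 2
      ring
  rw [hre (2 ^ k) (2 ^ j) (fun m => (T Q)^[m] e0 x), pow_add]

end Pool.Agent.Q42.UIC
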