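import Pool.Agent.Q42.UIC.Stm

/-! Project UIC, job extract_var (helper52). -/

set_option autoImplicit false

open MeasureTheory ProbabilityTheory

namespace Pool.Agent.Q42.UIC

theorem extract_var : St_extract_var := by
  intro S _ ν _ c _ hinv hmem n K A₁ A₂ v t r hn hE hv hA₁ hvA hA₂ ht0 ht h
  have hK : Integrable (fun p : S × ((ℝ × ℝ) × S) => p.2.1.1 ^ 2) (ν ⊗ₘ c) := hmem.integrable_sq
  have hEint : Integrable (fun p : S × ((ℝ × ℝ) × S) => p.2.1.2) (ν ⊗ₘ c) := by
    have hm0 : Measurable (fun p : S × ((ℝ × ℝ) × S) => p.2.1.2) := by fun_prop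
    refine Integrable.of_bound hm0.aestronglyMeasurable (K * n) ?_
    filter_upwards [hE] with p hp
    rw [Real.norm_eq_abs, abs_of_nonneg hp.1]
    exact hp.2
  have hF : Integrable (fun p : S × ((ℝ × ℝ) × S) => (p.2.1.1 ^ 2 - p.2.1.2) / n) (ν ⊗ₘ c) :=
    (hK.sub hEint).div_const n
  have hmeas : Measurable (fun p : S × ((ℝ × ℝ) × S) => (p.2.1.1 ^ 2 - p.2.1.2) / n) := by fun_prop
  set D : S → ℝ := fun x => ∫ q, (q.1.1 ^ 2 - q.1.2) / n ∂(c x) with hD
  have hDm : Measurable D := by
    have h1 : StronglyMeasurable (fun p : S × ((ℝ × ℝ) × S) => (p.2.1.1 ^ 2 - p.2.1.2) / n) :=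
      hmeas.stronglyMeasurable
    exact (h1.integral_kernel_prod_right' (κ := c)).measurable
  have hDi : Integrable D ν := by
    have := (Measure.integrable_compProd_iff hF.aestronglyMeasurable).1 hF
    refine (this.2).mono' hDm.aestronglyMeasurable ?_
    filter_upwards with x
    exact norm_integral_le_integral_norm _
  set G : S → ℝ := fun x => if 0 < D x then 1 - t else 1 + t with hG
  have hGm : Measurable G := by
    refine Measurable.ite (measurableSet_lt measurable_const hDm) measurable_const measurable_const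
  have hGv : ∀ x, G x = 1 - t ∨ G x = 1 + t := by
    intro x
    simp only [hG]
    split_ifs <;> simp
  have hGb : ∀ x, 1 - t ≤ G x ∧ G x ≤ 1 + t := by
    intro x
    rcases hGv x with h1 | h1 <;> rw [h1] <;> constructor <;> linarith
  have hGA : Adm (1 + t) G := ⟨hGm, 1 - t, by linarith, hGb⟩
  have hHA : Adm (1 + t) (fun _ : S => (1 : ℝ)) :=
    ⟨measurable_const, 1, one_pos, fun x => ⟨le_refl _, by linarith⟩⟩
  have h0 := h G (fun _ => 1) hGA hHA
  -- second cost
  have hu : (1 : ℝ) ≤ 1 / (1 - t) := by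
    rw [le_div_iff₀ (by linarith)]; linarith
  have hk1 : kav A₁ A₂ v (1 / (1 - t)) 1 = 0 := by
    unfold kav
    rw [max_eq_right (by linarith)]
    ring
  have hkint : ∫ x : S, kav A₁ A₂ v (1 / (1 - t)) ((fun _ : S => (1 : ℝ)) x) ∂ν = 0 := by
    change ∫ x : S, kav A₁ A₂ v (1 / (1 - t)) 1 ∂ν = 0
    rw [hk1]
    simp
  -- first cost
  have hk2 : ∀ x, kav A₁ A₂ v (1 / (1 - t)) (G x) ≤ 2 * A₁ * t ^ 2 - v * (G x - 1) := by
    intro x
    have hgx := hGb x
    have hpos : 0 < G x := by linarith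
    have h1 : 1 / G x ≤ 1 / (1 - t) := one_div_le_one_div_of_le (by linarith) hgx.1
    unfold kav
    rw [max_eq_right (by linarith)]
    have h2 : 1 / G x + G x - 2 = (G x - 1) ^ 2 / G x := by
      field_simp
      ring
    have h3 : (G x - 1) ^ 2 = t ^ 2 := by
      rcases hGv x with h1 | h1 <;> rw [h1] <;> ring
    have h4 : t ^ 2 / G x ≤ 2 * t ^ 2 := by
      rw [div_le_iff₀ hpos]
      nlinarith [sq_nonneg t]
    rw [h2, h3]
    nlinarith [mul_le_mul_of_nonneg_left h4 hA₁.le]
  have hGint : Integrable G ν := by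
    refine Integrable.of_bound hGm.aestronglyMeasurable (1 + t) ?_
    filter_upwards with x
    rw [Real.norm_eq_abs, abs_of_nonneg (by linarith [(hGb x).1])]
    exact (hGb x).2
  have hkm : Measurable (fun x => kav A₁ A₂ v (1 / (1 - t)) (G x)) := by
    unfold kav
    fun_prop
  have hkb : ∀ x, |kav A₁ A₂ v (1 / (1 - t)) (G x)| ≤ max |kav A₁ A₂ v (1 / (1 - t)) (1 - t)|
      |kav A₁ A₂ v (1 / (1 - t)) (1 + t)| := by
    intro x
    rcases hGv x with h1 | h1 <;> rw [h1]
    · exact le_max_left _ _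
    · exact le_max_right _ _
  have hki : Integrable (fun x => kav A₁ A₂ v (1 / (1 - t)) (G x)) ν :=
    Integrable.of_bound hkm.aestronglyMeasurable _ (Filter.Eventually.of_forall hkb)
  have hk3 : ∫ x, kav A₁ A₂ v (1 / (1 - t)) (G x) ∂ν ≤ 2 * A₁ * t ^ 2 - v * (∫ x, G x ∂ν - 1) := by
    calc ∫ x, kav A₁ A₂ v (1 / (1 - t)) (G x) ∂ν ≤ ∫ x, (2 * A₁ * t ^ 2 - v * (G x - 1)) ∂ν :=
          integral_mono hki ((integrable_const _).sub
            ((hGint.sub (integrable_const _)).const_mul v)) hk2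
      _ = 2 * A₁ * t ^ 2 - v * (∫ x, G x ∂ν - 1) := by
          have e1 : Integrable (fun x => G x - 1) ν := hGint.sub (integrable_const _)
          have e2 : ∫ x, (G x - 1) ∂ν = ∫ x, G x ∂ν - 1 := by
            rw [integral_sub hGint (integrable_const _)]
            simp
          rw [integral_sub (integrable_const _) (e1.const_mul v), integral_const_mul v, e2]
          simp
  -- main term
  have hcv : Integrable (fun _ : S × ((ℝ × ℝ) × S) => v) (ν ⊗ₘ c) := integrable_const v
  have hm1 : Integrable (fun p : S × ((ℝ × ℝ) × S) =>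
      ((p.2.1.1 ^ 2 - p.2.1.2) / n + v) * G p.1 * 1) (ν ⊗ₘ c) := by
    have h1 := (hF.add hcv).mul_bdd (c := 1 + t) (g := fun p : S × ((ℝ × ℝ) × S) => G p.1)
      (hGm.comp measurable_fst).aestronglyMeasurable
      (by
        filter_upwards with p
        rw [Real.norm_eq_abs, abs_of_nonneg (by linarith [(hGb p.1).1])]
        exact (hGb p.1).2)
    refine h1.congr ?_
    filter_upwards with p
    simp
  have hm2 : ∫ p, ((p.2.1.1 ^ 2 - p.2.1.2) / n + v) * G p.1 * (fun _ : S => (1 : ℝ)) p.2.2 ∂(ν ⊗ₘ c)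
      = ∫ x, (D x + v) * G x ∂ν := by
    rw [Measure.integral_compProd hm1]
    refine integral_congr_ae ?_
    have h1 := (Measure.integrable_compProd_iff hF.aestronglyMeasurable).1 hF
    filter_upwards [h1.1] with x hx
    simp only [mul_one]
    rw [integral_mul_const, integral_add hx (integrable_const v)]
    simp [hD]
  have hDG : Integrable (fun x => D x * G x) ν := by
    refine hDi.mul_bdd (c := 1 + t) hGm.aestronglyMeasurable ?_
    filter_upwards with x
    rw [Real.norm_eq_abs, abs_of_nonneg (by linarith [(hGb x).1])]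
    exact (hGb x).2
  have hm3 : ∫ x, (D x + v) * G x ∂ν = ∫ x, D x ∂ν - t * ∫ x, |D x| ∂ν + v * ∫ x, G x ∂ν := by
    have h1 : ∀ x, (D x + v) * G x = D x - t * |D x| + v * G x := by
      intro x
      have : D x * G x = D x - t * |D x| := by
        simp only [hG]
        split_ifs with h2
        · rw [abs_of_pos h2]; ring
        · rw [abs_of_nonpos (not_lt.1 h2)]; ring
      rw [add_mul, this]
    simp only [h1]
    have e1 : Integrable (fun x => t * |D x|) ν := hDi.abs.const_mul t
    have e2 : Integrable (fun x => D x - t * |D x|) ν := hDi.sub e1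
    rw [integral_add e2 (hGint.const_mul v),
      integral_sub hDi e1, integral_const_mul, integral_const_mul]
  have hsum : ∫ p, p.2.1.1 ^ 2 / n ∂(ν ⊗ₘ c) = ∫ x, D x ∂ν + v := by
    have h1 : ∫ p, (p.2.1.1 ^ 2 - p.2.1.2) / n ∂(ν ⊗ₘ c) = ∫ x, D x ∂ν := Measure.integral_compProd hF
    rw [← h1, hv, ← integral_add hF (hEint.div_const n)]
    refine integral_congr_ae ?_
    filter_upwards with p
    field_simp
    ring
  rw [hm2, hm3] at h0
  rw [hkint] at h0
  rw [hsum]
  change t * ∫ x, |D x| ∂ν ≤ _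
  nlinarith [h0, hk3]

end Pool.Agent.Q42.UIC
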