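import Pool.Agent.Q42.UIC.Stm
import Pool.Agent.Q184.UIC.Op

/-! Project UIC: the forward drift (helper184). -/

set_option autoImplicit false

open MeasureTheory ProbabilityTheory

namespace Pool.Agent.Q42.UIC

open Pool.Agent.Q184.UIC

theorem fwd_drift : St_fwd_drift := by
  intro S _ ν _ Q _ hν f hf hf2 n
  have h1 : ∫ x, (∫ q, q.1 ∂(blk (base Q f) n x)) ^ 2 ∂ν =
      ∫ x, (∑ k ∈ Finset.range n, (TT Q)^[k] f x) ^ 2 ∂ν := by
    refine integral_congr_ae ?_
    filter_upwards [drift_iter hν hf hf2 n] with x hx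
    rw [hx]
  rw [h1]
  exact mink (fun i => TT_iter_sq hν i hf hf2)

/-- Square integrability of the block sums. -/
theorem mem_blk_184 : St_mem_blk := by
  intro S _ ν _ Q _ hν f hf hf2 n
  have := base_markov Q f hf
  exact ⟨mem_blk2 hν hf hf2 n, endInv_blk ν (base Q f) (endInv_base ν Q f hf hν) n⟩

end Pool.Agent.Q42.UIC
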