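import Pool.Agent.Q42.UIC.Stm

/-! Project UIC: the Hardy type inequality (helper184). -/

set_option autoImplicit false

open MeasureTheory ProbabilityTheory

namespace Pool.Agent.Q42.UIC

theorem hardy : St_hardy := by
  intro S _ p hp h
  set A : ℕ → ℝ := fun l => ∑ k ∈ Finset.range (2 ^ l), p k with hA
  set y : ℕ → ℝ := fun l => (A l) ^ 2 / 2 ^ l with hy
  set P : ℕ → ℝ := fun l => ∑ k ∈ Finset.range (2 ^ l), p k ^ 2 with hP
  have hy0 : ∀ l, 0 ≤ y l := fun l => by rw [hy]; positivity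
  have hPT : ∀ l, P l ≤ ∑' k, p k ^ 2 := fun l => h.sum_le_tsum _ (fun k _ => sq_nonneg _)
  -- the recursion
  have hrec : ∀ l, y (l + 1) ≤ 3 / 4 * y l + 3 / 2 * (P (l + 1) - P l) := by
    intro l
    have h2 : 2 ^ (l + 1) = 2 ^ l + 2 ^ l := by rw [pow_succ]; ring
    have hB : A (l + 1) = A l + ∑ k ∈ Finset.range (2 ^ l), p (2 ^ l + k) := by
      simp only [hA]
      rw [h2, Finset.sum_range_add]
    have hQ : P (l + 1) - P l = ∑ k ∈ Finset.range (2 ^ l), p (2 ^ l + k) ^ 2 := by
      simp only [hP]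
      rw [h2, Finset.sum_range_add]
      ring
    set B := ∑ k ∈ Finset.range (2 ^ l), p (2 ^ l + k) with hBdef
    have hcs : B ^ 2 ≤ 2 ^ l * (P (l + 1) - P l) := by
      have := sq_sum_le_card_mul_sum_sq (s := Finset.range (2 ^ l)) (f := fun k => p (2 ^ l + k))
      rw [hQ]
      simpa using this
    have hp2 : (0 : ℝ) < 2 ^ l := by positivity
    have h3 : (A l + B) ^ 2 ≤ 3 / 2 * A l ^ 2 + 3 * B ^ 2 := by nlinarith [sq_nonneg (A l - 2 * B)]
    simp only [hy]
    rw [hB, pow_succ (2 : ℝ) l, div_le_iff₀ (by positivity)]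
    have h4 : (3 / 4 * (A l ^ 2 / 2 ^ l) + 3 / 2 * (P (l + 1) - P l)) * (2 ^ l * 2) =
        3 / 2 * A l ^ 2 + 3 * (2 ^ l * (P (l + 1) - P l)) := by
      field_simp
      ring
    rw [h4]
    linarith
  have hP0 : ∀ l, 0 ≤ P l := fun l => Finset.sum_nonneg (fun k _ => sq_nonneg _)
  set T := ∑' k, p k ^ 2 with hT
  have hbd : ∀ L, ∑ l ∈ Finset.range L, y l ≤ 4 * (y 0 + 3 / 2 * T) := by
    have hT0 : 0 ≤ T := tsum_nonneg (fun k => sq_nonneg _)
    intro L
    induction L with
    | zero =>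
      simp only [Finset.range_zero, Finset.sum_empty]
      have := hy0 0
      positivity
    | succ L ih =>
      have h1 : ∑ l ∈ Finset.range L, y (l + 1) ≤
          3 / 4 * ∑ l ∈ Finset.range L, y l + 3 / 2 * (P L - P 0) := by
        have h2 := Finset.sum_le_sum (s := Finset.range L) (fun l _ => hrec l)
        rw [Finset.sum_add_distrib, ← Finset.mul_sum, ← Finset.mul_sum, Finset.sum_range_sub] at h2
        exact h2
      rw [Finset.sum_range_succ']
      have h5 := hPT L
      have h6 := hP0 0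
      have h7 := hy0 0
      linarith
  exact summable_of_sum_range_le hy0 hbd

end Pool.Agent.Q42.UIC
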