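import Pool.Agent.Q42.UIC.Stm

/-! Project UIC, job init_ui (helper98). -/

set_option autoImplicit false

open MeasureTheory ProbabilityTheory

namespace Pool.Agent.Q42.UIC

namespace InitUi

variable {S : Type} [MeasurableSpace S] {E : Type} [MeasurableSpace E]

theorem int_fst (ν : Measure S) [IsProbabilityMeasure ν] (b : Kernel S (E × S)) [IsMarkovKernel b]
    (f : S → ℝ) (hf : Measurable f) : ∫ x, f x ∂ν = ∫ p, f p.1 ∂(ν ⊗ₘ b) := by
  have h1 : (ν ⊗ₘ b).map Prod.fst = ν := Measure.fst_compProd ν b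
  conv_lhs => rw [← h1]
  exact integral_map measurable_fst.aemeasurable hf.aestronglyMeasurable

theorem int_end (ν : Measure S) [IsProbabilityMeasure ν] (b : Kernel S (E × S)) [IsMarkovKernel b]
    (hb : EndInv ν b) (f : S → ℝ) (hf : Measurable f) :
    ∫ x, f x ∂ν = ∫ p, f p.2.2 ∂(ν ⊗ₘ b) := by
  have h1 : (ν ⊗ₘ b).map (fun p : S × (E × S) => p.2.2) = ν := hb
  conv_lhs => rw [← h1]
  exact integral_map (by fun_prop) hf.aestronglyMeasurable

theorem Phi_nonneg (θ s : ℝ) : 0 ≤ Phi θ s := by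
  unfold Phi
  have := Real.cos_le_one (θ * s)
  exact div_nonneg (by linarith) (sq_nonneg _)

theorem Phi_le (θ s : ℝ) : Phi θ s ≤ 4 / θ ^ 2 := by
  unfold Phi
  have := Real.neg_one_le_cos (θ * s)
  exact div_le_div_of_nonneg_right (by linarith) (sq_nonneg _)

theorem measurable_Phi (θ : ℝ) : Measurable (Phi θ) := by
  unfold Phi
  fun_prop

theorem kap_bound (A c g : ℝ) (hA : 0 < A) (hc : 0 < c) (hg : c ≤ g) (hg1 : g ≤ 1) :
    |kap A g| ≤ A * (2 / c + 4) := by
  have h0 : 0 < g := hc.trans_le hg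
  have h1 : 2 / g ≤ 2 / c := div_le_div_of_nonneg_left (by norm_num) hc hg
  have h2 : 0 < 2 / g := by positivity
  unfold kap
  rw [abs_mul, abs_of_pos hA]
  refine mul_le_mul_of_nonneg_left ?_ hA.le
  rw [abs_le]
  constructor <;> linarith

theorem measurable_kap (A : ℝ) : Measurable (kap A) := by
  unfold kap
  fun_prop

theorem pointwise (Y A g h : ℝ) (hY : 0 ≤ Y) (hA : 0 < A) (hg : 0 < g) (hg1 : g ≤ 1) (hh : 0 < h)
    (hh1 : h ≤ 1) : min Y A ≤ Y * g * h + kap A g + kap A h := by
  have h1 : ∀ x : ℝ, 0 < x → A * (1 - x) ≤ kap A x := by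
    intro x hx
    unfold kap
    refine mul_le_mul_of_nonneg_left ?_ hA.le
    have h2 : 2 / x + x - 3 - (1 - x) = 2 * (1 - x) ^ 2 / x := by
      field_simp
      ring
    have h3 : 0 ≤ 2 * (1 - x) ^ 2 / x := by positivity
    linarith
  have h2 := h1 g hg
  have h3 := h1 h hh
  set m := min Y A with hm
  have hm0 : 0 ≤ m := le_min hY hA.le
  have h4 : m * (g * h) ≤ Y * (g * h) :=
    mul_le_mul_of_nonneg_right (min_le_left _ _) (by positivity)
  have h5 : m * (1 - g) ≤ A * (1 - g) :=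
    mul_le_mul_of_nonneg_right (min_le_right _ _) (by linarith)
  have h6 : m * (1 - h) ≤ A * (1 - h) :=
    mul_le_mul_of_nonneg_right (min_le_right _ _) (by linarith)
  have h7 : 0 ≤ m * ((1 - g) * (1 - h)) :=
    mul_nonneg hm0 (mul_nonneg (by linarith) (by linarith))
  linarith [(by ring : m * ((1 - g) * (1 - h)) =
    m * (g * h) + m * (1 - g) + m * (1 - h) - m), (by ring : Y * (g * h) = Y * g * h)]

end InitUi

open InitUi in
theorem init_ui : St_init_ui := by
  intro S _ ν _ b _ hinv _ n θ A hn hθ hA G H hG hH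
  obtain ⟨hGm, c, hc, hGc⟩ := hG
  obtain ⟨hHm, c', hc', hHc⟩ := hH
  have hm1 : Measurable (fun x => kap A (G x)) := (measurable_kap A).comp hGm
  have hm2 : Measurable (fun x => kap A (H x)) := (measurable_kap A).comp hHm
  rw [int_fst ν b _ hm1, int_end ν b hinv _ hm2]
  set μ := ν ⊗ₘ b with hμ
  have hPm : Measurable (fun p : S × (ℝ × S) => Phi θ p.2.1 / n) :=
    ((measurable_Phi θ).comp (by fun_prop)).div_const n
  have hP0 : ∀ p : S × (ℝ × S), 0 ≤ Phi θ p.2.1 / n := fun p => div_nonneg (Phi_nonneg _ _) hn.le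
  have hP1 : ∀ p : S × (ℝ × S), Phi θ p.2.1 / n ≤ 4 / θ ^ 2 / n := fun p =>
    div_le_div_of_nonneg_right (Phi_le _ _) hn.le
  have i1 : Integrable (fun p : S × (ℝ × S) => Phi θ p.2.1 / n * G p.1 * H p.2.2) μ := by
    refine Integrable.of_bound (C := 4 / θ ^ 2 / n) ?_ (Filter.Eventually.of_forall fun p => ?_)
    · exact ((hPm.mul (hGm.comp measurable_fst)).mul (hHm.comp (by fun_prop))).aestronglyMeasurable
    · have h1 := hP0 p
      have h2 := hP1 p
      have h3 := hGc p.1
      have h4 := hHc p.2.2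
      have h5 : 0 ≤ G p.1 := by linarith
      have h6 : 0 ≤ H p.2.2 := by linarith
      rw [Real.norm_eq_abs, abs_of_nonneg (by positivity)]
      calc Phi θ p.2.1 / n * G p.1 * H p.2.2 ≤ Phi θ p.2.1 / n * 1 * 1 :=
            mul_le_mul (mul_le_mul_of_nonneg_left h3.2 h1) h4.2 h6 (by positivity)
        _ ≤ _ := by rw [mul_one, mul_one]; exact h2
  have i2 : Integrable (fun p : S × (ℝ × S) => kap A (G p.1)) μ := by
    refine Integrable.of_bound (C := A * (2 / c + 4)) ?_ (Filter.Eventually.of_forall fun p => ?_)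
    · exact (hm1.comp measurable_fst).aestronglyMeasurable
    · exact kap_bound A c _ hA hc (hGc _).1 (hGc _).2
  have i3 : Integrable (fun p : S × (ℝ × S) => kap A (H p.2.2)) μ := by
    refine Integrable.of_bound (C := A * (2 / c' + 4)) ?_ (Filter.Eventually.of_forall fun p => ?_)
    · exact (hm2.comp (by fun_prop)).aestronglyMeasurable
    · exact kap_bound A c' _ hA hc' (hHc _).1 (hHc _).2
  have i0 : Integrable (fun p : S × (ℝ × S) => min (Phi θ p.2.1 / n) A) μ := by
    refine Integrable.of_bound (C := A) ?_ (Filter.Eventually.of_forall fun p => ?_)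
    · exact (hPm.min measurable_const).aestronglyMeasurable
    · rw [Real.norm_eq_abs, abs_of_nonneg (le_min (hP0 p) hA.le)]
      exact min_le_right _ _
  have i12 : Integrable (fun p : S × (ℝ × S) => Phi θ p.2.1 / n * G p.1 * H p.2.2 +
      kap A (G p.1)) μ := i1.add i2
  rw [← integral_add i1 i2, ← integral_add i12 i3]
  refine integral_mono i0 (i12.add i3) fun p => ?_
  exact pointwise _ A _ _ (hP0 p) hA (hc.trans_le (hGc _).1) (hGc _).2
    (hc'.trans_le (hHc _).1) (hHc _).2

end Pool.Agent.Q42.UIC
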