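import Pool.Agent.Q42.UIC.Stm

/-! Project UIC, job init_var (helper98). -/

set_option autoImplicit false

open MeasureTheory ProbabilityTheory

namespace Pool.Agent.Q42.UIC

namespace InitVar

variable {S : Type} [MeasurableSpace S] {E : Type} [MeasurableSpace E]

theorem int_fst (ν : Measure S) [IsProbabilityMeasure ν] (b : Kernel S (E × S)) [IsMarkovKernel b]
    (f : S → ℝ) (hf : Measurable f) : ∫ x, f x ∂ν = ∫ p, f p.1 ∂(ν ⊗ₘ b) := by
  have h1 : (ν ⊗ₘ b).map Prod.fst = ν := Measure.fst_compProd ν b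
  conv_lhs => rw [← h1]
  exact integral_map measurable_fst.aemeasurable hf.aestronglyMeasurable

theorem int_end (ν : Measure S) [IsProbabilityMeasure ν] (b : Kernel S (E × S)) [IsMarkovKernel b]
    (hb : EndInv ν b) (f : S → ℝ) (hf : Measurable f) :
    ∫ x, f x ∂ν = ∫ p, f p.2.2 ∂(ν ⊗ₘ b) := by
  have h1 : (ν ⊗ₘ b).map (fun p : S × (E × S) => p.2.2) = ν := hb
  conv_lhs => rw [← h1]
  exact integral_map (by fun_prop) hf.aestronglyMeasurable

theorem measurable_kav (A₁ A₂ v u : ℝ) : Measurable (kav A₁ A₂ v u) := by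
  unfold kav
  fun_prop

theorem kav_bound (A₁ A₂ v u c M g : ℝ) (hA₁ : 0 < A₁) (hA₂ : 0 ≤ A₂) (hv : 0 ≤ v) (hu : 0 ≤ u)
    (hc : 0 < c) (hg : c ≤ g) (hg1 : g ≤ M) :
    |kav A₁ A₂ v u g| ≤ A₁ * (1 / c + M + 2) + v * (M + 1) + A₂ * (1 / c) := by
  have h0 : 0 < g := hc.trans_le hg
  have h1 : 1 / g ≤ 1 / c := div_le_div_of_nonneg_left (by norm_num) hc hg
  have h2 : 0 < 1 / g := by positivity
  unfold kav
  have h3 : |A₁ * (1 / g + g - 2)| ≤ A₁ * (1 / c + M + 2) := by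
    rw [abs_mul, abs_of_pos hA₁]
    refine mul_le_mul_of_nonneg_left ?_ hA₁.le
    rw [abs_le]
    constructor <;> linarith
  have h4 : |v * (g - 1)| ≤ v * (M + 1) := by
    rw [abs_mul, abs_of_nonneg hv]
    refine mul_le_mul_of_nonneg_left ?_ hv
    rw [abs_le]
    constructor <;> linarith
  have h5 : |A₂ * max (1 / g - u) 0| ≤ A₂ * (1 / c) := by
    rw [abs_mul, abs_of_nonneg hA₂, abs_of_nonneg (le_max_right _ _)]
    refine mul_le_mul_of_nonneg_left ?_ hA₂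
    exact max_le (by linarith) (by linarith)
  calc |A₁ * (1 / g + g - 2) - v * (g - 1) + A₂ * max (1 / g - u) 0|
      ≤ |A₁ * (1 / g + g - 2) - v * (g - 1)| + |A₂ * max (1 / g - u) 0| := abs_add_le _ _
    _ ≤ (|A₁ * (1 / g + g - 2)| + |v * (g - 1)|) + |A₂ * max (1 / g - u) 0| :=
        add_le_add (abs_sub _ _) le_rfl
    _ ≤ _ := by linarith

/-- small weights can be raised to `1 - t` -/
theorem raise (A₁ A₂ v t C x : ℝ) (hA₁ : 0 < A₁) (hA₂ : 0 ≤ A₂) (hv : 0 ≤ v) (ht0 : 0 ≤ t)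
    (ht : t ≤ 1 / 4) (hC : C ≤ A₂) (hx : 0 < x) (hx1 : x ≤ 1 + t) :
    ∃ x', 1 - t ≤ x' ∧ x' ≤ 1 + t ∧ C * x' + (A₁ * (1 / x' + x' - 2) - v * (x' - 1)) ≤
      C * x + kav A₁ A₂ v (1 / (1 - t)) x := by
  unfold kav
  by_cases hc : 1 - t ≤ x
  · refine ⟨x, hc, hx1, ?_⟩
    have h1 : 0 ≤ A₂ * max (1 / x - 1 / (1 - t)) 0 := mul_nonneg hA₂ (le_max_right _ _)
    linarith
  · rw [not_le] at hc
    have h1t : 0 < 1 - t := by linarith
    refine ⟨1 - t, le_rfl, by linarith, ?_⟩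
    have h1 : 1 - t - x ≤ 1 / x - 1 / (1 - t) := by
      have e1 : 1 / x - 1 / (1 - t) = (1 - t - x) / (x * (1 - t)) := by
        field_simp
      rw [e1, le_div_iff₀ (by positivity)]
      have e2 : x * (1 - t) ≤ 1 := by nlinarith
      have e3 := mul_le_mul_of_nonneg_left e2 (by linarith : 0 ≤ 1 - t - x)
      linarith
    have h2 : C * (1 - t - x) ≤ A₂ * (1 / x - 1 / (1 - t)) := by
      calc C * (1 - t - x) ≤ A₂ * (1 - t - x) := mul_le_mul_of_nonneg_right hC (by linarith)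
        _ ≤ _ := mul_le_mul_of_nonneg_left h1 hA₂
    have h3 : A₂ * (1 / x - 1 / (1 - t)) ≤ A₂ * max (1 / x - 1 / (1 - t)) 0 :=
      mul_le_mul_of_nonneg_left (le_max_left _ _) hA₂
    have h4 : A₁ * (1 / (1 - t) + (1 - t) - 2) ≤ A₁ * (1 / x + x - 2) :=
      mul_le_mul_of_nonneg_left (by linarith) hA₁.le
    have h5 : 0 ≤ v * (1 - t - x) := mul_nonneg hv (by linarith)
    linarith

theorem pointwise (A₁ A₂ v K t y g h : ℝ) (hA₁ : 0 < A₁) (hv : 0 ≤ v) (hK : 0 ≤ K)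
    (h8 : 8 * (K + v) ≤ A₁) (hA₂ : 4 * v ≤ A₂) (ht0 : 0 ≤ t) (ht : t ≤ 1 / 4) (hy : 0 ≤ y)
    (hg : 0 < g) (hg1 : g ≤ 1 + t) (hh : 0 < h) (hh1 : h ≤ 1 + t) :
    v + (1 - 2 * t) * min y (A₂ / 2) ≤ (y + v) * g * h + kav A₁ A₂ v (1 / (1 - t)) g +
      kav A₁ A₂ v (1 / (1 - t)) h := by
  have hA₂0 : 0 ≤ A₂ := by linarith
  set m := min y (A₂ / 2) with hm
  have hm0 : 0 ≤ m := le_min hy (by linarith)
  have hm1 : m ≤ A₂ / 2 := min_le_right _ _
  have hmy : m ≤ y := min_le_left _ _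
  have hC : ∀ z : ℝ, 0 < z → z ≤ 1 + t → (m + v) * z ≤ A₂ := by
    intro z hz hz1
    calc (m + v) * z ≤ (A₂ * (3 / 4)) * (5 / 4) :=
          mul_le_mul (by linarith) (by linarith) hz.le (by positivity)
      _ ≤ A₂ := by linarith
  obtain ⟨g', hg'1, hg'2, hg'3⟩ := raise A₁ A₂ v t ((m + v) * h) g hA₁ hA₂0 hv ht0 ht (hC h hh hh1)
    hg hg1
  have hg' : 0 < g' := by linarith
  obtain ⟨h', hh'1, hh'2, hh'3⟩ := raise A₁ A₂ v t ((m + v) * g') h hA₁ hA₂0 hv ht0 ht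
    (hC g' hg' hg'2) hh hh1
  have hh' : 0 < h' := by linarith
  have h1 : (m + v) * (g * h) ≤ (y + v) * (g * h) :=
    mul_le_mul_of_nonneg_right (by linarith) (by positivity)
  -- the case of weights in `[1 - t, 1 + t]`
  have h2 : ∀ z : ℝ, 0 < z → z ≤ 1 + t → A₁ / 2 * (z - 1) ^ 2 ≤ A₁ * (1 / z + z - 2) := by
    intro z hz hz1
    have e1 : A₁ * (1 / z + z - 2) = A₁ * ((z - 1) ^ 2 / z) := by
      field_simp
      ring
    rw [e1]
    have e2 : (z - 1) ^ 2 / 2 ≤ (z - 1) ^ 2 / z :=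
      div_le_div_of_nonneg_left (sq_nonneg _) hz (by linarith)
    have e3 := mul_le_mul_of_nonneg_left e2 hA₁.le
    linarith
  have h3 := h2 g' hg' hg'2
  have h4 := h2 h' hh' hh'2
  have h5 : 1 - 2 * t ≤ g' * h' := by
    have e1 := mul_le_mul hg'1 hh'1 (by linarith) hg'.le
    nlinarith [sq_nonneg t]
  have h6 : (1 - 2 * t) * m ≤ g' * h' * m := mul_le_mul_of_nonneg_right h5 hm0
  have h7 : v * (-((g' - 1) ^ 2 + (h' - 1) ^ 2) / 2) ≤ v * ((g' - 1) * (h' - 1)) := by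
    refine mul_le_mul_of_nonneg_left ?_ hv
    nlinarith [sq_nonneg (g' - 1 + (h' - 1))]
  have h8' : 8 * (v * ((g' - 1) ^ 2 + (h' - 1) ^ 2)) ≤ A₁ * ((g' - 1) ^ 2 + (h' - 1) ^ 2) := by
    have e1 : 8 * v ≤ A₁ := by linarith
    have e2 := mul_le_mul_of_nonneg_right e1 (by positivity :
      0 ≤ (g' - 1) ^ 2 + (h' - 1) ^ 2)
    linarith
  have h9 : 0 ≤ A₁ * ((g' - 1) ^ 2 + (h' - 1) ^ 2) := by positivity
  have h10 : 0 ≤ v * ((g' - 1) ^ 2 + (h' - 1) ^ 2) := by positivity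
  have h11 : v * ((g' - 1) * (h' - 1)) = v * (g' * h') - v * (g' - 1) - v * (h' - 1) - v := by ring
  have h12 : (m + v) * h * g' = (m + v) * g' * h := by ring
  have h13 : (m + v) * h * g = (m + v) * (g * h) := by ring
  have h14 : (m + v) * g' * h' = g' * h' * m + v * (g' * h') := by ring
  have h15 : (y + v) * g * h = (y + v) * (g * h) := by ring
  rw [h15]
  rw [h12, h13] at hg'3
  rw [h14] at hh'3
  linarith

end InitVar

open InitVar in
theorem init_var : St_init_var := by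
  intro S _ ν _ b _ hinv hmem n K A₁ A₂ v t hn hK hv hA₁ h8 hA₂ ht0 ht G H hG hH
  obtain ⟨hGm, c, hc, hGc⟩ := hG
  obtain ⟨hHm, c', hc', hHc⟩ := hH
  have hv0 : 0 ≤ v := by
    rw [hv]
    refine integral_nonneg fun p => ?_
    exact div_nonneg (le_min (sq_nonneg _) (by positivity)) hn.le
  have hA₂0 : 0 ≤ A₂ := by linarith
  have hu0 : 0 ≤ 1 / (1 - t) := div_nonneg zero_le_one (by linarith)
  have hm1 : Measurable (fun x => kav A₁ A₂ v (1 / (1 - t)) (G x)) := (measurable_kav _ _ _ _).comp hGm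
  have hm2 : Measurable (fun x => kav A₁ A₂ v (1 / (1 - t)) (H x)) := (measurable_kav _ _ _ _).comp hHm
  have hφ : Measurable (fun q : ℝ × S => ((q.1, min (q.1 ^ 2) (K * n)), q.2)) := by fun_prop
  -- the push forward
  have hpush : ∫ p, ((p.2.1.1 ^ 2 - p.2.1.2) / n + v) * G p.1 * H p.2.2 ∂(ν ⊗ₘ enr (K * n) b) =
      ∫ p, (max (p.2.1 ^ 2 / n - K) 0 + v) * G p.1 * H p.2.2 ∂(ν ⊗ₘ b) := by
    unfold enr
    rw [Measure.compProd_map hφ, integral_map (by fun_prop)]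
    · refine integral_congr_ae (Filter.Eventually.of_forall fun p => ?_)
      have h1 : (p.2.1 ^ 2 - min (p.2.1 ^ 2) (K * n)) / n = max (p.2.1 ^ 2 / n - K) 0 := by
        rcases le_total (p.2.1 ^ 2) (K * n) with h | h
        · rw [min_eq_left h, max_eq_right]
          · simp
          · rw [sub_nonpos, div_le_iff₀ hn]
            exact h
        · rw [min_eq_right h, max_eq_left]
          · field_simp
          · rw [sub_nonneg, le_div_iff₀ hn]
            exact h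
      show ((p.2.1 ^ 2 - min (p.2.1 ^ 2) (K * n)) / n + v) * G p.1 * H p.2.2 = _
      rw [h1]
    · have h1 : Measurable (fun p : S × ((ℝ × ℝ) × S) =>
          ((p.2.1.1 ^ 2 - p.2.1.2) / n + v) * G p.1 * H p.2.2) := by
        have e1 : Measurable (fun p : S × ((ℝ × ℝ) × S) => (p.2.1.1 ^ 2 - p.2.1.2) / n + v) := by
          fun_prop
        exact (e1.mul (hGm.comp measurable_fst)).mul (hHm.comp (by fun_prop))
      exact h1.aestronglyMeasurable
  rw [hpush, int_fst ν b _ hm1, int_end ν b hinv _ hm2]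
  set μ := ν ⊗ₘ b with hμ
  have hYm : Measurable (fun p : S × (ℝ × S) => max (p.2.1 ^ 2 / n - K) 0) := by fun_prop
  have hY0 : ∀ p : S × (ℝ × S), 0 ≤ max (p.2.1 ^ 2 / n - K) 0 := fun p => le_max_right _ _
  have hY1 : ∀ p : S × (ℝ × S), max (p.2.1 ^ 2 / n - K) 0 ≤ p.2.1 ^ 2 / n := fun p =>
    max_le (by linarith) (by positivity)
  have isq : Integrable (fun p : S × (ℝ × S) => p.2.1 ^ 2) μ := hmem.integrable_sq
  have i1 : Integrable (fun p : S × (ℝ × S) => (max (p.2.1 ^ 2 / n - K) 0 + v) * G p.1 * H p.2.2) μ := by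
    have j1 : Integrable (fun p : S × (ℝ × S) => (p.2.1 ^ 2 / n + v) * (1 + t) * (1 + t)) μ :=
      ((((isq.div_const n).add (integrable_const v)).mul_const (1 + t)).mul_const (1 + t))
    refine j1.mono ?_ (Filter.Eventually.of_forall fun p => ?_)
    · exact (((hYm.add_const v).mul (hGm.comp measurable_fst)).mul
        (hHm.comp (by fun_prop))).aestronglyMeasurable
    · have h1 := hY0 p
      have h2 := hY1 p
      have h3 := hGc p.1
      have h4 := hHc p.2.2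
      have h5 : 0 ≤ G p.1 := by linarith
      have h6 : 0 ≤ H p.2.2 := by linarith
      have h7 : 0 ≤ p.2.1 ^ 2 / n := by positivity
      have h8 : 0 ≤ 1 + t := by linarith
      rw [Real.norm_eq_abs, Real.norm_eq_abs, abs_of_nonneg (by positivity),
        abs_of_nonneg (by positivity)]
      exact mul_le_mul (mul_le_mul (by linarith) h3.2 h5 (by positivity)) h4.2 h6 (by positivity)
  have i2 : Integrable (fun p : S × (ℝ × S) => kav A₁ A₂ v (1 / (1 - t)) (G p.1)) μ :=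
    Integrable.of_bound (hm1.comp measurable_fst).aestronglyMeasurable _
      (Filter.Eventually.of_forall fun p =>
        kav_bound A₁ A₂ v _ c (1 + t) _ hA₁ hA₂0 hv0 hu0 hc (hGc _).1 (hGc _).2)
  have i3 : Integrable (fun p : S × (ℝ × S) => kav A₁ A₂ v (1 / (1 - t)) (H p.2.2)) μ := by
    refine Integrable.of_bound (C := _) ?_ (Filter.Eventually.of_forall fun p =>
        kav_bound A₁ A₂ v _ c' (1 + t) _ hA₁ hA₂0 hv0 hu0 hc' (hHc _).1 (hHc _).2)
    exact (hm2.comp (by fun_prop)).aestronglyMeasurable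
  have i0 : Integrable (fun p : S × (ℝ × S) => min (max (p.2.1 ^ 2 / n - K) 0) (A₂ / 2)) μ := by
    refine Integrable.of_bound (C := A₂ / 2) ?_ (Filter.Eventually.of_forall fun p => ?_)
    · exact (hYm.min measurable_const).aestronglyMeasurable
    · rw [Real.norm_eq_abs, abs_of_nonneg (le_min (hY0 p) (by linarith))]
      exact min_le_right _ _
  have i12 : Integrable (fun p : S × (ℝ × S) => (max (p.2.1 ^ 2 / n - K) 0 + v) * G p.1 * H p.2.2 +
      kav A₁ A₂ v (1 / (1 - t)) (G p.1)) μ := i1.add i2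
  have i0' : Integrable (fun p : S × (ℝ × S) =>
      v + (1 - 2 * t) * min (max (p.2.1 ^ 2 / n - K) 0) (A₂ / 2)) μ :=
    (integrable_const v).add (i0.const_mul _)
  have h0 : v + (1 - 2 * t) * ∫ p, min (max (p.2.1 ^ 2 / n - K) 0) (A₂ / 2) ∂μ =
      ∫ p, (v + (1 - 2 * t) * min (max (p.2.1 ^ 2 / n - K) 0) (A₂ / 2)) ∂μ := by
    rw [integral_add (integrable_const v) (i0.const_mul _), integral_const, integral_const_mul]
    simp
  rw [h0, ← integral_add i1 i2, ← integral_add i12 i3]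
  refine integral_mono i0' (i12.add i3) fun p => ?_
  exact pointwise A₁ A₂ v K t _ _ _ hA₁ hv0 hK h8 hA₂ ht0 ht (hY0 p)
    (hc.trans_le (hGc _).1) (hGc _).2 (hc'.trans_le (hHc _).1) (hHc _).2

end Pool.Agent.Q42.UIC
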