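import Pool.Agent.Q42.UIC.Stm

/-! Project UIC, job joint (helper96). -/

set_option autoImplicit false

open MeasureTheory ProbabilityTheory

namespace Pool.Agent.Q42.UIC

theorem joint : St_joint := by
  intro S _ E _ _ _ ν _ b c _ _ hb G H hG hH
  have hm1 : Measurable (fun p : S × (E × S) => (p.2.2, (p.2.1, G p.1))) := by fun_prop
  set ρ : Measure (S × (E × ℝ)) := (ν ⊗ₘ b).map (fun p : S × (E × S) => (p.2.2, (p.2.1, G p.1))) with hρ
  have hρp : IsProbabilityMeasure ρ := Measure.isProbabilityMeasure_map hm1.aemeasurable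
  have hfst : ρ.fst = ν := by
    rw [Measure.fst, hρ, Measure.map_map measurable_fst hm1]
    exact hb
  have hgen : ∀ (ν' : Measure S), ρ.fst = ν' → ν' ⊗ₘ ρ.condKernel = ρ := by
    intro ν' h
    subst h
    exact ρ.disintegrate ρ.condKernel
  obtain ⟨L, hL, hdis⟩ : ∃ L : Kernel S (E × ℝ), IsMarkovKernel L ∧ ν ⊗ₘ L = ρ :=
    ⟨ρ.condKernel, inferInstance, hgen ν hfst⟩
  refine ⟨L, hL, hdis.symm, ?_⟩
  have hm2 : Measurable (fun p : (S × (E × S)) × (E × S) =>
      (p.1.2.2, ((p.1.2.1, G p.1.1), (p.2.1, H p.2.2)))) := by fun_prop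
  have hm3 : Measurable (fun q : E × S => (q.1, H q.2)) := by fun_prop
  have hMk : IsMarkovKernel (c.map (fun q : E × S => (q.1, H q.2))) := Kernel.IsMarkovKernel.map _ hm3
  ext s hs
  have h1 : Measurable (Set.indicator s (fun _ : S × ((E × ℝ) × (E × ℝ)) => (1 : ENNReal))) :=
    measurable_const.indicator hs
  rw [← lintegral_indicator_one hs, ← lintegral_indicator_one hs]
  change ∫⁻ a, s.indicator (fun _ => (1 : ENNReal)) a ∂_ = ∫⁻ a, s.indicator (fun _ => (1 : ENNReal)) a ∂_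
  set F : S × ((E × ℝ) × (E × ℝ)) → ENNReal := s.indicator (fun _ => (1 : ENNReal)) with hF
  have hΨ : Measurable (fun z : S × (E × ℝ) => ∫⁻ r, F (z.1, (z.2, (r.1, H r.2))) ∂(c z.1)) := by
    have h0 : Measurable (fun z : (S × (E × ℝ)) × (E × S) => F (z.1.1, (z.1.2, (z.2.1, H z.2.2)))) :=
      h1.comp (by fun_prop)
    exact Measurable.lintegral_kernel_prod_right' (κ := c.comap (fun q : S × (E × ℝ) => q.1) (by fun_prop)) h0
  have h2 : Measurable (fun p : (S × (E × S)) × (E × S) =>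
      F (p.1.2.2, ((p.1.2.1, G p.1.1), (p.2.1, H p.2.2)))) := h1.comp hm2
  rw [lintegral_map h1 hm2, Measure.lintegral_compProd h2]
  have e1 : ∫⁻ p, ∫⁻ r, F (p.2.2, ((p.2.1, G p.1), (r.1, H r.2)))
      ∂((c.comap (fun p : S × (E × S) => p.2.2) (by fun_prop)) p) ∂(ν ⊗ₘ b)
      = ∫⁻ z, (∫⁻ r, F (z.1, (z.2, (r.1, H r.2))) ∂(c z.1)) ∂ρ := by
    rw [hρ, lintegral_map hΨ hm1]
    rfl
  refine e1.trans ?_
  rw [← hdis, Measure.lintegral_compProd hΨ, Measure.lintegral_compProd h1]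
  refine lintegral_congr fun y => ?_
  rw [Kernel.prod_apply]
  have h4 : Measurable (fun z : (E × ℝ) × (E × ℝ) => F (y, z)) := h1.comp (by fun_prop)
  rw [lintegral_prod _ h4.aemeasurable]
  refine lintegral_congr fun e => ?_
  have h5 : Measurable (fun r' : E × ℝ => F (y, (e, r'))) := h1.comp (by fun_prop)
  rw [Kernel.map_apply _ hm3, lintegral_map h5 hm3]

end Pool.Agent.Q42.UIC
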