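import Pool.Agent.Q42.UIC.Stm

/-! Project UIC, job kalg (helper96). -/

set_option autoImplicit false

open MeasureTheory ProbabilityTheory

namespace Pool.Agent.Q42.UIC

section KA
variable {S : Type} [MeasurableSpace S] {E : Type} [MeasurableSpace E]

theorem kalg_ext (b c : Kernel S (E × S))
    (h : ∀ x, ∀ F : E × S → ENNReal, Measurable F → ∫⁻ q, F q ∂(b x) = ∫⁻ q, F q ∂(c x)) : b = c := by
  refine Kernel.ext fun x => ?_
  ext s hs
  have h1 : Measurable (Set.indicator s (fun _ : E × S => (1 : ENNReal))) := measurable_const.indicator hs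
  rw [← lintegral_indicator_one hs, ← lintegral_indicator_one hs]
  exact h x _ h1

theorem kalg_meas [Add E] [MeasurableAdd₂ E] (d : Kernel S (E × S)) [IsMarkovKernel d]
    (F : E × S → ENNReal) (hF : Measurable F) :
    Measurable (fun q : E × S => ∫⁻ r, F (q.1 + r.1, r.2) ∂(d q.2)) := by
  have h0 : Measurable (fun z : (E × S) × (E × S) => F (z.1.1 + z.2.1, z.2.2)) := hF.comp measurable_cat
  exact Measurable.lintegral_kernel_prod_right' (κ := d.comap (fun q : E × S => q.2) (by fun_prop)) h0

theorem kalg_assoc [AddMonoid E] [MeasurableAdd₂ E] (b c d : Kernel S (E × S)) [IsMarkovKernel b]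
    [IsMarkovKernel c] [IsMarkovKernel d] : conc (conc b c) d = conc b (conc c d) := by
  refine kalg_ext _ _ fun x F hF => ?_
  rw [lintegral_conc _ _ _ _ hF, lintegral_conc _ _ _ _ hF, lintegral_conc _ _ _ _ (kalg_meas d F hF)]
  refine lintegral_congr fun p => ?_
  have h1 : Measurable (fun z : E × S => F (p.1 + z.1, z.2)) := hF.comp (by fun_prop)
  rw [lintegral_conc _ _ _ _ h1]
  refine lintegral_congr fun q => ?_
  refine lintegral_congr fun r => ?_
  simp only [add_assoc]

theorem kalg_left [AddMonoid E] [MeasurableAdd₂ E] (b c : Kernel S (E × S)) [IsMarkovKernel b]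
    [IsMarkovKernel c] : conc (blk b 0) c = c := by
  refine kalg_ext _ _ fun x F hF => ?_
  rw [lintegral_conc _ _ _ _ hF]
  unfold blk
  rw [Kernel.deterministic_apply, lintegral_dirac' _ (kalg_meas c F hF)]
  simp

theorem kalg_right [AddMonoid E] [MeasurableAdd₂ E] (b c : Kernel S (E × S)) [IsMarkovKernel b]
    [IsMarkovKernel c] : conc c (blk b 0) = c := by
  refine kalg_ext _ _ fun x F hF => ?_
  rw [lintegral_conc _ _ _ _ hF]
  refine lintegral_congr fun p => ?_
  unfold blk
  have h1 : Measurable (fun z : E × S => F (p.1 + z.1, z.2)) := hF.comp (by fun_prop)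
  rw [Kernel.deterministic_apply, lintegral_dirac' _ h1]
  simp

theorem kalg_blk_add [AddMonoid E] [MeasurableAdd₂ E] (b : Kernel S (E × S)) [IsMarkovKernel b] (m n : ℕ) :
    blk b (m + n) = conc (blk b m) (blk b n) := by
  induction n with
  | zero => rw [Nat.add_zero]; exact (kalg_right b (blk b m)).symm
  | succ n ih =>
    change conc (blk b (m + n)) b = conc (blk b m) (conc (blk b n) b)
    rw [ih, kalg_assoc]

theorem kalg_lev [AddMonoid E] [MeasurableAdd₂ E] (b : Kernel S (E × S)) [IsMarkovKernel b] (l : ℕ) :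
    lev b l = blk b (2 ^ l) := by
  induction l with
  | zero =>
    change b = conc (blk b 0) b
    rw [kalg_left]
  | succ l ih =>
    change conc (lev b l) (lev b l) = _
    rw [ih, pow_succ, mul_two, kalg_blk_add]

theorem kalg_mul [AddMonoid E] [MeasurableAdd₂ E] (b : Kernel S (E × S)) [IsMarkovKernel b] (m n : ℕ) :
    blk (blk b n) m = blk b (m * n) := by
  induction m with
  | zero => rw [Nat.zero_mul]; rfl
  | succ m ih =>
    change conc (blk (blk b n) m) (blk b n) = _
    rw [ih, Nat.succ_mul, kalg_blk_add]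

end KA

theorem kalg : St_conc_assoc ∧ St_blk_add ∧ St_lev_eq_blk ∧ St_blk_mul := by
  refine ⟨?_, ?_, ?_, ?_⟩
  · intro S _ E _ _ _ b c d _ _ _
    exact kalg_assoc b c d
  · intro S _ E _ _ _ b _ m n
    exact kalg_blk_add b m n
  · intro S _ E _ _ _ b _ l
    exact kalg_lev b l
  · intro S _ E _ _ _ b _ m n
    exact kalg_mul b m n

end Pool.Agent.Q42.UIC
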