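import Pool.Agent.Q42.UIC.Stm
import Pool.Agent.Q184.UIC.Op

/-! Project UIC: the mean ergodic theorem for the transition operator (helper184). -/

set_option autoImplicit false

open MeasureTheory ProbabilityTheory Filter

namespace Pool.Agent.Q42.UIC

open Pool.Agent.Q184.UIC

section
variable {S : Type} [MeasurableSpace S] {ν : Measure S} [IsProbabilityMeasure ν]
    {Q : Kernel S S} [IsMarkovKernel Q]

theorem mp_fst : MeasurePreserving (Prod.fst : S × S → S) (ν ⊗ₘ Q) ν := ⟨measurable_fst, fst_law ν Q⟩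

theorem mp_snd (hν : ν.bind Q = ν) : MeasurePreserving (Prod.snd : S × S → S) (ν ⊗ₘ Q) ν :=
  ⟨measurable_snd, snd_law hν⟩

/-- the isometry given by the first coordinate -/
noncomputable def i1 (ν : Measure S) [IsProbabilityMeasure ν] (Q : Kernel S S) [IsMarkovKernel Q] :
    Lp ℝ 2 ν →ₗᵢ[ℝ] Lp ℝ 2 (ν ⊗ₘ Q) :=
  Lp.compMeasurePreservingₗᵢ ℝ Prod.fst mp_fst

/-- the isometry given by the second coordinate -/
noncomputable def i2 (hν : ν.bind Q = ν) : Lp ℝ 2 ν →ₗᵢ[ℝ] Lp ℝ 2 (ν ⊗ₘ Q) :=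
  Lp.compMeasurePreservingₗᵢ ℝ Prod.snd (mp_snd hν)

theorem i1_ae (g : Lp ℝ 2 ν) : (i1 ν Q g : S × S → ℝ) =ᵐ[ν ⊗ₘ Q] fun p => g p.1 :=
  Lp.coeFn_compMeasurePreserving g mp_fst

theorem i2_ae (hν : ν.bind Q = ν) (g : Lp ℝ 2 ν) :
    (i2 hν g : S × S → ℝ) =ᵐ[ν ⊗ₘ Q] fun p => g p.2 :=
  Lp.coeFn_compMeasurePreserving g (mp_snd hν)

/-- the transition operator on `L²` -/
noncomputable def T2 (hν : ν.bind Q = ν) : Lp ℝ 2 ν →L[ℝ] Lp ℝ 2 ν :=
  (ContinuousLinearMap.adjoint (i1 ν Q).toContinuousLinearMap) ∘L (i2 hν).toContinuousLinearMap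

theorem T2_norm (hν : ν.bind Q = ν) : ‖T2 hν‖ ≤ 1 := by
  unfold T2
  refine (ContinuousLinearMap.opNorm_comp_le _ _).trans ?_
  have h1 : ‖ContinuousLinearMap.adjoint (i1 ν Q).toContinuousLinearMap‖ ≤ 1 := by
    rw [LinearIsometryEquiv.norm_map]
    exact LinearIsometry.norm_toContinuousLinearMap_le _
  have h2 : ‖(i2 hν).toContinuousLinearMap‖ ≤ 1 := LinearIsometry.norm_toContinuousLinearMap_le _
  exact mul_le_one₀ h1 (norm_nonneg _) h2

theorem T2_inner (hν : ν.bind Q = ν) (v g : Lp ℝ 2 ν) :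
    inner ℝ v (T2 hν g) = inner ℝ (i1 ν Q v) (i2 hν g) := by
  unfold T2
  rw [ContinuousLinearMap.comp_apply, ContinuousLinearMap.adjoint_inner_right]
  rfl

theorem T2_toLp (hν : ν.bind Q = ν) {h : S → ℝ} (hm : Measurable h) (hh : MemLp h 2 ν) :
    T2 hν (hh.toLp h) = (TT_sq hν hm hh).1.toLp (TT Q h) := by
  refine ext_inner_left ℝ fun v => ?_
  rw [T2_inner, L2.inner_def, L2.inner_def]
  have h1 : ∀ᵐ p ∂(ν ⊗ₘ Q), (hh.toLp h : S → ℝ) p.2 = h p.2 :=
    (mp_snd hν).quasiMeasurePreserving.ae hh.coeFn_toLp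
  have h2 : ∫ p, inner ℝ ((i1 ν Q v : S × S → ℝ) p) ((i2 hν (hh.toLp h) : S × S → ℝ) p) ∂(ν ⊗ₘ Q) =
      ∫ p, v p.1 * h p.2 ∂(ν ⊗ₘ Q) := by
    refine integral_congr_ae ?_
    filter_upwards [i1_ae (Q := Q) v, i2_ae hν (hh.toLp h), h1] with p h3 h4 h5
    rw [h3, h4, h5]
    simp [mul_comm]
  have h3 : Integrable (fun p : S × S => v p.1 * h p.2) (ν ⊗ₘ Q) := by
    have e1 : MemLp (fun p : S × S => v p.1) 2 (ν ⊗ₘ Q) := (Lp.memLp v).comp_measurePreserving mp_fst
    have e2 : MemLp (fun p : S × S => h p.2) 2 (ν ⊗ₘ Q) := hh.comp_measurePreserving (mp_snd hν)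
    exact e1.integrable_mul e2
  rw [h2, Measure.integral_compProd h3]
  refine integral_congr_ae ?_
  filter_upwards [(TT_sq hν hm hh).1.coeFn_toLp] with x hx
  rw [hx, integral_const_mul]
  simp [TT, mul_comm]

/-- fixed vectors of the transition operator -/
theorem fixed_const (hν : ν.bind Q = ν)
    (herg : ∀ A : Set S, MeasurableSet A →
      (∀ᵐ x ∂ν, Q x A = A.indicator (fun _ => (1 : ENNReal)) x) → ν A = 0 ∨ ν A = 1)
    {g : Lp ℝ 2 ν} (hg : T2 hν g = g) : ∃ c : ℝ, (g : S → ℝ) =ᵐ[ν] fun _ => c := by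
  have h1 : i1 ν Q g = i2 hν g := by
    rw [← sub_eq_zero, ← norm_eq_zero, ← sq_eq_zero_iff, norm_sub_sq_real, ← T2_inner, hg,
      real_inner_self_eq_norm_sq, LinearIsometry.norm_map, LinearIsometry.norm_map]
    ring
  have h2 : ∀ᵐ p ∂(ν ⊗ₘ Q), (g : S → ℝ) p.1 = g p.2 := by
    filter_upwards [i1_ae (Q := Q) g, i2_ae hν g] with p h3 h4
    rw [← h3, ← h4, h1]
  have h3 : ∀ᵐ x ∂ν, ∀ᵐ y ∂(Q x), (g : S → ℝ) x = g y := Measure.ae_ae_of_ae_compProd h2
  refine exists_eventuallyEq_const_of_forall_separating MeasurableSet fun U hU => ?_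
  have hA : MeasurableSet ((g : S → ℝ) ⁻¹' U) := (Lp.stronglyMeasurable g).measurable hU
  have h4 : ∀ᵐ x ∂ν, Q x ((g : S → ℝ) ⁻¹' U) =
      ((g : S → ℝ) ⁻¹' U).indicator (fun _ => (1 : ENNReal)) x := by
    filter_upwards [h3] with x hx
    by_cases hxU : (g : S → ℝ) x ∈ U
    · rw [Set.indicator_of_mem (by exact hxU)]
      refine (mem_ae_iff_prob_eq_one hA).1 ?_
      filter_upwards [hx] with y hy
      show (g : S → ℝ) y ∈ U
      rw [← hy]; exact hxU
    · rw [Set.indicator_of_notMem (by exact hxU)]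
      rw [← compl_compl ((g : S → ℝ) ⁻¹' U)]
      refine mem_ae_iff.1 ?_
      filter_upwards [hx] with y hy
      show (g : S → ℝ) y ∉ U
      rw [← hy]; exact hxU
  rcases herg _ hA h4 with h5 | h5
  · right
    have : ((g : S → ℝ) ⁻¹' U)ᶜ ∈ ae ν := by rw [mem_ae_iff, compl_compl]; exact h5
    exact this
  · left
    exact (mem_ae_iff_prob_eq_one hA).2 h5

theorem T2_iter (hν : ν.bind Q = ν) (n : ℕ) {h : S → ℝ} (hm : Measurable h) (hh : MemLp h 2 ν) :
    (T2 hν)^[n] (hh.toLp h) = (TT_iter_sq hν n hm hh).toLp ((TT Q)^[n] h) := by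
  induction n generalizing h with
  | zero => rfl
  | succ n ih =>
    rw [Function.iterate_succ_apply, T2_toLp hν hm hh, ih (TT_meas Q hm)]
    rfl

end

theorem mean_erg : St_mean_erg := by
  intro S _ ν _ Q _ hν herg u hu C hC
  have hh : MemLp u 2 ν := MemLp.of_bound hu.aestronglyMeasurable C
    (Eventually.of_forall fun x => by rw [Real.norm_eq_abs]; exact hC x)
  set g0 : Lp ℝ 2 ν := (((T2 hν).eqLocus (1 : Lp ℝ 2 ν →L[ℝ] Lp ℝ 2 ν)).orthogonalProjectionOnto
    (hh.toLp u) : Lp ℝ 2 ν) with hg0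
  have hlim : Tendsto (birkhoffAverage ℝ (T2 hν) _root_.id · (hh.toLp u)) atTop (nhds g0) :=
    ContinuousLinearMap.tendsto_birkhoffAverage_orthogonalProjection (T2 hν) (T2_norm hν) (hh.toLp u)
  have hfix : T2 hν g0 = g0 := by
    have := (((T2 hν).eqLocus (1 : Lp ℝ 2 ν →L[ℝ] Lp ℝ 2 ν)).orthogonalProjectionOnto
      (hh.toLp u)).2
    exact this
  obtain ⟨c, hc⟩ := fixed_const hν herg hfix
  -- the averages
  set A : ℕ → S → ℝ := fun N x => (∑ i ∈ Finset.range N, (TT Q)^[i] u x) / N with hA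
  have hit : ∀ i, MemLp ((TT Q)^[i] u) 2 ν := fun i => TT_iter_sq hν i hu hh
  have hAm : ∀ N, MemLp (A N) 2 ν := by
    intro N
    have h1 : MemLp (fun x => ∑ i ∈ Finset.range N, (TT Q)^[i] u x) 2 ν :=
      memLp_finsetSum _ fun i _ => hit i
    have h2 := h1.const_mul ((N : ℝ)⁻¹)
    refine h2.ae_eq (Eventually.of_forall fun x => ?_)
    simp only [hA]
    rw [div_eq_inv_mul]
  have hbir : ∀ N, ((birkhoffAverage ℝ (T2 hν) _root_.id N (hh.toLp u) : Lp ℝ 2 ν) : S → ℝ)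
      =ᵐ[ν] A N := by
    intro N
    have h1 : birkhoffAverage ℝ (T2 hν) _root_.id N (hh.toLp u) =
        (N : ℝ)⁻¹ • ∑ i ∈ Finset.range N, (hit i).toLp ((TT Q)^[i] u) := by
      unfold birkhoffAverage birkhoffSum
      congr 1
      refine Finset.sum_congr rfl fun i _ => ?_
      rw [id, T2_iter hν i hu hh]
    rw [h1]
    refine (Lp.coeFn_smul _ _).trans ?_
    have h4 := Lp.coeFn_finsetSum (Finset.range N) (fun i => (hit i).toLp ((TT Q)^[i] u))
    have h3 : ∀ i, ((hit i).toLp ((TT Q)^[i] u) : S → ℝ) =ᵐ[ν] (TT Q)^[i] u :=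
      fun i => (hit i).coeFn_toLp
    filter_upwards [h4, ae_all_iff.2 h3] with x hx hx2
    rw [Pi.smul_apply, hx, Finset.sum_apply, smul_eq_mul]
    simp only [hA]
    rw [div_eq_inv_mul]
    congr 1
    exact Finset.sum_congr rfl fun i _ => hx2 i
  -- `L¹` convergence to `c`
  have hD : ∀ N, MemLp (fun x => A N x - c) 2 ν := fun N => (hAm N).sub (memLp_const c)
  have hL2 : ∀ N, ‖birkhoffAverage ℝ (T2 hν) _root_.id N (hh.toLp u) - g0‖ =
      ‖(hD N).toLp (fun x => A N x - c)‖ := by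
    intro N
    congr 1
    apply Lp.ext
    refine (Lp.coeFn_sub _ _).trans ?_
    refine EventuallyEq.trans ?_ (hD N).coeFn_toLp.symm
    filter_upwards [hbir N, hc] with x h1 h2
    rw [Pi.sub_apply, h1, h2]
  have hL1 : ∀ N, ∫ x, |A N x - c| ∂ν ≤ ‖birkhoffAverage ℝ (T2 hν) _root_.id N (hh.toLp u) - g0‖ := by
    intro N
    have h1 : (∫ x, |A N x - c| ∂ν) ^ 2 ≤ ‖(hD N).toLp (fun x => A N x - c)‖ ^ 2 := by
      rw [norm_toLp_sq]
      have h2 := (hD N).integrable (by norm_num)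
      have h3 := sq_TT_le (ν := ν) h2.abs (by simpa [sq_abs] using (hD N).integrable_sq)
      simpa [sq_abs] using h3
    rw [hL2]
    exact le_of_sq_le_sq h1 (norm_nonneg _)
  have ht1 : Tendsto (fun N => ∫ x, |A N x - c| ∂ν) atTop (nhds 0) := by
    refine squeeze_zero (fun N => integral_nonneg fun x => abs_nonneg _) hL1 ?_
    have := (hlim.sub_const g0).norm
    simpa using this
  -- the constant
  have hcu : c = ∫ y, u y ∂ν := by
    have hAi : ∀ N, 0 < N → ∫ x, A N x ∂ν = ∫ y, u y ∂ν := by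
      intro N hN
      have h1 : ∀ i, ∫ x, (TT Q)^[i] u x ∂ν = ∫ y, u y ∂ν := by
        intro i
        induction i with
        | zero => rfl
        | succ i ih =>
          have h2 : ∫ x, (TT Q)^[i + 1] u x ∂ν = ∫ x, TT Q ((TT Q)^[i] u) x ∂ν := by
            rw [Function.iterate_succ_apply']
          rw [h2, integral_TT hν ((hit i).integrable (by norm_num)), ih]
      simp only [hA]
      rw [integral_div, integral_finsetSum _ (fun i _ => (hit i).integrable (by norm_num))]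
      simp only [h1]
      rw [Finset.sum_const, Finset.card_range, nsmul_eq_mul]
      have : (N : ℝ) ≠ 0 := by exact_mod_cast hN.ne'
      field_simp
    have h2 : Tendsto (fun N => ∫ x, A N x ∂ν) atTop (nhds c) := by
      rw [tendsto_iff_norm_sub_tendsto_zero]
      refine squeeze_zero (fun N => norm_nonneg _) (fun N => ?_) ht1
      have h3 : ∫ x, A N x ∂ν - c = ∫ x, (A N x - c) ∂ν := by
        rw [integral_sub ((hAm N).integrable (by norm_num)) (integrable_const _)]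
        simp
      rw [h3]
      exact norm_integral_le_integral_norm _
    have h3 : Tendsto (fun N => ∫ x, A N x ∂ν) atTop (nhds (∫ y, u y ∂ν)) := by
      refine tendsto_const_nhds.congr' ?_
      filter_upwards [eventually_gt_atTop 0] with N hN
      exact (hAi N hN).symm
    exact tendsto_nhds_unique h2 h3
  rw [← hcu]
  exact ht1

end Pool.Agent.Q42.UIC
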