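import Pool.Agent.Q42.UIC.Stm

/-! Project UIC: job mem_blk (helper198). -/

set_option autoImplicit false

open MeasureTheory ProbabilityTheory

namespace Pool.Agent.Q42.UIC

theorem mem_blk_base_apply {S : Type} [MeasurableSpace S] (Q : Kernel S S) [IsMarkovKernel Q] (f : S → ℝ)
    (hf : Measurable f) (x : S) : base Q f x = (Q x).map (fun y => (f x, y)) := by
  unfold base
  have h1 : Measurable (fun p : S × S => (f p.1, p.2)) := by fun_prop
  rw [Kernel.map_apply _ h1, Kernel.prod_apply, Kernel.id_apply, Measure.dirac_prod,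
    Measure.map_map h1 (by fun_prop)]
  rfl

theorem mem_blk : St_mem_blk := by
  intro S _ ν _ Q _ hν f hf hf2 n
  have hbm := base_markov Q f hf
  induction n with
  | zero =>
    have hm : Measurable (fun x : S => ((0 : ℝ), x)) := by fun_prop
    have e : ν ⊗ₘ blk (base Q f) 0 = ν.map (fun x => (x, ((0 : ℝ), x))) := by
      unfold blk
      exact Measure.compProd_deterministic hm
    constructor
    · rw [e, memLp_map_measure_iff (Measurable.aestronglyMeasurable (by fun_prop)) (by fun_prop)]
      exact MemLp.zero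
    · unfold EndInv
      rw [e, Measure.map_map (by fun_prop) (by fun_prop)]
      exact Measure.map_id
  | succ n ih =>
    refine ⟨?_, endInv_conc ν _ _ ih.2 (endInv_base ν Q f hf hν)⟩
    change MemLp (fun p : S × (ℝ × S) => p.2.1) 2 (ν ⊗ₘ conc (blk (base Q f) n) (base Q f))
    have hT : Measurable (fun p : (S × (ℝ × S)) × (ℝ × S) => (p.1.1, (p.1.2.1 + p.2.1, p.2.2))) := by
      fun_prop
    rw [compProd_conc, memLp_map_measure_iff (Measurable.aestronglyMeasurable (by fun_prop)) hT.aemeasurable]
    set m := (ν ⊗ₘ blk (base Q f) n) ⊗ₘ ((base Q f).comap (fun p : S × (ℝ × S) => p.2.2) (by fun_prop))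
      with hmdef
    have hfst : m.map Prod.fst = ν ⊗ₘ blk (base Q f) n := by
      rw [hmdef]
      exact Measure.fst_compProd _ _
    have h1 : MemLp (fun p : (S × (ℝ × S)) × (ℝ × S) => p.1.2.1) 2 m := by
      have h2 := ih.1
      rw [← hfst, memLp_map_measure_iff (Measurable.aestronglyMeasurable (by fun_prop)) (by fun_prop)] at h2
      exact h2
    have h2 : MemLp (fun p : (S × (ℝ × S)) × (ℝ × S) => f p.1.2.2) 2 m := by
      have h3 := hf2
      have h4 : ν = m.map (fun p => p.1.2.2) := by
        have h5 : m.map (fun p => p.1.2.2) = (m.map Prod.fst).map (fun p : S × (ℝ × S) => p.2.2) := by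
          rw [Measure.map_map (by fun_prop) (by fun_prop)]
          rfl
        rw [h5, hfst]
        exact ih.2.symm
      rw [h4, memLp_map_measure_iff (by fun_prop) (by fun_prop)] at h3
      exact h3
    have h3 : (fun p : (S × (ℝ × S)) × (ℝ × S) => f p.1.2.2) =ᵐ[m] fun p => p.2.1 := by
      have hms : MeasurableSet {p : (S × (ℝ × S)) × (ℝ × S) | f p.1.2.2 = p.2.1} :=
        measurableSet_eq_fun (by fun_prop) (by fun_prop)
      refine (Measure.ae_compProd_iff hms).2 (Filter.Eventually.of_forall fun a => ?_)
      rw [Kernel.comap_apply, mem_blk_base_apply Q f hf]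
      rw [ae_map_iff (by fun_prop) (measurableSet_eq_fun (by fun_prop) (by fun_prop))]
      exact Filter.Eventually.of_forall fun y => rfl
    have h4 : MemLp (fun p : (S × (ℝ × S)) × (ℝ × S) => p.2.1) 2 m := (memLp_congr_ae h3).1 h2
    exact h1.add h4

end Pool.Agent.Q42.UIC
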