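import Pool.Agent.Q42.UIC.Stm

/-! Project UIC, job prj (helper96). -/

set_option autoImplicit false

open MeasureTheory ProbabilityTheory

namespace Pool.Agent.Q42.UIC

section PRJ
variable {S : Type} [MeasurableSpace S]

theorem prj_meas : Measurable (fun q : (ℝ × ℝ) × S => (q.1.1, q.2)) := by fun_prop

theorem prj_meas2 (K : ℝ) : Measurable (fun q : ℝ × S => ((q.1, min (q.1 ^ 2) K), q.2)) := by fun_prop

theorem prj_markov (c : Kernel S ((ℝ × ℝ) × S)) [IsMarkovKernel c] : IsMarkovKernel (pr c) := by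
  unfold pr
  exact Kernel.IsMarkovKernel.map _ prj_meas

theorem enr_markov (K : ℝ) (b : Kernel S (ℝ × S)) [IsMarkovKernel b] : IsMarkovKernel (enr K b) := by
  unfold enr
  exact Kernel.IsMarkovKernel.map _ (prj_meas2 K)

theorem lintegral_pr (c : Kernel S ((ℝ × ℝ) × S)) (x : S) (F : ℝ × S → ENNReal) (hF : Measurable F) :
    ∫⁻ q, F q ∂(pr c x) = ∫⁻ q, F (q.1.1, q.2) ∂(c x) := by
  unfold pr
  rw [Kernel.map_apply _ prj_meas, lintegral_map hF prj_meas]

theorem prj_conc (b c : Kernel S ((ℝ × ℝ) × S)) [IsMarkovKernel b] [IsMarkovKernel c] :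
    pr (conc b c) = conc (pr b) (pr c) := by
  have hb := prj_markov b
  have hc := prj_markov c
  refine Kernel.ext fun x => ?_
  ext s hs
  have h1 : Measurable (Set.indicator s (fun _ : ℝ × S => (1 : ENNReal))) := measurable_const.indicator hs
  rw [← lintegral_indicator_one hs, ← lintegral_indicator_one hs]
  change ∫⁻ a, s.indicator (fun _ => (1 : ENNReal)) a ∂_ = ∫⁻ a, s.indicator (fun _ => (1 : ENNReal)) a ∂_
  have h1' : Measurable (fun q : (ℝ × ℝ) × S => s.indicator (fun _ => (1 : ENNReal)) (q.1.1, q.2)) :=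
    h1.comp prj_meas
  rw [lintegral_pr _ _ _ h1, lintegral_conc _ _ _ _ h1, lintegral_conc _ _ _ _ h1']
  have h2 : Measurable (fun q : ℝ × S => ∫⁻ r, s.indicator (fun _ => (1 : ENNReal)) (q.1 + r.1, r.2)
      ∂(pr c q.2)) := by
    have h0 : Measurable (fun z : (ℝ × S) × (ℝ × S) =>
        s.indicator (fun _ => (1 : ENNReal)) (z.1.1 + z.2.1, z.2.2)) := h1.comp measurable_cat
    exact Measurable.lintegral_kernel_prod_right' (κ := (pr c).comap (fun q : ℝ × S => q.2) (by fun_prop)) h0
  rw [lintegral_pr _ _ _ h2]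
  refine lintegral_congr fun q => ?_
  have h3 : Measurable (fun r : ℝ × S => s.indicator (fun _ => (1 : ENNReal)) (q.1.1 + r.1, r.2)) :=
    h1.comp (by fun_prop)
  rw [lintegral_pr _ _ _ h3]
  rfl

theorem prj_enr (b : Kernel S (ℝ × S)) [IsMarkovKernel b] (K : ℝ) : pr (enr K b) = b := by
  unfold pr enr
  refine Kernel.ext fun x => ?_
  rw [Kernel.map_apply _ prj_meas, Kernel.map_apply _ (prj_meas2 K), Measure.map_map prj_meas (prj_meas2 K)]
  exact Measure.map_id

theorem prj_lev_enr (b : Kernel S (ℝ × S)) [IsMarkovKernel b] (K : ℝ) (j : ℕ) :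
    pr (lev (enr K b) j) = lev b j := by
  have := enr_markov K b
  induction j with
  | zero => exact prj_enr b K
  | succ j ih =>
    change pr (conc (lev (enr K b) j) (lev (enr K b) j)) = conc (lev b j) (lev b j)
    rw [prj_conc, ih]

end PRJ

theorem prj : St_pr_conc ∧ St_pr_lev_enr := by
  refine ⟨?_, ?_⟩
  · intro S _ b c _ _
    exact prj_conc b c
  · intro S _ b _ K j
    exact prj_lev_enr b K j

end Pool.Agent.Q42.UIC
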