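import Pool.Agent.Q42.UIC.Stm

/-! Project UIC: job proc_law (helper198). -/

set_option autoImplicit false

open MeasureTheory ProbabilityTheory

namespace Pool.Agent.Q42.UIC

theorem proc_law_base_apply {S : Type} [MeasurableSpace S] (Q : Kernel S S) [IsMarkovKernel Q]
    (f : S → ℝ) (hf : Measurable f) (x : S) : base Q f x = (Q x).map (fun y => (f x, y)) := by
  unfold base
  have h1 : Measurable (fun p : S × S => (f p.1, p.2)) := by fun_prop
  rw [Kernel.map_apply _ h1, Kernel.prod_apply, Kernel.id_apply, Measure.dirac_prod,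
    Measure.map_map h1 (by fun_prop)]
  rfl

/-- the Markov step -/
theorem proc_law_step {S : Type} [MeasurableSpace S] (Q : Kernel S S) [IsMarkovKernel Q]
    (Ω : Type) [MeasurableSpace Ω] (μ : Measure Ω) [IsProbabilityMeasure μ]
    (X : ℕ → Ω → S) (hX : ∀ i, Measurable (X i)) (n : ℕ)
    (hM : ∀ A : Set S, MeasurableSet A →
        condExp (⨆ i ≤ n, MeasurableSpace.comap (X i) inferInstance) μ
          ((X (n+1) ⁻¹' A).indicator (fun _ => (1 : ℝ)))
          =ᵐ[μ] fun ω => (Q (X n ω) A).toReal)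
    {E : Type} [MeasurableSpace E] (Y : Ω → E)
    (hY : Measurable[⨆ i ≤ n, MeasurableSpace.comap (X i) inferInstance] Y) (g : E → S)
    (hg : Measurable g) (hgY : ∀ ω, g (Y ω) = X n ω) :
    μ.map (fun ω => (Y ω, X (n+1) ω)) = (μ.map Y) ⊗ₘ (Q.comap g hg) := by
  have hle : (⨆ i ≤ n, MeasurableSpace.comap (X i) inferInstance) ≤ (inferInstance : MeasurableSpace Ω) := by
    refine iSup₂_le fun i _ => ?_
    exact (hX i).comap_le
  have hY' : Measurable Y := hY.mono hle le_rfl
  have hp : IsProbabilityMeasure (μ.map Y) := Measure.isProbabilityMeasure_map hY'.aemeasurable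
  refine Measure.ext_prod fun {A B} hA hB => ?_
  rw [Measure.compProd_apply_prod hA hB, Measure.map_apply (by fun_prop) (hA.prod hB),
    setLIntegral_map hA (Kernel.measurable_coe _ hB) hY']
  have hAm : MeasurableSet[⨆ i ≤ n, MeasurableSpace.comap (X i) inferInstance] (Y ⁻¹' A) := hY hA
  have hAm' : MeasurableSet (Y ⁻¹' A) := hY' hA
  have hBm : MeasurableSet (X (n+1) ⁻¹' B) := hX (n+1) hB
  have h1 : ∫ ω in Y ⁻¹' A, (Q (X n ω) B).toReal ∂μ = μ.real (X (n+1) ⁻¹' B ∩ Y ⁻¹' A) := by
    have h2 := setIntegral_condExp hle (f := (X (n+1) ⁻¹' B).indicator (fun _ => (1 : ℝ)))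
      (μ := μ) ((integrable_const (1 : ℝ)).indicator hBm) hAm
    rw [← setIntegral_congr_ae hAm' ((hM B hB).mono fun ω h _ => h), h2,
      integral_indicator_const (1 : ℝ) hBm, smul_eq_mul, mul_one]
    rw [measureReal_restrict_apply hBm]
  have h3 : ∫⁻ ω in Y ⁻¹' A, (Q.comap g hg) (Y ω) B ∂μ = ∫⁻ ω in Y ⁻¹' A, Q (X n ω) B ∂μ := by
    refine lintegral_congr fun ω => ?_
    rw [Kernel.comap_apply, hgY]
  have hfin : ∀ ω, Q (X n ω) B ≠ ⊤ := fun ω => measure_ne_top _ _
  have hme : Measurable (fun ω => Q (X n ω) B) := (Kernel.measurable_coe Q hB).comp (hX n)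
  rw [h3]
  have h4 : ∫⁻ ω in Y ⁻¹' A, Q (X n ω) B ∂μ = ENNReal.ofReal (∫ ω in Y ⁻¹' A, (Q (X n ω) B).toReal ∂μ) := by
    rw [integral_toReal hme.aemeasurable (Filter.Eventually.of_forall fun ω => (hfin ω).lt_top),
      ENNReal.ofReal_toReal]
    refine ne_of_lt ?_
    calc ∫⁻ ω in Y ⁻¹' A, Q (X n ω) B ∂μ ≤ ∫⁻ ω in Y ⁻¹' A, 1 ∂μ :=
          lintegral_mono fun ω => prob_le_one
      _ < ⊤ := by simp
  rw [h4, h1, ofReal_measureReal]
  congr 1
  ext ω
  simp [and_comm]

theorem proc_law_joint {S : Type} [MeasurableSpace S] (Q : Kernel S S) [IsMarkovKernel Q]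
    (ν : Measure S) [IsProbabilityMeasure ν]
    (f : S → ℝ) (hf : Measurable f) (Ω : Type) [MeasurableSpace Ω] (μ : Measure Ω)
    [IsProbabilityMeasure μ]
    (X : ℕ → Ω → S) (hX : ∀ i, Measurable (X i)) (h0 : μ.map (X 0) = ν)
    (hM : ∀ n : ℕ, ∀ A : Set S, MeasurableSet A →
        condExp (⨆ i ≤ n, MeasurableSpace.comap (X i) inferInstance) μ
          ((X (n+1) ⁻¹' A).indicator (fun _ => (1 : ℝ)))
          =ᵐ[μ] fun ω => (Q (X n ω) A).toReal) (N : ℕ) :
    μ.map (fun ω => (X 0 ω, (∑ i ∈ Finset.range N, f (X i ω), X N ω))) = ν ⊗ₘ blk (base Q f) N := by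
  have hbm := base_markov Q f hf
  induction N with
  | zero =>
    have hm : Measurable (fun x : S => ((0 : ℝ), x)) := by fun_prop
    unfold blk
    rw [Measure.compProd_deterministic hm, ← h0, Measure.map_map (by fun_prop) (hX 0)]
    simp only [Finset.range_zero, Finset.sum_empty]
    rfl
  | succ N ih =>
    change _ = ν ⊗ₘ conc (blk (base Q f) N) (base Q f)
    rw [compProd_conc, ← ih]
    have hXi : ∀ i, i ≤ N → Measurable[⨆ i ≤ N, MeasurableSpace.comap (X i) inferInstance] (X i) := by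
      intro i hi
      rw [measurable_iff_comap_le]
      exact le_iSup₂ (f := fun i (_ : i ≤ N) => MeasurableSpace.comap (X i) inferInstance) i hi
    have hY : Measurable[⨆ i ≤ N, MeasurableSpace.comap (X i) inferInstance]
        (fun ω => (X 0 ω, (∑ i ∈ Finset.range N, f (X i ω), X N ω))) := by
      refine @Measurable.prodMk _ _ _ _ _ (_) _ _ (hXi 0 (Nat.zero_le _)) ?_
      refine @Measurable.prodMk _ _ _ _ _ (_) _ _ ?_ (hXi N le_rfl)
      refine Finset.measurable_fun_sum _ fun i hi => ?_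
      exact hf.comp (hXi i (Finset.mem_range.1 hi).le)
    have key := proc_law_step Q Ω μ X hX N (hM N)
      (fun ω => (X 0 ω, (∑ i ∈ Finset.range N, f (X i ω), X N ω))) hY
      (fun p : S × (ℝ × S) => p.2.2) (by fun_prop) (fun ω => rfl)
    have hle : (⨆ i ≤ N, MeasurableSpace.comap (X i) inferInstance) ≤ (inferInstance : MeasurableSpace Ω) :=
      iSup₂_le fun i _ => (hX i).comap_le
    have hY' := hY.mono hle le_rfl
    set m := μ.map (fun ω => (X 0 ω, (∑ i ∈ Finset.range N, f (X i ω), X N ω))) with hmdef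
    have hp : IsProbabilityMeasure m := Measure.isProbabilityMeasure_map hY'.aemeasurable
    have h1 : m ⊗ₘ ((base Q f).comap (fun p : S × (ℝ × S) => p.2.2) (by fun_prop)) =
        (m ⊗ₘ (Q.comap (fun p : S × (ℝ × S) => p.2.2) (by fun_prop))).map
          (fun p : (S × (ℝ × S)) × S => (p.1, (f p.1.2.2, p.2))) := by
      have hmm : Measurable (fun p : (S × (ℝ × S)) × S => (p.1, (f p.1.2.2, p.2))) := by fun_prop
      ext s hs
      rw [Measure.compProd_apply hs, Measure.map_apply hmm hs, Measure.compProd_apply (hmm hs)]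
      refine lintegral_congr fun a => ?_
      rw [Kernel.comap_apply, Kernel.comap_apply, proc_law_base_apply Q f hf,
        Measure.map_apply (by fun_prop) (measurable_prodMk_left hs)]
      rfl
    rw [h1, ← key, Measure.map_map (by fun_prop) (by fun_prop), Measure.map_map (by fun_prop) (by fun_prop)]
    congr 1
    funext ω
    simp only [Function.comp_apply, Finset.sum_range_succ]

theorem proc_law : St_proc_law := by
  intro S _ Q _ ν _ f hf Ω _ μ _ X hX h0 hM N
  rw [← proc_law_joint Q ν f hf Ω μ X hX h0 hM N, Measure.map_map (by fun_prop) (by fun_prop)]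
  rfl

end Pool.Agent.Q42.UIC
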