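import Pool.Agent.Q42.UIC.Stm

/-! Project UIC, job pt_ui (helper98). -/

set_option autoImplicit false

open MeasureTheory ProbabilityTheory

namespace Pool.Agent.Q42.UIC

namespace PtUi

theorem sub_sin_le (y : ℝ) (hy : 0 ≤ y) : y - Real.sin y ≤ y ^ 2 / 2 := by
  have h1 : Monotone (fun x : ℝ => x - 1 + Real.cos x) := by
    refine monotone_of_deriv_nonneg (by fun_prop) fun x => ?_
    have h2 : HasDerivAt (fun x : ℝ => x - 1 + Real.cos x) (1 - Real.sin x) x := by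
      have := ((hasDerivAt_id x).sub_const 1).add (Real.hasDerivAt_cos x)
      exact this
    rw [h2.deriv]
    have := Real.sin_le_one x
    linarith
  have h3 : MonotoneOn (fun x : ℝ => x ^ 2 / 2 - x + Real.sin x) (Set.Ici 0) := by
    refine monotoneOn_of_deriv_nonneg (convex_Ici 0) (by fun_prop) (by fun_prop) fun x hx => ?_
    rw [interior_Ici] at hx
    have h4 : HasDerivAt (fun x : ℝ => x ^ 2 / 2 - x + Real.sin x) (x - 1 + Real.cos x) x := by
      have e1 := (((hasDerivAt_pow 2 x).div_const 2).sub (hasDerivAt_id x)).add (Real.hasDerivAt_sin x)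
      have e2 : ((2 : ℕ) : ℝ) * x ^ (2 - 1) / 2 - 1 + Real.cos x = x - 1 + Real.cos x := by
        norm_num
      rw [e2] at e1
      exact e1
    rw [h4.deriv]
    have h5 := h1 (le_of_lt hx : (0 : ℝ) ≤ x)
    simp only [Real.cos_zero] at h5
    linarith
  have h6 := h3 (Set.mem_Ici.mpr le_rfl) (Set.mem_Ici.mpr hy) hy
  simp only [Real.sin_zero] at h6
  norm_num at h6
  linarith

theorem abs_sin_sub_le (y : ℝ) : |Real.sin y - y| ≤ y ^ 2 / 2 := by
  rcases le_total 0 y with hy | hy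
  · have h1 := sub_sin_le y hy
    have h2 : Real.sin y ≤ y := Real.sin_le hy
    rw [abs_of_nonpos (by linarith)]
    linarith
  · have h1 := sub_sin_le (-y) (by linarith)
    have h2 : Real.sin (-y) ≤ -y := Real.sin_le (by linarith)
    rw [Real.sin_neg] at h1 h2
    rw [abs_of_nonneg (by linarith)]
    have h3 : (-y) ^ 2 = y ^ 2 := by ring
    rw [h3] at h1
    linarith

theorem Phi_nonneg (θ s : ℝ) : 0 ≤ Phi θ s := by
  unfold Phi
  have := Real.cos_le_one (θ * s)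
  exact div_nonneg (by linarith) (sq_nonneg _)

theorem Phi_le (θ s : ℝ) : Phi θ s ≤ 4 / θ ^ 2 := by
  unfold Phi
  have := Real.neg_one_le_cos (θ * s)
  exact div_le_div_of_nonneg_right (by linarith) (sq_nonneg _)

theorem Phi_le_sq (θ s : ℝ) (hθ : 0 < θ) : Phi θ s ≤ s ^ 2 := by
  unfold Phi
  have := Real.one_sub_sq_div_two_le_cos (x := θ * s)
  rw [div_le_iff₀ (by positivity)]
  nlinarith

theorem measurable_Phi (θ : ℝ) : Measurable (Phi θ) := by
  unfold Phi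
  fun_prop

/-- the normalised sine -/
noncomputable def zz (θ n s : ℝ) : ℝ := Real.sin (θ * s) / (θ * √n)

theorem measurable_zz (θ n : ℝ) : Measurable (zz θ n) := by
  unfold zz
  fun_prop

theorem zz_sq_le (θ n s : ℝ) (hθ : 0 < θ) (hn : 0 < n) : zz θ n s ^ 2 ≤ Phi θ s / n := by
  unfold zz Phi
  have h1 : (θ * √n) ^ 2 = θ ^ 2 * n := by rw [mul_pow, Real.sq_sqrt hn.le]
  rw [div_pow, h1, div_div]
  refine div_le_div_of_nonneg_right ?_ (by positivity)
  have h2 := Real.sin_sq_add_cos_sq (θ * s)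
  have h3 := Real.cos_le_one (θ * s)
  nlinarith

theorem abs_zz_le (θ n s : ℝ) (hθ : 0 < θ) (hn : 0 < n) : |zz θ n s| ≤ 1 / (θ * √n) := by
  unfold zz
  have h0 : 0 < θ * √n := mul_pos hθ (Real.sqrt_pos.mpr hn)
  rw [abs_div, abs_of_pos h0]
  exact div_le_div_of_nonneg_right (Real.abs_sin_le_one _) h0.le

theorem Phi_add (θ s s' n : ℝ) (hθ : 0 < θ) (hn : 0 < n) :
    Phi θ (s + s') / (2 * n) = Phi θ s / n / 2 + Phi θ s' / n / 2 -
      θ ^ 2 * n / 4 * (Phi θ s / n * (Phi θ s' / n)) + zz θ n s * zz θ n s' := by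
  unfold Phi zz
  have h1 : Real.sin (θ * s) / (θ * √n) * (Real.sin (θ * s') / (θ * √n)) =
      Real.sin (θ * s) * Real.sin (θ * s') / (θ ^ 2 * n) := by
    rw [div_mul_div_comm]
    congr 1
    have h2 := Real.mul_self_sqrt hn.le
    calc θ * √n * (θ * √n) = θ ^ 2 * (√n * √n) := by ring
      _ = _ := by rw [h2]
  rw [h1, mul_add, Real.cos_add]
  field_simp
  ring

variable (P : Measure (ℝ × ℝ)) [IsProbabilityMeasure P] (c n θ A : ℝ)

/-- bounded functions are integrable -/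
theorem int_bdd (f : ℝ × ℝ → ℝ) (hf : Measurable f) (C : ℝ) (h : ∀ᵐ p ∂P, |f p| ≤ C) :
    Integrable f P :=
  Integrable.of_bound hf.aestronglyMeasurable C (by simpa only [Real.norm_eq_abs] using h)

/-- the facts on one of the two measures -/
theorem one (hc : 0 < c) (hP : ∀ᵐ p ∂P, c ≤ p.2 ∧ p.2 ≤ 1)
    (h2 : Integrable (fun p : ℝ × ℝ => p.1 ^ 2) P) (hn : 0 < n) (hθ : 0 < θ) :
    (Integrable (fun p : ℝ × ℝ => p.2) P ∧ Integrable (fun p : ℝ × ℝ => Phi θ p.1 / n * p.2) P ∧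
      Integrable (fun p : ℝ × ℝ => zz θ n p.1 * p.2) P) ∧
    0 ≤ ∫ p, Phi θ p.1 / n * p.2 ∂P ∧ (∫ p, Phi θ p.1 / n * p.2 ∂P) ≤ (∫ p, p.1 ^ 2 ∂P) / n ∧
    0 < (∫ p, 1 / p.2 ∂P)⁻¹ ∧ (∫ p, 1 / p.2 ∂P)⁻¹ ≤ ∫ p, p.2 ∂P ∧ ∫ p, p.2 ∂P ≤ 1 ∧
    ((∫ p, zz θ n p.1 * p.2 ∂P) - (∫ p, 1 / p.2 ∂P)⁻¹ * ∫ p, zz θ n p.1 ∂P) ^ 2 ≤
      (∫ p, Phi θ p.1 / n * p.2 ∂P) * ((∫ p, p.2 ∂P) - (∫ p, 1 / p.2 ∂P)⁻¹) ∧
    |(∫ p, zz θ n p.1 ∂P) - (∫ p, p.1 ∂P) / √n| ≤ θ * √n / 2 * ((∫ p, p.1 ^ 2 ∂P) / n) ∧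
    (∫ p, kap A p.2 ∂P) = A * (2 / (∫ p, 1 / p.2 ∂P)⁻¹ + (∫ p, p.2 ∂P) - 3) := by
  have hsn : 0 < √n := Real.sqrt_pos.mpr hn
  have mP : Measurable (fun p : ℝ × ℝ => Phi θ p.1 / n) :=
    ((measurable_Phi θ).comp measurable_fst).div_const n
  have mz : Measurable (fun p : ℝ × ℝ => zz θ n p.1) := (measurable_zz θ n).comp measurable_fst
  -- integrability
  have i2 : Integrable (fun p : ℝ × ℝ => p.2) P := by
    refine int_bdd P _ measurable_snd 1 (hP.mono fun p hp => ?_)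
    rw [abs_of_nonneg (by linarith [hp.1])]
    exact hp.2
  have ii : Integrable (fun p : ℝ × ℝ => 1 / p.2) P := by
    refine int_bdd P _ (measurable_const.div measurable_snd) (1 / c) (hP.mono fun p hp => ?_)
    have h0 : 0 < p.2 := hc.trans_le hp.1
    rw [abs_of_nonneg (by positivity)]
    exact div_le_div_of_nonneg_left (by norm_num) hc hp.1
  have iP : Integrable (fun p : ℝ × ℝ => Phi θ p.1 / n * p.2) P := by
    refine int_bdd P _ (mP.mul measurable_snd) (4 / θ ^ 2 / n) (hP.mono fun p hp => ?_)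
    have h0 : 0 ≤ p.2 := by linarith [hp.1]
    have h1 : 0 ≤ Phi θ p.1 / n := div_nonneg (Phi_nonneg _ _) hn.le
    rw [abs_of_nonneg (by positivity)]
    calc Phi θ p.1 / n * p.2 ≤ Phi θ p.1 / n * 1 := mul_le_mul_of_nonneg_left hp.2 h1
      _ ≤ _ := by
        rw [mul_one]
        exact div_le_div_of_nonneg_right (Phi_le _ _) hn.le
  have iz : Integrable (fun p : ℝ × ℝ => zz θ n p.1) P :=
    int_bdd P _ mz _ (Filter.Eventually.of_forall fun p => abs_zz_le θ n p.1 hθ hn)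
  have izp : Integrable (fun p : ℝ × ℝ => zz θ n p.1 * p.2) P := by
    refine int_bdd P _ (mz.mul measurable_snd) (1 / (θ * √n)) (hP.mono fun p hp => ?_)
    have h0 : 0 ≤ p.2 := by linarith [hp.1]
    rw [abs_mul, abs_of_nonneg h0]
    calc |zz θ n p.1| * p.2 ≤ |zz θ n p.1| * 1 := mul_le_mul_of_nonneg_left hp.2 (abs_nonneg _)
      _ ≤ _ := by
        rw [mul_one]
        exact abs_zz_le θ n p.1 hθ hn
  have izz : Integrable (fun p : ℝ × ℝ => zz θ n p.1 ^ 2 * p.2) P := by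
    refine int_bdd P _ ((mz.pow_const 2).mul measurable_snd) (4 / θ ^ 2 / n)
      (hP.mono fun p hp => ?_)
    have h0 : 0 ≤ p.2 := by linarith [hp.1]
    have h1 : 0 ≤ Phi θ p.1 / n := div_nonneg (Phi_nonneg _ _) hn.le
    rw [abs_of_nonneg (by positivity)]
    calc zz θ n p.1 ^ 2 * p.2 ≤ Phi θ p.1 / n * 1 :=
          mul_le_mul (zz_sq_le θ n p.1 hθ hn) hp.2 h0 h1
      _ ≤ _ := by
        rw [mul_one]
        exact div_le_div_of_nonneg_right (Phi_le _ _) hn.le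
  have i1 : Integrable (fun p : ℝ × ℝ => p.1) P := by
    refine ((integrable_const (1 : ℝ)).add h2).mono measurable_fst.aestronglyMeasurable
      (Filter.Eventually.of_forall fun p => ?_)
    simp only [Pi.add_apply]
    rw [Real.norm_eq_abs, Real.norm_eq_abs, abs_of_nonneg (by positivity : 0 ≤ 1 + p.1 ^ 2), abs_le]
    constructor <;> nlinarith [sq_nonneg (p.1 - 1), sq_nonneg (p.1 + 1)]
  set J := ∫ p, 1 / p.2 ∂P with hJ
  have hJ1 : 1 ≤ J := by
    have h3 : (∫ _p : ℝ × ℝ, (1 : ℝ) ∂P) ≤ J := by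
      refine integral_mono_ae (integrable_const _) ii (hP.mono fun p hp => ?_)
      have h0 : 0 < p.2 := hc.trans_le hp.1
      show (1 : ℝ) ≤ 1 / p.2
      rw [le_div_iff₀ h0, one_mul]
      exact hp.2
    simpa using h3
  have hJ0 : 0 < J := by linarith
  set g := J⁻¹ with hg
  have hg0 : 0 < g := inv_pos.mpr hJ0
  have hgJ : g * J = 1 := inv_mul_cancel₀ hJ0.ne'
  set gb := ∫ p, p.2 ∂P with hgb
  set W := ∫ p, Phi θ p.1 / n * p.2 ∂P with hW
  set W2 := ∫ p, zz θ n p.1 ^ 2 * p.2 ∂P with hW2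
  set al := ∫ p, zz θ n p.1 * p.2 ∂P with hal
  set s := ∫ p, zz θ n p.1 ∂P with hs
  -- the quadratic form
  have hquad : ∀ x : ℝ, 0 ≤ W2 * (x * x) + (-2 * (al - g * s)) * x + (gb - g) := by
    intro x
    have e1 : ∀ᵐ p ∂P, p.2 * (x * zz θ n p.1 - (p.2 - g) / p.2) ^ 2 =
        (x * x) * (zz θ n p.1 ^ 2 * p.2) - 2 * x * (zz θ n p.1 * p.2) + 2 * x * g * zz θ n p.1 +
          (p.2 - 2 * g + g ^ 2 * (1 / p.2)) := by
      refine hP.mono fun p hp => ?_
      have h0 : p.2 ≠ 0 := (hc.trans_le hp.1).ne'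
      field_simp
      ring
    have e2 : 0 ≤ ∫ p, p.2 * (x * zz θ n p.1 - (p.2 - g) / p.2) ^ 2 ∂P := by
      refine integral_nonneg_of_ae (hP.mono fun p hp => ?_)
      have h0 : 0 ≤ p.2 := by linarith [hp.1]
      exact mul_nonneg h0 (sq_nonneg _)
    rw [integral_congr_ae e1] at e2
    have j1 : Integrable (fun p : ℝ × ℝ => (x * x) * (zz θ n p.1 ^ 2 * p.2) -
        2 * x * (zz θ n p.1 * p.2)) P := (izz.const_mul _).sub (izp.const_mul _)
    have j2 : Integrable (fun p : ℝ × ℝ => (x * x) * (zz θ n p.1 ^ 2 * p.2) -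
        2 * x * (zz θ n p.1 * p.2) + 2 * x * g * zz θ n p.1) P := j1.add (iz.const_mul _)
    have j3 : Integrable (fun p : ℝ × ℝ => p.2 - 2 * g) P := i2.sub (integrable_const _)
    have j4 : Integrable (fun p : ℝ × ℝ => p.2 - 2 * g + g ^ 2 * (1 / p.2)) P :=
      j3.add (ii.const_mul _)
    rw [integral_add j2 j4, integral_add j1 (iz.const_mul _),
      integral_sub (izz.const_mul _) (izp.const_mul _), integral_add j3 (ii.const_mul _),
      integral_sub i2 (integrable_const _), integral_const] at e2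
    simp only [integral_const_mul, probReal_univ, smul_eq_mul, one_mul] at e2
    rw [← hW2, ← hal, ← hs, ← hJ, ← hgb] at e2
    have e3 : g ^ 2 * J = g := by
      rw [sq, mul_assoc, hgJ, mul_one]
    rw [e3] at e2
    linarith
  have hQ : 0 ≤ gb - g := by
    have := hquad 0
    simpa using this
  have hW0 : 0 ≤ W := by
    refine integral_nonneg_of_ae (hP.mono fun p hp => ?_)
    have h0 : 0 ≤ p.2 := by linarith [hp.1]
    exact mul_nonneg (div_nonneg (Phi_nonneg _ _) hn.le) h0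
  have hW2W : W2 ≤ W := by
    refine integral_mono_ae izz iP (hP.mono fun p hp => ?_)
    have h0 : 0 ≤ p.2 := by linarith [hp.1]
    exact mul_le_mul_of_nonneg_right (zz_sq_le θ n p.1 hθ hn) h0
  refine ⟨⟨i2, iP, izp⟩, hW0, ?_, hg0, by linarith, ?_, ?_, ?_, ?_⟩
  · rw [← integral_div]
    refine integral_mono_ae iP (h2.div_const n) (hP.mono fun p hp => ?_)
    have h0 : 0 ≤ p.2 := by linarith [hp.1]
    have h1 : 0 ≤ Phi θ p.1 / n := div_nonneg (Phi_nonneg _ _) hn.le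
    calc Phi θ p.1 / n * p.2 ≤ Phi θ p.1 / n * 1 := mul_le_mul_of_nonneg_left hp.2 h1
      _ ≤ _ := by
        rw [mul_one]
        exact div_le_div_of_nonneg_right (Phi_le_sq _ _ hθ) hn.le
  · have h3 : gb ≤ ∫ _p : ℝ × ℝ, (1 : ℝ) ∂P :=
      integral_mono_ae i2 (integrable_const _) (hP.mono fun p hp => hp.2)
    simpa using h3
  · have h3 := discrim_le_zero hquad
    unfold discrim at h3
    have h4 : W2 * (gb - g) ≤ W * (gb - g) := mul_le_mul_of_nonneg_right hW2W hQ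
    linarith [(by ring : (-2 * (al - g * s)) ^ 2 = 4 * (al - g * s) ^ 2)]
  · rw [hs, ← integral_div, ← integral_sub iz (i1.div_const _)]
    have h3 : ∀ p : ℝ × ℝ, |zz θ n p.1 - p.1 / √n| ≤ θ * √n / 2 * (p.1 ^ 2 / n) := by
      intro p
      have e1 : zz θ n p.1 - p.1 / √n = (Real.sin (θ * p.1) - θ * p.1) / (θ * √n) := by
        unfold zz
        field_simp
      have h0 : 0 < θ * √n := mul_pos hθ hsn
      rw [e1, abs_div, abs_of_pos h0, div_le_iff₀ h0]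
      refine (abs_sin_sub_le _).trans (le_of_eq ?_)
      have e2 := Real.mul_self_sqrt hn.le
      have e3 : θ * √n / 2 * (p.1 ^ 2 / n) * (θ * √n) = (√n * √n) * (θ ^ 2 * p.1 ^ 2 / 2 / n) := by ring
      rw [e3, e2]
      field_simp
    calc |∫ p, (zz θ n p.1 - p.1 / √n) ∂P| ≤ ∫ p, |zz θ n p.1 - p.1 / √n| ∂P :=
          abs_integral_le_integral_abs
      _ ≤ ∫ p, θ * √n / 2 * (p.1 ^ 2 / n) ∂P :=
          integral_mono ((iz.sub (i1.div_const _)).abs) ((h2.div_const n).const_mul _) h3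
      _ = _ := by rw [integral_const_mul, integral_div]
  · have h3 : ∀ p : ℝ × ℝ, kap A p.2 = A * (2 * (1 / p.2) + p.2 - 3) := by
      intro p
      unfold kap
      rw [mul_one_div]
    have j1 : Integrable (fun p : ℝ × ℝ => 2 * (1 / p.2) + p.2) P := (ii.const_mul _).add i2
    simp only [h3]
    rw [integral_const_mul, integral_sub j1 (integrable_const _),
      integral_add (ii.const_mul _) i2, integral_const_mul, integral_const]
    simp only [probReal_univ, smul_eq_mul, one_mul]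
    rw [hg, div_inv_eq_mul]

end PtUi

open PtUi in
theorem pt_ui : St_real_ui → St_pt_ui := by
  intro hR P P' _ _ c hc hP hP' h2 h2' n θ A hn hθ hA hη V V' w w' g h hV hV' hw hw' hg hh
  obtain ⟨⟨i1, i2, i3⟩, f1, f2, f3, f4, f5, f6, f7, f8⟩ := one P c n θ A hc hP h2 hn hθ
  obtain ⟨⟨i1', i2', i3'⟩, f1', f2', f3', f4', f5', f6', f7', f8'⟩ :=
    one P' c n θ A hc hP' h2' hn hθ
  rw [← hw, ← hV] at f2
  rw [← hw] at f1
  rw [← hw'] at f1'
  rw [← hw', ← hV'] at f2'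
  rw [← hg] at f3 f4 f6 f8
  rw [← hh] at f3' f4' f6' f8'
  rw [← hw] at f6
  rw [← hw'] at f6'
  rw [← hV] at f7
  rw [← hV'] at f7'
  have hη0 : 0 < θ * √n := mul_pos hθ (Real.sqrt_pos.mpr hn)
  set N := ∫ z, Phi θ (z.1.1 + z.2.1) / (2 * n) * z.1.2 * z.2.2 ∂(P.prod P') with hN
  have hN0 : 0 ≤ N := by
    refine integral_nonneg_of_ae ?_
    have e1 : ∀ᵐ z ∂(P.prod P'), c ≤ z.1.2 := by
      have := Measure.quasiMeasurePreserving_fst (μ := P) (ν := P')
      exact this.ae (hP.mono fun p hp => hp.1)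
    have e2 : ∀ᵐ z ∂(P.prod P'), c ≤ z.2.2 := by
      have := Measure.quasiMeasurePreserving_snd (μ := P) (ν := P')
      exact this.ae (hP'.mono fun p hp => hp.1)
    filter_upwards [e1, e2] with z h3 h4
    have h5 : 0 ≤ z.1.2 := by linarith
    have h6 : 0 ≤ z.2.2 := by linarith
    exact mul_nonneg (mul_nonneg (div_nonneg (Phi_nonneg _ _) (by linarith)) h5) h6
  have hNeq : N = (w * (∫ p, p.2 ∂P') + w' * (∫ p, p.2 ∂P) - (θ * √n) ^ 2 / 2 * (w * w') +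
      2 * ((∫ p, zz θ n p.1 * p.2 ∂P) * (∫ p, zz θ n p.1 * p.2 ∂P'))) / 2 := by
    have e0 : (θ * √n) ^ 2 = θ ^ 2 * n := by rw [mul_pow, Real.sq_sqrt hn.le]
    have e1 : ∀ z : (ℝ × ℝ) × (ℝ × ℝ), Phi θ (z.1.1 + z.2.1) / (2 * n) * z.1.2 * z.2.2 =
        (1 / 2) * ((Phi θ z.1.1 / n * z.1.2) * z.2.2) + (1 / 2) * (z.1.2 * (Phi θ z.2.1 / n * z.2.2)) -
        θ ^ 2 * n / 4 * ((Phi θ z.1.1 / n * z.1.2) * (Phi θ z.2.1 / n * z.2.2)) +
        (zz θ n z.1.1 * z.1.2) * (zz θ n z.2.1 * z.2.2) := by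
      intro z
      rw [Phi_add θ z.1.1 z.2.1 n hθ hn]
      ring
    have k1 : Integrable (fun z : (ℝ × ℝ) × (ℝ × ℝ) => (Phi θ z.1.1 / n * z.1.2) * z.2.2)
        (P.prod P') := i2.mul_prod i1'
    have k2 : Integrable (fun z : (ℝ × ℝ) × (ℝ × ℝ) => z.1.2 * (Phi θ z.2.1 / n * z.2.2))
        (P.prod P') := i1.mul_prod i2'
    have k3 : Integrable (fun z : (ℝ × ℝ) × (ℝ × ℝ) => (Phi θ z.1.1 / n * z.1.2) *
        (Phi θ z.2.1 / n * z.2.2)) (P.prod P') := i2.mul_prod i2'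
    have k4 : Integrable (fun z : (ℝ × ℝ) × (ℝ × ℝ) => (zz θ n z.1.1 * z.1.2) *
        (zz θ n z.2.1 * z.2.2)) (P.prod P') := i3.mul_prod i3'
    have k12 : Integrable (fun z : (ℝ × ℝ) × (ℝ × ℝ) =>
        (1 / 2) * ((Phi θ z.1.1 / n * z.1.2) * z.2.2) +
          (1 / 2) * (z.1.2 * (Phi θ z.2.1 / n * z.2.2))) (P.prod P') :=
      (k1.const_mul _).add (k2.const_mul _)
    have k123 : Integrable (fun z : (ℝ × ℝ) × (ℝ × ℝ) =>
        (1 / 2) * ((Phi θ z.1.1 / n * z.1.2) * z.2.2) +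
          (1 / 2) * (z.1.2 * (Phi θ z.2.1 / n * z.2.2)) -
        θ ^ 2 * n / 4 * ((Phi θ z.1.1 / n * z.1.2) * (Phi θ z.2.1 / n * z.2.2))) (P.prod P') :=
      k12.sub (k3.const_mul _)
    rw [hN]
    simp only [e1]
    rw [integral_add k123 k4, integral_sub k12 (k3.const_mul _),
      integral_add (k1.const_mul _) (k2.const_mul _), integral_const_mul, integral_const_mul,
      integral_const_mul]
    rw [integral_prod_mul (fun p : ℝ × ℝ => Phi θ p.1 / n * p.2) (fun p : ℝ × ℝ => p.2),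
      integral_prod_mul (fun p : ℝ × ℝ => p.2) (fun p : ℝ × ℝ => Phi θ p.1 / n * p.2),
      integral_prod_mul (fun p : ℝ × ℝ => Phi θ p.1 / n * p.2)
        (fun p : ℝ × ℝ => Phi θ p.1 / n * p.2),
      integral_prod_mul (fun p : ℝ × ℝ => zz θ n p.1 * p.2) (fun p : ℝ × ℝ => zz θ n p.1 * p.2),
      ← hw, ← hw', e0]
    ring
  have key := hR A (θ * √n) V V' w w' (∫ p, p.2 ∂P) (∫ p, p.2 ∂P') g h
    (∫ p, zz θ n p.1 * p.2 ∂P) (∫ p, zz θ n p.1 * p.2 ∂P') ((∫ p, p.1 ∂P) / √n)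
    ((∫ p, p.1 ∂P') / √n) (∫ p, zz θ n p.1 ∂P) (∫ p, zz θ n p.1 ∂P')
    ((∫ p, zz θ n p.1 * p.2 ∂P) - g * ∫ p, zz θ n p.1 ∂P)
    ((∫ p, zz θ n p.1 * p.2 ∂P') - h * ∫ p, zz θ n p.1 ∂P') N hA hη0 hη f1 f1' f2 f2' f3 f4 f5 f3'
    f4' f5' (by ring) (by ring) f6 f6' f7 f7' hN0 hNeq
  rw [div_pow, div_pow, Real.sq_sqrt hn.le] at key
  rw [f8, f8']
  exact key

end Pool.Agent.Q42.UIC
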