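import Pool.Agent.Q42.UIC.Stm

/-! Project UIC, job pt_var (helper98). -/

set_option autoImplicit false

open MeasureTheory ProbabilityTheory

namespace Pool.Agent.Q42.UIC

namespace PtVar

variable (P : Measure ((ℝ × ℝ) × ℝ)) [IsProbabilityMeasure P] (c t n K v A₁ A₂ u : ℝ)

/-- bounded functions are integrable -/
theorem int_bdd (f : (ℝ × ℝ) × ℝ → ℝ) (hf : Measurable f) (C : ℝ) (h : ∀ᵐ p ∂P, |f p| ≤ C) :
    Integrable f P :=
  Integrable.of_bound hf.aestronglyMeasurable C (by simpa only [Real.norm_eq_abs] using h)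

/-- the facts on one of the two measures -/
theorem one (hc : 0 < c) (ht0 : 0 ≤ t) (ht : t ≤ 1 / 4) (hK : 0 ≤ K) (hv : 0 ≤ v) (hA₂ : 0 ≤ A₂)
    (hP : ∀ᵐ p ∂P, c ≤ p.2 ∧ p.2 ≤ 1 + t) (hE : ∀ᵐ p ∂P, 0 ≤ p.1.2 ∧ p.1.2 ≤ K * n)
    (h2 : Integrable (fun p : (ℝ × ℝ) × ℝ => p.1.1 ^ 2) P) (hn : 0 < n) :
    (Integrable (fun p : (ℝ × ℝ) × ℝ => p.2) P ∧
      Integrable (fun p : (ℝ × ℝ) × ℝ => ((p.1.1 ^ 2 - p.1.2) / n + v) * p.2) P ∧
      Integrable (fun p : (ℝ × ℝ) × ℝ => p.1.1 / √n * p.2) P) ∧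
    0 ≤ ∫ p, p.1.1 ^ 2 / n * p.2 ∂P ∧
    (∫ p, p.1.1 ^ 2 / n * p.2 ∂P) ≤ (∫ p, ((p.1.1 ^ 2 - p.1.2) / n + v) * p.2 ∂P) + 5 / 4 * K ∧
    0 < (∫ p, 1 / p.2 ∂P)⁻¹ ∧ (∫ p, 1 / p.2 ∂P)⁻¹ ≤ ∫ p, p.2 ∂P ∧ ∫ p, p.2 ∂P ≤ 1 + t ∧
    ((∫ p, p.1.1 / √n * p.2 ∂P) - (∫ p, 1 / p.2 ∂P)⁻¹ * ((∫ p, p.1.1 ∂P) / √n)) ^ 2 ≤
      (∫ p, p.1.1 ^ 2 / n * p.2 ∂P) * ((∫ p, p.2 ∂P) - (∫ p, 1 / p.2 ∂P)⁻¹) ∧
    kav A₁ A₂ v u (∫ p, 1 / p.2 ∂P)⁻¹ + (A₁ - v) * ((∫ p, p.2 ∂P) - (∫ p, 1 / p.2 ∂P)⁻¹) ≤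
      ∫ p, kav A₁ A₂ v u p.2 ∂P := by
  have hsn : 0 < √n := Real.sqrt_pos.mpr hn
  -- integrability
  have i2 : Integrable (fun p : (ℝ × ℝ) × ℝ => p.2) P := by
    refine int_bdd P _ measurable_snd (1 + t) (hP.mono fun p hp => ?_)
    rw [abs_of_nonneg (by linarith [hp.1])]
    exact hp.2
  have ii : Integrable (fun p : (ℝ × ℝ) × ℝ => 1 / p.2) P := by
    refine int_bdd P _ (measurable_const.div measurable_snd) (1 / c) (hP.mono fun p hp => ?_)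
    have h0 : 0 < p.2 := hc.trans_le hp.1
    rw [abs_of_nonneg (by positivity)]
    exact div_le_div_of_nonneg_left (by norm_num) hc hp.1
  have i1 : Integrable (fun p : (ℝ × ℝ) × ℝ => p.1.1) P := by
    refine ((integrable_const (1 : ℝ)).add h2).mono
      (by fun_prop : Measurable fun p : (ℝ × ℝ) × ℝ => p.1.1).aestronglyMeasurable
      (Filter.Eventually.of_forall fun p => ?_)
    simp only [Pi.add_apply]
    rw [Real.norm_eq_abs, Real.norm_eq_abs, abs_of_nonneg (by positivity : 0 ≤ 1 + p.1.1 ^ 2), abs_le]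
    constructor <;> nlinarith [sq_nonneg (p.1.1 - 1), sq_nonneg (p.1.1 + 1)]
  have i3 : Integrable (fun p : (ℝ × ℝ) × ℝ => p.1.2) P := by
    refine int_bdd P _ (by fun_prop) (K * n) (hE.mono fun p hp => ?_)
    rw [abs_of_nonneg hp.1]
    exact hp.2
  have hbd : ∀ᵐ p ∂P, ‖p.2‖ ≤ 1 + t := hP.mono fun p hp => by
    rw [Real.norm_eq_abs, abs_of_nonneg (by linarith [hp.1])]
    exact hp.2
  have mul_w : ∀ f : (ℝ × ℝ) × ℝ → ℝ, Integrable f P → Integrable (fun p => f p * p.2) P := by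
    intro f hf
    exact hf.mul_bdd (c := 1 + t) measurable_snd.aestronglyMeasurable hbd
  have iS : Integrable (fun p : (ℝ × ℝ) × ℝ => p.1.1 ^ 2 / n * p.2) P := mul_w _ (h2.div_const n)
  have iw : Integrable (fun p : (ℝ × ℝ) × ℝ => ((p.1.1 ^ 2 - p.1.2) / n + v) * p.2) P :=
    mul_w _ (((h2.sub i3).div_const n).add (integrable_const v))
  have iz : Integrable (fun p : (ℝ × ℝ) × ℝ => p.1.1 / √n) P := i1.div_const _
  have izp : Integrable (fun p : (ℝ × ℝ) × ℝ => p.1.1 / √n * p.2) P := mul_w _ iz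
  set J := ∫ p, 1 / p.2 ∂P with hJ
  have hJ1 : 1 / (1 + t) ≤ J := by
    have h3 : (∫ _p : (ℝ × ℝ) × ℝ, (1 / (1 + t) : ℝ) ∂P) ≤ J := by
      refine integral_mono_ae (integrable_const _) ii (hP.mono fun p hp => ?_)
      have h0 : 0 < p.2 := hc.trans_le hp.1
      exact div_le_div_of_nonneg_left (by norm_num) h0 hp.2
    simpa using h3
  have hJ0 : 0 < J := lt_of_lt_of_le (by positivity) hJ1
  set g := J⁻¹ with hg
  have hg0 : 0 < g := inv_pos.mpr hJ0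
  have hgJ : g * J = 1 := inv_mul_cancel₀ hJ0.ne'
  set gb := ∫ p, p.2 ∂P with hgb
  set U := ∫ p, p.1.1 ^ 2 / n * p.2 ∂P with hU
  set w := ∫ p, ((p.1.1 ^ 2 - p.1.2) / n + v) * p.2 ∂P with hw
  set al := ∫ p, p.1.1 / √n * p.2 ∂P with hal
  have hs : (∫ p, p.1.1 ∂P) / √n = ∫ p, p.1.1 / √n ∂P := by rw [integral_div]
  rw [hs]
  set s := ∫ p, p.1.1 / √n ∂P with hs'
  -- the quadratic form
  have hquad : ∀ x : ℝ, 0 ≤ U * (x * x) + (-2 * (al - g * s)) * x + (gb - g) := by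
    intro x
    have e1 : ∀ᵐ p ∂P, p.2 * (x * (p.1.1 / √n) - (p.2 - g) / p.2) ^ 2 =
        (x * x) * (p.1.1 ^ 2 / n * p.2) - 2 * x * (p.1.1 / √n * p.2) + 2 * x * g * (p.1.1 / √n) +
          (p.2 - 2 * g + g ^ 2 * (1 / p.2)) := by
      refine hP.mono fun p hp => ?_
      have h0 : p.2 ≠ 0 := (hc.trans_le hp.1).ne'
      have h5 : p.1.1 ^ 2 / n = (p.1.1 / √n) ^ 2 := by rw [div_pow, Real.sq_sqrt hn.le]
      rw [h5]
      generalize p.1.1 / √n = y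
      field_simp
      ring
    have e2 : 0 ≤ ∫ p, p.2 * (x * (p.1.1 / √n) - (p.2 - g) / p.2) ^ 2 ∂P := by
      refine integral_nonneg_of_ae (hP.mono fun p hp => ?_)
      have h0 : 0 ≤ p.2 := by linarith [hp.1]
      exact mul_nonneg h0 (sq_nonneg _)
    rw [integral_congr_ae e1] at e2
    have j1 : Integrable (fun p : (ℝ × ℝ) × ℝ => (x * x) * (p.1.1 ^ 2 / n * p.2) -
        2 * x * (p.1.1 / √n * p.2)) P := (iS.const_mul _).sub (izp.const_mul _)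
    have j2 : Integrable (fun p : (ℝ × ℝ) × ℝ => (x * x) * (p.1.1 ^ 2 / n * p.2) -
        2 * x * (p.1.1 / √n * p.2) + 2 * x * g * (p.1.1 / √n)) P := j1.add (iz.const_mul _)
    have j3 : Integrable (fun p : (ℝ × ℝ) × ℝ => p.2 - 2 * g) P := i2.sub (integrable_const _)
    have j4 : Integrable (fun p : (ℝ × ℝ) × ℝ => p.2 - 2 * g + g ^ 2 * (1 / p.2)) P :=
      j3.add (ii.const_mul _)
    rw [integral_add j2 j4, integral_add j1 (iz.const_mul _),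
      integral_sub (iS.const_mul _) (izp.const_mul _), integral_add j3 (ii.const_mul _),
      integral_sub i2 (integrable_const _), integral_const] at e2
    simp only [integral_const_mul, probReal_univ, smul_eq_mul, one_mul] at e2
    rw [← hU, ← hal, ← hs', ← hJ, ← hgb] at e2
    have e3 : g ^ 2 * J = g := by
      rw [sq, mul_assoc, hgJ, mul_one]
    rw [e3] at e2
    linarith
  have hQ : 0 ≤ gb - g := by
    have := hquad 0
    simpa using this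
  have hU0 : 0 ≤ U := by
    refine integral_nonneg_of_ae (hP.mono fun p hp => ?_)
    have h0 : 0 ≤ p.2 := by linarith [hp.1]
    exact mul_nonneg (div_nonneg (sq_nonneg _) hn.le) h0
  refine ⟨⟨i2, iw, izp⟩, hU0, ?_, hg0, by linarith, ?_, ?_, ?_⟩
  · have h3 : U - w ≤ ∫ _p : (ℝ × ℝ) × ℝ, 5 / 4 * K ∂P := by
      rw [hU, hw, ← integral_sub iS iw]
      refine integral_mono_ae (iS.sub iw) (integrable_const _) ?_
      filter_upwards [hP, hE] with p hp he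
      have h0 : 0 ≤ p.2 := by linarith [hp.1]
      have h5 : p.1.2 / n ≤ K := by rw [div_le_iff₀ hn]; exact he.2
      have h6 : p.1.1 ^ 2 / n * p.2 - ((p.1.1 ^ 2 - p.1.2) / n + v) * p.2 =
          (p.1.2 / n - v) * p.2 := by ring
      show p.1.1 ^ 2 / n * p.2 - ((p.1.1 ^ 2 - p.1.2) / n + v) * p.2 ≤ 5 / 4 * K
      rw [h6]
      calc (p.1.2 / n - v) * p.2 ≤ K * p.2 := mul_le_mul_of_nonneg_right (by linarith) h0
        _ ≤ K * (5 / 4) := mul_le_mul_of_nonneg_left (by linarith [hp.2]) hK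
        _ = _ := by ring
    simp only [integral_const, probReal_univ, smul_eq_mul, one_mul] at h3
    linarith
  · have h3 : gb ≤ ∫ _p : (ℝ × ℝ) × ℝ, (1 + t : ℝ) ∂P :=
      integral_mono_ae i2 (integrable_const _) (hP.mono fun p hp => hp.2)
    simpa using h3
  · have h3 := discrim_le_zero hquad
    unfold discrim at h3
    linarith [(by ring : (-2 * (al - g * s)) ^ 2 = 4 * (al - g * s) ^ 2)]
  · have im : Integrable (fun p : (ℝ × ℝ) × ℝ => max (1 / p.2 - u) 0) P :=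
      (ii.sub (integrable_const u)).pos_part
    have hJen : max (1 / g - u) 0 ≤ ∫ p, max (1 / p.2 - u) 0 ∂P := by
      have e1 : 1 / g - u = ∫ p, (1 / p.2 - u) ∂P := by
        rw [integral_sub ii (integrable_const _), integral_const, ← hJ, hg, one_div, inv_inv]
        simp only [probReal_univ, smul_eq_mul, one_mul]
      refine max_le ?_ (integral_nonneg fun p => le_max_right _ _)
      rw [e1]
      exact integral_mono (ii.sub (integrable_const _)) im fun p => le_max_left _ _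
    have h3 : ∀ p : (ℝ × ℝ) × ℝ, kav A₁ A₂ v u p.2 =
        (A₁ * (1 / p.2) + (A₁ - v) * p.2 + (v - 2 * A₁)) + A₂ * max (1 / p.2 - u) 0 := by
      intro p
      unfold kav
      ring
    have j1 : Integrable (fun p : (ℝ × ℝ) × ℝ => A₁ * (1 / p.2) + (A₁ - v) * p.2) P :=
      (ii.const_mul _).add (i2.const_mul _)
    have j2 : Integrable (fun p : (ℝ × ℝ) × ℝ => A₁ * (1 / p.2) + (A₁ - v) * p.2 + (v - 2 * A₁)) P :=
      j1.add (integrable_const _)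
    simp only [h3]
    rw [integral_add j2 (im.const_mul _), integral_add j1 (integrable_const _),
      integral_add (ii.const_mul _) (i2.const_mul _), integral_const]
    simp only [integral_const_mul, probReal_univ, smul_eq_mul, one_mul]
    rw [← hJ, ← hgb]
    have h4 := mul_le_mul_of_nonneg_left hJen hA₂
    have h5 : 1 / g = J := by rw [hg, one_div, inv_inv]
    unfold kav
    rw [h5] at h4 ⊢
    linarith

end PtVar

open PtVar in
theorem pt_var : St_real_var → St_pt_var := by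
  intro hR P P' _ _ c t K n hc ht0 ht hn hK hP hP' hE hE' h2 h2' A₁ A₂ v hA₁ hA₂ hv h8 U U' w w' g h
    hU hU' hw hw' hg hh
  obtain ⟨⟨i1, i2, i3⟩, f1, f2, f3, f4, f5, f6, f7⟩ :=
    one P c t n K v A₁ A₂ (1 / (1 - t)) hc ht0 ht hK hv hA₂ hP hE h2 hn
  obtain ⟨⟨i1', i2', i3'⟩, f1', f2', f3', f4', f5', f6', f7'⟩ :=
    one P' c t n K v A₁ A₂ (1 / (1 - t)) hc ht0 ht hK hv hA₂ hP' hE' h2' hn
  rw [← hU] at f1 f2 f6
  rw [← hw] at f2
  rw [← hU'] at f1' f2' f6'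
  rw [← hw'] at f2'
  rw [← hg] at f3 f4 f6 f7
  rw [← hh] at f3' f4' f6' f7'
  set N := ∫ z, (((z.1.1.1 + z.2.1.1) ^ 2 - (z.1.1.2 + z.2.1.2)) / (2 * n) + v) * z.1.2 * z.2.2
    ∂(P.prod P') with hN
  have hNeq : N = (w * (∫ p, p.2 ∂P') + w' * (∫ p, p.2 ∂P)) / 2 +
      (∫ p, p.1.1 / √n * p.2 ∂P) * (∫ p, p.1.1 / √n * p.2 ∂P') := by
    have e1 : ∀ z : ((ℝ × ℝ) × ℝ) × ((ℝ × ℝ) × ℝ),
        (((z.1.1.1 + z.2.1.1) ^ 2 - (z.1.1.2 + z.2.1.2)) / (2 * n) + v) * z.1.2 * z.2.2 =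
        (1 / 2) * ((((z.1.1.1 ^ 2 - z.1.1.2) / n + v) * z.1.2) * z.2.2) +
          (1 / 2) * (z.1.2 * (((z.2.1.1 ^ 2 - z.2.1.2) / n + v) * z.2.2)) +
        (z.1.1.1 / √n * z.1.2) * (z.2.1.1 / √n * z.2.2) := by
      intro z
      have e2 : (z.1.1.1 / √n * z.1.2) * (z.2.1.1 / √n * z.2.2) =
          z.1.1.1 * z.2.1.1 / n * (z.1.2 * z.2.2) := by
        have e3 : (z.1.1.1 / √n * z.1.2) * (z.2.1.1 / √n * z.2.2) =
            z.1.1.1 * z.2.1.1 / (√n * √n) * (z.1.2 * z.2.2) := by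
          rw [← div_mul_div_comm]
          ring
        rw [e3, Real.mul_self_sqrt hn.le]
      rw [e2]
      field_simp
      ring
    have k1 : Integrable (fun z : ((ℝ × ℝ) × ℝ) × ((ℝ × ℝ) × ℝ) =>
        (((z.1.1.1 ^ 2 - z.1.1.2) / n + v) * z.1.2) * z.2.2) (P.prod P') := i2.mul_prod i1'
    have k2 : Integrable (fun z : ((ℝ × ℝ) × ℝ) × ((ℝ × ℝ) × ℝ) =>
        z.1.2 * (((z.2.1.1 ^ 2 - z.2.1.2) / n + v) * z.2.2)) (P.prod P') := i1.mul_prod i2'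
    have k4 : Integrable (fun z : ((ℝ × ℝ) × ℝ) × ((ℝ × ℝ) × ℝ) =>
        (z.1.1.1 / √n * z.1.2) * (z.2.1.1 / √n * z.2.2)) (P.prod P') := i3.mul_prod i3'
    have k12 : Integrable (fun z : ((ℝ × ℝ) × ℝ) × ((ℝ × ℝ) × ℝ) =>
        (1 / 2) * ((((z.1.1.1 ^ 2 - z.1.1.2) / n + v) * z.1.2) * z.2.2) +
          (1 / 2) * (z.1.2 * (((z.2.1.1 ^ 2 - z.2.1.2) / n + v) * z.2.2))) (P.prod P') :=
      (k1.const_mul _).add (k2.const_mul _)
    rw [hN]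
    simp only [e1]
    rw [integral_add k12 k4, integral_add (k1.const_mul _) (k2.const_mul _), integral_const_mul,
      integral_const_mul]
    rw [integral_prod_mul (fun p : (ℝ × ℝ) × ℝ => ((p.1.1 ^ 2 - p.1.2) / n + v) * p.2)
        (fun p : (ℝ × ℝ) × ℝ => p.2),
      integral_prod_mul (fun p : (ℝ × ℝ) × ℝ => p.2)
        (fun p : (ℝ × ℝ) × ℝ => ((p.1.1 ^ 2 - p.1.2) / n + v) * p.2),
      integral_prod_mul (fun p : (ℝ × ℝ) × ℝ => p.1.1 / √n * p.2)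
        (fun p : (ℝ × ℝ) × ℝ => p.1.1 / √n * p.2),
      ← hw, ← hw']
    ring
  have key := hR A₁ A₂ v K t U U' w w' (∫ p, p.2 ∂P) (∫ p, p.2 ∂P') g h
    (∫ p, p.1.1 / √n * p.2 ∂P) (∫ p, p.1.1 / √n * p.2 ∂P') ((∫ p, p.1.1 ∂P) / √n)
    ((∫ p, p.1.1 ∂P') / √n)
    ((∫ p, p.1.1 / √n * p.2 ∂P) - g * ((∫ p, p.1.1 ∂P) / √n))
    ((∫ p, p.1.1 / √n * p.2 ∂P') - h * ((∫ p, p.1.1 ∂P') / √n)) N
    (∫ p, kav A₁ A₂ v (1 / (1 - t)) p.2 ∂P) (∫ p, kav A₁ A₂ v (1 / (1 - t)) p.2 ∂P')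
    hA₁ hA₂ hv hK h8 ht0 ht f1 f1' f2 f2' f3 f4 f5 f3' f4' f5' (by ring) (by ring) f6 f6' hNeq f7 f7'
  rw [div_pow, div_pow, Real.sq_sqrt hn.le] at key
  exact key

end Pool.Agent.Q42.UIC
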