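import Pool.Agent.Q42.UIC.Stm

/-! Project UIC, job real_ui (helper98). -/

set_option autoImplicit false

namespace Pool.Agent.Q42.UIC

namespace RealUi

/-- the fallback value -/
theorem fallback (A w : ℝ) (hA : 0 < A) (hw : 0 ≤ w) :
    w * (√A / (√A + √w)) + kap A (√A / (√A + √w)) ≤ 3 * (√A * √w) := by
  have hx : 0 < √A := Real.sqrt_pos.mpr hA
  have hy : 0 ≤ √w := Real.sqrt_nonneg w
  have hx2 : √A * √A = A := Real.mul_self_sqrt hA.le
  have hy2 : √w * √w = w := Real.mul_self_sqrt hw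
  have h1 : w * (√A / (√A + √w)) ≤ √A * √w := by
    rw [← mul_div_assoc, div_le_iff₀ (by positivity)]
    nth_rewrite 1 [← hy2]
    nlinarith [mul_nonneg (mul_nonneg hx.le hx.le) hy]
  have h2 : √A / (√A + √w) ≤ 1 := by
    rw [div_le_one (by positivity)]
    linarith
  have h30 : ∀ x y : ℝ, 0 < x → 0 ≤ y → x * x * (2 / (x / (x + y))) = 2 * (x * x) + 2 * (x * y) := by
    intro x y hx hy
    field_simp
  have h3 : A * (2 / (√A / (√A + √w))) = 2 * A + 2 * (√A * √w) := by
    have h31 := h30 √A √w hx hy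
    rw [hx2] at h31
    exact h31
  have h4 : kap A (√A / (√A + √w)) ≤ 2 * (√A * √w) := by
    unfold kap
    rw [mul_sub, mul_add, h3]
    nlinarith
  linarith

theorem kap_nonneg (A g : ℝ) (hA : 0 < A) (hg : 0 < g) (hg1 : g ≤ 1) : 0 ≤ kap A g := by
  unfold kap
  have h1 : 2 / g + g - 3 = (1 - g) * (2 - g) / g := by
    field_simp
    ring
  rw [h1]
  exact mul_nonneg hA.le (div_nonneg (mul_nonneg (by linarith) (by linarith)) hg.le)

/-- one of the two mixed terms -/
theorem bracket (A w h q kt s T : ℝ) (hA : 0 < A) (hw : 0 ≤ w) (hh : 0 < h) (hh1 : h ≤ 1)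
    (hq : 0 ≤ q) (hq1 : q ≤ 1) (hkt : kt ^ 2 ≤ w * q)
    (hT : T = if w * h ^ 2 ≤ 32 * A then h else √A / (√A + √w)) :
    -(16 * s ^ 2) ≤ ((w * h + kap A h) - (w * T + kap A T)) / 2 + A * q / 2 + kt * (h * s) := by
  by_cases hc : w * h ^ 2 ≤ 32 * A
  · rw [if_pos hc] at hT
    rw [hT]
    have h1 : (kt * (h * s)) ^ 2 ≤ (A * q / 2 + 16 * s ^ 2) ^ 2 := by
      have h2 : (kt * (h * s)) ^ 2 ≤ (32 * A) * q * s ^ 2 := by
        have e1 : (kt * (h * s)) ^ 2 = kt ^ 2 * (h ^ 2 * s ^ 2) := by ring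
        rw [e1]
        calc kt ^ 2 * (h ^ 2 * s ^ 2) ≤ (w * q) * (h ^ 2 * s ^ 2) :=
              mul_le_mul_of_nonneg_right hkt (by positivity)
          _ = (w * h ^ 2) * (q * s ^ 2) := by ring
          _ ≤ (32 * A) * (q * s ^ 2) := mul_le_mul_of_nonneg_right hc (by positivity)
          _ = _ := by ring
      nlinarith [sq_nonneg (A * q / 2 - 16 * s ^ 2)]
    have h3 := abs_le_of_sq_le_sq h1 (by positivity)
    have h4 := (abs_le.mp h3).1
    linarith
  · rw [if_neg hc] at hT
    rw [not_le] at hc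
    have hfb := fallback A w hA hw
    rw [← hT] at hfb
    have hk := kap_nonneg A h hA hh hh1
    -- `3 √(A w) ≤ 0.54 w h`
    have h1 : √A * √w ≤ 0.18 * (w * h) := by
      rw [← Real.sqrt_mul hA.le]
      refine Real.sqrt_le_iff.mpr ⟨by positivity, ?_⟩
      have h2 : A * w ≤ (w * h ^ 2 / 32) * w := mul_le_mul_of_nonneg_right (by linarith) hw
      nlinarith [mul_nonneg (mul_nonneg hw hw) (sq_nonneg h)]
    have h3 : (kt * (h * s)) ^ 2 ≤ (0.2 * (w * h) + 1.25 * s ^ 2) ^ 2 := by
      have h4 : (kt * (h * s)) ^ 2 ≤ (w * h) * s ^ 2 := by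
        have e1 : (kt * (h * s)) ^ 2 = kt ^ 2 * (h ^ 2 * s ^ 2) := by ring
        rw [e1]
        calc kt ^ 2 * (h ^ 2 * s ^ 2) ≤ (w * q) * (h ^ 2 * s ^ 2) :=
              mul_le_mul_of_nonneg_right hkt (by positivity)
          _ = (w * h * s ^ 2) * (q * h) := by ring
          _ ≤ (w * h * s ^ 2) * 1 := by
              refine mul_le_mul_of_nonneg_left ?_ (by positivity)
              nlinarith
          _ = _ := by ring
      nlinarith [sq_nonneg (0.2 * (w * h) - 1.25 * s ^ 2)]
    have h5 := abs_le_of_sq_le_sq h3 (by positivity)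
    have h6 := (abs_le.mp h5).1
    have h7 : 0 ≤ A * q := by positivity
    have h8 : 0 ≤ w * h := by positivity
    nlinarith [sq_nonneg s]

end RealUi

open RealUi in
theorem real_ui : St_real_ui := by
  intro A η V V' w w' gb hb g h al rho a a' s s' kt kk N hA hη0 hη1 hw0 hw0' hwV hwV' hg hgb hgb1
    hh hhb hhb1 hal hrho hkt hkk hs hs' hN0 hN
  have hV : 0 ≤ V := hw0.trans hwV
  have hV' : 0 ≤ V' := hw0'.trans hwV'
  have hg1 : g ≤ 1 := hgb.trans hgb1
  have hh1 : h ≤ 1 := hhb.trans hhb1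
  have hsA : 0 ≤ √A := Real.sqrt_nonneg A
  have hsη : 0 < √η := Real.sqrt_pos.mpr hη0
  have hsη2 : √η * √η = η := Real.mul_self_sqrt hη0.le
  have hkg : A * (2 / g + gb - 3) = kap A g + A * (gb - g) := by unfold kap; ring
  have hkh : A * (2 / h + hb - 3) = kap A h + A * (hb - h) := by unfold kap; ring
  have hkg0 := kap_nonneg A g hA hg hg1
  have hkh0 := kap_nonneg A h hA hh hh1
  rw [hkg, hkh]
  by_cases hgood : V ≤ 1 / η ∧ V' ≤ 1 / η
  · obtain ⟨hV1, hV1'⟩ := hgood
    have hηV : η * V ≤ 1 := by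
      rw [le_div_iff₀ hη0] at hV1
      linarith
    have hηV' : η * V' ≤ 1 := by
      rw [le_div_iff₀ hη0] at hV1'
      linarith
    have hT1 : tst A η V V' w h = if w * h ^ 2 ≤ 32 * A then h else √A / (√A + √w) := by
      unfold tst
      simp only [hV1, hV1', true_and]
    have hT2 : tst A η V V' w' g = if w' * g ^ 2 ≤ 32 * A then g else √A / (√A + √w') := by
      unfold tst
      simp only [hV1, hV1', true_and]
    have b1 := bracket A w h (gb - g) kt s' _ hA hw0 hh hh1 (by linarith) (by linarith) hkt hT1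
    have b2 := bracket A w' g (hb - h) kk s _ hA hw0' hg hg1 (by linarith) (by linarith) hkk hT2
    -- the product of the fluctuations
    have h1 : |kt * kk| ≤ (w' * (gb - g) + w * (hb - h)) / 2 := by
      refine abs_le_of_sq_le_sq ?_ (by
        have := mul_nonneg hw0' (sub_nonneg.mpr hgb)
        have := mul_nonneg hw0 (sub_nonneg.mpr hhb)
        linarith)
      have h2 : (kt * kk) ^ 2 ≤ (w * (gb - g)) * (w' * (hb - h)) := by
        rw [mul_pow]
        exact mul_le_mul hkt hkk (sq_nonneg _) (mul_nonneg hw0 (sub_nonneg.mpr hgb))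
      have h3 := sq_nonneg (w' * (gb - g) - w * (hb - h))
      refine h2.trans ?_
      linarith [(by ring : ((w' * (gb - g) + w * (hb - h)) / 2) ^ 2 -
        (w * (gb - g)) * (w' * (hb - h)) = (w' * (gb - g) - w * (hb - h)) ^ 2 / 4)]
    have h2 := (abs_le.mp h1).1
    -- the product of the means
    have h3 : |g * h * (s * s')| ≤ (s ^ 2 + s' ^ 2) / 2 := by
      rw [abs_mul, abs_of_pos (mul_pos hg hh)]
      have h4 : g * h ≤ 1 := mul_le_one₀ hg1 hh.le hh1
      have h5 : |s * s'| ≤ (s ^ 2 + s' ^ 2) / 2 := by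
        have e1 := sq_nonneg (s + s')
        have e2 := sq_nonneg (s - s')
        rw [abs_le]
        constructor
        · linarith [e1, (by ring : (s + s') ^ 2 = s ^ 2 + 2 * (s * s') + s' ^ 2)]
        · linarith [e2, (by ring : (s - s') ^ 2 = s ^ 2 - 2 * (s * s') + s' ^ 2)]
      calc g * h * |s * s'| ≤ 1 * |s * s'| := mul_le_mul_of_nonneg_right h4 (abs_nonneg _)
        _ ≤ _ := by rw [one_mul]; exact h5
    have h4 := (abs_le.mp h3).1
    -- bounds for `s`, `s'`
    have h5 : ∀ (x y v : ℝ), 0 ≤ v → η * v ≤ 1 → |x - y| ≤ η / 2 * v →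
        x ^ 2 ≤ 2 * y ^ 2 + η * v / 2 := by
      intro x y v hv hηv hxy
      have e1 : (x - y) ^ 2 ≤ (η / 2 * v) ^ 2 := by
        rw [← sq_abs (x - y)]
        exact pow_le_pow_left₀ (abs_nonneg _) hxy 2
      have e2 : (η / 2 * v) ^ 2 ≤ η * v / 4 := by
        have e3 : 0 ≤ η * v := by positivity
        have e4 := mul_le_mul_of_nonneg_left hηv e3
        linarith [(by ring : (η / 2 * v) ^ 2 = (η * v) * (η * v) / 4)]
      have e5 := sq_nonneg (x - 2 * y)
      linarith [(by ring : 2 * y ^ 2 + 2 * (x - y) ^ 2 - x ^ 2 = (x - 2 * y) ^ 2)]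
    have h6 := h5 s a V hV hηV hs
    have h7 := h5 s' a' V' hV' hηV' hs'
    have h8 : η ^ 2 * (w * w') ≤ η * V' := by
      have e1 : w * w' ≤ V * V' := mul_le_mul hwV hwV' hw0' hV
      calc η ^ 2 * (w * w') ≤ η ^ 2 * (V * V') := mul_le_mul_of_nonneg_left e1 (by positivity)
        _ = (η * V) * (η * V') := by ring
        _ ≤ 1 * (η * V') := mul_le_mul_of_nonneg_right hηV (by positivity)
        _ = _ := one_mul _
    have h9 : η ≤ √η := by
      have e1 : √η ≤ 1 := Real.sqrt_le_one.mpr hη1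
      have e2 := mul_le_mul_of_nonneg_left e1 hsη.le
      linarith
    have h10 : η * (V + V') ≤ (1 + √A) * √η * (V + V') := by
      refine mul_le_mul_of_nonneg_right ?_ (by linarith)
      have e1 := mul_nonneg hsA hsη.le
      linarith
    have h11 : N = (w * h + w' * g) / 2 + ((w' * (gb - g) + w * (hb - h)) / 2 + kt * kk) +
        kt * (h * s') + kk * (g * s) + g * h * (s * s') - η ^ 2 * (w * w') / 4 := by
      rw [hN, hal, hrho]
      ring
    have h12 : 0 ≤ η * V := mul_nonneg hη0.le hV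
    have h13 : 0 ≤ η * V' := mul_nonneg hη0.le hV'
    have h14 : η * (V + V') = η * V + η * V' := mul_add _ _ _
    have h15 := sq_nonneg a
    have h16 := sq_nonneg a'
    rw [h11]
    linarith
  · -- the bad case
    have hT1 : tst A η V V' w h = √A / (√A + √w) := by
      unfold tst
      rw [if_neg]
      exact fun hcon => hgood ⟨hcon.1, hcon.2.1⟩
    have hT2 : tst A η V V' w' g = √A / (√A + √w') := by
      unfold tst
      rw [if_neg]
      exact fun hcon => hgood ⟨hcon.1, hcon.2.1⟩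
    rw [hT1, hT2]
    have f1 := fallback A w hA hw0
    have f2 := fallback A w' hA hw0'
    have hbig : 1 ≤ η * (V + V') := by
      by_contra hcon
      rw [not_le] at hcon
      apply hgood
      have e1 := mul_nonneg hη0.le hV
      have e2 := mul_nonneg hη0.le hV'
      rw [mul_add] at hcon
      constructor
      · rw [le_div_iff₀ hη0]
        linarith [mul_comm V η]
      · rw [le_div_iff₀ hη0]
        linarith [mul_comm V' η]
    have h1 : √(V + V') ≤ √η * (V + V') := by
      have e1 : 0 ≤ √(V + V') := Real.sqrt_nonneg _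
      have e2 : √(V + V') * √(V + V') = V + V' := Real.mul_self_sqrt (by linarith)
      have e3 : 1 ≤ √η * √(V + V') := by
        rw [← Real.sqrt_mul hη0.le, Real.le_sqrt' one_pos]
        linarith
      have e4 : √η * (V + V') = (√η * √(V + V')) * √(V + V') := by
        rw [mul_assoc, e2]
      rw [e4]
      exact le_mul_of_one_le_left e1 e3
    have h2 : √w ≤ √(V + V') := Real.sqrt_le_sqrt (by linarith)
    have h3 : √w' ≤ √(V + V') := Real.sqrt_le_sqrt (by linarith)
    have h4 : 0 ≤ √η * (V + V') := by positivity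
    have h5 : √A * √w + √A * √w' ≤ 2 * (√A * (√η * (V + V'))) := by
      have e1 := mul_le_mul_of_nonneg_left (h2.trans h1) hsA
      have e2 := mul_le_mul_of_nonneg_left (h3.trans h1) hsA
      linarith
    have h6 : 0 ≤ √A * (√η * (V + V')) := mul_nonneg hsA h4
    have h7 : 0 ≤ A * (gb - g) := mul_nonneg hA.le (by linarith)
    have h8 : 0 ≤ A * (hb - h) := mul_nonneg hA.le (by linarith)
    have h9 := sq_nonneg a
    have h10 := sq_nonneg a'
    have h11 : 40 * (1 + √A) * √η * (V + V') =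
        40 * (√η * (V + V')) + 40 * (√A * (√η * (V + V'))) := by ring
    rw [h11]
    linarith

end Pool.Agent.Q42.UIC
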