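import Pool.Agent.Q42.UIC.Stm

/-! Project UIC, job real_var (helper98). -/

set_option autoImplicit false

namespace Pool.Agent.Q42.UIC

namespace RealVar

theorem kav_half (A₁ A₂ v u h : ℝ) (hA₁ : 0 < A₁) (hA₂ : 0 ≤ A₂) (hh : 0 < h) :
    kav A₁ A₂ v u (h / 2) - kav A₁ A₂ v u h ≤ (A₁ + A₂) * (1 / h) + v * h / 2 := by
  unfold kav
  have h1 : 1 / (h / 2) = 2 * (1 / h) := by field_simp
  rw [h1]
  have h2 : 0 < 1 / h := by positivity
  have h3 : max (2 * (1 / h) - u) 0 ≤ max (1 / h - u) 0 + 1 / h := by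
    refine max_le ?_ ?_
    · have := le_max_left (1 / h - u) 0
      linarith
    · have := le_max_right (1 / h - u) 0
      linarith
  have h4 := mul_le_mul_of_nonneg_left h3 hA₂
  have h5 : 0 ≤ A₁ * h := by positivity
  linarith [(by ring : A₁ * (2 * (1 / h) + h / 2 - 2) - A₁ * (1 / h + h - 2) =
    A₁ * (1 / h) - A₁ * h / 2)]

/-- one of the two mixed terms -/
theorem bracket (A₁ A₂ v K u U w h q kt s T : ℝ) (hA₁ : 0 < A₁) (hA₂ : 0 ≤ A₂) (hv : 0 ≤ v)
    (hK : 0 ≤ K) (h8 : 8 * (K + v) ≤ A₁) (hU : 0 ≤ U) (hUw : U ≤ w + 5 / 4 * K) (hh : 0 < h)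
    (hh1 : h ≤ 5 / 4) (hq : 0 ≤ q) (hq1 : q ≤ 5 / 4) (hkt : kt ^ 2 ≤ U * q)
    (hT : T = tsv (32 * (A₁ + A₂ + K)) U h) :
    -(32 * ((A₁ + A₂ + K) / A₁) * s ^ 2) ≤
      ((w * h + kav A₁ A₂ v u h) - (w * T + kav A₁ A₂ v u T)) / 2 + A₁ * q / 4 + kt * (h * s) := by
  have hM : 1 ≤ (A₁ + A₂ + K) / A₁ := by
    rw [le_div_iff₀ hA₁]
    linarith
  unfold tsv at hT
  by_cases hc : U * h ^ 2 ≤ 32 * (A₁ + A₂ + K)
  · rw [if_pos hc] at hT
    rw [hT]
    set M := (A₁ + A₂ + K) / A₁ with hMdef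
    have hL : A₁ + A₂ + K = M * A₁ := by
      rw [hMdef]
      field_simp
    rw [hL] at hc
    have h1 : (kt * (h * s)) ^ 2 ≤ (A₁ * q / 4 + 32 * M * s ^ 2) ^ 2 := by
      have h2 : (kt * (h * s)) ^ 2 ≤ 32 * (M * A₁) * (q * s ^ 2) := by
        have e1 : (kt * (h * s)) ^ 2 = kt ^ 2 * (h ^ 2 * s ^ 2) := by ring
        rw [e1]
        calc kt ^ 2 * (h ^ 2 * s ^ 2) ≤ (U * q) * (h ^ 2 * s ^ 2) :=
              mul_le_mul_of_nonneg_right hkt (by positivity)
          _ = (U * h ^ 2) * (q * s ^ 2) := by ring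
          _ ≤ _ := mul_le_mul_of_nonneg_right hc (by positivity)
      have h3 := sq_nonneg (A₁ * q / 4 - 32 * M * s ^ 2)
      linarith [(by ring : (A₁ * q / 4 + 32 * M * s ^ 2) ^ 2 - 32 * (M * A₁) * (q * s ^ 2) =
        (A₁ * q / 4 - 32 * M * s ^ 2) ^ 2)]
    have h3 := abs_le_of_sq_le_sq h1 (by positivity)
    have h4 := (abs_le.mp h3).1
    linarith
  · rw [if_neg hc] at hT
    rw [not_le] at hc
    rw [hT]
    have hk := kav_half A₁ A₂ v u h hA₁ hA₂ hh
    set r := 1 / h with hr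
    have hrh : r * h = 1 := by
      rw [hr]
      field_simp
    have hr0 : 0 < r := by positivity
    -- `32 (A₁ + A₂ + K) r ≤ U h`
    have h1 : 32 * (A₁ + A₂ + K) * r ≤ U * h := by
      have e1 := mul_le_mul_of_nonneg_right hc.le hr0.le
      have e2 : U * h ^ 2 * r = U * h * (r * h) := by ring
      rw [e2, hrh, mul_one] at e1
      exact e1
    -- `h ≤ 25/16 r`
    have h2 : h ≤ 25 / 16 * r := by
      have e1 : h * h ≤ 25 / 16 := by
        have := mul_le_mul hh1 hh1 hh.le (by norm_num)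
        linarith
      have e2 := mul_le_mul_of_nonneg_right e1 hr0.le
      have e3 : h * h * r = h * (r * h) := by ring
      rw [e3, hrh, mul_one] at e2
      exact e2
    have h3 : v * h ≤ v * (25 / 16 * r) := mul_le_mul_of_nonneg_left h2 hv
    have h4 : K * h ≤ K * (25 / 16 * r) := mul_le_mul_of_nonneg_left h2 hK
    have h5 : (U - 5 / 4 * K) * h ≤ w * h := mul_le_mul_of_nonneg_right (by linarith) hh.le
    have h6 : 8 * v * r ≤ A₁ * r := mul_le_mul_of_nonneg_right (by linarith) hr0.le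
    have h7 : 0 ≤ A₂ * r := by positivity
    have h8' : 0 ≤ K * r := by positivity
    have h9 : 0 ≤ A₁ * r := by positivity
    have h10 : 0.2 * (U * h) ≤
        ((w * h + kav A₁ A₂ v u h) - (w * (h / 2) + kav A₁ A₂ v u (h / 2))) / 2 := by
      linarith
    have h11 : (kt * (h * s)) ^ 2 ≤ (0.2 * (U * h) + 2 * s ^ 2) ^ 2 := by
      have h12 : (kt * (h * s)) ^ 2 ≤ (U * h) * s ^ 2 * (25 / 16) := by
        have e1 : (kt * (h * s)) ^ 2 = kt ^ 2 * (h ^ 2 * s ^ 2) := by ring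
        rw [e1]
        calc kt ^ 2 * (h ^ 2 * s ^ 2) ≤ (U * q) * (h ^ 2 * s ^ 2) :=
              mul_le_mul_of_nonneg_right hkt (by positivity)
          _ = (U * h * s ^ 2) * (q * h) := by ring
          _ ≤ (U * h * s ^ 2) * (25 / 16) := by
              refine mul_le_mul_of_nonneg_left ?_ (by positivity)
              have := mul_le_mul hq1 hh1 hh.le (by norm_num)
              linarith
      have h13 := sq_nonneg (0.2 * (U * h) - 2 * s ^ 2)
      have h14 : 0 ≤ (U * h) * s ^ 2 := by positivity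
      linarith [(by ring : (0.2 * (U * h) + 2 * s ^ 2) ^ 2 - 1.6 * ((U * h) * s ^ 2) =
        (0.2 * (U * h) - 2 * s ^ 2) ^ 2)]
    have h12 := abs_le_of_sq_le_sq h11 (by positivity)
    have h13 := (abs_le.mp h12).1
    have h14 : 0 ≤ A₁ * q := by positivity
    have h15 : 1 * s ^ 2 ≤ (A₁ + A₂ + K) / A₁ * s ^ 2 :=
      mul_le_mul_of_nonneg_right hM (sq_nonneg s)
    have h16 := sq_nonneg s
    linarith

end RealVar

open RealVar in
theorem real_var : St_real_var := by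
  intro A₁ A₂ v K t U U' w w' gb hb g h al rho a a' kt kk N cg ch hA₁ hA₂ hv hK h8 ht0 ht hU hU'
    hUw hUw' hg hgb hgb1 hh hhb hhb1 hal hrho hkt hkk hN hcg hch
  have hg1 : g ≤ 5 / 4 := by linarith
  have hh1 : h ≤ 5 / 4 := by linarith
  have hq : 0 ≤ gb - g := by linarith
  have hq' : 0 ≤ hb - h := by linarith
  have b1 := bracket A₁ A₂ v K (1 / (1 - t)) U w h (gb - g) kt a' _ hA₁ hA₂ hv hK h8 hU hUw hh hh1
    hq (by linarith) hkt rfl
  have b2 := bracket A₁ A₂ v K (1 / (1 - t)) U' w' g (hb - h) kk a _ hA₁ hA₂ hv hK h8 hU' hUw' hg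
    hg1 hq' (by linarith) hkk rfl
  have hM : 1 ≤ (A₁ + A₂ + K) / A₁ := by
    rw [le_div_iff₀ hA₁]
    linarith
  set M := (A₁ + A₂ + K) / A₁
  have h1 : |kt * kk| ≤ (U' * (gb - g) + U * (hb - h)) / 2 := by
    refine abs_le_of_sq_le_sq ?_ (by
      have := mul_nonneg hU' hq
      have := mul_nonneg hU hq'
      linarith)
    have h2 : (kt * kk) ^ 2 ≤ (U * (gb - g)) * (U' * (hb - h)) := by
      rw [mul_pow]
      exact mul_le_mul hkt hkk (sq_nonneg _) (mul_nonneg hU hq)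
    have h3 := sq_nonneg (U' * (gb - g) - U * (hb - h))
    refine h2.trans ?_
    linarith [(by ring : ((U' * (gb - g) + U * (hb - h)) / 2) ^ 2 -
      (U * (gb - g)) * (U' * (hb - h)) = (U' * (gb - g) - U * (hb - h)) ^ 2 / 4)]
  have h2 := (abs_le.mp h1).1
  have h3 : |g * h * (a * a')| ≤ 25 / 16 * ((a ^ 2 + a' ^ 2) / 2) := by
    rw [abs_mul, abs_of_pos (mul_pos hg hh)]
    have h4 : g * h ≤ 25 / 16 := by
      have := mul_le_mul hg1 hh1 hh.le (by norm_num)
      linarith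
    have h5 : |a * a'| ≤ (a ^ 2 + a' ^ 2) / 2 := by
      have e1 := sq_nonneg (a + a')
      have e2 := sq_nonneg (a - a')
      rw [abs_le]
      constructor
      · linarith [e1, (by ring : (a + a') ^ 2 = a ^ 2 + 2 * (a * a') + a' ^ 2)]
      · linarith [e2, (by ring : (a - a') ^ 2 = a ^ 2 - 2 * (a * a') + a' ^ 2)]
    exact mul_le_mul h4 h5 (abs_nonneg _) (by norm_num)
  have h4 := (abs_le.mp h3).1
  have h5 : U' * (gb - g) ≤ (w' + 5 / 4 * K) * (gb - g) := mul_le_mul_of_nonneg_right hUw' hq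
  have h6 : U * (hb - h) ≤ (w + 5 / 4 * K) * (hb - h) := mul_le_mul_of_nonneg_right hUw hq'
  have h7 : 8 * ((K + v) * (gb - g)) ≤ A₁ * (gb - g) := by
    have := mul_le_mul_of_nonneg_right h8 hq
    linarith [(by ring : 8 * (K + v) * (gb - g) = 8 * ((K + v) * (gb - g)))]
  have h7' : 8 * ((K + v) * (hb - h)) ≤ A₁ * (hb - h) := by
    have := mul_le_mul_of_nonneg_right h8 hq'
    linarith [(by ring : 8 * (K + v) * (hb - h) = 8 * ((K + v) * (hb - h)))]
  have h9 : 0 ≤ K * (gb - g) := mul_nonneg hK hq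
  have h9' : 0 ≤ K * (hb - h) := mul_nonneg hK hq'
  have h10 : 0 ≤ v * (gb - g) := mul_nonneg hv hq
  have h10' : 0 ≤ v * (hb - h) := mul_nonneg hv hq'
  have h11 : N = (w * h + w' * g) / 2 + ((w' * (gb - g) + w * (hb - h)) / 2 + kt * kk) +
      kt * (h * a') + kk * (g * a) + g * h * (a * a') := by
    rw [hN, hal, hrho]
    ring
  have h12 : 1 * a ^ 2 ≤ M * a ^ 2 := mul_le_mul_of_nonneg_right hM (sq_nonneg a)
  have h12' : 1 * a' ^ 2 ≤ M * a' ^ 2 := mul_le_mul_of_nonneg_right hM (sq_nonneg a')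
  have h13 := sq_nonneg a
  have h13' := sq_nonneg a'
  have h14 : 200 * M * (a ^ 2 + a' ^ 2) = 200 * (M * a ^ 2) + 200 * (M * a' ^ 2) := by ring
  have h15 : (K + v) * (gb - g) = K * (gb - g) + v * (gb - g) := by ring
  have h15' : (K + v) * (hb - h) = K * (hb - h) + v * (hb - h) := by ring
  have h16 : (A₁ - v) * (gb - g) = A₁ * (gb - g) - v * (gb - g) := by ring
  have h16' : (A₁ - v) * (hb - h) = A₁ * (hb - h) - v * (hb - h) := by ring
  have h17 : (w' + 5 / 4 * K) * (gb - g) = w' * (gb - g) + 5 / 4 * (K * (gb - g)) := by ring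
  have h17' : (w + 5 / 4 * K) * (hb - h) = w * (hb - h) + 5 / 4 * (K * (hb - h)) := by ring
  rw [h11, h14]
  rw [h16] at hcg
  rw [h16'] at hch
  rw [h15] at h7
  rw [h15'] at h7'
  rw [h17] at h5
  rw [h17'] at h6
  linarith

end Pool.Agent.Q42.UIC
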