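import Pool.Agent.Q42.UIC.Stm

/-! Project UIC, job sq_conc (helper52). -/

set_option autoImplicit false

open MeasureTheory ProbabilityTheory

namespace Pool.Agent.Q42.UIC

namespace SQ

variable {S : Type} [MeasurableSpace S]

theorem sq_int_le {X : Type} [MeasurableSpace X] (μ : Measure X) [IsProbabilityMeasure μ] (g : X → ℝ)
    (hg : Integrable g μ) (hg2 : Integrable (fun x => g x ^ 2) μ) :
    (∫ x, g x ∂μ) ^ 2 ≤ ∫ x, g x ^ 2 ∂μ := by
  set m := ∫ x, g x ∂μ with hm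
  have h0 : 0 ≤ ∫ x, (g x - m) ^ 2 ∂μ := integral_nonneg fun x => sq_nonneg _
  have h1 : ∫ x, (g x - m) ^ 2 ∂μ = ∫ x, g x ^ 2 ∂μ - m ^ 2 := by
    have e1 : ∀ x, (g x - m) ^ 2 = g x ^ 2 - (2 * m * g x - m ^ 2) := by intro x; ring
    simp only [e1]
    have e2 : Integrable (fun x => 2 * m * g x) μ := hg.const_mul _
    have e3 : Integrable (fun x => 2 * m * g x - m ^ 2) μ := e2.sub (integrable_const _)
    rw [integral_sub hg2 e3, integral_sub e2 (integrable_const _),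
      integral_const_mul, ← hm]
    simp
    ring
  linarith

/-- the two block measure, second block -/
theorem map_snd (ν : Measure S) [IsProbabilityMeasure ν] (b c : Kernel S (ℝ × S)) [IsMarkovKernel b]
    [IsMarkovKernel c] (hb : EndInv ν b) :
    ((ν ⊗ₘ b) ⊗ₘ (c.comap (fun p : S × (ℝ × S) => p.2.2) (by fun_prop))).map
      (fun z : (S × (ℝ × S)) × (ℝ × S) => (z.1.2.2, z.2)) = ν ⊗ₘ c := by
  have hm : Measurable (fun z : (S × (ℝ × S)) × (ℝ × S) => (z.1.2.2, z.2)) := by fun_prop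
  have he : Measurable (fun p : S × (ℝ × S) => p.2.2) := by fun_prop
  ext s hs
  have h1 : Measurable (Set.indicator s (fun _ : S × (ℝ × S) => (1 : ENNReal))) :=
    measurable_const.indicator hs
  rw [← lintegral_indicator_one hs, ← lintegral_indicator_one hs]
  change ∫⁻ a, s.indicator (fun _ => (1 : ENNReal)) a ∂_ = ∫⁻ a, s.indicator (fun _ => (1 : ENNReal)) a ∂_
  have h3 : Measurable (fun z : (S × (ℝ × S)) × (ℝ × S) =>
      s.indicator (fun _ => (1 : ENNReal)) (z.1.2.2, z.2)) := h1.comp hm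
  rw [lintegral_map h1 hm, Measure.lintegral_compProd h3, Measure.lintegral_compProd h1]
  have h2 : Measurable (fun x => ∫⁻ b', s.indicator (fun _ => (1 : ENNReal)) (x, b') ∂(c x)) :=
    Measurable.lintegral_kernel_prod_right' h1
  conv_rhs => rw [← hb, lintegral_map h2 he]
  rfl

end SQ

open SQ in
theorem sq_conc : St_joint → St_sq_conc := by
  intro _ S _ ν _ b _ n w α β hn hα hβ hb
  obtain ⟨hinv, hmem, hsq, hfwd, hbwd⟩ := hb
  set M := (ν ⊗ₘ b) ⊗ₘ (b.comap (fun p : S × (ℝ × S) => p.2.2) (by fun_prop)) with hM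
  have hM1 : M.map Prod.fst = ν ⊗ₘ b := by
    have := Measure.fst_compProd (ν ⊗ₘ b) (b.comap (fun p : S × (ℝ × S) => p.2.2) (by fun_prop))
    exact this
  have hM2 : M.map (fun z : (S × (ℝ × S)) × (ℝ × S) => (z.1.2.2, z.2)) = ν ⊗ₘ b := map_snd ν b b hinv
  have hme : Measurable (fun p : S × (ℝ × S) => p.2.2) := by fun_prop
  have hmf : Measurable (fun z : (S × (ℝ × S)) × (ℝ × S) => (z.1.2.2, z.2)) := by fun_prop
  have hmv : Measurable (fun p : S × (ℝ × S) => p.2.1) := by fun_prop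
  have hmc : Measurable (fun p : (S × (ℝ × S)) × (ℝ × S) => (p.1.1, (p.1.2.1 + p.2.1, p.2.2))) := by
    fun_prop
  have hs : MemLp (fun z : (S × (ℝ × S)) × (ℝ × S) => z.1.2.1) 2 M := by
    have h1 := hmem
    rw [← hM1] at h1
    exact (memLp_map_measure_iff hmv.aestronglyMeasurable measurable_fst.aemeasurable).1 h1
  have hs' : MemLp (fun z : (S × (ℝ × S)) × (ℝ × S) => z.2.1) 2 M := by
    have h1 := hmem
    rw [← hM2] at h1
    exact (memLp_map_measure_iff hmv.aestronglyMeasurable hmf.aemeasurable).1 h1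
  have hsum : MemLp (fun z : (S × (ℝ × S)) × (ℝ × S) => z.1.2.1 + z.2.1) 2 M := hs.add hs'
  have hlaw : ν ⊗ₘ conc b b = M.map (fun p : (S × (ℝ × S)) × (ℝ × S) => (p.1.1, (p.1.2.1 + p.2.1, p.2.2))) :=
    compProd_conc ν b b
  have hmem2 : MemLp (fun p : S × (ℝ × S) => p.2.1) 2 (ν ⊗ₘ conc b b) := by
    rw [hlaw]
    exact (memLp_map_measure_iff hmv.aestronglyMeasurable hmc.aemeasurable).2 hsum
  refine ⟨hmem2, ?_⟩
  have hmv2 : Measurable (fun p : S × (ℝ × S) => p.2.1 ^ 2) := by fun_prop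
  have e1 : ∫ p, p.2.1 ^ 2 ∂(ν ⊗ₘ conc b b) = ∫ z, (z.1.2.1 + z.2.1) ^ 2 ∂M := by
    rw [hlaw, integral_map hmc.aemeasurable hmv2.aestronglyMeasurable]
  have e2 : ∫ z, z.1.2.1 ^ 2 ∂M = ∫ p, p.2.1 ^ 2 ∂(ν ⊗ₘ b) := by
    conv_rhs => rw [← hM1, integral_map measurable_fst.aemeasurable hmv2.aestronglyMeasurable]
  have e3 : ∫ z, z.2.1 ^ 2 ∂M = ∫ p, p.2.1 ^ 2 ∂(ν ⊗ₘ b) := by
    conv_rhs => rw [← hM2, integral_map hmf.aemeasurable hmv2.aestronglyMeasurable]
  have i1 : Integrable (fun z : (S × (ℝ × S)) × (ℝ × S) => z.1.2.1 ^ 2) M := hs.integrable_sq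
  have i2 : Integrable (fun z : (S × (ℝ × S)) × (ℝ × S) => z.2.1 ^ 2) M := hs'.integrable_sq
  have i3 : Integrable (fun z : (S × (ℝ × S)) × (ℝ × S) => z.1.2.1 * z.2.1) M := hs.integrable_mul hs'
  have e4 : ∫ z, (z.1.2.1 + z.2.1) ^ 2 ∂M = ∫ z, z.1.2.1 ^ 2 ∂M + ∫ z, z.2.1 ^ 2 ∂M
      + 2 * ∫ z, z.1.2.1 * z.2.1 ∂M := by
    have i4 : Integrable (fun z : (S × (ℝ × S)) × (ℝ × S) => z.1.2.1 ^ 2 + z.2.1 ^ 2) M := i1.add i2
    rw [← integral_add i1 i2, ← integral_const_mul, ← integral_add i4 (i3.const_mul 2)]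
    refine integral_congr_ae (Filter.Eventually.of_forall fun z => ?_)
    simp only []
    ring
  -- the function m
  set m : S → ℝ := fun y => ∫ q, q.1 ∂(b y) with hmdef
  have hmv1 : StronglyMeasurable (fun p : S × (ℝ × S) => p.2.1) := hmv.stronglyMeasurable
  have hmm : Measurable m := (hmv1.integral_kernel_prod_right' (κ := b)).measurable
  have j1 : Integrable (fun p : S × (ℝ × S) => p.2.1) (ν ⊗ₘ b) := hmem.integrable (by norm_num)
  have j2 : Integrable (fun p : S × (ℝ × S) => p.2.1 ^ 2) (ν ⊗ₘ b) := hmem.integrable_sq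
  have k1 := (Measure.integrable_compProd_iff j1.aestronglyMeasurable).1 j1
  have k2 := (Measure.integrable_compProd_iff j2.aestronglyMeasurable).1 j2
  have hm2 : Integrable (fun y => m y ^ 2) ν := by
    refine k2.2.mono' (hmm.pow_const 2).aestronglyMeasurable ?_
    filter_upwards [k1.1, k2.1] with y hy1 hy2
    have h1 := sq_int_le (b y) (fun q : ℝ × S => q.1) hy1 hy2
    rw [Real.norm_eq_abs, abs_of_nonneg (sq_nonneg _)]
    refine h1.trans (le_of_eq ?_)
    refine integral_congr_ae (Filter.Eventually.of_forall fun q => ?_)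
    simp
  have hmL : MemLp m 2 ν := (memLp_two_iff_integrable_sq hmm.aestronglyMeasurable).2 hm2
  have hmE : MemLp (fun p : S × (ℝ × S) => m p.2.2) 2 (ν ⊗ₘ b) := by
    have h1 := hmL
    rw [← hinv] at h1
    exact (memLp_map_measure_iff hmm.aestronglyMeasurable hme.aemeasurable).1 h1
  have hcross : ∫ z, z.1.2.1 * z.2.1 ∂M = ∫ p, p.2.1 * m p.2.2 ∂(ν ⊗ₘ b) := by
    rw [hM, Measure.integral_compProd (by rw [← hM]; exact i3)]
    refine integral_congr_ae (Filter.Eventually.of_forall fun p => ?_)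
    change ∫ q, p.2.1 * q.1 ∂(b p.2.2) = _
    rw [integral_const_mul]
  -- truncation
  set u : ℕ → S → ℝ := fun k y => max (-(k : ℝ)) (min (m y) k) with hu
  have hum : ∀ k, Measurable (u k) := by
    intro k
    simp only [hu]
    fun_prop
  have hub : ∀ k y, |u k y| ≤ k := by
    intro k y
    simp only [hu]
    rw [abs_le]
    refine ⟨le_max_left _ _, max_le ?_ (min_le_right _ _)⟩
    have : (0 : ℝ) ≤ k := Nat.cast_nonneg k
    linarith
  have hua : ∀ k y, |u k y| ≤ |m y| := by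
    intro k y
    have hk : (0 : ℝ) ≤ k := Nat.cast_nonneg k
    simp only [hu]
    rw [abs_le]
    constructor
    · refine le_max_of_le_right (le_min (neg_abs_le _) ?_)
      linarith [abs_nonneg (m y)]
    · refine max_le ?_ ((min_le_left _ _).trans (le_abs_self _))
      linarith [abs_nonneg (m y)]
  have hlim : ∀ y, Filter.Tendsto (fun k => u k y) Filter.atTop (nhds (m y)) := by
    intro y
    obtain ⟨k0, hk0⟩ := exists_nat_ge |m y|
    refine tendsto_const_nhds.congr' ?_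
    filter_upwards [Filter.eventually_ge_atTop k0] with k hk
    have h1 : |m y| ≤ k := hk0.trans (by exact_mod_cast hk)
    have h2 := abs_le.1 h1
    simp only [hu]
    rw [min_eq_left h2.2, max_eq_right h2.1]
  have hbd : ∀ k, (∫ p, p.2.1 * u k p.2.2 ∂(ν ⊗ₘ b)) ^ 2 ≤ n * β * (n * α) := by
    intro k
    refine (hbwd (u k) (hum k) ⟨k, hub k⟩).trans ?_
    refine mul_le_mul_of_nonneg_left ?_ (by positivity)
    refine le_trans ?_ hfwd
    refine integral_mono_of_nonneg (Filter.Eventually.of_forall fun y => sq_nonneg _) hm2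
      (Filter.Eventually.of_forall fun y => ?_)
    exact sq_le_sq.2 (hua k y)
  have hconv : Filter.Tendsto (fun k => ∫ p, p.2.1 * u k p.2.2 ∂(ν ⊗ₘ b)) Filter.atTop
      (nhds (∫ p, p.2.1 * m p.2.2 ∂(ν ⊗ₘ b))) := by
    refine tendsto_integral_of_dominated_convergence (fun p => |p.2.1 * m p.2.2|) ?_ ?_ ?_ ?_
    · intro k
      exact (hmv.mul ((hum k).comp hme)).aestronglyMeasurable
    · exact (hmem.integrable_mul hmE).abs
    · intro k
      filter_upwards with p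
      rw [Real.norm_eq_abs, abs_mul, abs_mul]
      exact mul_le_mul_of_nonneg_left (hua k _) (abs_nonneg _)
    · filter_upwards with p
      exact (hlim p.2.2).const_mul _
  have hfin : (∫ p, p.2.1 * m p.2.2 ∂(ν ⊗ₘ b)) ^ 2 ≤ n * β * (n * α) :=
    le_of_tendsto (hconv.pow 2) (Filter.Eventually.of_forall hbd)
  rw [e1, e4, e2, e3, hcross]
  set X := ∫ p, p.2.1 * m p.2.2 ∂(ν ⊗ₘ b) with hX
  have h1 : ∫ p, p.2.1 ^ 2 ∂(ν ⊗ₘ b) + ∫ p, p.2.1 ^ 2 ∂(ν ⊗ₘ b) + 2 * X - 2 * ∫ p, p.2.1 ^ 2 ∂(ν ⊗ₘ b)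
      = 2 * X := by ring
  rw [h1]
  refine abs_le_of_sq_le_sq ?_ (by positivity)
  nlinarith [mul_nonneg (sq_nonneg n) (sq_nonneg (α - β))]

end Pool.Agent.Q42.UIC
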