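import Pool.Agent.Q42.UIC.Stm
import Pool.Agent.Q203.UIC.StepLib2

/-! Project UIC: the step of the UI functional. -/

set_option autoImplicit false

open MeasureTheory ProbabilityTheory Pool.Agent.Q203.UIC

namespace Pool.Agent.Q42.UIC

namespace StepUi

theorem phi_meas (θ : ℝ) : Measurable (fun s => Phi θ s) := by
  unfold Phi
  fun_prop

theorem phi_nonneg (θ s : ℝ) : 0 ≤ Phi θ s := by
  unfold Phi
  have := Real.cos_le_one (θ * s)
  apply div_nonneg
  · linarith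
  · positivity

theorem phi_le (θ s : ℝ) (hθ : 0 < θ) : Phi θ s ≤ 4 / θ ^ 2 := by
  unfold Phi
  have := Real.neg_one_le_cos (θ * s)
  apply div_le_div_of_nonneg_right _ (by positivity)
  linarith

theorem kap_meas (A : ℝ) : Measurable (fun g => kap A g) := by
  unfold kap
  fun_prop

theorem kap_bd (A g c : ℝ) (hA : 0 < A) (hc : 0 < c) (h1 : c ≤ g) (h2 : g ≤ 1) :
    |kap A g| ≤ A * (2 / c + 4) := by
  unfold kap
  rw [abs_mul, abs_of_pos hA]
  refine mul_le_mul_of_nonneg_left ?_ hA.le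
  have h3 : 2 / g ≤ 2 / c := div_le_div_of_nonneg_left (by norm_num) hc h1
  have h4 : 0 < 2 / g := by
    have : 0 < g := by linarith
    positivity
  rw [abs_le]
  constructor <;> linarith

theorem kap_int {S : Type} [MeasurableSpace S] (ν : Measure S) [IsProbabilityMeasure ν] (A c : ℝ)
    (hA : 0 < A) (hc : 0 < c) (G : S → ℝ) (hG : Measurable G) (h : ∀ x, c ≤ G x ∧ G x ≤ 1) :
    Integrable (fun x => kap A (G x)) ν := by
  refine Integrable.of_bound ((kap_meas A).comp hG).aestronglyMeasurable (A * (2 / c + 4)) ?_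
  filter_upwards with x
  exact kap_bd A (G x) c hA hc (h x).1 (h x).2

theorem tst_meas {S : Type} [MeasurableSpace S] (A η : ℝ) {V V' w h : S → ℝ} (hV : Measurable V)
    (hV' : Measurable V') (hw : Measurable w) (hh : Measurable h) :
    Measurable (fun y => tst A η (V y) (V' y) (w y) (h y)) := by
  unfold tst
  refine Measurable.ite ?_ hh ?_
  · refine MeasurableSet.inter (measurableSet_le hV measurable_const)
      (MeasurableSet.inter (measurableSet_le hV' measurable_const)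
      (measurableSet_le (hw.mul (hh.pow_const 2)) measurable_const))
  · fun_prop

/-- bounds of the test value -/
theorem tst_bd (A η V V' w h c M : ℝ) (hA : 0 < A) (hw : 0 ≤ w) (hM : w ≤ M) (hc : c ≤ h) (hc1 : h ≤ 1) :
    min c (Real.sqrt A / (Real.sqrt A + Real.sqrt M)) ≤ tst A η V V' w h ∧ tst A η V V' w h ≤ 1 := by
  have hs : 0 < Real.sqrt A := Real.sqrt_pos.2 hA
  unfold tst
  split_ifs with h1
  · exact ⟨(min_le_left _ _).trans hc, hc1⟩
  · have h2 : Real.sqrt w ≤ Real.sqrt M := Real.sqrt_le_sqrt hM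
    have h3 := Real.sqrt_nonneg w
    refine ⟨(min_le_right _ _).trans ?_, ?_⟩
    · exact div_le_div_of_nonneg_left hs.le (by linarith) (by linarith)
    · rw [div_le_one (by linarith)]
      linarith

theorem w_bd (P : Measure (ℝ × ℝ)) [IsProbabilityMeasure P] (c n θ : ℝ) (hc : 0 < c) (hn : 0 < n)
    (hθ : 0 < θ) (hP : ∀ᵐ p ∂P, c ≤ p.2 ∧ p.2 ≤ 1) :
    0 ≤ ∫ p, Phi θ p.1 / n * p.2 ∂P ∧ ∫ p, Phi θ p.1 / n * p.2 ∂P ≤ 4 / θ ^ 2 / n := by
  have hb : ∀ᵐ p ∂P, 0 ≤ Phi θ p.1 / n * p.2 ∧ Phi θ p.1 / n * p.2 ≤ 4 / θ ^ 2 / n := by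
    filter_upwards [hP] with p hp
    have h1 : 0 ≤ Phi θ p.1 / n := div_nonneg (phi_nonneg _ _) hn.le
    have h2 : Phi θ p.1 / n ≤ 4 / θ ^ 2 / n := div_le_div_of_nonneg_right (phi_le _ _ hθ) hn.le
    refine ⟨mul_nonneg h1 (by linarith [hp.1]), ?_⟩
    calc Phi θ p.1 / n * p.2 ≤ Phi θ p.1 / n * 1 := mul_le_mul_of_nonneg_left hp.2 h1
      _ ≤ _ := by rw [mul_one]; exact h2
  have hm : Measurable (fun p : ℝ × ℝ => Phi θ p.1 / n * p.2) := by
    have := phi_meas θ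
    fun_prop
  have hi : Integrable (fun p : ℝ × ℝ => Phi θ p.1 / n * p.2) P := by
    refine Integrable.of_bound hm.aestronglyMeasurable (4 / θ ^ 2 / n) ?_
    filter_upwards [hb] with p hp
    rw [Real.norm_eq_abs, abs_of_nonneg hp.1]
    exact hp.2
  constructor
  · exact integral_nonneg_of_ae (hb.mono fun p hp => hp.1)
  · have := integral_mono_ae hi (integrable_const (4 / θ ^ 2 / n)) (hb.mono fun p hp => hp.2)
    simpa using this

theorem phi_int {X : Type} [MeasurableSpace X] (μ : Measure X) [IsFiniteMeasure μ] (θ n : ℝ)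
    (hn : 0 < n) (hθ : 0 < θ) (s : X → ℝ) (hs : Measurable s) :
    Integrable (fun x => Phi θ (s x) / n) μ := by
  have := phi_meas θ
  refine Integrable.of_bound (Measurable.aestronglyMeasurable (by fun_prop)) (4 / θ ^ 2 / n) ?_
  filter_upwards with x
  rw [Real.norm_eq_abs, abs_of_nonneg (div_nonneg (phi_nonneg _ _) hn.le)]
  exact div_le_div_of_nonneg_right (phi_le _ _ hθ) hn.le

theorem clamp_eq (c x : ℝ) (h1 : c ≤ x) (h2 : x ≤ 1) : max c (min 1 x) = x := by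
  rw [min_eq_right h2, max_eq_right h1]

end StepUi

open StepUi in
theorem step_ui : St_pt_ui → St_joint → St_step_ui := by
  intro hpt hjoint S _ ν _ b _ n w α β θ A r hn hw hα hβ hb hθ hA hη h
  intro G H hG hH
  obtain ⟨hGm, c1, hc1, hG1⟩ := hG
  obtain ⟨hHm, c2, hc2, hH1⟩ := hH
  obtain ⟨x0⟩ : Nonempty S := nonempty_of_isProbabilityMeasure ν
  set c := min c1 c2 with hcdef
  have hc : 0 < c := lt_min hc1 hc2
  have hGc : ∀ x, c ≤ G x ∧ G x ≤ 1 := fun x => ⟨(min_le_left _ _).trans (hG1 x).1, (hG1 x).2⟩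
  have hHc : ∀ x, c ≤ H x ∧ H x ≤ 1 := fun x => ⟨(min_le_right _ _).trans (hH1 x).1, (hH1 x).2⟩
  have hc1' : c ≤ 1 := (hGc x0).1.trans (hGc x0).2
  obtain ⟨L, hL, h1, h2⟩ := hjoint ν b b hb.inv G H hGm hHm
  have mRK := RK_markov (E := ℝ) b hHm
  have hSet : MeasurableSet {p : ℝ × ℝ | c ≤ p.2 ∧ p.2 ≤ 1} :=
    MeasurableSet.inter (measurableSet_le measurable_const measurable_snd)
      (measurableSet_le measurable_snd measurable_const)
  have haeL : ∀ᵐ y ∂ν, ∀ᵐ p ∂(L y), c ≤ p.2 ∧ p.2 ≤ 1 :=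
    J1_ae ν b L G hGm h1 (fun p => c ≤ p.2 ∧ p.2 ≤ 1) hSet (fun x e => hGc x)
  have haeR : ∀ y, ∀ᵐ p ∂(RK b H y), c ≤ p.2 ∧ p.2 ≤ 1 := fun y =>
    R_ae b H hHm (fun p => c ≤ p.2 ∧ p.2 ≤ 1) hSet (fun x e => hHc x) y
  have hi2 : Integrable (fun p : S × (ℝ × S) => p.2.1 ^ 2) (ν ⊗ₘ b) := hb.mem.integrable_sq
  have hsqm : Measurable (fun e : ℝ => e ^ 2) := by fun_prop
  have hidm : Measurable (fun e : ℝ => e) := measurable_id
  obtain ⟨l1, l2, l3⟩ := L_mom ν b L G hGm h1 (fun e : ℝ => e ^ 2) hsqm hi2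
  obtain ⟨r1, r2, r3⟩ := R_mom ν b H hHm (fun e : ℝ => e ^ 2) hsqm hi2
  obtain ⟨d1, d2⟩ := dual_sq ν b L G hGm h1 (fun e : ℝ => e) hidm hi2 (n * β) (by positivity) hb.bwd
  -- the forward drift
  have e1 : ∀ y, ∫ p, p.1 ∂(RK b H y) = ∫ q, q.1 ∂(b y) := fun y =>
    R_eq b H hHm (fun e : ℝ => e) hidm y
  have hm1 : Measurable (fun p : ℝ × ℝ => p.1) := measurable_fst
  have f1 : Integrable (fun y => (∫ p, p.1 ∂(RK b H y)) ^ 2) ν := by
    have hmm : Measurable (fun y => ∫ p, p.1 ∂(RK b H y)) := meas_ki _ _ hm1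
    refine Integrable.mono' r2 (Measurable.aestronglyMeasurable (by fun_prop)) ?_
    filter_upwards [r1] with y hy
    rw [Real.norm_eq_abs, abs_of_nonneg (sq_nonneg _)]
    exact sq_mean _ _ hm1 hy
  have f2 : ∫ y, (∫ p, p.1 ∂(RK b H y)) ^ 2 ∂ν ≤ n * α := by
    simp_rw [e1]
    exact hb.fwd
  -- the functions of the middle state
  set η := θ * Real.sqrt n with hηdef
  set V : S → ℝ := fun y => (∫ p, p.1 ^ 2 ∂(L y)) / n with hVdef
  set V' : S → ℝ := fun y => (∫ p, p.1 ^ 2 ∂(RK b H y)) / n with hVdef'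
  set ww : S → ℝ := fun y => ∫ p, Phi θ p.1 / n * p.2 ∂(L y) with hwdef
  set ww' : S → ℝ := fun y => ∫ p, Phi θ p.1 / n * p.2 ∂(RK b H y) with hwdef'
  set gg : S → ℝ := fun y => (∫ p, 1 / p.2 ∂(L y))⁻¹ with hgdef
  set hh : S → ℝ := fun y => (∫ p, 1 / p.2 ∂(RK b H y))⁻¹ with hhdef
  have hPh := phi_meas θ
  have mw0 : Measurable (fun p : ℝ × ℝ => Phi θ p.1 / n * p.2) := by fun_prop
  have mi0 : Measurable (fun p : ℝ × ℝ => 1 / p.2) := measurable_snd.const_div 1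
  have ms0 : Measurable (fun p : ℝ × ℝ => p.1 ^ 2) := by fun_prop
  have mV : Measurable V := (meas_ki L _ ms0).div_const n
  have mV' : Measurable V' := (meas_ki (RK b H) _ ms0).div_const n
  have mw : Measurable ww := meas_ki L _ mw0
  have mw' : Measurable ww' := meas_ki (RK b H) _ mw0
  have mg : Measurable gg := (meas_ki L _ mi0).inv
  have mh : Measurable hh := (meas_ki (RK b H) _ mi0).inv
  set c0 := min c (Real.sqrt A / (Real.sqrt A + Real.sqrt (4 / θ ^ 2 / n))) with hc0def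
  have hc0 : 0 < c0 := by
    refine lt_min hc ?_
    have : 0 < Real.sqrt A := Real.sqrt_pos.2 hA
    positivity
  have hc01 : c0 ≤ 1 := (min_le_left _ _).trans hc1'
  set Ht : S → ℝ := fun y => max c0 (min 1 (tst A η (V y) (V' y) (ww y) (hh y))) with hHtdef
  set Gt : S → ℝ := fun y => max c0 (min 1 (tst A η (V y) (V' y) (ww' y) (gg y))) with hGtdef
  have mHt : Measurable Ht := measurable_const.max (measurable_const.min (tst_meas A η mV mV' mw mh))
  have mGt : Measurable Gt := measurable_const.max (measurable_const.min (tst_meas A η mV mV' mw' mg))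
  have hHtb : ∀ y, c0 ≤ Ht y ∧ Ht y ≤ 1 := fun y => ⟨le_max_left _ _, max_le hc01 (min_le_left _ _)⟩
  have hGtb : ∀ y, c0 ≤ Gt y ∧ Gt y ≤ 1 := fun y => ⟨le_max_left _ _, max_le hc01 (min_le_left _ _)⟩
  have habs : ∀ (x d : ℝ), 0 < d → d ≤ x ∧ x ≤ 1 → |x| ≤ 1 := by
    intro x d hd hx
    rw [abs_of_nonneg (by linarith [hx.1])]
    exact hx.2
  have hr1 := h G Ht ⟨hGm, c, hc, hGc⟩ ⟨mHt, c0, hc0, hHtb⟩
  have hr2 := h Gt H ⟨mGt, c0, hc0, hGtb⟩ ⟨hHm, c, hc, hHc⟩
  set Err : S → ℝ := fun y => 40 * ((∫ p, p.1 ∂(L y)) ^ 2 / n + (∫ p, p.1 ∂(RK b H y)) ^ 2 / n)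
    + 40 * (1 + Real.sqrt A) * Real.sqrt η * (V y + V' y) with hErrdef
  have iV : Integrable V ν := l2.div_const n
  have iV' : Integrable V' ν := r2.div_const n
  have ie1 : Integrable (fun y => (∫ p, p.1 ∂(L y)) ^ 2 / n + (∫ p, p.1 ∂(RK b H y)) ^ 2 / n) ν :=
    (d1.div_const n).add (f1.div_const n)
  have ie2 : Integrable (fun y => V y + V' y) ν := iV.add iV'
  have iErr : Integrable Err ν := (ie1.const_mul 40).add (ie2.const_mul _)
  have hV1 : ∫ y, V y ∂ν ≤ w := by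
    simp only [hVdef]
    rw [integral_div, l3, div_le_iff₀ hn]
    calc _ ≤ n * w := hb.sq
      _ = w * n := by ring
  have hV2 : ∫ y, V' y ∂ν ≤ w := by
    simp only [hVdef']
    rw [integral_div, r3, div_le_iff₀ hn]
    calc _ ≤ n * w := hb.sq
      _ = w * n := by ring
  have hErr : ∫ y, Err y ∂ν ≤ 40 * (α + β) + 80 * (1 + Real.sqrt A) * Real.sqrt η * w := by
    simp only [hErrdef]
    rw [integral_add (ie1.const_mul 40) (ie2.const_mul _), integral_const_mul, integral_const_mul,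
      integral_add (d1.div_const n) (f1.div_const n), integral_add iV iV', integral_div, integral_div]
    have g1 : (∫ y, (∫ p, p.1 ∂(L y)) ^ 2 ∂ν) / n ≤ β := by
      rw [div_le_iff₀ hn]
      calc _ ≤ n * β := d2
        _ = β * n := by ring
    have g2 : (∫ y, (∫ p, p.1 ∂(RK b H y)) ^ 2 ∂ν) / n ≤ α := by
      rw [div_le_iff₀ hn]
      calc _ ≤ n * α := f2
        _ = α * n := by ring
    have g3 : 0 ≤ 40 * (1 + Real.sqrt A) * Real.sqrt η := by positivity
    have g4 := mul_le_mul_of_nonneg_left (add_le_add hV1 hV2) g3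
    nlinarith
  have hmain := abs_step ν b hb.inv L G H Gt Ht hGm hHm mGt mHt 1
    (fun x => habs _ c hc (hGc x)) (fun x => habs _ c hc (hHc x))
    (fun x => habs _ c0 hc0 (hGtb x)) (fun x => habs _ c0 hc0 (hHtb x)) h1 h2
    (fun e : ℝ => Phi θ e / n) (fun e : ℝ => Phi θ e / (2 * n))
    (by fun_prop) (by fun_prop)
    (phi_int _ θ n hn hθ _ (by fun_prop)) (phi_int _ θ (2 * n) (by linarith) hθ _ (by fun_prop))
    (fun g => kap A g) (kap_meas A) (kap_int ν A c hA hc G hGm hGc) (kap_int ν A c hA hc H hHm hHc)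
    (kap_int ν A c0 hA hc0 Gt mGt hGtb) (kap_int ν A c0 hA hc0 Ht mHt hHtb) Err iErr ?_ r hr1 hr2
  · refine le_trans ?_ hmain
    linarith
  · filter_upwards [haeL, l1, r1] with y hyL hyl hyr
    have hyR := haeR y
    have hw1 := w_bd (L y) c n θ hc hn hθ hyL
    have hw2 := w_bd (RK b H y) c n θ hc hn hθ hyR
    have hg1 := inv_mean (L y) (fun p => p.2) measurable_snd c 1 hc hyL
    have hh1 := inv_mean (RK b H y) (fun p => p.2) measurable_snd c 1 hc hyR
    have t1 := tst_bd A η (V y) (V' y) (ww y) (hh y) c _ hA hw1.1 hw1.2 hh1.1 hh1.2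
    have t2 := tst_bd A η (V y) (V' y) (ww' y) (gg y) c _ hA hw2.1 hw2.2 hg1.1 hg1.2
    have q1 : Ht y = tst A η (V y) (V' y) (ww y) (hh y) := clamp_eq _ _ t1.1 t1.2
    have q2 : Gt y = tst A η (V y) (V' y) (ww' y) (gg y) := clamp_eq _ _ t2.1 t2.2
    rw [q1, q2]
    have hfin := hpt (L y) (RK b H y) c hc hyL hyR hyl hyr n θ A hn hθ hA hη (V y) (V' y) (ww y)
      (ww' y) (gg y) (hh y) rfl rfl rfl rfl rfl rfl
    refine le_trans (le_of_eq ?_) hfin
    simp only [hErrdef]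
    ring

end Pool.Agent.Q42.UIC
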