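import Pool.Agent.Q42.UIC.Stm
import Pool.Agent.Q203.UIC.StepLib3

/-! Project UIC: the step of the variance functional. -/

set_option autoImplicit false

open MeasureTheory ProbabilityTheory Pool.Agent.Q203.UIC

namespace Pool.Agent.Q42.UIC

namespace StepVar

theorem kav_meas (A₁ A₂ v u : ℝ) : Measurable (fun g => kav A₁ A₂ v u g) := by
  unfold kav
  fun_prop

theorem kav_bd (A₁ A₂ v u g c M : ℝ) (hA₁ : 0 < A₁) (hA₂ : 0 ≤ A₂) (hv : 0 ≤ v) (hc : 0 < c)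
    (h1 : c ≤ g) (h2 : g ≤ M) :
    |kav A₁ A₂ v u g| ≤ A₁ * (1 / c + M + 2) + v * (M + 1) + A₂ * (1 / c + |u|) := by
  have hg : 0 < g := by linarith
  have h3 : 1 / g ≤ 1 / c := one_div_le_one_div_of_le hc h1
  have h4 : 0 < 1 / g := by positivity
  have b1 : |1 / g + g - 2| ≤ 1 / c + M + 2 := by
    rw [abs_le]
    constructor <;> linarith
  have b2 : |g - 1| ≤ M + 1 := by
    rw [abs_le]
    constructor <;> linarith
  have b3 : |max (1 / g - u) 0| ≤ 1 / c + |u| := by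
    have h5 := neg_abs_le u
    have h6 := abs_nonneg u
    rw [abs_of_nonneg (le_max_right _ _)]
    refine max_le (by linarith) (by have : 0 < 1 / c := by positivity
                                    linarith)
  unfold kav
  have c1 : |A₁ * (1 / g + g - 2)| ≤ A₁ * (1 / c + M + 2) := by
    rw [abs_mul, abs_of_pos hA₁]
    exact mul_le_mul_of_nonneg_left b1 hA₁.le
  have c2 : |v * (g - 1)| ≤ v * (M + 1) := by
    rw [abs_mul, abs_of_nonneg hv]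
    exact mul_le_mul_of_nonneg_left b2 hv
  have c3 : |A₂ * max (1 / g - u) 0| ≤ A₂ * (1 / c + |u|) := by
    rw [abs_mul, abs_of_nonneg hA₂]
    exact mul_le_mul_of_nonneg_left b3 hA₂
  have c1' := abs_le.1 c1
  have c2' := abs_le.1 c2
  have c3' := abs_le.1 c3
  rw [abs_le]
  constructor <;> linarith

theorem kav_int {S : Type} [MeasurableSpace S] (ν : Measure S) [IsProbabilityMeasure ν]
    (A₁ A₂ v u c M : ℝ) (hA₁ : 0 < A₁) (hA₂ : 0 ≤ A₂) (hv : 0 ≤ v) (hc : 0 < c) (G : S → ℝ)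
    (hG : Measurable G) (h : ∀ x, c ≤ G x ∧ G x ≤ M) :
    Integrable (fun x => kav A₁ A₂ v u (G x)) ν := by
  refine Integrable.of_bound ((kav_meas A₁ A₂ v u).comp hG).aestronglyMeasurable
    (A₁ * (1 / c + M + 2) + v * (M + 1) + A₂ * (1 / c + |u|)) ?_
  filter_upwards with x
  exact kav_bd A₁ A₂ v u (G x) c M hA₁ hA₂ hv hc (h x).1 (h x).2

theorem tsv_meas {S : Type} [MeasurableSpace S] (Λ : ℝ) {U h : S → ℝ} (hU : Measurable U)
    (hh : Measurable h) : Measurable (fun y => tsv Λ (U y) (h y)) := by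
  unfold tsv
  refine Measurable.ite (measurableSet_le (hU.mul (hh.pow_const 2)) measurable_const) hh
    (hh.div_const 2)

theorem tsv_bd (Λ U h c M : ℝ) (hc : 0 < c) (h1 : c ≤ h) (h2 : h ≤ M) :
    c / 2 ≤ tsv Λ U h ∧ tsv Λ U h ≤ M := by
  unfold tsv
  split_ifs
  · constructor <;> linarith
  · constructor <;> linarith

theorem clamp_eq2 (c M x : ℝ) (h1 : c ≤ x) (h2 : x ≤ M) : max c (min M x) = x := by
  rw [min_eq_right h2, max_eq_right h1]

end StepVar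

open StepVar in
theorem step_var : St_pt_var → St_joint → St_step_var := by
  intro hpt hjoint S _ ν _ b _ n w α β K A₁ A₂ v t r hn hw hα hβ hinv hb hK hE hA₁ hA₂ hv h8 ht0 ht h
  intro G H hG hH
  obtain ⟨hGm, c1, hc1, hG1⟩ := hG
  obtain ⟨hHm, c2, hc2, hH1⟩ := hH
  obtain ⟨x0⟩ : Nonempty S := nonempty_of_isProbabilityMeasure ν
  set c := min c1 c2 with hcdef
  have hc : 0 < c := lt_min hc1 hc2
  have hGc : ∀ x, c ≤ G x ∧ G x ≤ 1 + t := fun x => ⟨(min_le_left _ _).trans (hG1 x).1, (hG1 x).2⟩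
  have hHc : ∀ x, c ≤ H x ∧ H x ≤ 1 + t := fun x => ⟨(min_le_right _ _).trans (hH1 x).1, (hH1 x).2⟩
  have hc1' : c ≤ 1 + t := (hGc x0).1.trans (hGc x0).2
  obtain ⟨L, hL, h1, h2⟩ := hjoint ν b b hinv G H hGm hHm
  have mRK := RK_markov (E := ℝ × ℝ) b hHm
  have hSet : MeasurableSet {p : (ℝ × ℝ) × ℝ | c ≤ p.2 ∧ p.2 ≤ 1 + t} :=
    MeasurableSet.inter (measurableSet_le measurable_const measurable_snd)
      (measurableSet_le measurable_snd measurable_const)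
  have haeL : ∀ᵐ y ∂ν, ∀ᵐ p ∂(L y), c ≤ p.2 ∧ p.2 ≤ 1 + t :=
    J1_ae ν b L G hGm h1 (fun p => c ≤ p.2 ∧ p.2 ≤ 1 + t) hSet (fun x e => hGc x)
  have haeR : ∀ y, ∀ᵐ p ∂(RK b H y), c ≤ p.2 ∧ p.2 ≤ 1 + t := fun y =>
    R_ae b H hHm (fun p => c ≤ p.2 ∧ p.2 ≤ 1 + t) hSet (fun x e => hHc x) y
  -- energies
  have hSetE : MeasurableSet {p : (ℝ × ℝ) × ℝ | 0 ≤ p.1.2 ∧ p.1.2 ≤ K * n} :=
    MeasurableSet.inter (measurableSet_le measurable_const (measurable_snd.comp measurable_fst))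
      (measurableSet_le (measurable_snd.comp measurable_fst) measurable_const)
  have hm1 : Measurable (fun p : S × ((ℝ × ℝ) × S) => (p.2.2, (p.2.1, G p.1))) := by fun_prop
  have haeLE : ∀ᵐ y ∂ν, ∀ᵐ p ∂(L y), 0 ≤ p.1.2 ∧ p.1.2 ≤ K * n := by
    have h3 : ∀ᵐ z ∂(ν ⊗ₘ L), 0 ≤ z.2.1.2 ∧ z.2.1.2 ≤ K * n := by
      have hP2 : MeasurableSet {z : S × ((ℝ × ℝ) × ℝ) | 0 ≤ z.2.1.2 ∧ z.2.1.2 ≤ K * n} :=
        measurable_snd hSetE
      rw [← h1, ae_map_iff hm1.aemeasurable hP2]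
      exact hE
    exact Measure.ae_ae_of_ae_compProd h3
  have haeRE : ∀ᵐ y ∂ν, ∀ᵐ p ∂(RK b H y), 0 ≤ p.1.2 ∧ p.1.2 ≤ K * n := by
    have h3 := Measure.ae_ae_of_ae_compProd hE
    filter_upwards [h3] with y hy
    unfold RK
    rw [Kernel.map_apply _ (meas_RK hHm), ae_map_iff (meas_RK hHm).aemeasurable hSetE]
    exact hy
  -- the real block value
  have hpm : Measurable (fun q : (ℝ × ℝ) × S => (q.1.1, q.2)) := by fun_prop
  have mpr : IsMarkovKernel (pr b) := Kernel.IsMarkovKernel.map _ hpm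
  have hpre : ν ⊗ₘ pr b = (ν ⊗ₘ b).map (Prod.map id (fun q : (ℝ × ℝ) × S => (q.1.1, q.2))) := by
    unfold pr
    exact Measure.compProd_map hpm
  have hpm2 : Measurable (Prod.map (id : S → S) (fun q : (ℝ × ℝ) × S => (q.1.1, q.2))) := by fun_prop
  have hprI : ∀ F : S × (ℝ × S) → ℝ, Measurable F →
      ∫ p, F p ∂(ν ⊗ₘ pr b) = ∫ p, F (p.1, (p.2.1.1, p.2.2)) ∂(ν ⊗ₘ b) := by
    intro F hF
    rw [hpre, integral_map hpm2.aemeasurable hF.aestronglyMeasurable]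
    rfl
  have hi2 : Integrable (fun p : S × ((ℝ × ℝ) × S) => p.2.1.1 ^ 2) (ν ⊗ₘ b) := by
    have h3 : Integrable (fun p : S × (ℝ × S) => p.2.1 ^ 2) (ν ⊗ₘ pr b) := hb.mem.integrable_sq
    rw [hpre] at h3
    exact h3.comp_measurable hpm2
  have hsq : ∫ p, p.2.1.1 ^ 2 ∂(ν ⊗ₘ b) ≤ n * w := by
    have h3 := hb.sq
    rw [hprI (fun p => p.2.1 ^ 2) (by fun_prop)] at h3
    exact h3
  have hiE : Integrable (fun p : S × ((ℝ × ℝ) × S) => p.2.1.2) (ν ⊗ₘ b) := by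
    refine Integrable.of_bound (Measurable.aestronglyMeasurable (by fun_prop)) (K * n) ?_
    filter_upwards [hE] with p hp
    rw [Real.norm_eq_abs, abs_of_nonneg hp.1]
    exact hp.2
  have hsqm : Measurable (fun e : ℝ × ℝ => e.1 ^ 2) := by fun_prop
  have hidm : Measurable (fun e : ℝ × ℝ => e.1) := measurable_fst
  obtain ⟨l1, l2, l3⟩ := L_mom ν b L G hGm h1 (fun e : ℝ × ℝ => e.1 ^ 2) hsqm hi2
  obtain ⟨r1, r2, r3⟩ := R_mom ν b H hHm (fun e : ℝ × ℝ => e.1 ^ 2) hsqm hi2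
  obtain ⟨d1, d2⟩ := dual_sq ν b L G hGm h1 (fun e : ℝ × ℝ => e.1) hidm hi2 (n * β) (by positivity)
    (fun u hu hC => by
      have h3 := hb.bwd u hu hC
      rw [hprI (fun p => p.2.1 * u p.2.2) (by fun_prop)] at h3
      exact h3)
  -- the forward drift
  have e1 : ∀ y, ∫ p, p.1.1 ∂(RK b H y) = ∫ q, q.1 ∂(pr b y) := fun y => by
    rw [R_eq b H hHm (fun e : ℝ × ℝ => e.1) hidm y]
    unfold pr
    rw [Kernel.map_apply _ hpm, integral_map hpm.aemeasurable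
      (Measurable.aestronglyMeasurable (by fun_prop))]
  have hm1' : Measurable (fun p : (ℝ × ℝ) × ℝ => p.1.1) := by fun_prop
  have f1 : Integrable (fun y => (∫ p, p.1.1 ∂(RK b H y)) ^ 2) ν := by
    have hmm : Measurable (fun y => ∫ p, p.1.1 ∂(RK b H y)) := meas_ki _ _ hm1'
    refine Integrable.mono' r2 (Measurable.aestronglyMeasurable (by fun_prop)) ?_
    filter_upwards [r1] with y hy
    rw [Real.norm_eq_abs, abs_of_nonneg (sq_nonneg _)]
    exact sq_mean _ _ hm1' hy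
  have f2 : ∫ y, (∫ p, p.1.1 ∂(RK b H y)) ^ 2 ∂ν ≤ n * α := by
    simp_rw [e1]
    exact hb.fwd
  -- the functions of the middle state
  set Λ := 32 * (A₁ + A₂ + K) with hΛ
  set U : S → ℝ := fun y => ∫ p, p.1.1 ^ 2 / n * p.2 ∂(L y) with hUdef
  set U' : S → ℝ := fun y => ∫ p, p.1.1 ^ 2 / n * p.2 ∂(RK b H y) with hUdef'
  set ww : S → ℝ := fun y => ∫ p, ((p.1.1 ^ 2 - p.1.2) / n + v) * p.2 ∂(L y) with hwdef
  set ww' : S → ℝ := fun y => ∫ p, ((p.1.1 ^ 2 - p.1.2) / n + v) * p.2 ∂(RK b H y) with hwdef'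
  set gg : S → ℝ := fun y => (∫ p, 1 / p.2 ∂(L y))⁻¹ with hgdef
  set hh : S → ℝ := fun y => (∫ p, 1 / p.2 ∂(RK b H y))⁻¹ with hhdef
  have mi0 : Measurable (fun p : (ℝ × ℝ) × ℝ => 1 / p.2) := measurable_snd.const_div 1
  have ms0 : Measurable (fun p : (ℝ × ℝ) × ℝ => p.1.1 ^ 2 / n * p.2) := by fun_prop
  have mU : Measurable U := meas_ki L _ ms0
  have mU' : Measurable U' := meas_ki (RK b H) _ ms0
  have mg : Measurable gg := (meas_ki L _ mi0).inv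
  have mh : Measurable hh := (meas_ki (RK b H) _ mi0).inv
  set c0 := c / 2 with hc0def
  have hc0 : 0 < c0 := by positivity
  have hc01 : c0 ≤ 1 + t := by linarith
  set Ht : S → ℝ := fun y => max c0 (min (1 + t) (tsv Λ (U y) (hh y))) with hHtdef
  set Gt : S → ℝ := fun y => max c0 (min (1 + t) (tsv Λ (U' y) (gg y))) with hGtdef
  have mHt : Measurable Ht := measurable_const.max (measurable_const.min (tsv_meas Λ mU mh))
  have mGt : Measurable Gt := measurable_const.max (measurable_const.min (tsv_meas Λ mU' mg))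
  have hHtb : ∀ y, c0 ≤ Ht y ∧ Ht y ≤ 1 + t := fun y => ⟨le_max_left _ _, max_le hc01 (min_le_left _ _)⟩
  have hGtb : ∀ y, c0 ≤ Gt y ∧ Gt y ≤ 1 + t := fun y => ⟨le_max_left _ _, max_le hc01 (min_le_left _ _)⟩
  have habs : ∀ (x d : ℝ), 0 < d → d ≤ x ∧ x ≤ 1 + t → |x| ≤ 1 + t := by
    intro x d hd hx
    rw [abs_of_nonneg (by linarith [hx.1])]
    exact hx.2
  have hr1 := h G Ht ⟨hGm, c, hc, hGc⟩ ⟨mHt, c0, hc0, hHtb⟩
  have hr2 := h Gt H ⟨mGt, c0, hc0, hGtb⟩ ⟨hHm, c, hc, hHc⟩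
  have hcoef : 0 ≤ 200 * ((A₁ + A₂ + K) / A₁) := by positivity
  set Err : S → ℝ := fun y => 200 * ((A₁ + A₂ + K) / A₁)
    * ((∫ p, p.1.1 ∂(L y)) ^ 2 / n + (∫ p, p.1.1 ∂(RK b H y)) ^ 2 / n) with hErrdef
  have ie1 : Integrable (fun y => (∫ p, p.1.1 ∂(L y)) ^ 2 / n + (∫ p, p.1.1 ∂(RK b H y)) ^ 2 / n) ν :=
    (d1.div_const n).add (f1.div_const n)
  have iErr : Integrable Err ν := ie1.const_mul _
  have hErr : ∫ y, Err y ∂ν ≤ 200 * ((A₁ + A₂ + K) / A₁) * (α + β) := by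
    simp only [hErrdef]
    rw [integral_const_mul, integral_add (d1.div_const n) (f1.div_const n), integral_div, integral_div]
    have g1 : (∫ y, (∫ p, p.1.1 ∂(L y)) ^ 2 ∂ν) / n ≤ β := by
      rw [div_le_iff₀ hn]
      calc _ ≤ n * β := d2
        _ = β * n := by ring
    have g2 : (∫ y, (∫ p, p.1.1 ∂(RK b H y)) ^ 2 ∂ν) / n ≤ α := by
      rw [div_le_iff₀ hn]
      calc _ ≤ n * α := f2
        _ = α * n := by ring
    exact mul_le_mul_of_nonneg_left (by linarith) hcoef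
  have hΨ : Measurable (fun e : ℝ × ℝ => (e.1 ^ 2 - e.2) / n + v) := by fun_prop
  have hΨ2 : Measurable (fun e : ℝ × ℝ => (e.1 ^ 2 - e.2) / (2 * n) + v) := by fun_prop
  have iΨ : Integrable (fun p : S × ((ℝ × ℝ) × S) => (p.2.1.1 ^ 2 - p.2.1.2) / n + v) (ν ⊗ₘ b) :=
    ((hi2.sub hiE).div_const n).add (integrable_const v)
  have hmain := abs_step ν b hinv L G H Gt Ht hGm hHm mGt mHt (1 + t)
    (fun x => habs _ c hc (hGc x)) (fun x => habs _ c hc (hHc x))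
    (fun x => habs _ c0 hc0 (hGtb x)) (fun x => habs _ c0 hc0 (hHtb x)) h1 h2
    (fun e : ℝ × ℝ => (e.1 ^ 2 - e.2) / n + v) (fun e : ℝ × ℝ => (e.1 ^ 2 - e.2) / (2 * n) + v)
    hΨ hΨ2 iΨ (conc_int ν b hinv hi2 hiE (2 * n) v)
    (fun g => kav A₁ A₂ v (1 / (1 - t)) g) (kav_meas _ _ _ _)
    (kav_int ν A₁ A₂ v _ c (1 + t) hA₁ hA₂ hv hc G hGm hGc)
    (kav_int ν A₁ A₂ v _ c (1 + t) hA₁ hA₂ hv hc H hHm hHc)
    (kav_int ν A₁ A₂ v _ c0 (1 + t) hA₁ hA₂ hv hc0 Gt mGt hGtb)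
    (kav_int ν A₁ A₂ v _ c0 (1 + t) hA₁ hA₂ hv hc0 Ht mHt hHtb) Err iErr ?_ r hr1 hr2
  · refine le_trans ?_ hmain
    linarith
  · filter_upwards [haeL, haeLE, haeRE, l1, r1] with y hyL hyE hyE' hyl hyr
    have hyR := haeR y
    have hg1 := inv_mean (L y) (fun p => p.2) measurable_snd c (1 + t) hc hyL
    have hh1 := inv_mean (RK b H y) (fun p => p.2) measurable_snd c (1 + t) hc hyR
    have t1 := tsv_bd Λ (U y) (hh y) c (1 + t) hc hh1.1 hh1.2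
    have t2 := tsv_bd Λ (U' y) (gg y) c (1 + t) hc hg1.1 hg1.2
    have q1 : Ht y = tsv Λ (U y) (hh y) := clamp_eq2 _ _ _ t1.1 t1.2
    have q2 : Gt y = tsv Λ (U' y) (gg y) := clamp_eq2 _ _ _ t2.1 t2.2
    rw [q1, q2]
    have hfin := hpt (L y) (RK b H y) c t K n hc ht0 ht hn hK hyL hyR hyE hyE' hyl hyr A₁ A₂ v hA₁ hA₂
      hv h8 (U y) (U' y) (ww y) (ww' y) (gg y) (hh y) rfl rfl rfl rfl rfl rfl
    exact hfin

end Pool.Agent.Q42.UIC
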