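import Pool.Agent.Q42.UIC.Stm

/-! Project UIC, job ui (helper238): uniform integrability. -/

set_option autoImplicit false
set_option linter.unusedVariables false

open MeasureTheory ProbabilityTheory Filter

namespace Pool.Agent.Q42.UIC

theorem ui_phi_nonneg (θ s : ℝ) : 0 ≤ Phi θ s := by
  unfold Phi
  have := Real.cos_le_one (θ * s)
  exact div_nonneg (by linarith) (sq_nonneg _)

theorem ui_phi_le_sq (θ s : ℝ) (hθ : 0 < θ) : Phi θ s ≤ s ^ 2 := by
  unfold Phi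
  rw [div_le_iff₀ (by positivity)]
  have := Real.one_sub_sq_div_two_le_cos (x := θ * s)
  nlinarith

theorem ui_phi_le (θ s : ℝ) (hθ : 0 < θ) : Phi θ s ≤ 4 / θ ^ 2 := by
  unfold Phi
  have := Real.neg_one_le_cos (θ * s)
  gcongr
  linarith

theorem ui_phi_meas (θ : ℝ) : Measurable (Phi θ) := by
  unfold Phi
  fun_prop

theorem ui_phi_lim (t : ℕ → ℝ) (ht : ∀ n, 0 < t n) (h0 : Tendsto t atTop (nhds 0)) (s : ℝ) :
    Tendsto (fun n => Phi (t n) s) atTop (nhds (s ^ 2)) := by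
  have h1 : Tendsto (fun n => t n ^ 2 * (s ^ 4 * (5 / 48))) atTop (nhds 0) := by
    have := (h0.pow 2).mul_const (s ^ 4 * (5 / 48))
    simpa using this
  rw [tendsto_iff_norm_sub_tendsto_zero]
  refine squeeze_zero' (Eventually.of_forall fun n => norm_nonneg _) ?_ h1
  have h2 : Tendsto (fun n => t n * s) atTop (nhds 0) := by
    simpa using h0.mul_const s
  have h3 : ∀ᶠ n in atTop, |t n * s| ≤ 1 := by
    have := h2.norm
    rw [norm_zero] at this
    filter_upwards [this.eventually (ge_mem_nhds (show (0 : ℝ) < 1 by norm_num))] with n hn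
    simpa using hn
  filter_upwards [h3] with n hn
  have hb := Real.cos_bound hn
  have hpos := ht n
  have hp2 : 0 < t n ^ 2 := by positivity
  rw [Real.norm_eq_abs]
  have e1 : Phi (t n) s - s ^ 2 = -2 * (Real.cos (t n * s) - (1 - (t n * s) ^ 2 / 2)) / t n ^ 2 := by
    unfold Phi
    field_simp
    ring
  rw [e1, abs_div, abs_mul, abs_of_pos hp2, div_le_iff₀ hp2]
  have e2 : |(-2 : ℝ)| = 2 := by norm_num
  rw [e2]
  have e3 : |t n * s| ^ 4 = t n ^ 4 * s ^ 4 := by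
    rw [← mul_pow, ← abs_pow]
    exact abs_of_nonneg (by positivity)
  rw [e3] at hb
  nlinarith

theorem ui_lb_mono {S : Type} [MeasurableSpace S] {ν : Measure S} {b : Kernel S (ℝ × S)}
    {n θ A r r' : ℝ} (h : LB ν b n θ A r) (hr : r' ≤ r) : LB ν b n θ A r' :=
  fun G H hG hH => hr.trans (h G H hG hH)

theorem ui_iter (h1 : St_step_ui) {S : Type} [MeasurableSpace S] (ν : Measure S)
    [IsProbabilityMeasure ν] (b : Kernel S (ℝ × S)) [IsMarkovKernel b]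
    (w : ℝ) (α β : ℕ → ℝ) (hw : 0 ≤ w) (hα0 : ∀ l, 0 ≤ α l) (hβ0 : ∀ l, 0 ≤ β l)
    (hb : ∀ l, Blk ν (lev b l) (2 ^ l) w (α l) (β l)) (θ A r : ℝ) (hθ : 0 < θ) (hA : 0 < A) (k : ℕ)
    (h : LB ν (lev b k) (2 ^ k) θ A r) :
    ∀ j : ℕ, (∀ i < j, θ * Real.sqrt (2 ^ (k + i)) ≤ 1) →
      LB ν (lev b (k + j)) (2 ^ (k + j)) θ A (r - ∑ i ∈ Finset.range j,
        (40 * (α (k + i) + β (k + i))
          + 80 * (1 + Real.sqrt A) * Real.sqrt (θ * Real.sqrt (2 ^ (k + i))) * w)) := by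
  intro j
  induction j with
  | zero =>
    intro _
    simpa using h
  | succ j ih =>
    intro hj
    have h2 := ih (fun i hi => hj i (by omega))
    have h3 := h1 ν (lev b (k + j)) (2 ^ (k + j)) w (α (k + j)) (β (k + j)) θ A _ (by positivity) hw
      (hα0 _) (hβ0 _) (hb _) hθ hA (hj j (by omega)) h2
    have e : (2 : ℝ) * 2 ^ (k + j) = 2 ^ (k + (j + 1)) := by
      rw [← add_assoc, pow_succ']
    rw [e] at h3
    refine ui_lb_mono h3 (le_of_eq ?_)
    rw [Finset.sum_range_succ]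
    ring

theorem ui_geom (q : ℝ) (h0 : 0 ≤ q) (h1 : q < 1) (j J : ℕ) :
    ∑ i ∈ Finset.range j, q ^ (J + (j - i)) ≤ q ^ J / (1 - q) := by
  have e1 : ∑ i ∈ Finset.range j, q ^ (J + (j - i)) = q ^ J * ∑ i ∈ Finset.range j, q ^ (i + 1) := by
    rw [Finset.mul_sum, ← Finset.sum_range_reflect]
    refine Finset.sum_congr rfl fun i hi => ?_
    have hi' := Finset.mem_range.1 hi
    rw [pow_add]
    congr 2
    omega
  rw [e1, div_eq_mul_inv]
  refine mul_le_mul_of_nonneg_left ?_ (pow_nonneg h0 J)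
  have h2 : ∑ i ∈ Finset.range j, q ^ (i + 1) ≤ ∑ i ∈ Finset.range j, q ^ i := by
    refine Finset.sum_le_sum fun i _ => ?_
    exact pow_le_pow_of_le_one h0 h1.le (by omega)
  refine h2.trans ?_
  rw [← tsum_geometric_of_lt_one h0 h1]
  exact (summable_geometric_of_lt_one h0 h1).sum_le_tsum _ (fun i _ => pow_nonneg h0 i)

/-- the sequence of normalised second moments is Cauchy -/
theorem ui_cauchy (h3 : St_sq_conc) {S : Type} [MeasurableSpace S] (ν : Measure S)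
    [IsProbabilityMeasure ν] (b : Kernel S (ℝ × S)) [IsMarkovKernel b]
    (w : ℝ) (α β : ℕ → ℝ) (hα0 : ∀ l, 0 ≤ α l) (hβ0 : ∀ l, 0 ≤ β l)
    (hb : ∀ l, Blk ν (lev b l) (2 ^ l) w (α l) (β l)) (k : ℕ) :
    ∀ j : ℕ, |(∫ p, p.2.1 ^ 2 / 2 ^ (k + j) ∂(ν ⊗ₘ lev b (k + j)))
        - ∫ p, p.2.1 ^ 2 / 2 ^ k ∂(ν ⊗ₘ lev b k)|
      ≤ ∑ i ∈ Finset.range j, (α (k + i) + β (k + i)) := by
  intro j
  induction j with
  | zero => simp
  | succ j ih =>
    have h4 := (h3 ν (lev b (k + j)) (2 ^ (k + j)) w (α (k + j)) (β (k + j)) (by positivity)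
      (hα0 _) (hβ0 _) (hb _)).2
    have h5 : |(∫ p, p.2.1 ^ 2 / 2 ^ (k + (j + 1)) ∂(ν ⊗ₘ lev b (k + (j + 1))))
        - ∫ p, p.2.1 ^ 2 / 2 ^ (k + j) ∂(ν ⊗ₘ lev b (k + j))| ≤ α (k + j) + β (k + j) := by
      change |(∫ p, p.2.1 ^ 2 / 2 ^ (k + (j + 1)) ∂(ν ⊗ₘ conc (lev b (k + j)) (lev b (k + j))))
        - ∫ p, p.2.1 ^ 2 / 2 ^ (k + j) ∂(ν ⊗ₘ lev b (k + j))| ≤ α (k + j) + β (k + j)
      rw [integral_div, integral_div]
      have hp : (0 : ℝ) < 2 ^ (k + j) := by positivity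
      have e : (2 : ℝ) ^ (k + (j + 1)) = 2 * 2 ^ (k + j) := by
        rw [← add_assoc, pow_succ']
      rw [e]
      have e2 : ∀ x y : ℝ, x / (2 * 2 ^ (k + j)) - y / 2 ^ (k + j) = (x - 2 * y) / (2 * 2 ^ (k + j)) := by
        intro x y
        field_simp
      rw [e2, abs_div, abs_of_pos (show (0 : ℝ) < 2 * 2 ^ (k + j) by positivity),
        div_le_iff₀ (by positivity)]
      refine h4.trans ?_
      have := add_nonneg (hα0 (k + j)) (hβ0 (k + j))
      nlinarith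
    rw [Finset.sum_range_succ]
    have h6 := abs_sub_le (∫ p, p.2.1 ^ 2 / 2 ^ (k + (j + 1)) ∂(ν ⊗ₘ lev b (k + (j + 1))))
      (∫ p, p.2.1 ^ 2 / 2 ^ (k + j) ∂(ν ⊗ₘ lev b (k + j)))
      (∫ p, p.2.1 ^ 2 / 2 ^ k ∂(ν ⊗ₘ lev b k))
    linarith

theorem ui_sqrt_pow (x : ℝ) (hx : 0 ≤ x) (n : ℕ) : Real.sqrt (x ^ n) = Real.sqrt x ^ n := by
  have h : x ^ n = (Real.sqrt x ^ n) ^ 2 := by
    rw [← pow_mul, mul_comm, pow_mul, Real.sq_sqrt hx]
  conv_lhs => rw [h]
  exact Real.sqrt_sq (pow_nonneg (Real.sqrt_nonneg _) _)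

theorem ui_theta (j J i k : ℕ) (hi : i < j) :
    Real.sqrt (1 / 2) ^ (k + j + J) * Real.sqrt (2 ^ (k + i)) = Real.sqrt (1 / 2) ^ (J + (j - i)) := by
  rw [ui_sqrt_pow 2 (by norm_num)]
  have h1 : k + j + J = (J + (j - i)) + (k + i) := by omega
  rw [h1, pow_add, mul_assoc, ← mul_pow, ← Real.sqrt_mul (by norm_num)]
  norm_num

theorem ui : St_step_ui → St_init_ui → St_sq_conc → St_ui := by
  intro hstep hinit hsq S _ ν _ b _ w α β hw hα0 hβ0 hα hβ hb δ hδ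
  have hσ : Summable (fun l => α l + β l) := hα.add hβ
  have hσ0 : ∀ l, 0 ≤ α l + β l := fun l => add_nonneg (hα0 l) (hβ0 l)
  obtain ⟨k, hk⟩ : ∃ k : ℕ, ∑' i, (α (i + k) + β (i + k)) ≤ δ / 400 := by
    have h := tendsto_sum_nat_add (fun l => α l + β l)
    obtain ⟨k, hk⟩ := (h.eventually (ge_mem_nhds (show (0 : ℝ) < δ / 400 by positivity))).exists
    exact ⟨k, hk⟩
  have hsum : ∀ j, ∑ i ∈ Finset.range j, (α (k + i) + β (k + i)) ≤ δ / 400 := by
    intro j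
    refine le_trans ?_ hk
    have h1 : Summable (fun i => α (i + k) + β (i + k)) :=
      (summable_nat_add_iff (f := fun l => α l + β l) k).2 hσ
    have h2 := h1.sum_le_tsum (Finset.range j) (fun i _ => hσ0 (i + k))
    simpa [add_comm k] using h2
  have hmeas : Measurable (fun p : S × (ℝ × S) => p.2.1) := by fun_prop
  have hint : Integrable (fun p : S × (ℝ × S) => p.2.1 ^ 2 / 2 ^ k) (ν ⊗ₘ lev b k) :=
    ((hb k).mem.integrable_sq).div_const _
  -- the level A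
  obtain ⟨A, hA, hA2⟩ : ∃ A : ℝ, 0 < A ∧ (∫ p, p.2.1 ^ 2 / 2 ^ k ∂(ν ⊗ₘ lev b k)) - δ / 8
      ≤ ∫ p, min (p.2.1 ^ 2 / 2 ^ k) A ∂(ν ⊗ₘ lev b k) := by
    have h1 : Tendsto (fun n : ℕ => ∫ p, min (p.2.1 ^ 2 / 2 ^ k) ((n : ℝ) + 1) ∂(ν ⊗ₘ lev b k)) atTop
        (nhds (∫ p, p.2.1 ^ 2 / 2 ^ k ∂(ν ⊗ₘ lev b k))) := by
      refine tendsto_integral_of_dominated_convergence (fun p => p.2.1 ^ 2 / 2 ^ k) ?_ hint ?_ ?_
      · intro n
        exact (Measurable.min ((hmeas.pow_const 2).div_const _) measurable_const).aestronglyMeasurable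
      · intro n
        refine Eventually.of_forall fun p => ?_
        have hn : (0 : ℝ) ≤ (n : ℝ) + 1 := by positivity
        have hp : (0 : ℝ) ≤ p.2.1 ^ 2 / 2 ^ k := by positivity
        rw [Real.norm_eq_abs, abs_of_nonneg (le_min hp hn)]
        exact min_le_left _ _
      · refine Eventually.of_forall fun p => ?_
        refine tendsto_const_nhds.congr' ?_
        have h3 : ∀ᶠ n : ℕ in atTop, p.2.1 ^ 2 / 2 ^ k ≤ (n : ℝ) :=
          tendsto_natCast_atTop_atTop.eventually_ge_atTop _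
        filter_upwards [h3] with n hn
        rw [min_eq_left (by linarith)]
    have h2 : (∫ p, p.2.1 ^ 2 / 2 ^ k ∂(ν ⊗ₘ lev b k)) - δ / 8
        < ∫ p, p.2.1 ^ 2 / 2 ^ k ∂(ν ⊗ₘ lev b k) := by linarith
    obtain ⟨n, hn⟩ := (h1.eventually (le_mem_nhds h2)).exists
    exact ⟨(n : ℝ) + 1, by positivity, hn⟩
  -- the number q
  obtain ⟨q, hq⟩ : ∃ q : ℝ, q = Real.sqrt (Real.sqrt (1 / 2)) := ⟨_, rfl⟩
  have hu0 : 0 < Real.sqrt (1 / 2) := Real.sqrt_pos.2 (by norm_num)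
  have hu1 : Real.sqrt (1 / 2) < 1 := by
    rw [Real.sqrt_lt' (by norm_num)]
    norm_num
  have hq0 : 0 < q := by rw [hq]; exact Real.sqrt_pos.2 hu0
  have hq1 : q < 1 := by
    rw [hq, Real.sqrt_lt' (by norm_num)]
    simpa using hu1
  obtain ⟨C, hC⟩ : ∃ C : ℝ, C = 80 * (1 + Real.sqrt A) * w := ⟨_, rfl⟩
  have hC0 : 0 ≤ C := by
    rw [hC]
    have := Real.sqrt_nonneg A
    positivity
  obtain ⟨J, hJ⟩ : ∃ J : ℕ, C * (q ^ J / (1 - q)) ≤ δ / 8 := by
    have h1 : Tendsto (fun n : ℕ => C * (q ^ n / (1 - q))) atTop (nhds 0) := by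
      have := ((tendsto_pow_atTop_nhds_zero_of_lt_one hq0.le hq1).div_const (1 - q)).const_mul C
      simpa using this
    obtain ⟨J, hJ⟩ := (h1.eventually (ge_mem_nhds (show (0 : ℝ) < δ / 8 by positivity))).exists
    exact ⟨J, hJ⟩
  obtain ⟨θ, hθd⟩ : ∃ θ : ℕ → ℝ, θ = fun j => Real.sqrt (1 / 2) ^ (k + j + J) := ⟨_, rfl⟩
  have hθ : ∀ j, 0 < θ j := by
    intro j
    rw [hθd]
    exact pow_pos hu0 _
  have hθ0 : Tendsto θ atTop (nhds 0) := by
    rw [hθd]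
    have h1 := tendsto_pow_atTop_nhds_zero_of_lt_one hu0.le hu1
    have h2 : Tendsto (fun j : ℕ => k + j + J) atTop atTop := by
      refine tendsto_atTop_mono (fun j => ?_) tendsto_id
      simp only [id]
      omega
    exact h1.comp h2
  -- the limit of the start
  have hlim : Tendsto (fun j : ℕ => ∫ p, min (Phi (θ j) p.2.1 / 2 ^ k) A ∂(ν ⊗ₘ lev b k)) atTop
      (nhds (∫ p, min (p.2.1 ^ 2 / 2 ^ k) A ∂(ν ⊗ₘ lev b k))) := by
    refine tendsto_integral_of_dominated_convergence (fun p => p.2.1 ^ 2 / 2 ^ k) ?_ hint ?_ ?_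
    · intro n
      exact (Measurable.min (((ui_phi_meas (θ n)).comp hmeas).div_const _)
        measurable_const).aestronglyMeasurable
    · intro n
      refine Eventually.of_forall fun p => ?_
      have hp : (0 : ℝ) ≤ Phi (θ n) p.2.1 / 2 ^ k := div_nonneg (ui_phi_nonneg _ _) (by positivity)
      rw [Real.norm_eq_abs, abs_of_nonneg (le_min hp hA.le)]
      refine (min_le_left _ _).trans ?_
      have := ui_phi_le_sq (θ n) p.2.1 (hθ n)
      gcongr
    · refine Eventually.of_forall fun p => ?_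
      have h1 := (ui_phi_lim θ hθ hθ0 p.2.1).div_const (2 ^ k)
      exact h1.min tendsto_const_nhds
  have hev : ∀ᶠ j : ℕ in atTop, (∫ p, min (p.2.1 ^ 2 / 2 ^ k) A ∂(ν ⊗ₘ lev b k)) - δ / 8
      ≤ ∫ p, min (Phi (θ j) p.2.1 / 2 ^ k) A ∂(ν ⊗ₘ lev b k) :=
    hlim.eventually (le_mem_nhds (by linarith))
  obtain ⟨j0, hj0⟩ := eventually_atTop.1 hev
  refine ⟨16 * 2 ^ J, by positivity, k + j0, ?_⟩
  intro l hl
  obtain ⟨j, rfl⟩ : ∃ j, l = k + j := ⟨l - k, by omega⟩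
  have hj : j0 ≤ j := by omega
  have hr0 := hj0 j hj
  -- iterate
  have hstart := hinit ν (lev b k) (hb k).inv (hb k).mem (2 ^ k) (θ j) A (by positivity) (hθ j) hA
  have hlb := ui_iter hstep ν b w α β hw hα0 hβ0 hb (θ j) A _ (hθ j) hA k hstart j (by
    intro i hi
    rw [hθd]
    simp only
    rw [ui_theta j J i k hi]
    exact pow_le_one₀ hu0.le hu1.le)
  have herr : ∑ i ∈ Finset.range j, (40 * (α (k + i) + β (k + i))
      + 80 * (1 + Real.sqrt A) * Real.sqrt (θ j * Real.sqrt (2 ^ (k + i))) * w) ≤ δ / 10 + δ / 8 := by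
    rw [Finset.sum_add_distrib]
    refine add_le_add ?_ ?_
    · rw [← Finset.mul_sum]
      have := hsum j
      linarith
    · have e1 : ∑ i ∈ Finset.range j,
          80 * (1 + Real.sqrt A) * Real.sqrt (θ j * Real.sqrt (2 ^ (k + i))) * w
          = C * ∑ i ∈ Finset.range j, q ^ (J + (j - i)) := by
        rw [Finset.mul_sum]
        refine Finset.sum_congr rfl fun i hi => ?_
        rw [hθd]
        simp only
        rw [ui_theta j J i k (Finset.mem_range.1 hi), ui_sqrt_pow _ hu0.le, ← hq, hC]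
        ring
      rw [e1]
      exact (mul_le_mul_of_nonneg_left (ui_geom q hq0.le hq1 j J) hC0).trans hJ
  have hone : Adm (S := S) 1 (fun _ => 1) := ⟨measurable_const, 1, one_pos, fun x => ⟨le_refl _, le_refl _⟩⟩
  have hfin := hlb (fun _ => 1) (fun _ => 1) hone hone
  have hkap : kap A 1 = 0 := by
    unfold kap
    norm_num
  simp only [mul_one, hkap, integral_zero, add_zero] at hfin
  have hcau := ui_cauchy hsq ν b w α β hα0 hβ0 hb k j
  have hcau2 := abs_le.1 (hcau.trans (hsum j))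
  -- the two integrals at level k + j
  have hI2 : Integrable (fun p : S × (ℝ × S) => p.2.1 ^ 2) (ν ⊗ₘ lev b (k + j)) :=
    (hb (k + j)).mem.integrable_sq
  have hIP : Integrable (fun p : S × (ℝ × S) => Phi (θ j) p.2.1) (ν ⊗ₘ lev b (k + j)) := by
    refine hI2.mono ((ui_phi_meas _).comp hmeas).aestronglyMeasurable (Eventually.of_forall fun p => ?_)
    rw [Real.norm_eq_abs, Real.norm_eq_abs, abs_of_nonneg (ui_phi_nonneg _ _),
      abs_of_nonneg (sq_nonneg _)]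
    exact ui_phi_le_sq _ _ (hθ j)
  have hpw : ∀ p : S × (ℝ × S),
      (if 16 * 2 ^ J * 2 ^ (k + j) ≤ p.2.1 ^ 2 then p.2.1 ^ 2 else 0)
        ≤ 4 / 3 * (p.2.1 ^ 2 - Phi (θ j) p.2.1) := by
    intro p
    have hle := ui_phi_le_sq (θ j) p.2.1 (hθ j)
    split_ifs with hc
    · have h1 := ui_phi_le (θ j) p.2.1 (hθ j)
      have h2 : 4 / θ j ^ 2 = 4 * 2 ^ J * 2 ^ (k + j) := by
        rw [hθd]
        simp only
        rw [← pow_mul, mul_comm (k + j + J) 2, pow_mul, Real.sq_sqrt (by norm_num), one_div, inv_pow,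
          div_inv_eq_mul, pow_add]
        ring
      rw [h2] at h1
      linarith
    · linarith
  have hstep2 : ∫ p, (if 16 * 2 ^ J * 2 ^ (k + j) ≤ p.2.1 ^ 2 then p.2.1 ^ 2 else 0)
      ∂(ν ⊗ₘ lev b (k + j)) ≤ ∫ p, 4 / 3 * (p.2.1 ^ 2 - Phi (θ j) p.2.1) ∂(ν ⊗ₘ lev b (k + j)) := by
    refine integral_mono_of_nonneg (Eventually.of_forall fun p => ?_)
      ((hI2.sub hIP).const_mul _) (Eventually.of_forall hpw)
    simp only [Pi.zero_apply]
    split_ifs
    · positivity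
    · exact le_refl _
  refine hstep2.trans ?_
  rw [integral_const_mul, integral_sub hI2 hIP]
  have hp : (0 : ℝ) < 2 ^ (k + j) := by positivity
  rw [integral_div, integral_div] at hcau2
  rw [integral_div] at hfin
  rw [integral_div] at hA2
  have hX : (∫ p, p.2.1 ^ 2 ∂(ν ⊗ₘ lev b (k + j))) / 2 ^ (k + j)
      - (∫ p, Phi (θ j) p.2.1 ∂(ν ⊗ₘ lev b (k + j))) / 2 ^ (k + j) ≤ 5 / 8 * δ := by
    linarith [hcau2.2]
  rw [← sub_div, div_le_iff₀ hp] at hX
  nlinarith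

end Pool.Agent.Q42.UIC
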