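import Pool.Agent.Q42.UIC.Stm

/-! Project UIC, job var_all: convergence of the variances along all integers. -/

set_option autoImplicit false
set_option linter.unusedSectionVars false
set_option linter.style.haveILetI false

open MeasureTheory ProbabilityTheory Filter Topology

namespace Pool.Agent.Q42.UIC

namespace VA

lemma int3 {Ω : Type*} [MeasurableSpace Ω] (μ : Measure Ω) (f g h : Ω → ℝ) (hf : Integrable f μ)
    (hg : Integrable g μ) (hh : Integrable h μ) :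
    ∫ x, (f x + g x + h x) ∂μ = ∫ x, f x ∂μ + ∫ x, g x ∂μ + ∫ x, h x ∂μ := by
  rw [integral_add (f := fun x => f x + g x) (hf.add hg) hh, integral_add hf hg]

/-- Cauchy-Schwarz -/
lemma cs {Ω : Type*} [MeasurableSpace Ω] (μ : Measure Ω) (f g : Ω → ℝ) (hf : MemLp f 2 μ)
    (hg : MemLp g 2 μ) :
    (∫ x, f x * g x ∂μ) ^ 2 ≤ (∫ x, f x ^ 2 ∂μ) * ∫ x, g x ^ 2 ∂μ := by
  have h1 : Integrable (fun x => f x * g x) μ := hf.integrable_mul hg
  have h2 := hf.integrable_sq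
  have h3 := hg.integrable_sq
  have h4 : ∀ t : ℝ, 0 ≤ (∫ x, g x ^ 2 ∂μ) * (t * t) + (2 * ∫ x, f x * g x ∂μ) * t +
      ∫ x, f x ^ 2 ∂μ := by
    intro t
    have e0 : (∫ x, g x ^ 2 ∂μ) * (t * t) + (2 * ∫ x, f x * g x ∂μ) * t + ∫ x, f x ^ 2 ∂μ =
        ∫ x, (f x + t * g x) ^ 2 ∂μ := by
      have e : (fun x => (f x + t * g x) ^ 2) =
          fun x => g x ^ 2 * (t * t) + (f x * g x) * (2 * t) + f x ^ 2 := by
        funext x
        ring
      rw [e, int3 μ _ _ _ (h3.mul_const (t * t)) (h1.mul_const (2 * t)) h2, integral_mul_const,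
        integral_mul_const]
      ring
    rw [e0]
    exact integral_nonneg fun x => sq_nonneg _
  have := discrim_le_zero h4
  unfold discrim at this
  linarith

variable {S : Type} [MeasurableSpace S]

/-- the law of a pair of consecutive blocks -/
noncomputable def pi2 (ν : Measure S) (b c : Kernel S (ℝ × S)) :
    Measure ((S × (ℝ × S)) × (ℝ × S)) :=
  (ν ⊗ₘ b) ⊗ₘ (c.comap (fun p : S × (ℝ × S) => p.2.2) (by fun_prop))

variable (ν : Measure S) [IsProbabilityMeasure ν] (b c : Kernel S (ℝ × S)) [IsMarkovKernel b]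
  [IsMarkovKernel c]

lemma pi2_left : (pi2 ν b c).map Prod.fst = ν ⊗ₘ b := Measure.fst_compProd _ _

lemma lint_snd (F : S → ENNReal) (hF : Measurable F) (hb : EndInv ν b) :
    ∫⁻ p, F p.2.2 ∂(ν ⊗ₘ b) = ∫⁻ y, F y ∂ν := by
  have hm : Measurable (fun p : S × (ℝ × S) => p.2.2) := by fun_prop
  have h := lintegral_map (μ := ν ⊗ₘ b) hF hm
  rw [show (ν ⊗ₘ b).map (fun p : S × (ℝ × S) => p.2.2) = ν from hb] at h
  exact h.symm

lemma pi2_right (hb : EndInv ν b) :
    (pi2 ν b c).map (fun p : (S × (ℝ × S)) × (ℝ × S) => (p.1.2.2, p.2)) = ν ⊗ₘ c := by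
  have hm : Measurable (fun p : (S × (ℝ × S)) × (ℝ × S) => (p.1.2.2, p.2)) := by fun_prop
  ext s hs
  have h1 : Measurable (Set.indicator s (fun _ : S × (ℝ × S) => (1 : ENNReal))) :=
    measurable_const.indicator hs
  rw [← lintegral_indicator_one hs, ← lintegral_indicator_one hs]
  change ∫⁻ a, s.indicator (fun _ => (1 : ENNReal)) a ∂_ =
    ∫⁻ a, s.indicator (fun _ => (1 : ENNReal)) a ∂_
  have h2 : Measurable (fun p : (S × (ℝ × S)) × (ℝ × S) =>
      s.indicator (fun _ => (1 : ENNReal)) (p.1.2.2, p.2)) := h1.comp hm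
  unfold pi2
  rw [lintegral_map h1 hm, Measure.lintegral_compProd h2, Measure.lintegral_compProd h1]
  have h3 : Measurable (fun y : S => ∫⁻ q, s.indicator (fun _ => (1 : ENNReal)) (y, q) ∂(c y)) :=
    Measurable.lintegral_kernel_prod_right' h1
  exact lint_snd ν b _ h3 hb

lemma mem_left (h : MemLp (fun p : S × (ℝ × S) => p.2.1) 2 (ν ⊗ₘ b)) :
    MemLp (fun p : (S × (ℝ × S)) × (ℝ × S) => p.1.2.1) 2 (pi2 ν b c) := by
  rw [← pi2_left ν b c] at h
  exact (memLp_map_measure_iff h.aestronglyMeasurable measurable_fst.aemeasurable).1 h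

lemma mem_right (hb : EndInv ν b) (h : MemLp (fun p : S × (ℝ × S) => p.2.1) 2 (ν ⊗ₘ c)) :
    MemLp (fun p : (S × (ℝ × S)) × (ℝ × S) => p.2.1) 2 (pi2 ν b c) := by
  have hm : Measurable (fun p : (S × (ℝ × S)) × (ℝ × S) => (p.1.2.2, p.2)) := by fun_prop
  rw [← pi2_right ν b c hb] at h
  exact (memLp_map_measure_iff h.aestronglyMeasurable hm.aemeasurable).1 h

lemma int_left (F : S × (ℝ × S) → ℝ) (hF : Measurable F) :
    ∫ p, F p.1 ∂(pi2 ν b c) = ∫ p, F p ∂(ν ⊗ₘ b) := by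
  rw [← pi2_left ν b c, integral_map measurable_fst.aemeasurable hF.aestronglyMeasurable]

lemma int_right (hb : EndInv ν b) (F : S × (ℝ × S) → ℝ) (hF : Measurable F) :
    ∫ p, F (p.1.2.2, p.2) ∂(pi2 ν b c) = ∫ p, F p ∂(ν ⊗ₘ c) := by
  have hm : Measurable (fun p : (S × (ℝ × S)) × (ℝ × S) => (p.1.2.2, p.2)) := by fun_prop
  rw [← pi2_right ν b c hb, integral_map hm.aemeasurable hF.aestronglyMeasurable]

lemma int_conc (F : S × (ℝ × S) → ℝ) (hF : Measurable F) :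
    ∫ p, F p ∂(ν ⊗ₘ conc b c) =
      ∫ p, F (p.1.1, (p.1.2.1 + p.2.1, p.2.2)) ∂(pi2 ν b c) := by
  have hm : Measurable (fun p : (S × (ℝ × S)) × (ℝ × S) => (p.1.1, (p.1.2.1 + p.2.1, p.2.2))) := by
    fun_prop
  rw [compProd_conc, integral_map hm.aemeasurable hF.aestronglyMeasurable]
  rfl

lemma conc_mem (hb : EndInv ν b) (h1 : MemLp (fun p : S × (ℝ × S) => p.2.1) 2 (ν ⊗ₘ b))
    (h2 : MemLp (fun p : S × (ℝ × S) => p.2.1) 2 (ν ⊗ₘ c)) :
    MemLp (fun p : S × (ℝ × S) => p.2.1) 2 (ν ⊗ₘ conc b c) := by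
  have hm : Measurable (fun p : (S × (ℝ × S)) × (ℝ × S) => (p.1.1, (p.1.2.1 + p.2.1, p.2.2))) := by
    fun_prop
  have hm2 : Measurable (fun p : S × (ℝ × S) => p.2.1) := by fun_prop
  rw [compProd_conc, memLp_map_measure_iff hm2.aestronglyMeasurable hm.aemeasurable]
  exact (mem_left ν b c h1).add (mem_right ν b c hb h2)

/-- the cross term -/
lemma cross (hb : EndInv ν b) (h1 : MemLp (fun p : S × (ℝ × S) => p.2.1) 2 (ν ⊗ₘ b))
    (h2 : MemLp (fun p : S × (ℝ × S) => p.2.1) 2 (ν ⊗ₘ c)) :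
    ∫ p, p.1.2.1 * p.2.1 ∂(pi2 ν b c) =
      ∫ p, p.2.1 * (∫ q, q.1 ∂(c p.2.2)) ∂(ν ⊗ₘ b) := by
  have hi : Integrable (fun p : (S × (ℝ × S)) × (ℝ × S) => p.1.2.1 * p.2.1) (pi2 ν b c) :=
    (mem_left ν b c h1).integrable_mul (mem_right ν b c hb h2)
  unfold pi2 at hi ⊢
  rw [Measure.integral_compProd hi]
  apply integral_congr_ae
  filter_upwards with p
  rw [Kernel.comap_apply, integral_const_mul]

lemma conc_sq (hb : EndInv ν b) (h1 : MemLp (fun p : S × (ℝ × S) => p.2.1) 2 (ν ⊗ₘ b))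
    (h2 : MemLp (fun p : S × (ℝ × S) => p.2.1) 2 (ν ⊗ₘ c)) :
    ∫ p, p.2.1 ^ 2 ∂(ν ⊗ₘ conc b c) = ∫ p, p.2.1 ^ 2 ∂(ν ⊗ₘ b) +
      2 * (∫ p, p.2.1 * (∫ q, q.1 ∂(c p.2.2)) ∂(ν ⊗ₘ b)) + ∫ p, p.2.1 ^ 2 ∂(ν ⊗ₘ c) := by
  have m1 := mem_left ν b c h1
  have m2 := mem_right ν b c hb h2
  have i1 := m1.integrable_sq
  have i2 := m2.integrable_sq
  have i3 : Integrable (fun p : (S × (ℝ × S)) × (ℝ × S) => p.1.2.1 * p.2.1) (pi2 ν b c) :=
    m1.integrable_mul m2
  rw [int_conc ν b c (fun p => p.2.1 ^ 2) (by fun_prop), ← cross ν b c hb h1 h2,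
    ← int_left ν b c (fun p => p.2.1 ^ 2) (by fun_prop),
    ← int_right ν b c hb (fun p => p.2.1 ^ 2) (by fun_prop)]
  have e : (fun p : (S × (ℝ × S)) × (ℝ × S) => (p.1.2.1 + p.2.1) ^ 2) =
      fun p => p.1.2.1 ^ 2 + 2 * (p.1.2.1 * p.2.1) + p.2.1 ^ 2 := by
    funext p
    ring
  simp only
  rw [e, int3 _ _ _ _ i1 (i3.const_mul 2) i2, integral_const_mul]

lemma cross_le (hb : EndInv ν b) (h1 : MemLp (fun p : S × (ℝ × S) => p.2.1) 2 (ν ⊗ₘ b))
    (h2 : MemLp (fun p : S × (ℝ × S) => p.2.1) 2 (ν ⊗ₘ c)) :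
    (∫ p, p.2.1 * (∫ q, q.1 ∂(c p.2.2)) ∂(ν ⊗ₘ b)) ^ 2 ≤
      (∫ p, p.2.1 ^ 2 ∂(ν ⊗ₘ b)) * ∫ p, p.2.1 ^ 2 ∂(ν ⊗ₘ c) := by
  rw [← cross ν b c hb h1 h2, ← int_left ν b c (fun p => p.2.1 ^ 2) (by fun_prop),
    ← int_right ν b c hb (fun p => p.2.1 ^ 2) (by fun_prop)]
  exact cs _ _ _ (mem_left ν b c h1) (mem_right ν b c hb h2)

/-- the forward operator on the end state -/
noncomputable def TT (c : Kernel S (ℝ × S)) (u : S → ℝ) (y : S) : ℝ := ∫ q, u q.2 ∂(c y)

omit [IsMarkovKernel c] in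
lemma TT_meas (u : S → ℝ) (hu : Measurable u) : Measurable (TT c u) := by
  have h : StronglyMeasurable (fun q : ℝ × S => u q.2) := (hu.comp measurable_snd).stronglyMeasurable
  exact (h.integral_kernel).measurable

lemma TT_bdd (u : S → ℝ) (C : ℝ) (hC : ∀ x, |u x| ≤ C) (y : S) : |TT c u y| ≤ C := by
  have h := norm_integral_le_of_norm_le_const (μ := c y) (f := fun q : ℝ × S => u q.2) (C := C)
    (Filter.Eventually.of_forall fun q => hC q.2)
  simpa [TT] using h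

lemma bdd_mem {Ω : Type*} [MeasurableSpace Ω] (μ : Measure Ω) [IsProbabilityMeasure μ] (f : Ω → ℝ)
    (hf : Measurable f) (C : ℝ) (hC : ∀ x, |f x| ≤ C) : MemLp f 2 μ :=
  MemLp.of_bound hf.aestronglyMeasurable C (Filter.Eventually.of_forall hC)

lemma TT_sq (hc : EndInv ν c) (u : S → ℝ) (hu : Measurable u) (C : ℝ) (hC : ∀ x, |u x| ≤ C) :
    ∫ y, TT c u y ^ 2 ∂ν ≤ ∫ y, u y ^ 2 ∂ν := by
  have hm : Measurable (fun p : S × (ℝ × S) => p.2.2) := by fun_prop
  have e1 : ∫ y, u y ^ 2 ∂ν = ∫ y, ∫ q, u q.2 ^ 2 ∂(c y) ∂ν := by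
    have h1 : ∫ y, u y ^ 2 ∂((ν ⊗ₘ c).map (fun p : S × (ℝ × S) => p.2.2)) =
        ∫ p, u p.2.2 ^ 2 ∂(ν ⊗ₘ c) :=
      integral_map hm.aemeasurable (hu.pow_const 2).aestronglyMeasurable
    rw [show (ν ⊗ₘ c).map (fun p : S × (ℝ × S) => p.2.2) = ν from hc] at h1
    rw [h1, Measure.integral_compProd]
    exact (bdd_mem (ν ⊗ₘ c) (fun p => u p.2.2) (hu.comp hm) C (fun p => hC _)).integrable_sq
  rw [e1]
  apply integral_mono
  · exact (bdd_mem ν (TT c u) (TT_meas c u hu) C (TT_bdd c u C hC)).integrable_sq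
  · have h3 : StronglyMeasurable (fun q : ℝ × S => u q.2 ^ 2) :=
      ((hu.comp measurable_snd).pow_const 2).stronglyMeasurable
    have h4 := (h3.integral_kernel (κ := c)).measurable
    apply MemLp.integrable (q := 2) (by norm_num)
    apply bdd_mem ν _ h4 (C ^ 2)
    intro y
    have h5 := norm_integral_le_of_norm_le_const (μ := c y) (f := fun q : ℝ × S => u q.2 ^ 2)
      (C := C ^ 2) (Filter.Eventually.of_forall fun q => by
        rw [norm_pow]
        exact pow_le_pow_left₀ (norm_nonneg _) (hC q.2) 2)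
    simpa using h5
  · intro y
    have h6 := cs (c y) (fun q => u q.2) (fun _ => 1)
      (bdd_mem (c y) _ (hu.comp measurable_snd) C (fun q => hC _)) (memLp_const 1)
    simpa [TT] using h6

lemma conc_u (hb : EndInv ν b) (h1 : MemLp (fun p : S × (ℝ × S) => p.2.1) 2 (ν ⊗ₘ b))
    (h2 : MemLp (fun p : S × (ℝ × S) => p.2.1) 2 (ν ⊗ₘ c))
    (u : S → ℝ) (hu : Measurable u) (C : ℝ) (hC : ∀ x, |u x| ≤ C) :
    ∫ p, p.2.1 * u p.2.2 ∂(ν ⊗ₘ conc b c) =
      ∫ p, p.2.1 * TT c u p.2.2 ∂(ν ⊗ₘ b) + ∫ p, p.2.1 * u p.2.2 ∂(ν ⊗ₘ c) := by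
  have m1 := mem_left ν b c h1
  have m2 := mem_right ν b c hb h2
  have mu : MemLp (fun p : (S × (ℝ × S)) × (ℝ × S) => u p.2.2) 2 (pi2 ν b c) := by
    haveI : IsProbabilityMeasure (pi2 ν b c) := by unfold pi2; infer_instance
    exact bdd_mem _ _ (by fun_prop) C (fun p => hC _)
  have i1 : Integrable (fun p : (S × (ℝ × S)) × (ℝ × S) => p.1.2.1 * u p.2.2) (pi2 ν b c) :=
    m1.integrable_mul mu
  have i2 : Integrable (fun p : (S × (ℝ × S)) × (ℝ × S) => p.2.1 * u p.2.2) (pi2 ν b c) :=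
    m2.integrable_mul mu
  rw [int_conc ν b c (fun p => p.2.1 * u p.2.2) (by fun_prop),
    ← int_right ν b c hb (fun p => p.2.1 * u p.2.2) (by fun_prop)]
  have e : (fun p : (S × (ℝ × S)) × (ℝ × S) => (p.1.2.1 + p.2.1) * u p.2.2) =
      fun p => p.1.2.1 * u p.2.2 + p.2.1 * u p.2.2 := by
    funext p
    ring
  simp only
  rw [e, integral_add i1 i2]
  congr 1
  unfold pi2 at i1 ⊢
  rw [Measure.integral_compProd i1]
  apply integral_congr_ae
  filter_upwards with p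
  rw [Kernel.comap_apply, integral_const_mul]
  rfl

/-- extension of a bound for bounded functions to square integrable functions -/
lemma ext_L2 (h1 : MemLp (fun p : S × (ℝ × S) => p.2.1) 2 (ν ⊗ₘ b)) (hb : EndInv ν b) (D : ℝ)
    (hD : ∀ u : S → ℝ, Measurable u → (∃ C : ℝ, ∀ x, |u x| ≤ C) →
      (∫ p, p.2.1 * u p.2.2 ∂(ν ⊗ₘ b)) ^ 2 ≤ D * ∫ x, u x ^ 2 ∂ν) (hD0 : 0 ≤ D)
    (u : S → ℝ) (hu : Measurable u) (hu2 : MemLp u 2 ν) :
    (∫ p, p.2.1 * u p.2.2 ∂(ν ⊗ₘ b)) ^ 2 ≤ D * ∫ x, u x ^ 2 ∂ν := by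
  have hm : Measurable (fun p : S × (ℝ × S) => p.2.2) := by fun_prop
  have hu2' : MemLp (fun p : S × (ℝ × S) => u p.2.2) 2 (ν ⊗ₘ b) := by
    have h : MemLp u 2 ((ν ⊗ₘ b).map (fun p : S × (ℝ × S) => p.2.2)) := by
      rw [show (ν ⊗ₘ b).map (fun p : S × (ℝ × S) => p.2.2) = ν from hb]
      exact hu2
    exact (memLp_map_measure_iff h.aestronglyMeasurable hm.aemeasurable).1 h
  have hi : Integrable (fun p : S × (ℝ × S) => p.2.1 * u p.2.2) (ν ⊗ₘ b) :=
    h1.integrable_mul hu2'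
  let uk : ℕ → S → ℝ := fun k x => max (-(k : ℝ)) (min (u x) k)
  have huk_le : ∀ k x, |uk k x| ≤ |u x| := by
    intro k x
    have hk : (0 : ℝ) ≤ k := Nat.cast_nonneg k
    simp only [uk]
    rcases le_total (u x) k with h | h
    · rw [min_eq_left h]
      rcases le_total (-(k : ℝ)) (u x) with h' | h'
      · rw [max_eq_right h']
      · rw [max_eq_left h', abs_neg, abs_of_nonneg hk, abs_of_nonpos (by linarith)]
        linarith
    · rw [min_eq_right h, max_eq_right (by linarith), abs_of_nonneg hk, abs_of_nonneg (by linarith)]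
      exact h
  have huk_m : ∀ k, Measurable (uk k) := fun k =>
    measurable_const.max (hu.min measurable_const)
  have huk_b : ∀ k, ∃ C : ℝ, ∀ x, |uk k x| ≤ C := by
    intro k
    have hk : (0 : ℝ) ≤ k := Nat.cast_nonneg k
    refine ⟨k, fun x => ?_⟩
    rw [abs_le]
    exact ⟨le_max_left _ _, max_le (by linarith) (min_le_right _ _)⟩
  have huk_t : ∀ x, Tendsto (fun k => uk k x) atTop (𝓝 (u x)) := by
    intro x
    obtain ⟨N, hN⟩ := exists_nat_ge |u x|
    apply tendsto_const_nhds.congr'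
    filter_upwards [eventually_ge_atTop N] with k hk
    have hk' : (N : ℝ) ≤ k := by exact_mod_cast hk
    have h3 := abs_le.1 (hN.trans hk')
    simp only [uk]
    rw [min_eq_left h3.2, max_eq_right h3.1]
  have ht : Tendsto (fun k => ∫ p, p.2.1 * uk k p.2.2 ∂(ν ⊗ₘ b)) atTop
      (𝓝 (∫ p, p.2.1 * u p.2.2 ∂(ν ⊗ₘ b))) := by
    apply tendsto_integral_of_dominated_convergence (fun p => ‖p.2.1 * u p.2.2‖)
    · intro k
      have := huk_m k
      exact (by fun_prop : Measurable fun p : S × (ℝ × S) => p.2.1 * uk k p.2.2).aestronglyMeasurable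
    · exact hi.norm
    · intro k
      filter_upwards with p
      rw [norm_mul, norm_mul]
      exact mul_le_mul_of_nonneg_left (huk_le k _) (norm_nonneg _)
    · filter_upwards with p
      exact (huk_t p.2.2).const_mul _
  refine le_of_tendsto (ht.pow 2) (Filter.Eventually.of_forall fun k => ?_)
  refine (hD (uk k) (huk_m k) (huk_b k)).trans ?_
  apply mul_le_mul_of_nonneg_left _ hD0
  apply integral_mono
  · obtain ⟨C, hC⟩ := huk_b k
    exact (bdd_mem ν (uk k) (huk_m k) C hC).integrable_sq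
  · exact hu2.integrable_sq
  · intro x
    exact sq_le_sq.2 (huk_le k x)

/-! ### blocks of blocks -/

omit [IsMarkovKernel b] in
lemma blk_zero : blk b 0 = Kernel.deterministic (fun x : S => ((0 : ℝ), x)) (by fun_prop) := rfl

lemma inv_zero : EndInv ν (blk b 0) := by
  unfold EndInv
  rw [blk_zero, Measure.compProd_deterministic, Measure.map_map (by fun_prop) (by fun_prop)]
  exact Measure.map_id

lemma mem_zero : MemLp (fun p : S × (ℝ × S) => p.2.1) 2 (ν ⊗ₘ blk b 0) := by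
  have hm : Measurable (fun p : S × (ℝ × S) => p.2.1) := by fun_prop
  rw [blk_zero, Measure.compProd_deterministic,
    memLp_map_measure_iff hm.aestronglyMeasurable (by fun_prop)]
  exact memLp_const 0

lemma int_zero (F : ℝ → S → ℝ) (hF : Measurable (fun p : S × (ℝ × S) => F p.2.1 p.2.2))
    (h0 : ∀ y, F 0 y = 0) : ∫ p, F p.2.1 p.2.2 ∂(ν ⊗ₘ blk b 0) = 0 := by
  rw [blk_zero, Measure.compProd_deterministic, integral_map (by fun_prop)
    hF.aestronglyMeasurable]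
  simp [h0]

lemma blk_inv (hb : EndInv ν b) (m : ℕ) : EndInv ν (blk b m) := by
  induction m with
  | zero => exact inv_zero ν b
  | succ m ih => exact endInv_conc ν (blk b m) b ih hb

lemma blk_mem (hb : EndInv ν b) (h1 : MemLp (fun p : S × (ℝ × S) => p.2.1) 2 (ν ⊗ₘ b)) (m : ℕ) :
    MemLp (fun p : S × (ℝ × S) => p.2.1) 2 (ν ⊗ₘ blk b m) := by
  induction m with
  | zero => exact mem_zero ν b
  | succ m ih => exact conc_mem ν (blk b m) b (blk_inv ν b hb m) ih h1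

lemma blk_bwd (n w α β : ℝ) (hn : 0 < n) (hβ : 0 ≤ β) (hB : Blk ν b n w α β) (m : ℕ) :
    ∀ u : S → ℝ, Measurable u → (∃ C : ℝ, ∀ x, |u x| ≤ C) →
      |∫ p, p.2.1 * u p.2.2 ∂(ν ⊗ₘ blk b m)| ≤ m * √(n * β) * √(∫ x, u x ^ 2 ∂ν) := by
  induction m with
  | zero =>
    intro u hu _
    rw [int_zero ν b (fun s y => s * u y) (by fun_prop) (fun y => zero_mul _)]
    simp
  | succ m ih =>
    intro u hu hC
    obtain ⟨C, hC⟩ := hC
    have e1 : ∫ p, p.2.1 * u p.2.2 ∂(ν ⊗ₘ blk b (m + 1)) =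
        ∫ p, p.2.1 * TT b u p.2.2 ∂(ν ⊗ₘ blk b m) + ∫ p, p.2.1 * u p.2.2 ∂(ν ⊗ₘ b) :=
      conc_u ν (blk b m) b (blk_inv ν b hB.inv m) (blk_mem ν b hB.inv hB.mem m) hB.mem u hu C hC
    rw [e1]
    refine (abs_add_le _ _).trans ?_
    have e2 := ih (TT b u) (TT_meas b u hu) ⟨C, TT_bdd b u C hC⟩
    have e3 : √(∫ x, TT b u x ^ 2 ∂ν) ≤ √(∫ x, u x ^ 2 ∂ν) :=
      Real.sqrt_le_sqrt (TT_sq ν b hB.inv u hu C hC)
    have e4 := Real.abs_le_sqrt (hB.bwd u hu ⟨C, hC⟩)
    rw [Real.sqrt_mul (by positivity)] at e4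
    have e5 : (m : ℝ) * √(n * β) * √(∫ x, TT b u x ^ 2 ∂ν) ≤
        m * √(n * β) * √(∫ x, u x ^ 2 ∂ν) := mul_le_mul_of_nonneg_left e3 (by positivity)
    push_cast
    linarith

/-- the forward mean -/
noncomputable def fm (c : Kernel S (ℝ × S)) (y : S) : ℝ := ∫ q, q.1 ∂(c y)

omit [IsMarkovKernel c] in
lemma fm_meas : Measurable (fm c) := by
  have h : StronglyMeasurable (fun q : ℝ × S => q.1) := measurable_fst.stronglyMeasurable
  exact (h.integral_kernel (κ := c)).measurable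

lemma fm_mem (h : MemLp (fun p : S × (ℝ × S) => p.2.1) 2 (ν ⊗ₘ c)) : MemLp (fm c) 2 ν := by
  rw [memLp_two_iff_integrable_sq (fm_meas c).aestronglyMeasurable]
  have hi := h.integrable_sq
  rw [Measure.integrable_compProd_iff hi.aestronglyMeasurable] at hi
  refine hi.2.mono' ((fm_meas c).pow_const 2).aestronglyMeasurable ?_
  filter_upwards [hi.1] with x hx
  have h1 : MemLp (fun q : ℝ × S => q.1) 2 (c x) := by
    rw [memLp_two_iff_integrable_sq (by fun_prop)]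
    exact hx
  have h2 := cs (c x) (fun q => q.1) (fun _ => 1) h1 (memLp_const 1)
  have h3 : fm c x ^ 2 ≤ ∫ q, q.1 ^ 2 ∂(c x) := by simpa [fm] using h2
  rw [Real.norm_eq_abs, abs_of_nonneg (sq_nonneg _)]
  refine h3.trans (le_of_eq ?_)
  apply integral_congr_ae
  filter_upwards with q
  simp

lemma blk_sq (n w α β : ℝ) (hn : 0 < n) (hα : 0 ≤ α) (hβ : 0 ≤ β) (hB : Blk ν b n w α β) (m : ℕ) :
    |∫ p, p.2.1 ^ 2 ∂(ν ⊗ₘ blk b m) - m * ∫ p, p.2.1 ^ 2 ∂(ν ⊗ₘ b)| ≤
      m ^ 2 * n * √(α * β) := by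
  induction m with
  | zero =>
    rw [int_zero ν b (fun s _ => s ^ 2) (by fun_prop) (fun y => by simp)]
    simp
  | succ m ih =>
    have e1 : ∫ p, p.2.1 ^ 2 ∂(ν ⊗ₘ blk b (m + 1)) = ∫ p, p.2.1 ^ 2 ∂(ν ⊗ₘ blk b m) +
        2 * (∫ p, p.2.1 * fm b p.2.2 ∂(ν ⊗ₘ blk b m)) + ∫ p, p.2.1 ^ 2 ∂(ν ⊗ₘ b) :=
      conc_sq ν (blk b m) b (blk_inv ν b hB.inv m) (blk_mem ν b hB.inv hB.mem m) hB.mem
    have e2 : (∫ p, p.2.1 * fm b p.2.2 ∂(ν ⊗ₘ blk b m)) ^ 2 ≤
        (m ^ 2 * (n * β)) * ∫ x, fm b x ^ 2 ∂ν := by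
      apply ext_L2 ν (blk b m) (blk_mem ν b hB.inv hB.mem m) (blk_inv ν b hB.inv m) _ _
        (by positivity) _ (fm_meas b) (fm_mem ν b hB.mem)
      intro u hu hC
      have h1 := blk_bwd ν b n w α β hn hβ hB m u hu hC
      have h0 : 0 ≤ ∫ x, u x ^ 2 ∂ν := integral_nonneg fun x => sq_nonneg _
      calc (∫ p, p.2.1 * u p.2.2 ∂(ν ⊗ₘ blk b m)) ^ 2 =
          |∫ p, p.2.1 * u p.2.2 ∂(ν ⊗ₘ blk b m)| ^ 2 := (sq_abs _).symm
        _ ≤ (m * √(n * β) * √(∫ x, u x ^ 2 ∂ν)) ^ 2 := pow_le_pow_left₀ (abs_nonneg _) h1 2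
        _ = (m ^ 2 * (n * β)) * ∫ x, u x ^ 2 ∂ν := by
          rw [mul_pow, mul_pow, Real.sq_sqrt (by positivity), Real.sq_sqrt h0]
    have e3 : ∫ x, fm b x ^ 2 ∂ν ≤ n * α := hB.fwd
    have e4 : (∫ p, p.2.1 * fm b p.2.2 ∂(ν ⊗ₘ blk b m)) ^ 2 ≤ (m * n * √(α * β)) ^ 2 := by
      refine e2.trans ((mul_le_mul_of_nonneg_left e3 (by positivity)).trans (le_of_eq ?_))
      rw [mul_pow, mul_pow, Real.sq_sqrt (by positivity)]
      ring
    have e5 := abs_le_of_sq_le_sq e4 (by positivity)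
    rw [e1]
    have e6 := abs_le.1 ih
    have e7 : 0 ≤ n * √(α * β) := by positivity
    rw [abs_le]
    push_cast
    have e8 := (abs_le.1 e5).1
    have e9 := (abs_le.1 e5).2
    constructor
    · nlinarith [e6.1]
    · nlinarith [e6.2]

end VA

open VA in
theorem var_all : St_joint → St_lev_eq_blk → St_blk_mul → St_blk_add → St_sq_conc → St_var_all := by
  intro _ hLB hBM hBA _ S _ ν _ b _ w v α β hw hα0 hβ0 hα hβ hb hvar
  have hb0 : Blk ν b (2 ^ 0) w (α 0) (β 0) := hb 0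
  have hinv : EndInv ν b := hb0.inv
  have hmem := hb0.mem
  set A : ℕ → ℝ := fun N => ∫ p, p.2.1 ^ 2 ∂(ν ⊗ₘ blk b N) with hA
  have hA0 : ∀ N, 0 ≤ A N := fun N => integral_nonneg fun p => sq_nonneg _
  have hlev : ∀ l, lev b l = blk b (2 ^ l) := fun l => hLB b l
  have hAl : ∀ l, ∫ p, p.2.1 ^ 2 ∂(ν ⊗ₘ lev b l) = A (2 ^ l) := fun l => by rw [hlev l]
  have hAw : ∀ l, A (2 ^ l) ≤ 2 ^ l * w := fun l => by
    rw [← hAl]
    exact (hb l).sq
  -- merging two blocks
  have hmerge : ∀ M r, ∃ X : ℝ, A (M + r) = A M + 2 * X + A r ∧ X ^ 2 ≤ A M * A r := by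
    intro M r
    have i1 := blk_inv ν b hinv M
    have m1 := blk_mem ν b hinv hmem M
    have m2 := blk_mem ν b hinv hmem r
    refine ⟨_, ?_, cross_le ν (blk b M) (blk b r) i1 m1 m2⟩
    simp only [hA]
    rw [hBA b M r]
    exact conc_sq ν (blk b M) (blk b r) i1 m1 m2
  have hmerge' : ∀ M r, |A (M + r) - A M| ≤ 2 * √(A M * A r) + A r := by
    intro M r
    obtain ⟨X, h1, h2⟩ := hmerge M r
    have h3 := Real.abs_le_sqrt h2
    have h4 := abs_le.1 h3
    rw [h1, abs_le]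
    have := hA0 r
    constructor <;> linarith
  have hsqrt : ∀ M r, √(A (M + r)) ≤ √(A M) + √(A r) := by
    intro M r
    obtain ⟨X, h1, h2⟩ := hmerge M r
    have h3 := (abs_le.1 (Real.abs_le_sqrt h2)).2
    rw [Real.sqrt_mul (hA0 M)] at h3
    apply Real.sqrt_le_iff.2
    refine ⟨by positivity, ?_⟩
    rw [h1, add_sq, Real.sq_sqrt (hA0 M), Real.sq_sqrt (hA0 r)]
    linarith
  -- short blocks
  have hshort : ∀ l : ℕ, ∀ r < 2 ^ l, √(A r) ≤ 4 * √(w * 2 ^ l) := by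
    intro l
    induction l with
    | zero =>
      intro r hr
      have : r = 0 := by simpa using hr
      subst this
      have h0 : A 0 = 0 := int_zero ν b (fun s _ => s ^ 2) (by fun_prop) (fun y => by simp)
      rw [h0, Real.sqrt_zero]
      positivity
    | succ l ih =>
      intro r hr
      have h2 : √(w * 2 ^ (l + 1)) = √2 * √(w * 2 ^ l) := by
        rw [← Real.sqrt_mul (by norm_num)]
        congr 1
        ring
      have h14 : (5 / 4 : ℝ) ≤ √2 := by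
        apply Real.le_sqrt_of_sq_le
        norm_num
      have hs0 : 0 ≤ √(w * 2 ^ l) := Real.sqrt_nonneg _
      rcases lt_or_ge r (2 ^ l) with h | h
      · have := ih r h
        rw [h2]
        nlinarith
      · obtain ⟨r', rfl⟩ := Nat.exists_eq_add_of_le h
        have hr' : r' < 2 ^ l := by
          rw [pow_succ] at hr
          omega
        have h3 := hsqrt (2 ^ l) r'
        have h4 := ih r' hr'
        have h5 : √(A (2 ^ l)) ≤ √(w * 2 ^ l) := by
          apply Real.sqrt_le_sqrt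
          rw [mul_comm]
          exact hAw l
        rw [h2]
        nlinarith
  have hshort' : ∀ l : ℕ, ∀ r < 2 ^ l, A r ≤ 16 * w * 2 ^ l := by
    intro l r hr
    have h1 := hshort l r hr
    have h2 : √(A r) ^ 2 ≤ (4 * √(w * 2 ^ l)) ^ 2 := pow_le_pow_left₀ (Real.sqrt_nonneg _) h1 2
    rw [Real.sq_sqrt (hA0 r), mul_pow, Real.sq_sqrt (by positivity)] at h2
    linarith
  -- multiples of a power of two
  have hmul : ∀ l m : ℕ, |A (m * 2 ^ l) - m * A (2 ^ l)| ≤ m ^ 2 * 2 ^ l * √(α l * β l) := by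
    intro l m
    have h := blk_sq ν (lev b l) (2 ^ l) w (α l) (β l) (by positivity) (hα0 l) (hβ0 l) (hb l) m
    have e : blk (lev b l) m = blk b (m * 2 ^ l) := by rw [hlev l, hBM]
    rw [e, hAl] at h
    exact h
  have hv0 : 0 ≤ v := ge_of_tendsto' hvar fun l => integral_nonneg fun p => by positivity
  have hvl : Tendsto (fun l : ℕ => A (2 ^ l) / 2 ^ l) atTop (𝓝 v) := by
    refine hvar.congr fun l => ?_
    rw [integral_div, hAl]
  have hρ : Tendsto (fun l => √(α l * β l)) atTop (𝓝 0) := by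
    have h := (hα.tendsto_atTop_zero.mul hβ.tendsto_atTop_zero).sqrt
    simpa using h
  -- the limit
  have hgoal : Tendsto (fun N : ℕ => A N / N) atTop (𝓝 v) := by
    rw [Metric.tendsto_atTop]
    intro ε hε
    obtain ⟨k, hk⟩ := exists_nat_gt (3 * (24 * (w + 1) + v) / ε)
    have hk0 : (0 : ℝ) < k := lt_of_le_of_lt (by positivity) hk
    have hk0' : 0 < k := by exact_mod_cast hk0
    have hkε : (24 * (w + 1) + v) / k < ε / 3 := by
      rw [div_lt_iff₀ hε] at hk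
      rw [div_lt_div_iff₀ hk0 (by norm_num)]
      linarith
    set m₀ := k ^ 2 with hm₀
    have hm₀1 : 1 ≤ m₀ := Nat.one_le_pow _ _ hk0'
    have hm₀0 : (0 : ℝ) < m₀ := by exact_mod_cast hm₀1
    have e1 : ∀ᶠ l in atTop, √(α l * β l) < min 1 (ε / 3) / (2 * m₀) := by
      apply hρ.eventually_lt_const
      positivity
    have e2 : ∀ᶠ l in atTop, |A (2 ^ l) / 2 ^ l - v| < ε / 3 := by
      have := Metric.tendsto_nhds.1 hvl (ε / 3) (by positivity)
      filter_upwards [this] with l hl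
      rwa [Real.dist_eq] at hl
    obtain ⟨l₀, hl₀⟩ := eventually_atTop.1 (e1.and e2)
    refine ⟨m₀ * 2 ^ l₀, fun N hN => ?_⟩
    set l := Nat.log 2 (N / m₀) with hl
    have hNm : 2 ^ l₀ ≤ N / m₀ := by
      rw [Nat.le_div_iff_mul_le hm₀1, mul_comm]
      exact hN
    have hNm0 : N / m₀ ≠ 0 := by
      have : 0 < 2 ^ l₀ := by positivity
      omega
    have hll : l₀ ≤ l := by
      rw [hl]
      exact (Nat.le_log_iff_pow_le (by norm_num) hNm0).2 hNm
    obtain ⟨h1, h2⟩ := hl₀ l hll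
    have h3 : 2 ^ l ≤ N / m₀ := Nat.pow_log_le_self 2 hNm0
    have h4 : N / m₀ < 2 ^ (l + 1) := Nat.lt_pow_succ_log_self (by norm_num) _
    have h3' : m₀ * 2 ^ l ≤ N := by
      rw [Nat.le_div_iff_mul_le hm₀1] at h3
      rw [mul_comm]
      exact h3
    have h4' : N < 2 * m₀ * 2 ^ l := by
      rw [Nat.div_lt_iff_lt_mul hm₀1] at h4
      calc N < 2 ^ (l + 1) * m₀ := h4
        _ = 2 * m₀ * 2 ^ l := by ring
    set m := N / 2 ^ l with hm
    set r := N % 2 ^ l with hr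
    have h2l : 0 < 2 ^ l := by positivity
    have hmr : m * 2 ^ l + r = N := by
      rw [hm, hr, mul_comm]
      exact Nat.div_add_mod N (2 ^ l)
    have hrl : r < 2 ^ l := Nat.mod_lt _ h2l
    have hm1 : m₀ ≤ m := (Nat.le_div_iff_mul_le h2l).2 h3'
    have hm2 : m < 2 * m₀ := (Nat.div_lt_iff_lt_mul h2l).2 h4'
    clear_value m r l
    -- real numbers
    have hn0 : (0 : ℝ) < 2 ^ l := by positivity
    have hm1' : (m₀ : ℝ) ≤ m := by exact_mod_cast hm1
    have hm2' : (m : ℝ) ≤ 2 * m₀ := by exact_mod_cast hm2.le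
    have hm0 : (0 : ℝ) < m := by linarith
    have hNr : ((m : ℝ) * 2 ^ l + r : ℝ) = N := by exact_mod_cast hmr
    have hr0 : (0 : ℝ) ≤ r := Nat.cast_nonneg r
    have hrl' : (r : ℝ) ≤ 2 ^ l := by exact_mod_cast hrl.le
    have hN0 : (0 : ℝ) < N := by
      rw [← hNr]
      positivity
    have hmn : (m : ℝ) * 2 ^ l ≤ N := by linarith
    set n : ℝ := 2 ^ l with hn
    set ρ := √(α l * β l) with hρdef
    have hρ0 : 0 ≤ ρ := Real.sqrt_nonneg _
    have hmρ : m * ρ ≤ min 1 (ε / 3) := by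
      rw [lt_div_iff₀ (by positivity)] at h1
      nlinarith
    have hmρ1 : m * ρ ≤ 1 := hmρ.trans (min_le_left _ _)
    have hmρ2 : m * ρ ≤ ε / 3 := hmρ.trans (min_le_right _ _)
    have b1 := hmul l m
    have b2 := hmerge' (m * 2 ^ l) r
    rw [hmr] at b2
    have b3 := hshort' l r hrl
    have b4 := hAw l
    have b1' := abs_le.1 b1
    -- bound of the long part
    have c1 : A (m * 2 ^ l) ≤ m * n * (w + 1) := by
      have d1 : (m : ℝ) * A (2 ^ l) ≤ m * (n * w) := mul_le_mul_of_nonneg_left b4 hm0.le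
      have d2 : (m : ℝ) ^ 2 * n * ρ ≤ m * n := by
        have : (m : ℝ) ^ 2 * n * ρ = m * n * (m * ρ) := by ring
        rw [this]
        have d3 : 0 ≤ (m : ℝ) * n := by positivity
        nlinarith
      nlinarith [b1'.2]
    -- square root of m
    have hkm : (k : ℝ) ≤ √m := by
      apply Real.le_sqrt_of_sq_le
      refine le_trans ?_ hm1'
      rw [hm₀]
      push_cast
      exact le_rfl
    have hsm : √(m : ℝ) * √m = m := Real.mul_self_sqrt hm0.le
    have hsm0 : 0 < √(m : ℝ) := Real.sqrt_pos.2 hm0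
    have c2 : √(A (m * 2 ^ l) * A r) ≤ 4 * n * √m * (w + 1) := by
      apply Real.sqrt_le_iff.2
      refine ⟨by positivity, ?_⟩
      have d1 : A (m * 2 ^ l) * A r ≤ (m * n * (w + 1)) * (16 * (w + 1) * n) := by
        apply mul_le_mul c1 _ (hA0 r) (by positivity)
        nlinarith
      refine d1.trans (le_of_eq ?_)
      calc (m * n * (w + 1)) * (16 * (w + 1) * n) = 16 * n ^ 2 * (w + 1) ^ 2 * m := by ring
        _ = 16 * n ^ 2 * (w + 1) ^ 2 * (√m * √m) := by rw [hsm]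
        _ = _ := by ring
    -- the total
    have c3 : |A N - N * v| ≤ 8 * n * √m * (w + 1) + 16 * (w + 1) * n + m * n * (m * ρ) +
        m * n * |A (2 ^ l) / n - v| + n * v := by
      have d1 : A N - N * v = (A N - A (m * 2 ^ l)) + (A (m * 2 ^ l) - m * A (2 ^ l)) +
          m * n * (A (2 ^ l) / n - v) - r * v := by
        rw [← hNr]
        field_simp
        ring
      rw [d1]
      have d2 : |(r : ℝ) * v| ≤ n * v := by
        rw [abs_of_nonneg (by positivity)]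
        exact mul_le_mul_of_nonneg_right hrl' hv0
      have d3 : |(m : ℝ) * n * (A (2 ^ l) / n - v)| = m * n * |A (2 ^ l) / n - v| := by
        rw [abs_mul, abs_of_nonneg (by positivity)]
      have d4 : |A N - A (m * 2 ^ l)| ≤ 8 * n * √m * (w + 1) + 16 * (w + 1) * n := by
        refine b2.trans ?_
        nlinarith
      have d5 : |A (m * 2 ^ l) - m * A (2 ^ l)| ≤ m * n * (m * ρ) := by
        refine b1.trans (le_of_eq ?_)
        ring
      calc |(A N - A (m * 2 ^ l)) + (A (m * 2 ^ l) - m * A (2 ^ l)) +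
          m * n * (A (2 ^ l) / n - v) - r * v| ≤
          |A N - A (m * 2 ^ l)| + |A (m * 2 ^ l) - m * A (2 ^ l)| +
          |m * n * (A (2 ^ l) / n - v)| + |r * v| := by
            refine (abs_sub _ _).trans ?_
            gcongr
            refine (abs_add_le _ _).trans ?_
            gcongr
            exact abs_add_le _ _
        _ ≤ _ := by
            rw [d3]
            linarith
    rw [Real.dist_eq]
    have d6 : A N / N - v = (A N - N * v) / N := by field_simp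
    rw [d6, abs_div, abs_of_pos hN0, div_lt_iff₀ hN0]
    have hkk : (24 * (w + 1) + v) < ε / 3 * k := by
      rwa [div_lt_iff₀ hk0] at hkε
    have hk1 : (1 : ℝ) ≤ k := by exact_mod_cast hk0'
    have hs1 : (1 : ℝ) ≤ √m := hk1.trans hkm
    have f1 : 8 * n * √m * (w + 1) + 16 * (w + 1) * n + n * v ≤
        n * √m * (24 * (w + 1) + v) := by
      have g1 : 0 ≤ (w + 1) * n := by positivity
      have g2 : 0 ≤ n * v := by positivity
      nlinarith
    have f2 : n * √m * (24 * (w + 1) + v) < n * m * (ε / 3) := by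
      have g1 : 24 * (w + 1) + v < ε / 3 * √m :=
        hkk.trans_le (mul_le_mul_of_nonneg_left hkm (by positivity))
      calc n * √m * (24 * (w + 1) + v) < n * √m * (ε / 3 * √m) :=
            mul_lt_mul_of_pos_left g1 (by positivity)
        _ = n * (√m * √m) * (ε / 3) := by ring
        _ = n * m * (ε / 3) := by rw [hsm]
    have f3 : m * n * (m * ρ) ≤ n * m * (ε / 3) := by
      rw [mul_comm (m : ℝ) n]
      exact mul_le_mul_of_nonneg_left hmρ2 (by positivity)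
    have f4 : m * n * |A (2 ^ l) / n - v| ≤ n * m * (ε / 3) := by
      rw [mul_comm (m : ℝ) n]
      exact mul_le_mul_of_nonneg_left h2.le (by positivity)
    have f5 : n * m * ε ≤ ε * N := by
      have : n * m ≤ N := by linarith
      nlinarith
    linarith
  refine hgoal.congr fun N => ?_
  rw [integral_div]

end Pool.Agent.Q42.UIC
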