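import Pool.Agent.Q42.UIC.Stm
import Pool.Agent.Q42.UIC.prj
import Pool.Agent.Q203.UIC.Oper

/-! Project UIC: convergence of the conditional variances. -/

set_option autoImplicit false

open MeasureTheory ProbabilityTheory Pool.Agent.Q203.UIC Filter Topology

namespace Pool.Agent.Q42.UIC

namespace VarTendsto

variable {S : Type} [MeasurableSpace S]

/-- convergence of the variances -/
theorem var_lim (hsq : St_sq_conc) (ν : Measure S) [IsProbabilityMeasure ν] (b : Kernel S (ℝ × S))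
    [IsMarkovKernel b] (w : ℝ) (α β : ℕ → ℝ) (hα0 : ∀ l, 0 ≤ α l) (hβ0 : ∀ l, 0 ≤ β l)
    (hα : Summable α) (hβ : Summable β) (hb : ∀ l, Blk ν (lev b l) (2 ^ l) w (α l) (β l)) :
    ∃ v : ℝ, 0 ≤ v ∧ Tendsto (fun l : ℕ => ∫ p, p.2.1 ^ 2 / 2 ^ l ∂(ν ⊗ₘ lev b l)) atTop (nhds v) := by
  set V : ℕ → ℝ := fun l => ∫ p, p.2.1 ^ 2 / 2 ^ l ∂(ν ⊗ₘ lev b l) with hV
  have h1 : ∀ l, dist (V l) (V (l + 1)) ≤ (α l + β l) / 2 := by
    intro l
    have h2 := (hsq ν (lev b l) (2 ^ l) w (α l) (β l) (by positivity) (hα0 l) (hβ0 l) (hb l)).2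
    simp only [hV]
    rw [dist_comm, Real.dist_eq, integral_div, integral_div, pow_succ]
    change |(∫ p, p.2.1 ^ 2 ∂(ν ⊗ₘ conc (lev b l) (lev b l))) / (2 ^ l * 2)
      - (∫ p, p.2.1 ^ 2 ∂(ν ⊗ₘ lev b l)) / 2 ^ l| ≤ _
    have h3 : (0 : ℝ) < 2 ^ l := by positivity
    have e : (∫ p, p.2.1 ^ 2 ∂(ν ⊗ₘ conc (lev b l) (lev b l))) / (2 ^ l * 2)
      - (∫ p, p.2.1 ^ 2 ∂(ν ⊗ₘ lev b l)) / 2 ^ l
      = ((∫ p, p.2.1 ^ 2 ∂(ν ⊗ₘ conc (lev b l) (lev b l)))
        - 2 * ∫ p, p.2.1 ^ 2 ∂(ν ⊗ₘ lev b l)) / (2 ^ l * 2) := by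
      field_simp
    rw [e, abs_div, abs_of_pos (by positivity : (0 : ℝ) < 2 ^ l * 2), div_le_div_iff₀ (by positivity)
      (by norm_num)]
    nlinarith
  have h4 : Summable (fun l => (α l + β l) / 2) := (hα.add hβ).div_const 2
  have h5 : CauchySeq V := cauchySeq_of_dist_le_of_summable _ h1 h4
  obtain ⟨v, hv⟩ := cauchySeq_tendsto_of_complete h5
  refine ⟨v, ?_, hv⟩
  exact ge_of_tendsto' hv fun l => integral_nonneg fun p => by positivity

end VarTendsto

open VarTendsto in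
theorem var_tendsto : St_ui → St_var_close → St_mean_erg → St_near_inv → St_energy_avg →
    St_lev_eq_blk → St_sq_conc → St_var_tendsto := by
  intro hui hvc hme hni hea hlb hsq S _ ν _ Q _ hν herg f hf hf2 w α β hw hα0 hβ0 hα hβ hb
  have mb := base_markov Q f hf
  obtain ⟨v, hv0, hv⟩ := var_lim hsq ν (base Q f) w α β hα0 hβ0 hα hβ hb
  refine ⟨v, hv0, ?_⟩
  have hU := hui ν (base Q f) w α β hw hα0 hβ0 hα hβ hb
  -- the conditional variances
  set V : ℕ → S → ℝ := fun l x => ∫ q, q.1 ^ 2 / 2 ^ l ∂(lev (base Q f) l x) with hV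
  have iV0 : ∀ l, Integrable (fun p : S × (ℝ × S) => p.2.1 ^ 2) (ν ⊗ₘ lev (base Q f) l) :=
    fun l => (hb l).mem.integrable_sq
  have iV1 : ∀ l, Integrable (fun p : S × (ℝ × S) => p.2.1 ^ 2 / 2 ^ l) (ν ⊗ₘ lev (base Q f) l) :=
    fun l => (iV0 l).div_const _
  have gV : ∀ l, Good ν (V l) := fun l => ⟨meas_ki _ _ (by fun_prop), inner_int (iV1 l)⟩
  -- near invariance
  set C : ℝ := 4 * Real.sqrt (w * ∫ x, f x ^ 2 ∂ν) + 2 * ∫ x, f x ^ 2 ∂ν with hC
  have hC0 : 0 ≤ C := by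
    have : 0 ≤ ∫ x, f x ^ 2 ∂ν := integral_nonneg fun x => sq_nonneg _
    positivity
  have hnear : ∀ l, ∫ x, |V l x - TT Q (V l) x| ∂ν ≤ C / Real.sqrt (2 ^ l) := by
    intro l
    have e1 := hlb (base Q f) l
    have h1 := hni ν Q hν f hf hf2 (2 ^ l) (by positivity) w hw (by rw [← e1]; exact (hb l).mem)
      (by rw [← e1]; push_cast; exact (hb l).sq)
    rw [← e1] at h1
    push_cast at h1
    exact h1
  rw [Metric.tendsto_atTop]
  intro ε hε
  set δ := ε / 8 with hδ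
  have hδ0 : 0 < δ := by positivity
  obtain ⟨K, hK, k, hK1, hK2⟩ := hvc ν (base Q f) w α β hw hα0 hβ0 hα hβ hb hU δ hδ0
  set K' := K * 2 ^ k with hK'
  have hK'0 : 0 < K' := by positivity
  have mk : IsMarkovKernel (enr K' (lev (base Q f) k)) := enr_markov _ _
  -- the initial energy
  set u0 : S → ℝ := fun y => ∫ q, min (q.1 ^ 2) K' ∂(lev (base Q f) k y) with hu0
  have mmin : Measurable (fun q : ℝ × S => min (q.1 ^ 2) K') := by fun_prop
  have mu0 : Measurable u0 := meas_ki _ _ mmin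
  have iu00 : Integrable (fun p : S × (ℝ × S) => min (p.2.1 ^ 2) K') (ν ⊗ₘ lev (base Q f) k) := by
    refine Integrable.of_bound (Measurable.aestronglyMeasurable (by fun_prop)) K' ?_
    filter_upwards with p
    rw [Real.norm_eq_abs, abs_of_nonneg (le_min (sq_nonneg _) hK'0.le)]
    exact min_le_right _ _
  have bu0 : ∀ x, |u0 x| ≤ K' := by
    intro x
    simp only [hu0]
    refine (abs_integral_le_integral_abs).trans ?_
    have h1 : ∫ q, |min (q.1 ^ 2) K'| ∂(lev (base Q f) k x) ≤ ∫ q, K' ∂(lev (base Q f) k x) := by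
      refine integral_mono_of_nonneg (Eventually.of_forall fun q => abs_nonneg _)
        (integrable_const _) (Eventually.of_forall fun q => ?_)
      change |min (q.1 ^ 2) K'| ≤ K'
      rw [abs_of_nonneg (le_min (sq_nonneg _) hK'0.le)]
      exact min_le_right _ _
    simpa using h1
  have gu0 : Good ν u0 := ⟨mu0, inner_int iu00⟩
  have hcl : |(∫ y, u0 y ∂ν) / 2 ^ k - v| ≤ δ := by
    have h1 : ∀ l, k ≤ l → |(∫ p, p.2.1 ^ 2 / 2 ^ l ∂(ν ⊗ₘ lev (base Q f) l))
        - (∫ y, u0 y ∂ν) / 2 ^ k| ≤ δ := by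
      intro l hl
      have h2 := hK2 l hl
      rw [integral_div (2 ^ k) (fun p : S × (ℝ × S) => min (p.2.1 ^ 2) (K * 2 ^ k)),
        ← hK', Measure.integral_compProd iu00] at h2
      exact h2
    have h3 : Tendsto (fun l => |(∫ p, p.2.1 ^ 2 / 2 ^ l ∂(ν ⊗ₘ lev (base Q f) l))
        - (∫ y, u0 y ∂ν) / 2 ^ k|) atTop (nhds |v - (∫ y, u0 y ∂ν) / 2 ^ k|) :=
      (hv.sub_const _).abs
    rw [abs_sub_comm]
    refine le_of_tendsto h3 ?_
    filter_upwards [eventually_ge_atTop k] with l hl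
    exact h1 l hl
  -- mean ergodic theorem
  have herg1 := hme ν Q hν herg u0 mu0 K' bu0
  set M : ℕ → ℝ := fun N => ∫ x, |(∑ i ∈ Finset.range N, (TT Q)^[i] u0 x) / N - ∫ y, u0 y ∂ν| ∂ν
    with hM
  have hMt : Tendsto M atTop (nhds 0) := herg1
  have hM2 : Tendsto (fun j : ℕ => M (2 ^ (k + j))) atTop (nhds 0) := by
    refine hMt.comp ?_
    refine (tendsto_pow_atTop_atTop_of_one_lt (by norm_num : (1 : ℕ) < 2)).comp ?_
    exact tendsto_add_atTop_nat k |>.congr fun j => by ring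
  -- the energies
  set U : ℕ → S → ℝ := fun j y => ∫ q, q.1.2 / 2 ^ (k + j) ∂(lev (enr K' (lev (base Q f) k)) j y)
    with hUdef
  have hUe : ∀ j y, |U j y| ≤ K' := by
    intro j y
    have h1 := ae_lev_enr (lev (base Q f) k) K' hK'0.le j y
    simp only [hUdef]
    refine (abs_integral_le_integral_abs).trans ?_
    have h2 : ∫ q, |q.1.2 / 2 ^ (k + j)| ∂(lev (enr K' (lev (base Q f) k)) j y)
        ≤ ∫ q, K' ∂(lev (enr K' (lev (base Q f) k)) j y) := by
      refine integral_mono_of_nonneg (Eventually.of_forall fun q => abs_nonneg _)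
        (integrable_const _) ?_
      filter_upwards [h1] with q hq
      rw [abs_div, abs_of_nonneg hq.1, abs_of_nonneg (by positivity : (0 : ℝ) ≤ 2 ^ (k + j)),
        div_le_iff₀ (by positivity)]
      refine hq.2.trans ?_
      rw [mul_comm]
      refine mul_le_mul_of_nonneg_left ?_ hK'0.le
      exact pow_le_pow_right₀ (by norm_num) (by omega)
    simpa using h2
  have mU : ∀ j, Measurable (U j) := fun j => meas_ki _ _ (by fun_prop)
  have gU : ∀ j, Good ν (U j) := fun j => by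
    refine ⟨mU j, Integrable.of_bound (mU j).aestronglyMeasurable K' ?_⟩
    filter_upwards with y
    exact hUe j y
  have hVU : ∀ j, ∫ x, |V (k + j) x - U j x| ∂ν ≤ δ := by
    intro j
    refine le_trans (le_of_eq ?_) (hK1 j)
    refine integral_congr_ae ?_
    have i1 := ((Measure.integrable_compProd_iff (iV0 (k + j)).1).1 (iV0 (k + j))).1
    filter_upwards [i1] with x hx
    congr 1
    have hpr : pr (lev (enr K' (lev (base Q f) k)) j) = lev (base Q f) (k + j) := by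
      rw [prj_lev_enr, lev_lev]
    have hsqm : Measurable (fun q : ℝ × S => q.1 ^ 2) := by fun_prop
    have hx2 : Integrable (fun q : (ℝ × ℝ) × S => q.1.1 ^ 2)
        (lev (enr K' (lev (base Q f) k)) j x) := by
      rw [← hpr] at hx
      unfold pr at hx
      rw [Kernel.map_apply _ prj_meas] at hx
      exact hx.comp_measurable prj_meas
    have hxe : ∫ q, q.1 ^ 2 ∂(lev (base Q f) (k + j) x)
        = ∫ q, q.1.1 ^ 2 ∂(lev (enr K' (lev (base Q f) k)) j x) := by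
      rw [← hpr]
      unfold pr
      rw [Kernel.map_apply _ prj_meas, integral_map prj_meas.aemeasurable hsqm.aestronglyMeasurable]
    have hxi : Integrable (fun q : (ℝ × ℝ) × S => q.1.2)
        (lev (enr K' (lev (base Q f) k)) j x) := by
      refine Integrable.of_bound (Measurable.aestronglyMeasurable (by fun_prop)) (2 ^ j * K') ?_
      filter_upwards [ae_lev_enr (lev (base Q f) k) K' hK'0.le j x] with q hq
      rw [Real.norm_eq_abs, abs_of_nonneg hq.1]
      exact hq.2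
    simp only [hV, hUdef]
    rw [integral_div, integral_div, integral_div, hxe, integral_sub hx2 hxi]
    ring
  -- the averages
  have hU2 : ∀ j x, (∑ i ∈ Finset.range (2 ^ k), (TT Q)^[i] (U j) x)
      = (∑ i ∈ Finset.range (2 ^ (k + j)), (TT Q)^[i] u0 x) / 2 ^ (k + j) := by
    intro j x
    have h1 : ∀ y, U j y = (1 / 2 ^ (k + j)) * ∫ q, q.1.2 ∂(lev (enr K' (lev (base Q f) k)) j y) := by
      intro y
      simp only [hUdef]
      rw [integral_div]
      ring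
    have h2 : U j = fun y => (1 / 2 ^ (k + j))
        * ∫ q, q.1.2 ∂(lev (enr K' (lev (base Q f) k)) j y) := funext h1
    rw [h2]
    simp only [Tit_smul]
    rw [← Finset.mul_sum]
    have h3 := hea Q f hf k j K' hK'0.le x
    have h4 : (∑ i ∈ Finset.range (2 ^ k), (TT Q)^[i]
        (fun y => ∫ q, q.1.2 ∂(lev (enr K' (lev (base Q f) k)) j y)) x)
        = ∑ i ∈ Finset.range (2 ^ (k + j)), (TT Q)^[i] u0 x := h3
    rw [h4]
    ring
  -- the main bound
  have hmain : ∀ j, ∫ x, |V (k + j) x - v| ∂ν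
      ≤ 2 ^ k * (C / Real.sqrt (2 ^ (k + j))) + δ + M (2 ^ (k + j)) + δ := by
    intro j
    set l := k + j with hl
    have h2k : (0 : ℝ) < 2 ^ k := by positivity
    -- pieces
    have gT : ∀ i, Good ν ((TT Q)^[i] (V l)) := fun i => Tit_good ν Q hν (gV l) i
    have gTU : ∀ i, Good ν ((TT Q)^[i] (U j)) := fun i => Tit_good ν Q hν (gU j) i
    have iA : ∀ i, Integrable (fun x => |V l x - (TT Q)^[i] (V l) x|) ν :=
      fun i => ((gV l).2.sub (gT i).2).abs
    have iB : ∀ i, Integrable (fun x => |(TT Q)^[i] (V l) x - (TT Q)^[i] (U j) x|) ν :=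
      fun i => ((gT i).2.sub (gTU i).2).abs
    have iAB : ∀ i, Integrable (fun x => |V l x - (TT Q)^[i] (V l) x|
        + |(TT Q)^[i] (V l) x - (TT Q)^[i] (U j) x|) ν := fun i => (iA i).add (iB i)
    have iSum : Integrable (fun x => ∑ i ∈ Finset.range (2 ^ k),
        (|V l x - (TT Q)^[i] (V l) x| + |(TT Q)^[i] (V l) x - (TT Q)^[i] (U j) x|)) ν :=
      integrable_finset_sum _ fun i _ => iAB i
    have gM : Integrable (fun x => |(∑ i ∈ Finset.range (2 ^ l), (TT Q)^[i] u0 x) / (2 ^ l : ℕ)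
        - ∫ y, u0 y ∂ν|) ν := by
      have i1 : Integrable (fun x => ∑ i ∈ Finset.range (2 ^ l), (TT Q)^[i] u0 x) ν :=
        integrable_finset_sum _ fun i _ => (Tit_good ν Q hν gu0 i).2
      exact ((i1.div_const _).sub (integrable_const _)).abs
    have hpt : ∀ x, |V l x - v| ≤ (∑ i ∈ Finset.range (2 ^ k),
        (|V l x - (TT Q)^[i] (V l) x| + |(TT Q)^[i] (V l) x - (TT Q)^[i] (U j) x|)) / 2 ^ k
        + |(∑ i ∈ Finset.range (2 ^ l), (TT Q)^[i] u0 x) / (2 ^ l : ℕ) - ∫ y, u0 y ∂ν| + δ := by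
      intro x
      have e1 : V l x - v = (∑ i ∈ Finset.range (2 ^ k), ((V l x - (TT Q)^[i] (V l) x)
          + ((TT Q)^[i] (V l) x - (TT Q)^[i] (U j) x))) / 2 ^ k
          + ((∑ i ∈ Finset.range (2 ^ l), (TT Q)^[i] u0 x) / (2 ^ l : ℕ) - ∫ y, u0 y ∂ν) / 2 ^ k
          + ((∫ y, u0 y ∂ν) / 2 ^ k - v) := by
        have e2 : (∑ i ∈ Finset.range (2 ^ k), ((V l x - (TT Q)^[i] (V l) x)
          + ((TT Q)^[i] (V l) x - (TT Q)^[i] (U j) x)))
          = 2 ^ k * V l x - (∑ i ∈ Finset.range (2 ^ l), (TT Q)^[i] u0 x) / 2 ^ l := by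
          rw [← hU2 j x]
          simp only [sub_add_sub_cancel, Finset.sum_sub_distrib, Finset.sum_const,
            Finset.card_range, nsmul_eq_mul]
          push_cast
          ring
        rw [e2]
        push_cast
        field_simp
        ring
      rw [e1]
      refine (abs_add_three _ _ _).trans ?_
      have a1 : |(∑ i ∈ Finset.range (2 ^ k), ((V l x - (TT Q)^[i] (V l) x)
          + ((TT Q)^[i] (V l) x - (TT Q)^[i] (U j) x))) / 2 ^ k|
          ≤ (∑ i ∈ Finset.range (2 ^ k), (|V l x - (TT Q)^[i] (V l) x|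
            + |(TT Q)^[i] (V l) x - (TT Q)^[i] (U j) x|)) / 2 ^ k := by
        rw [abs_div, abs_of_pos h2k]
        refine div_le_div_of_nonneg_right ?_ h2k.le
        refine (Finset.abs_sum_le_sum_abs _ _).trans (Finset.sum_le_sum fun i _ => abs_add_le _ _)
      have a2 : |((∑ i ∈ Finset.range (2 ^ l), (TT Q)^[i] u0 x) / (2 ^ l : ℕ) - ∫ y, u0 y ∂ν) / 2 ^ k|
          ≤ |(∑ i ∈ Finset.range (2 ^ l), (TT Q)^[i] u0 x) / (2 ^ l : ℕ) - ∫ y, u0 y ∂ν| := by
        rw [abs_div, abs_of_pos h2k]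
        refine div_le_self (abs_nonneg _) ?_
        exact one_le_pow₀ (by norm_num)
      linarith
    have hint := integral_mono (((gV l).2.sub (integrable_const v)).abs)
      (((iSum.div_const (2 ^ k)).add gM).add (integrable_const δ)) hpt
    have s1 : ∫ x, ((∑ i ∈ Finset.range (2 ^ k),
        (|V l x - (TT Q)^[i] (V l) x| + |(TT Q)^[i] (V l) x - (TT Q)^[i] (U j) x|)) / 2 ^ k
        + |(∑ i ∈ Finset.range (2 ^ l), (TT Q)^[i] u0 x) / (2 ^ l : ℕ) - ∫ y, u0 y ∂ν| + δ) ∂ν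
        = (∑ i ∈ Finset.range (2 ^ k), ((∫ x, |V l x - (TT Q)^[i] (V l) x| ∂ν)
          + ∫ x, |(TT Q)^[i] (V l) x - (TT Q)^[i] (U j) x| ∂ν)) / 2 ^ k + M (2 ^ l) + δ := by
      have i1 : Integrable (fun x => (∑ i ∈ Finset.range (2 ^ k),
        (|V l x - (TT Q)^[i] (V l) x| + |(TT Q)^[i] (V l) x - (TT Q)^[i] (U j) x|)) / 2 ^ k) ν :=
        iSum.div_const _
      have i2 : Integrable (fun x => (∑ i ∈ Finset.range (2 ^ k),
        (|V l x - (TT Q)^[i] (V l) x| + |(TT Q)^[i] (V l) x - (TT Q)^[i] (U j) x|)) / 2 ^ k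
        + |(∑ i ∈ Finset.range (2 ^ l), (TT Q)^[i] u0 x) / (2 ^ l : ℕ) - ∫ y, u0 y ∂ν|) ν := i1.add gM
      rw [integral_add i2 (integrable_const δ), integral_add i1 gM, integral_div,
        integral_finset_sum _ (fun i _ => iAB i)]
      have s2 : ∀ i, ∫ x, (|V l x - (TT Q)^[i] (V l) x| + |(TT Q)^[i] (V l) x - (TT Q)^[i] (U j) x|) ∂ν
          = (∫ x, |V l x - (TT Q)^[i] (V l) x| ∂ν)
          + ∫ x, |(TT Q)^[i] (V l) x - (TT Q)^[i] (U j) x| ∂ν := fun i => integral_add (iA i) (iB i)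
      simp only [s2, integral_const, probReal_univ, one_smul]
      rfl
    have hint2 : ∫ x, |V l x - v| ∂ν ≤ (∑ i ∈ Finset.range (2 ^ k),
        ((∫ x, |V l x - (TT Q)^[i] (V l) x| ∂ν)
          + ∫ x, |(TT Q)^[i] (V l) x - (TT Q)^[i] (U j) x| ∂ν)) / 2 ^ k + M (2 ^ l) + δ := by
      rw [← s1]
      exact hint
    refine hint2.trans ?_
    have s3 : ∀ i ∈ Finset.range (2 ^ k), ((∫ x, |V l x - (TT Q)^[i] (V l) x| ∂ν)
          + ∫ x, |(TT Q)^[i] (V l) x - (TT Q)^[i] (U j) x| ∂ν)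
          ≤ 2 ^ k * (C / Real.sqrt (2 ^ l)) + δ := by
      intro i hi
      have b1 := Tit_near ν Q hν (gV l) _ (hnear l) i
      have b2 := Tit_contr ν Q hν (gV l) (gU j) i
      have b3 := hVU j
      have b4 : (i : ℝ) ≤ 2 ^ k := by
        have := (Finset.mem_range.1 hi).le
        exact_mod_cast this
      have b5 : 0 ≤ C / Real.sqrt (2 ^ l) := by positivity
      have b6 := mul_le_mul_of_nonneg_right b4 b5
      have b7 : ∫ x, |(TT Q)^[i] (V l) x - (TT Q)^[i] (U j) x| ∂ν ≤ δ := b2.trans b3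
      linarith
    have s4 := Finset.sum_le_sum s3
    rw [Finset.sum_const, Finset.card_range, nsmul_eq_mul] at s4
    push_cast at s4
    have s5 : (∑ i ∈ Finset.range (2 ^ k), ((∫ x, |V l x - (TT Q)^[i] (V l) x| ∂ν)
          + ∫ x, |(TT Q)^[i] (V l) x - (TT Q)^[i] (U j) x| ∂ν)) / 2 ^ k
          ≤ 2 ^ k * (C / Real.sqrt (2 ^ l)) + δ := by
      rw [div_le_iff₀ h2k]
      calc _ ≤ 2 ^ k * (2 ^ k * (C / Real.sqrt (2 ^ l)) + δ) := s4
        _ = _ := by ring
    linarith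
  -- conclusion
  have hs0 : Tendsto (fun j : ℕ => 2 ^ k * (C / Real.sqrt (2 ^ (k + j)))) atTop (nhds 0) := by
    have h1 : Tendsto (fun j : ℕ => Real.sqrt (2 ^ (k + j))) atTop atTop := by
      refine Real.tendsto_sqrt_atTop.comp ?_
      refine (tendsto_pow_atTop_atTop_of_one_lt (by norm_num : (1 : ℝ) < 2)).comp ?_
      exact tendsto_add_atTop_nat k |>.congr fun j => by ring
    have h2 := (h1.const_div_atTop C).const_mul (2 ^ k)
    simpa using h2
  have e1 := (Metric.tendsto_atTop.1 hs0) δ hδ0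
  have e2 := (Metric.tendsto_atTop.1 hM2) δ hδ0
  obtain ⟨j1, hj1⟩ := e1
  obtain ⟨j2, hj2⟩ := e2
  refine ⟨k + (j1 + j2), fun l hl => ?_⟩
  obtain ⟨j, rfl⟩ : ∃ j, l = k + j := ⟨l - k, by omega⟩
  have h1 := hj1 j (by omega)
  have h2 := hj2 j (by omega)
  have h3 := hmain j
  rw [Real.dist_eq, sub_zero] at h1 h2 ⊢
  have h1' := (abs_lt.1 h1).2
  have h2' := (abs_lt.1 h2).2
  rw [abs_of_nonneg (integral_nonneg fun x => abs_nonneg _)]
  have h4 : ∫ x, |∫ q, q.1 ^ 2 / 2 ^ (k + j) ∂(lev (base Q f) (k + j) x) - v| ∂ν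
      ≤ 2 ^ k * (C / Real.sqrt (2 ^ (k + j))) + δ + M (2 ^ (k + j)) + δ := h3
  refine lt_of_le_of_lt h4 ?_
  simp only [hδ] at h1' h2' ⊢
  linarith

end Pool.Agent.Q42.UIC
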