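import Pool.Agent.Q42.UIC.Fin
import Pool.Agent.Q42.UIC.real_ui
import Pool.Agent.Q42.UIC.real_var
import Pool.Agent.Q42.UIC.pt_ui
import Pool.Agent.Q42.UIC.pt_var
import Pool.Agent.Q42.UIC.kalg
import Pool.Agent.Q42.UIC.prj
import Pool.Agent.Q42.UIC.joint
import Pool.Agent.Q42.UIC.step_ui
import Pool.Agent.Q42.UIC.step_var
import Pool.Agent.Q42.UIC.init_ui
import Pool.Agent.Q42.UIC.init_var
import Pool.Agent.Q42.UIC.extract_var
import Pool.Agent.Q42.UIC.sq_conc
import Pool.Agent.Q42.UIC.ui
import Pool.Agent.Q42.UIC.var_close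
import Pool.Agent.Q42.UIC.mean_erg
import Pool.Agent.Q42.UIC.near_inv
import Pool.Agent.Q42.UIC.energy_avg
import Pool.Agent.Q42.UIC.var_tendsto
import Pool.Agent.Q42.UIC.char_blocks
import Pool.Agent.Q42.UIC.clt_core
import Pool.Agent.Q42.UIC.var_all
import Pool.Agent.Q42.UIC.hardy
import Pool.Agent.Q42.UIC.fwd_drift
import Pool.Agent.Q42.UIC.bwd_drift
import Pool.Agent.Q42.UIC.mem_blk
import Pool.Agent.Q42.UIC.proc_law

/-! Project UIC: all lemma jobs put together. -/

set_option autoImplicit false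

namespace Pool.Agent.Q42.UIC

theorem a_conc_assoc : St_conc_assoc := kalg.1
theorem a_blk_add : St_blk_add := kalg.2.1
theorem a_lev_eq_blk : St_lev_eq_blk := kalg.2.2.1
theorem a_blk_mul : St_blk_mul := kalg.2.2.2
theorem a_pr_lev_enr : St_pr_lev_enr := prj.2
theorem a_pt_ui : St_pt_ui := pt_ui real_ui
theorem a_pt_var : St_pt_var := pt_var real_var
theorem a_step_ui : St_step_ui := step_ui a_pt_ui joint
theorem a_step_var : St_step_var := step_var a_pt_var joint
theorem a_sq_conc : St_sq_conc := sq_conc joint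
theorem a_ui : St_ui := ui a_step_ui init_ui a_sq_conc
theorem a_var_close : St_var_close := var_close a_step_var init_var extract_var a_sq_conc a_pr_lev_enr
theorem a_near_inv : St_near_inv := near_inv a_blk_add
theorem a_energy_avg : St_energy_avg := energy_avg a_conc_assoc a_lev_eq_blk
theorem a_var_tendsto : St_var_tendsto :=
  var_tendsto a_ui a_var_close mean_erg a_near_inv a_energy_avg a_lev_eq_blk a_sq_conc
theorem a_clt_core : St_clt_core := clt_core char_blocks a_lev_eq_blk a_blk_mul a_blk_add a_sq_conc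
theorem a_var_all : St_var_all := var_all joint a_lev_eq_blk a_blk_mul a_blk_add a_sq_conc

end Pool.Agent.Q42.UIC
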