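import Pool.Agent.Q42.UIC.Op

/-! Project UIC: the notions in the statement for the two sided square root condition. -/

set_option autoImplicit false

open MeasureTheory ProbabilityTheory

namespace Pool.Agent.Q42.UIC

/-- `ξ` is a stationary Markov chain indexed by `ℤ`, with kernel `Q` and marginal law `ν`. -/
def IsStatMarkov {S : Type} [MeasurableSpace S] (Q : Kernel S S) (ν : Measure S)
    {Ω : Type} [MeasurableSpace Ω] (μ : Measure Ω) (ξ : ℤ → Ω → S) : Prop :=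
  (∀ i, Measurable (ξ i)) ∧ (∀ i, μ.map (ξ i) = ν) ∧
    ∀ n : ℤ, ∀ A : Set S, MeasurableSet A →
      condExp (⨆ i ≤ n, MeasurableSpace.comap (ξ i) inferInstance) μ
        ((ξ (n+1) ⁻¹' A).indicator (fun _ => (1 : ℝ)))
        =ᵐ[μ] fun ω => (Q (ξ n ω) A).toReal

/-- The only functions in `L²(ν)` with `T u = u` are constants. -/
def IsErgodicOp {S : Type} [MeasurableSpace S] (ν : Measure S) (T : Lp ℝ 2 ν →L[ℝ] Lp ℝ 2 ν) : Prop :=
  ∀ u : Lp ℝ 2 ν, T u = u → ∃ c : ℝ, u =ᵐ[ν] fun _ => c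

/-- `S_n = f(ξ_1) + ... + f(ξ_n)`. -/
noncomputable def psum {S Ω : Type} (f : S → ℝ) (ξ : ℤ → Ω → S) (n : ℕ) (ω : Ω) : ℝ :=
  ∑ i ∈ Finset.range n, f (ξ ((i : ℤ) + 1) ω)

/-- `E Z_n ^ 2 / n → v` and `Z_n / √n` converges in law to the centred normal law of variance `v`. -/
def HasCLT {Ω : Type} [MeasurableSpace Ω] (μ : Measure Ω) (Z : ℕ → Ω → ℝ) (v : NNReal) : Prop :=
  Filter.Tendsto (fun n : ℕ => (∫ ω, Z n ω ^ 2 ∂μ) / n) Filter.atTop (nhds v) ∧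
    ∀ g : ℝ → ℝ, Continuous g → (∃ C : ℝ, ∀ x, |g x| ≤ C) →
      Filter.Tendsto (fun n : ℕ => ∫ ω, g ((Real.sqrt n)⁻¹ * Z n ω) ∂μ)
        Filter.atTop (nhds (∫ x, g x ∂(gaussianReal 0 v)))

end Pool.Agent.Q42.UIC
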