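import Mathlib

/-!
# Project UIC: uniform integrability and CLT for Markov chains under two sided dyadic conditions

Block kernels: `b x` is the law of (sum over the block, state at the end) for the chain started at `x`.
-/

set_option autoImplicit false

open MeasureTheory ProbabilityTheory

namespace Pool.Agent.Q42.UIC

section Defs

variable {S : Type} [MeasurableSpace S] {E : Type} [MeasurableSpace E]

/-- Concatenation of two block kernels: run `b`, then `c` from the end state, and add the block values. -/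
noncomputable def conc [Add E] (b c : Kernel S (E × S)) : Kernel S (E × S) :=
  (b ⊗ₖ (c.comap (fun p : S × (E × S) => p.2.2) (by fun_prop))).map
    (fun p : (E × S) × (E × S) => (p.1.1 + p.2.1, p.2.2))

/-- Dyadic levels: `lev b 0 = b`, `lev b (l+1)` is `lev b l` twice. -/
noncomputable def lev [Add E] (b : Kernel S (E × S)) : ℕ → Kernel S (E × S)
  | 0 => b
  | l + 1 => conc (lev b l) (lev b l)

/-- `blk b n`: the `n`-fold concatenation of `b`. -/
noncomputable def blk [AddMonoid E] (b : Kernel S (E × S)) : ℕ → Kernel S (E × S)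
  | 0 => Kernel.deterministic (fun x => ((0 : E), x)) (by fun_prop)
  | n + 1 => conc (blk b n) b

/-- The one step block of the chain with kernel `Q` and function `f`: `(f x, y)` with `y ~ Q x`. -/
noncomputable def base (Q : Kernel S S) (f : S → ℝ) : Kernel S (ℝ × S) :=
  (Kernel.id ×ₖ Q).map (fun p : S × S => (f p.1, p.2))

/-- The end state of a block started from `ν` has law `ν`. -/
def EndInv (ν : Measure S) (b : Kernel S (E × S)) : Prop :=
  (ν ⊗ₘ b).map (fun p : S × (E × S) => p.2.2) = ν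

/-- Admissible weights with values in `[c, M]`, `c > 0`. -/
def Adm (M : ℝ) (G : S → ℝ) : Prop :=
  Measurable G ∧ ∃ c : ℝ, 0 < c ∧ ∀ x, c ≤ G x ∧ G x ≤ M

/-- The truncated square `2 (1 - cos (θ s)) / θ^2 ≤ s^2`. -/
noncomputable def Phi (θ s : ℝ) : ℝ := 2 * (1 - Real.cos (θ * s)) / θ ^ 2

/-- The cost function of the UI step. -/
noncomputable def kap (A g : ℝ) : ℝ := A * (2 / g + g - 3)

/-- The cost function of the variance step. -/
noncomputable def kav (A₁ A₂ v u g : ℝ) : ℝ :=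
  A₁ * (1 / g + g - 2) - v * (g - 1) + A₂ * max (1 / g - u) 0

/-- The functional of the UI step is at least `r`. -/
def LB (ν : Measure S) (b : Kernel S (ℝ × S)) (n θ A r : ℝ) : Prop :=
  ∀ G H : S → ℝ, Adm 1 G → Adm 1 H →
    r ≤ ∫ p, Phi θ p.2.1 / n * G p.1 * H p.2.2 ∂(ν ⊗ₘ b) + ∫ x, kap A (G x) ∂ν + ∫ x, kap A (H x) ∂ν

/-- The functional of the variance step is at least `r`; the block value is `(s, e)`. -/
def LBV (ν : Measure S) (c : Kernel S ((ℝ × ℝ) × S)) (n A₁ A₂ v t r : ℝ) : Prop :=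
  ∀ G H : S → ℝ, Adm (1 + t) G → Adm (1 + t) H →
    r ≤ ∫ p, ((p.2.1.1 ^ 2 - p.2.1.2) / n + v) * G p.1 * H p.2.2 ∂(ν ⊗ₘ c)
      + ∫ x, kav A₁ A₂ v (1 / (1 - t)) (G x) ∂ν + ∫ x, kav A₁ A₂ v (1 / (1 - t)) (H x) ∂ν

/-- Second moment, forward drift and backward drift of the real block value, for a block of length `n`. -/
structure Blk (ν : Measure S) (b : Kernel S (ℝ × S)) (n w α β : ℝ) : Prop where
  inv : EndInv ν b
  mem : MemLp (fun p : S × (ℝ × S) => p.2.1) 2 (ν ⊗ₘ b)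
  sq : ∫ p, p.2.1 ^ 2 ∂(ν ⊗ₘ b) ≤ n * w
  fwd : ∫ x, (∫ q, q.1 ∂(b x)) ^ 2 ∂ν ≤ n * α
  bwd : ∀ u : S → ℝ, Measurable u → (∃ C : ℝ, ∀ x, |u x| ≤ C) →
    (∫ p, p.2.1 * u p.2.2 ∂(ν ⊗ₘ b)) ^ 2 ≤ n * β * ∫ x, u x ^ 2 ∂ν

/-- The test value of the UI step. -/
noncomputable def tst (A η V V' w h : ℝ) : ℝ :=
  if V ≤ 1 / η ∧ V' ≤ 1 / η ∧ w * h ^ 2 ≤ 32 * A then h else Real.sqrt A / (Real.sqrt A + Real.sqrt w)

/-- The test value of the variance step. -/
noncomputable def tsv (Λ U h : ℝ) : ℝ := if U * h ^ 2 ≤ Λ then h else h / 2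

/-- Block kernel with the truncated energy `min (s^2) K` as second component. -/
noncomputable def enr (K : ℝ) (b : Kernel S (ℝ × S)) : Kernel S ((ℝ × ℝ) × S) :=
  b.map (fun q : ℝ × S => ((q.1, min (q.1 ^ 2) K), q.2))

/-- Forget the second component of the block value. -/
noncomputable def pr (c : Kernel S ((ℝ × ℝ) × S)) : Kernel S (ℝ × S) :=
  c.map (fun q : (ℝ × ℝ) × S => (q.1.1, q.2))

/-- Uniform integrability of the normalised squares over dyadic levels. -/
def UIL (ν : Measure S) (b : Kernel S (ℝ × S)) : Prop :=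
  ∀ δ : ℝ, 0 < δ → ∃ K : ℝ, 0 < K ∧ ∃ l₀ : ℕ, ∀ l, l₀ ≤ l →
    ∫ p, (if K * 2 ^ l ≤ p.2.1 ^ 2 then p.2.1 ^ 2 else 0) ∂(ν ⊗ₘ lev b l) ≤ δ * 2 ^ l

end Defs

end Pool.Agent.Q42.UIC
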