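import Pool.Agent.Q42.UIC.Stm

/-! Project UIC: assembly of the central limit theorem from the lemma jobs. -/

set_option autoImplicit false

open MeasureTheory ProbabilityTheory

namespace Pool.Agent.Q42.UIC

/-- Second moment of the one step block. -/
theorem sq_base {S : Type} [MeasurableSpace S] (ν : Measure S) [IsProbabilityMeasure ν] (Q : Kernel S S)
    [IsMarkovKernel Q] (f : S → ℝ) (hf : Measurable f)
    (hm : MemLp (fun p : S × (ℝ × S) => p.2.1) 2 (ν ⊗ₘ base Q f)) :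
    ∫ p, p.2.1 ^ 2 ∂(ν ⊗ₘ base Q f) = ∫ x, f x ^ 2 ∂ν := by
  have := base_markov Q f hf
  have h1 : Integrable (fun p : S × (ℝ × S) => p.2.1 ^ 2) (ν ⊗ₘ base Q f) := hm.integrable_sq
  rw [Measure.integral_compProd h1]
  refine integral_congr_ae (Filter.Eventually.of_forall fun x => ?_)
  change ∫ q, q.1 ^ 2 ∂(base Q f x) = f x ^ 2
  unfold base
  have hmm : Measurable (fun p : S × S => (f p.1, p.2)) := by fun_prop
  rw [Kernel.map_apply _ hmm, integral_map hmm.aemeasurable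
    (Measurable.aestronglyMeasurable (by fun_prop))]
  rw [Kernel.prod_apply]
  have h5 : (Kernel.id x : Measure S).prod (Q x) = (Measure.dirac x).prod (Q x) := by
    rw [Kernel.id_apply]
  rw [h5]
  have h6 : (Measure.dirac x).prod (Q x) = (Q x).map (Prod.mk x) := Measure.dirac_prod x
  rw [h6, integral_map (by fun_prop) (Measurable.aestronglyMeasurable (by fun_prop))]
  simp

/-- The block conditions at all dyadic levels. -/
theorem blk_all (h_mem : St_mem_blk) (h_lb : St_lev_eq_blk) (h_sq : St_sq_conc)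
    {S : Type} [MeasurableSpace S] (ν : Measure S) [IsProbabilityMeasure ν] (Q : Kernel S S)
    [IsMarkovKernel Q] (hν : ν.bind Q = ν) (f : S → ℝ) (hf : Measurable f) (hf2 : MemLp f 2 ν)
    (α β : ℕ → ℝ) (hα0 : ∀ l, 0 ≤ α l) (hβ0 : ∀ l, 0 ≤ β l) (hα : Summable α) (hβ : Summable β)
    (hfwd : ∀ l, ∫ x, (∫ q, q.1 ∂(blk (base Q f) (2 ^ l) x)) ^ 2 ∂ν ≤ 2 ^ l * α l)
    (hbwd : ∀ l, ∀ u : S → ℝ, Measurable u → (∃ C : ℝ, ∀ x, |u x| ≤ C) →
      (∫ p, p.2.1 * u p.2.2 ∂(ν ⊗ₘ blk (base Q f) (2 ^ l))) ^ 2 ≤ 2 ^ l * β l * ∫ x, u x ^ 2 ∂ν) :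
    ∃ w : ℝ, 0 ≤ w ∧ ∀ l, Blk ν (lev (base Q f) l) (2 ^ l) w (α l) (β l) := by
  have := base_markov Q f hf
  have hl : ∀ l, lev (base Q f) l = blk (base Q f) (2 ^ l) := fun l => h_lb (base Q f) l
  have hm : ∀ n, MemLp (fun p : S × (ℝ × S) => p.2.1) 2 (ν ⊗ₘ blk (base Q f) n) :=
    fun n => (h_mem ν Q hν f hf hf2 n).1
  have he : ∀ n, EndInv ν (blk (base Q f) n) := fun n => (h_mem ν Q hν f hf hf2 n).2
  have hf0 : 0 ≤ ∫ x, f x ^ 2 ∂ν := integral_nonneg fun x => sq_nonneg _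
  have key : ∀ l, ∫ p, p.2.1 ^ 2 ∂(ν ⊗ₘ lev (base Q f) l)
      ≤ 2 ^ l * (∫ x, f x ^ 2 ∂ν + (∑ i ∈ Finset.range l, (α i + β i)) / 2) := by
    intro l
    induction l with
    | zero =>
      have h0 : MemLp (fun p : S × (ℝ × S) => p.2.1) 2 (ν ⊗ₘ base Q f) := by
        have := hm (2 ^ 0)
        rwa [← hl 0] at this
      have := sq_base ν Q f hf h0
      simp only [lev, pow_zero, Finset.range_zero, Finset.sum_empty, zero_div, add_zero, one_mul]
      exact this.le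
    | succ l ih =>
      have hB : Blk ν (lev (base Q f) l) (2 ^ l)
          (∫ x, f x ^ 2 ∂ν + (∑ i ∈ Finset.range l, (α i + β i)) / 2) (α l) (β l) := by
        refine ⟨?_, ?_, ih, ?_, ?_⟩
        · rw [hl]; exact he _
        · rw [hl]; exact hm _
        · rw [hl]; exact hfwd l
        · intro u hu hC
          rw [hl]; exact hbwd l u hu hC
      have h2 := (h_sq ν (lev (base Q f) l) (2 ^ l) _ (α l) (β l) (by positivity) (hα0 l) (hβ0 l) hB).2
      have h3 := (abs_le.1 h2).2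
      have h4 : ∫ p, p.2.1 ^ 2 ∂(ν ⊗ₘ lev (base Q f) (l + 1))
          = ∫ p, p.2.1 ^ 2 ∂(ν ⊗ₘ conc (lev (base Q f) l) (lev (base Q f) l)) := rfl
      rw [h4, Finset.sum_range_succ, pow_succ]
      nlinarith
  refine ⟨∫ x, f x ^ 2 ∂ν + (∑' i, (α i + β i)) / 2, ?_, fun l => ⟨?_, ?_, ?_, ?_, ?_⟩⟩
  · have : 0 ≤ ∑' i, (α i + β i) := tsum_nonneg fun i => add_nonneg (hα0 i) (hβ0 i)
    linarith
  · rw [hl]; exact he _
  · rw [hl]; exact hm _
  · refine (key l).trans ?_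
    have h1 : ∑ i ∈ Finset.range l, (α i + β i) ≤ ∑' i, (α i + β i) :=
      (hα.add hβ).sum_le_tsum _ fun i _ => add_nonneg (hα0 i) (hβ0 i)
    have h2 : (0 : ℝ) < 2 ^ l := by positivity
    nlinarith
  · rw [hl]; exact hfwd l
  · intro u hu hC
    rw [hl]; exact hbwd l u hu hC

/-- From convergence of the characteristic functions to convergence in law. -/
theorem clt_of_char {S : Type} [MeasurableSpace S] (h_law : St_proc_law) (Q : Kernel S S)
    [IsMarkovKernel Q] (ν : Measure S) [IsProbabilityMeasure ν] (f : S → ℝ) (hf : Measurable f)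
    (Ω : Type) [MeasurableSpace Ω] (μ : Measure Ω) [IsProbabilityMeasure μ]
    (X : ℕ → Ω → S) (hX : ∀ i, Measurable (X i)) (h0 : μ.map (X 0) = ν)
    (hM : ∀ n : ℕ, ∀ A : Set S, MeasurableSet A →
        condExp (⨆ i ≤ n, MeasurableSpace.comap (X i) inferInstance) μ
          ((X (n+1) ⁻¹' A).indicator (fun _ => (1 : ℝ)))
          =ᵐ[μ] fun ω => (Q (X n ω) A).toReal)
    (v : ℝ) (hv : 0 ≤ v)
    (hc : ∀ τ : ℝ, Filter.Tendsto
      (fun N : ℕ => ∫ p, Complex.exp (Complex.I * (τ / Real.sqrt N * p.2.1)) ∂(ν ⊗ₘ blk (base Q f) N))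
      Filter.atTop (nhds (Complex.exp (-(v * τ ^ 2 / 2 : ℝ)))))
    (g : ℝ → ℝ) (hg : Continuous g) (hgb : ∃ C : ℝ, ∀ x, |g x| ≤ C) :
    Filter.Tendsto
      (fun n : ℕ => ∫ ω, g ((Real.sqrt n)⁻¹ * ∑ i ∈ Finset.range n, f (X i ω)) ∂μ)
      Filter.atTop (nhds (∫ x, g x ∂(gaussianReal 0 v.toNNReal))) := by
  have := base_markov Q f hf
  have hSm : ∀ n : ℕ, Measurable (fun ω => ∑ i ∈ Finset.range n, f (X i ω)) := fun n =>
    Finset.measurable_sum _ fun i _ => hf.comp (hX i)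
  have hZm : ∀ n : ℕ, Measurable (fun ω => (Real.sqrt n)⁻¹ * ∑ i ∈ Finset.range n, f (X i ω)) :=
    fun n => (hSm n).const_mul _
  have hpr : ∀ n : ℕ, IsProbabilityMeasure
      (μ.map (fun ω => (Real.sqrt n)⁻¹ * ∑ i ∈ Finset.range n, f (X i ω))) := fun n =>
    Measure.isProbabilityMeasure_map (hZm n).aemeasurable
  let ρ : ℕ → ProbabilityMeasure ℝ := fun n =>
    ⟨μ.map (fun ω => (Real.sqrt n)⁻¹ * ∑ i ∈ Finset.range n, f (X i ω)), hpr n⟩
  let γ : ProbabilityMeasure ℝ := ⟨gaussianReal 0 v.toNNReal, inferInstance⟩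
  have hlev : Filter.Tendsto ρ Filter.atTop (nhds γ) := by
    refine ProbabilityMeasure.tendsto_of_tendsto_charFun fun t => ?_
    have h1 : charFun (γ : Measure ℝ) t = Complex.exp (-(v * t ^ 2 / 2 : ℝ)) := by
      change charFun (gaussianReal 0 v.toNNReal) t = _
      rw [charFun_gaussianReal]
      congr 1
      rw [Real.coe_toNNReal v hv]
      push_cast
      ring
    rw [h1]
    refine (hc t).congr fun n => ?_
    change _ = charFun (μ.map (fun ω => (Real.sqrt n)⁻¹ * ∑ i ∈ Finset.range n, f (X i ω))) t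
    rw [charFun_apply_real, integral_map (hZm n).aemeasurable
      (Measurable.aestronglyMeasurable (by fun_prop))]
    have h2 : ∫ ω, Complex.exp (Complex.I * (t / Real.sqrt n * (∑ i ∈ Finset.range n, f (X i ω) : ℝ))) ∂μ
        = ∫ p, Complex.exp (Complex.I * (t / Real.sqrt n * p.2.1)) ∂(ν ⊗ₘ blk (base Q f) n) := by
      have h3 := h_law Q ν f hf Ω μ X hX h0 hM n
      have h4 : ∫ s, Complex.exp (Complex.I * (t / Real.sqrt n * (s : ℝ)))
            ∂(μ.map (fun ω => ∑ i ∈ Finset.range n, f (X i ω)))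
          = ∫ s, Complex.exp (Complex.I * (t / Real.sqrt n * (s : ℝ)))
            ∂((ν ⊗ₘ blk (base Q f) n).map (fun p : S × (ℝ × S) => p.2.1)) := by rw [h3]
      rw [integral_map (hSm n).aemeasurable (Measurable.aestronglyMeasurable (by fun_prop)),
        integral_map (by fun_prop) (Measurable.aestronglyMeasurable (by fun_prop))] at h4
      exact h4
    rw [← h2]
    refine integral_congr_ae (Filter.Eventually.of_forall fun ω => ?_)
    change Complex.exp _ = Complex.exp _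
    congr 1
    push_cast
    ring
  obtain ⟨C, hC⟩ := hgb
  let gb : BoundedContinuousFunction ℝ ℝ := BoundedContinuousFunction.ofNormedAddCommGroup g hg C
    (fun x => by rw [Real.norm_eq_abs]; exact hC x)
  have h5 := (ProbabilityMeasure.tendsto_iff_forall_integral_tendsto.1 hlev) gb
  refine h5.congr fun n => ?_
  change ∫ x, g x ∂(μ.map (fun ω => (Real.sqrt n)⁻¹ * ∑ i ∈ Finset.range n, f (X i ω))) = _
  rw [integral_map (hZm n).aemeasurable hg.aestronglyMeasurable]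

/-- The central limit theorem from the conditions on the drifts. -/
theorem clt_of_drifts (h_mem : St_mem_blk) (h_lb : St_lev_eq_blk) (h_sq : St_sq_conc) (h_ui : St_ui)
    (h_var : St_var_tendsto) (h_clt : St_clt_core) (h_law : St_proc_law)
    {S : Type} [MeasurableSpace S] (ν : Measure S) [IsProbabilityMeasure ν] (Q : Kernel S S)
    [IsMarkovKernel Q] (hν : ν.bind Q = ν)
    (herg : ∀ A : Set S, MeasurableSet A →
      (∀ᵐ x ∂ν, Q x A = A.indicator (fun _ => (1 : ENNReal)) x) → ν A = 0 ∨ ν A = 1)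
    (f : S → ℝ) (hf : Measurable f) (hf2 : MemLp f 2 ν)
    (α β : ℕ → ℝ) (hα0 : ∀ l, 0 ≤ α l) (hβ0 : ∀ l, 0 ≤ β l) (hα : Summable α) (hβ : Summable β)
    (hfwd : ∀ l, ∫ x, (∫ q, q.1 ∂(blk (base Q f) (2 ^ l) x)) ^ 2 ∂ν ≤ 2 ^ l * α l)
    (hbwd : ∀ l, ∀ u : S → ℝ, Measurable u → (∃ C : ℝ, ∀ x, |u x| ≤ C) →
      (∫ p, p.2.1 * u p.2.2 ∂(ν ⊗ₘ blk (base Q f) (2 ^ l))) ^ 2 ≤ 2 ^ l * β l * ∫ x, u x ^ 2 ∂ν)
    (Ω : Type) [MeasurableSpace Ω] (μ : Measure Ω) [IsProbabilityMeasure μ]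
    (X : ℕ → Ω → S) (hX : ∀ i, Measurable (X i)) (h0 : μ.map (X 0) = ν)
    (hM : ∀ n : ℕ, ∀ A : Set S, MeasurableSet A →
        condExp (⨆ i ≤ n, MeasurableSpace.comap (X i) inferInstance) μ
          ((X (n+1) ⁻¹' A).indicator (fun _ => (1 : ℝ)))
          =ᵐ[μ] fun ω => (Q (X n ω) A).toReal) :
    ∃ v : NNReal, ∀ g : ℝ → ℝ, Continuous g → (∃ C : ℝ, ∀ x, |g x| ≤ C) →
        Filter.Tendsto
          (fun n : ℕ => ∫ ω, g ((Real.sqrt n)⁻¹ * ∑ i ∈ Finset.range n, f (X i ω)) ∂μ)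
          Filter.atTop (nhds (∫ x, g x ∂(gaussianReal 0 v))) := by
  have := base_markov Q f hf
  obtain ⟨w, hw, hB⟩ := blk_all h_mem h_lb h_sq ν Q hν f hf hf2 α β hα0 hβ0 hα hβ hfwd hbwd
  have hui : UIL ν (base Q f) := h_ui ν (base Q f) w α β hw hα0 hβ0 hα hβ hB
  obtain ⟨v, hv, hvar⟩ := h_var ν Q hν herg f hf hf2 w α β hw hα0 hβ0 hα hβ hB
  have hch := h_clt ν (base Q f) w v α β hw hv hα0 hβ0 hα hβ hB hui hvar
  exact ⟨v.toNNReal, fun g hg hgb => clt_of_char h_law Q ν f hf Ω μ X hX h0 hM v hv hch g hg hgb⟩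

/-- The frozen statement. -/
theorem final (h_mem : St_mem_blk) (h_lb : St_lev_eq_blk) (h_sq : St_sq_conc) (h_ui : St_ui)
    (h_var : St_var_tendsto) (h_clt : St_clt_core) (h_law : St_proc_law) (h_hardy : St_hardy)
    (h_fwd : St_fwd_drift) (h_bwd : St_bwd_drift)
    (S : Type) [mS : MeasurableSpace S] (Q : Kernel S S) [IsMarkovKernel Q]
    (ν : Measure S) [IsProbabilityMeasure ν] (f : S → ℝ) (hν : ν.bind Q = ν)
    (herg : ∀ A : Set S, MeasurableSet A →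
      (∀ᵐ x ∂ν, Q x A = A.indicator (fun _ => (1 : ENNReal)) x) → ν A = 0 ∨ ν A = 1)
    (hf : Measurable f) (hf2 : MemLp f 2 ν)
    (hF : Summable (fun k : ℕ =>
      ∫ x, ((fun (h : S → ℝ) => fun y => ∫ z, h z ∂(Q y))^[k+1] f x) ^ 2 ∂ν))
    (hB : ∃ c : ℕ → ℝ, Summable c ∧ ∀ k : ℕ, ∀ g : S → ℝ, Measurable g →
        (∃ C : ℝ, ∀ x, |g x| ≤ C) → ∫ x, g x ^ 2 ∂ν ≤ 1 →
        (∫ x, f x * (fun (h : S → ℝ) => fun y => ∫ z, h z ∂(Q y))^[k+1] g x ∂ν) ^ 2 ≤ c k)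
    (Ω : Type) [mΩ : MeasurableSpace Ω] (μ : Measure Ω) [IsProbabilityMeasure μ]
    (X : ℕ → Ω → S) (hX : ∀ i, Measurable (X i)) (h0 : μ.map (X 0) = ν)
    (hM : ∀ n : ℕ, ∀ A : Set S, MeasurableSet A →
        condExp (⨆ i ≤ n, MeasurableSpace.comap (X i) mS) μ
          ((X (n+1) ⁻¹' A).indicator (fun _ => (1 : ℝ)))
          =ᵐ[μ] fun ω => (Q (X n ω) A).toReal) :
      ∃ v : NNReal, ∀ g : ℝ → ℝ, Continuous g → (∃ C : ℝ, ∀ x, |g x| ≤ C) →
        Filter.Tendsto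
          (fun n : ℕ => ∫ ω, g ((Real.sqrt n)⁻¹ * ∑ i ∈ Finset.range n, f (X i ω)) ∂μ)
          Filter.atTop (nhds (∫ x, g x ∂(gaussianReal 0 v))) := by
  obtain ⟨c, hc, hcb⟩ := hB
  have hc0 : ∀ k, 0 ≤ c k := by
    intro k
    have := hcb k (fun _ => 0) measurable_const ⟨0, fun x => by simp⟩ (by simp)
    exact (sq_nonneg _).trans this
  set p : ℕ → ℝ := fun k => Real.sqrt (∫ x,
    ((fun (h : S → ℝ) => fun y => ∫ z, h z ∂(Q y))^[k] f x) ^ 2 ∂ν) with hp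
  set q : ℕ → ℝ := fun k => Real.sqrt (c k) with hq
  have hp0 : ∀ k, 0 ≤ p k := fun k => Real.sqrt_nonneg _
  have hq0 : ∀ k, 0 ≤ q k := fun k => Real.sqrt_nonneg _
  have hp2 : Summable (fun k => p k ^ 2) := by
    rw [← summable_nat_add_iff 1]
    refine hF.congr fun k => ?_
    rw [hp]
    exact (Real.sq_sqrt (integral_nonneg fun x => sq_nonneg _)).symm
  have hq2 : Summable (fun k => q k ^ 2) := by
    refine hc.congr fun k => ?_
    rw [hq]
    exact (Real.sq_sqrt (hc0 k)).symm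
  have hα := h_hardy (S := S) p hp0 hp2
  have hβ := h_hardy (S := S) q hq0 hq2
  refine clt_of_drifts h_mem h_lb h_sq h_ui h_var h_clt h_law ν Q hν herg f hf hf2
    (fun l : ℕ => (∑ k ∈ Finset.range (2 ^ l), p k) ^ 2 / 2 ^ l)
    (fun l : ℕ => (∑ k ∈ Finset.range (2 ^ l), q k) ^ 2 / 2 ^ l)
    (fun l => by positivity) (fun l => by positivity) hα hβ ?_ ?_ Ω μ X hX h0 hM
  · intro l
    have h1 := h_fwd ν Q hν f hf hf2 (2 ^ l)
    have h2 : (2 : ℝ) ^ l * ((∑ k ∈ Finset.range (2 ^ l), p k) ^ 2 / 2 ^ l)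
        = (∑ k ∈ Finset.range (2 ^ l), p k) ^ 2 := by field_simp
    rw [h2]
    exact h1
  · intro l u hu hC
    have h1 := h_bwd ν Q hν f hf hf2 (2 ^ l) c hcb u hu hC
    have h2 : (2 : ℝ) ^ l * ((∑ k ∈ Finset.range (2 ^ l), q k) ^ 2 / 2 ^ l)
        = (∑ k ∈ Finset.range (2 ^ l), q k) ^ 2 := by field_simp
    rw [h2]
    exact h1

end Pool.Agent.Q42.UIC
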