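import Pool.Agent.Q42.UIC.Stm2
import Pool.Agent.Q42.UIC.Fin

/-! Project UIC: assembly for the square root conditions. -/

set_option autoImplicit false

open MeasureTheory ProbabilityTheory

namespace Pool.Agent.Q42.UIC

/-- Ergodicity in `L²` implies the triviality of the invariant sets. -/
theorem erg_sets {S : Type} [MeasurableSpace S] (Q : Kernel S S) [IsMarkovKernel Q]
    (ν : Measure S) [IsProbabilityMeasure ν] (hν : ν.bind Q = ν)
    (herg : ∀ u : Lp ℝ 2 ν, mop ν Q hν u = u → ∃ c : ℝ, u =ᵐ[ν] fun _ => c)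
    (A : Set S) (hA : MeasurableSet A)
    (h : ∀ᵐ x ∂ν, Q x A = A.indicator (fun _ => (1 : ENNReal)) x) : ν A = 0 ∨ ν A = 1 := by
  set u : Lp ℝ 2 ν := indicatorConstLp 2 hA (measure_ne_top ν A) (1 : ℝ) with hu
  have hu1 : (u : S → ℝ) =ᵐ[ν] A.indicator fun _ => (1 : ℝ) := indicatorConstLp_coeFn
  have h1 : mop ν Q hν u = u := by
    ext1
    refine (mop_coe ν Q hν u).trans ?_
    filter_upwards [hu1, h, ae_kernel_of_ae ν Q hν hu1] with x hx hx2 hx3
    rw [integral_congr_ae hx3, integral_indicator hA, setIntegral_const, smul_eq_mul, mul_one,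
      Measure.real, hx2, hx]
    by_cases hxA : x ∈ A <;> simp [hxA]
  obtain ⟨c, hc⟩ := herg u h1
  have h2 : (A.indicator fun _ => (1 : ℝ)) =ᵐ[ν] fun _ => c := hu1.symm.trans hc
  by_cases hc1 : c = 1
  · right
    rw [← prob_compl_eq_zero_iff hA]
    have h3 : ∀ᵐ x ∂ν, x ∈ A := by
      filter_upwards [h2] with x hx
      by_contra hxA
      simp [hxA, hc1] at hx
    exact h3
  · left
    have h3 : ∀ᵐ x ∂ν, x ∉ A := by
      filter_upwards [h2] with x hx hxA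
      simp [hxA] at hx
      exact hc1 hx.symm
    have h4 := measure_mono_null (s := A) (t := {x | ¬ x ∉ A}) (μ := ν)
      (fun x hx => by simpa using hx) h3
    exact h4

/-- Summability from bounded partial sums, for the dyadic square function. -/
theorem summable_sqf (h_col : St_col) {H : Type} [NormedAddCommGroup H] [InnerProductSpace ℝ H]
    [CompleteSpace H] (T : H →L[ℝ] H) (hT : ‖T‖ ≤ 1) (g : H) :
    Summable (fun l : ℕ => ‖(∑ k ∈ Finset.range (2 ^ l), T ^ k) (sqrtOp T g)‖ ^ 2 / 2 ^ l) :=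
  summable_of_sum_range_le (fun l => by positivity) (fun L => h_col T hT g L)

/-- The central limit theorem under the two sided square root condition. -/
theorem final2 (h_mem : St_mem_blk) (h_lb : St_lev_eq_blk) (h_sq : St_sq_conc) (h_ui : St_ui)
    (h_var : St_var_tendsto) (h_clt : St_clt_core) (h_law : St_proc_law) (h_all : St_var_all)
    (h_col : St_col) (h_fwd : St_fwd_op) (h_bwd : St_bwd_op) (h_res : St_restrict)
    (S : Type) [MeasurableSpace S] (Q : Kernel S S) [IsMarkovKernel Q]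
    (ν : Measure S) [IsProbabilityMeasure ν] (hν : ν.bind Q = ν)
    (herg : ∀ u : Lp ℝ 2 ν, mop ν Q hν u = u → ∃ c : ℝ, u =ᵐ[ν] fun _ => c)
    (f : S → ℝ) (hf : Measurable f) (hf2 : MemLp f 2 ν)
    (hr : ∃ g : Lp ℝ 2 ν, sqrtOp (mop ν Q hν) g = hf2.toLp f)
    (hr' : ∃ g : Lp ℝ 2 ν, sqrtOp (ContinuousLinearMap.adjoint (mop ν Q hν)) g = hf2.toLp f)
    (Ω : Type) [MeasurableSpace Ω] (μ : Measure Ω) [IsProbabilityMeasure μ]
    (ξ : ℤ → Ω → S) (hξ : ∀ i, Measurable (ξ i)) (hlaw : ∀ i, μ.map (ξ i) = ν)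
    (hM : ∀ n : ℤ, ∀ A : Set S, MeasurableSet A →
        condExp (⨆ i ≤ n, MeasurableSpace.comap (ξ i) inferInstance) μ
          ((ξ (n+1) ⁻¹' A).indicator (fun _ => (1 : ℝ)))
          =ᵐ[μ] fun ω => (Q (ξ n ω) A).toReal) :
    ∃ v : NNReal,
      Filter.Tendsto (fun n : ℕ => (∫ ω, (∑ i ∈ Finset.range n, f (ξ ((i : ℤ) + 1) ω)) ^ 2 ∂μ) / n)
        Filter.atTop (nhds v) ∧
      ∀ g : ℝ → ℝ, Continuous g → (∃ C : ℝ, ∀ x, |g x| ≤ C) →
        Filter.Tendsto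
          (fun n : ℕ => ∫ ω, g ((Real.sqrt n)⁻¹ * ∑ i ∈ Finset.range n, f (ξ ((i : ℤ) + 1) ω)) ∂μ)
          Filter.atTop (nhds (∫ x, g x ∂(gaussianReal 0 v))) := by
  have := base_markov Q f hf
  obtain ⟨g₁, hg₁⟩ := hr
  obtain ⟨g₂, hg₂⟩ := hr'
  have hT : ‖mop ν Q hν‖ ≤ 1 := norm_mop_le ν Q hν
  have hT' : ‖ContinuousLinearMap.adjoint (mop ν Q hν)‖ ≤ 1 := by
    rw [LinearIsometryEquiv.norm_map]; exact hT
  have hα := summable_sqf h_col (mop ν Q hν) hT g₁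
  have hβ := summable_sqf h_col (ContinuousLinearMap.adjoint (mop ν Q hν)) hT' g₂
  rw [hg₁] at hα
  rw [hg₂] at hβ
  set α : ℕ → ℝ := fun l => ‖(∑ k ∈ Finset.range (2 ^ l), mop ν Q hν ^ k) (hf2.toLp f)‖ ^ 2 / 2 ^ l
    with hαd
  set β : ℕ → ℝ := fun l => ‖(∑ k ∈ Finset.range (2 ^ l),
    (ContinuousLinearMap.adjoint (mop ν Q hν)) ^ k) (hf2.toLp f)‖ ^ 2 / 2 ^ l with hβd
  have hα0 : ∀ l, 0 ≤ α l := fun l => by positivity
  have hβ0 : ∀ l, 0 ≤ β l := fun l => by positivity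
  have hα2 : ∀ l, (2 : ℝ) ^ l * α l
      = ‖(∑ k ∈ Finset.range (2 ^ l), mop ν Q hν ^ k) (hf2.toLp f)‖ ^ 2 := fun l => by
    rw [hαd]; field_simp
  have hβ2 : ∀ l, (2 : ℝ) ^ l * β l = ‖(∑ k ∈ Finset.range (2 ^ l),
      (ContinuousLinearMap.adjoint (mop ν Q hν)) ^ k) (hf2.toLp f)‖ ^ 2 := fun l => by
    rw [hβd]; field_simp
  have hergs := erg_sets Q ν hν herg
  obtain ⟨w, hw, hB⟩ := blk_all h_mem h_lb h_sq ν Q hν f hf hf2 α β hα0 hβ0 hα hβ
    (fun l => by rw [hα2]; exact h_fwd ν Q hν f hf hf2 (2 ^ l))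
    (fun l u hu hC => by rw [hβ2]; exact h_bwd ν Q hν f hf hf2 (2 ^ l) u hu hC)
  have hui : UIL ν (base Q f) := h_ui ν (base Q f) w α β hw hα0 hβ0 hα hβ hB
  obtain ⟨v, hv, hvar⟩ := h_var ν Q hν hergs f hf hf2 w α β hw hα0 hβ0 hα hβ hB
  have hch := h_clt ν (base Q f) w v α β hw hv hα0 hβ0 hα hβ hB hui hvar
  -- convergence of the second moments
  have hsq : Filter.Tendsto (fun l : ℕ => ∫ p, p.2.1 ^ 2 / 2 ^ l ∂(ν ⊗ₘ lev (base Q f) l))
      Filter.atTop (nhds v) := by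
    rw [tendsto_iff_norm_sub_tendsto_zero]
    refine squeeze_zero (fun l => norm_nonneg _) (fun l => ?_) hvar
    have hi : Integrable (fun p : S × (ℝ × S) => p.2.1 ^ 2 / 2 ^ l) (ν ⊗ₘ lev (base Q f) l) :=
      (hB l).mem.integrable_sq.div_const _
    have hi2 : Integrable (fun x => ∫ q, q.1 ^ 2 / 2 ^ l ∂(lev (base Q f) l x)) ν :=
      MeasureTheory.Integrable.integral_compProd (a := ()) (κ := Kernel.const Unit ν)
        (η := Kernel.prodMkLeft Unit (lev (base Q f) l)) hi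
    rw [Measure.integral_compProd hi]
    have h5 : (∫ x, ∫ q, q.1 ^ 2 / 2 ^ l ∂(lev (base Q f) l x) ∂ν) - v
        = ∫ x, (∫ q, q.1 ^ 2 / 2 ^ l ∂(lev (base Q f) l x) - v) ∂ν := by
      rw [integral_sub hi2 (integrable_const _)]; simp
    rw [h5]
    exact norm_integral_le_integral_norm _
  have hall := h_all ν (base Q f) w v α β hw hα0 hβ0 hα hβ hB hsq
  -- the chain started at time one
  let X : ℕ → Ω → S := fun i => ξ ((i : ℤ) + 1)
  have hX : ∀ i, Measurable (X i) := fun i => hξ _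
  have h0 : μ.map (X 0) = ν := hlaw _
  have hMX := h_res Q Ω μ ξ hξ hM
  refine ⟨v.toNNReal, ?_, fun g hg hgb => clt_of_char h_law Q ν f hf Ω μ X hX h0 hMX v hv hch g hg hgb⟩
  rw [Real.coe_toNNReal v hv]
  refine hall.congr fun N => ?_
  have h3 := h_law Q ν f hf Ω μ X hX h0 hMX N
  have hSm : Measurable (fun ω => ∑ i ∈ Finset.range N, f (X i ω)) :=
    Finset.measurable_sum _ fun i _ => hf.comp (hX i)
  have h4 : ∫ s, s ^ 2 ∂(μ.map (fun ω => ∑ i ∈ Finset.range N, f (X i ω)))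
      = ∫ s, s ^ 2 ∂((ν ⊗ₘ blk (base Q f) N).map (fun p : S × (ℝ × S) => p.2.1)) := by rw [h3]
  rw [integral_map hSm.aemeasurable (Measurable.aestronglyMeasurable (by fun_prop)),
    integral_map (by fun_prop) (Measurable.aestronglyMeasurable (by fun_prop))] at h4
  rw [integral_div, ← h4]

end Pool.Agent.Q42.UIC
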