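import Pool.Agent.Q42.UIC.Defs

/-! Project UIC: basic facts on block kernels. -/

set_option autoImplicit false

open MeasureTheory ProbabilityTheory

namespace Pool.Agent.Q42.UIC

section K
variable {S : Type} [MeasurableSpace S] {E : Type} [MeasurableSpace E]

theorem measurable_cat [Add E] [MeasurableAdd₂ E] :
    Measurable (fun p : (E × S) × (E × S) => (p.1.1 + p.2.1, p.2.2)) := by
  fun_prop

instance conc_markov [Add E] [MeasurableAdd₂ E] (b c : Kernel S (E × S)) [IsMarkovKernel b]
    [IsMarkovKernel c] : IsMarkovKernel (conc b c) := by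
  unfold conc
  exact Kernel.IsMarkovKernel.map _ measurable_cat

instance lev_markov [Add E] [MeasurableAdd₂ E] (b : Kernel S (E × S)) [IsMarkovKernel b] (l : ℕ) :
    IsMarkovKernel (lev b l) := by
  induction l with
  | zero => simpa [lev] using (inferInstance : IsMarkovKernel b)
  | succ l ih => unfold lev; infer_instance

instance blk_markov [AddMonoid E] [MeasurableAdd₂ E] (b : Kernel S (E × S)) [IsMarkovKernel b] (n : ℕ) :
    IsMarkovKernel (blk b n) := by
  induction n with
  | zero => unfold blk; infer_instance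
  | succ l ih => unfold blk; infer_instance

theorem base_markov (Q : Kernel S S) [IsMarkovKernel Q] (f : S → ℝ) (hf : Measurable f) :
    IsMarkovKernel (base Q f) := by
  unfold base
  exact Kernel.IsMarkovKernel.map _ (by fun_prop)

/-- Integral of a nonnegative function against the concatenation. -/
theorem lintegral_conc [Add E] [MeasurableAdd₂ E] (b c : Kernel S (E × S)) [IsMarkovKernel b]
    [IsMarkovKernel c] (x : S) (F : E × S → ENNReal) (hF : Measurable F) :
    ∫⁻ q, F q ∂(conc b c x) = ∫⁻ q, ∫⁻ r, F (q.1 + r.1, r.2) ∂(c q.2) ∂(b x) := by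
  unfold conc
  have h1 : Measurable (fun a : (E × S) × (E × S) => F (a.1.1 + a.2.1, a.2.2)) := hF.comp measurable_cat
  rw [Kernel.map_apply _ measurable_cat, lintegral_map hF measurable_cat,
    Kernel.lintegral_compProd _ _ _ h1]
  rfl

theorem integrable_conc_iff [Add E] [MeasurableAdd₂ E] (b c : Kernel S (E × S)) [IsMarkovKernel b]
    [IsMarkovKernel c] (x : S) (F : E × S → ℝ) (hF : Measurable F) :
    Integrable F (conc b c x) ↔ Integrable (fun p : (E × S) × (E × S) => F (p.1.1 + p.2.1, p.2.2))
      ((b ⊗ₖ (c.comap (fun p : S × (E × S) => p.2.2) (by fun_prop))) x) := by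
  unfold conc
  rw [Kernel.map_apply _ measurable_cat, integrable_map_measure hF.aestronglyMeasurable
    measurable_cat.aemeasurable]
  rfl

/-- Integral of an integrable function against the concatenation. -/
theorem integral_conc {V : Type} [NormedAddCommGroup V] [NormedSpace ℝ V]
    [Add E] [MeasurableAdd₂ E] (b c : Kernel S (E × S)) [IsMarkovKernel b]
    [IsMarkovKernel c] (x : S) (F : E × S → V) (hF : Integrable F (conc b c x)) :
    ∫ q, F q ∂(conc b c x) = ∫ q, ∫ r, F (q.1 + r.1, r.2) ∂(c q.2) ∂(b x) := by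
  unfold conc at *
  rw [Kernel.map_apply _ measurable_cat] at *
  rw [integral_map measurable_cat.aemeasurable hF.aestronglyMeasurable]
  have h2 : Integrable (fun a : (E × S) × (E × S) => F (a.1.1 + a.2.1, a.2.2)) _ :=
    (integrable_map_measure hF.aestronglyMeasurable measurable_cat.aemeasurable).1 hF
  rw [ProbabilityTheory.integral_compProd h2]
  rfl

/-- The law of the concatenated block. -/
theorem compProd_conc [Add E] [MeasurableAdd₂ E] (ν : Measure S) [IsProbabilityMeasure ν]
    (b c : Kernel S (E × S)) [IsMarkovKernel b] [IsMarkovKernel c] :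
    ν ⊗ₘ conc b c = ((ν ⊗ₘ b) ⊗ₘ (c.comap (fun p : S × (E × S) => p.2.2) (by fun_prop))).map
      (fun p : (S × (E × S)) × (E × S) => (p.1.1, (p.1.2.1 + p.2.1, p.2.2))) := by
  have hm : Measurable (fun p : (S × (E × S)) × (E × S) => (p.1.1, (p.1.2.1 + p.2.1, p.2.2))) := by
    fun_prop
  ext s hs
  have h1 : Measurable (Set.indicator s (fun _ : S × (E × S) => (1 : ENNReal))) :=
    measurable_const.indicator hs
  rw [← lintegral_indicator_one hs, ← lintegral_indicator_one hs]
  change ∫⁻ a, s.indicator (fun _ => (1 : ENNReal)) a ∂_ = ∫⁻ a, s.indicator (fun _ => (1 : ENNReal)) a ∂_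
  have h2 : Measurable (fun p : (S × (E × S)) × (E × S) =>
      s.indicator (fun _ => (1 : ENNReal)) (p.1.1, (p.1.2.1 + p.2.1, p.2.2))) := h1.comp hm
  rw [lintegral_map h1 hm, Measure.lintegral_compProd h1,
    Measure.lintegral_compProd h2, Measure.lintegral_compProd]
  · refine lintegral_congr fun x => ?_
    have h3 : Measurable (fun q : E × S => s.indicator (fun _ => (1 : ENNReal)) (x, q)) :=
      h1.comp (by fun_prop)
    rw [lintegral_conc _ _ _ _ h3]
    rfl
  · exact Measurable.lintegral_kernel_prod_right' h2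

theorem endInv_conc [Add E] [MeasurableAdd₂ E] (ν : Measure S) [IsProbabilityMeasure ν]
    (b c : Kernel S (E × S)) [IsMarkovKernel b] [IsMarkovKernel c]
    (hb : EndInv ν b) (hc : EndInv ν c) : EndInv ν (conc b c) := by
  unfold EndInv at *
  ext s hs
  have hm : Measurable (fun p : S × (E × S) => p.2.2) := by fun_prop
  have h1 : Measurable (Set.indicator s (fun _ : S => (1 : ENNReal))) := measurable_const.indicator hs
  have h2 : ∀ (d : Kernel S (E × S)) [IsMarkovKernel d] (F : S → ENNReal), Measurable F →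
      ∫⁻ y, F y ∂((ν ⊗ₘ d).map (fun p => p.2.2)) = ∫⁻ x, ∫⁻ q, F q.2 ∂(d x) ∂ν := by
    intro d _ F hF
    have h0 : Measurable (fun p : S × (E × S) => F p.2.2) := hF.comp hm
    rw [lintegral_map hF hm, Measure.lintegral_compProd h0]
  rw [← lintegral_indicator_one hs]
  change ∫⁻ a, s.indicator (fun _ => (1 : ENNReal)) a ∂_ = _
  rw [h2 _ _ h1]
  have h0 : Measurable (fun q : E × S => s.indicator (fun _ => (1 : ENNReal)) q.2) :=
    h1.comp measurable_snd
  have h3 : ∀ x, ∫⁻ q, s.indicator (fun _ => (1 : ENNReal)) q.2 ∂(conc b c x)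
      = ∫⁻ q, ∫⁻ r, s.indicator (fun _ => (1 : ENNReal)) r.2 ∂(c q.2) ∂(b x) := by
    intro x
    rw [lintegral_conc _ _ _ _ h0]
  simp only [h3]
  have h4 : Measurable (fun y : S => ∫⁻ r, s.indicator (fun _ => (1 : ENNReal)) r.2 ∂(c y)) :=
    Measurable.lintegral_kernel h0
  rw [← h2 b _ h4, hb, ← h2 c _ h1, hc]
  exact lintegral_indicator_one hs

theorem endInv_base (ν : Measure S) [IsProbabilityMeasure ν] (Q : Kernel S S) [IsMarkovKernel Q]
    (f : S → ℝ) (hf : Measurable f) (hν : ν.bind Q = ν) : EndInv ν (base Q f) := by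
  unfold EndInv
  have := base_markov Q f hf
  ext s hs
  have hm : Measurable (fun p : S × (ℝ × S) => p.2.2) := by fun_prop
  have h1 : Measurable (Set.indicator s (fun _ : S => (1 : ENNReal))) := measurable_const.indicator hs
  rw [← lintegral_indicator_one hs]
  change ∫⁻ a, s.indicator (fun _ => (1 : ENNReal)) a ∂_ = _
  have h0 : Measurable (fun p : S × (ℝ × S) => s.indicator (fun _ => (1 : ENNReal)) p.2.2) := h1.comp hm
  have h0' : Measurable (fun q : ℝ × S => s.indicator (fun _ => (1 : ENNReal)) q.2) :=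
    h1.comp measurable_snd
  rw [lintegral_map h1 hm, Measure.lintegral_compProd h0]
  have h3 : ∀ x, ∫⁻ q : ℝ × S, s.indicator (fun _ => (1 : ENNReal)) q.2 ∂(base Q f x) = Q x s := by
    intro x
    unfold base
    rw [Kernel.map_apply _ (by fun_prop), lintegral_map h0' (by fun_prop)]
    rw [Kernel.prod_apply]
    have h5 : (Kernel.id x : Measure S).prod (Q x) = (Measure.dirac x).prod (Q x) := by
      rw [Kernel.id_apply]
    rw [h5, lintegral_prod _ (by fun_prop), lintegral_dirac' _ (by fun_prop)]
    exact lintegral_indicator_one hs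
  change ∫⁻ x, ∫⁻ q : ℝ × S, s.indicator (fun _ => (1 : ENNReal)) q.2 ∂(base Q f x) ∂ν = ν s
  simp only [h3]
  conv_rhs => rw [← hν]
  rw [Measure.bind_apply hs (Kernel.aemeasurable Q)]

end K

end Pool.Agent.Q42.UIC
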