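import Pool.Agent.Q42.UIC.Defs

/-! Project UIC: the Markov operator on `L²` and the operator square root of `1 - T`. -/

set_option autoImplicit false

open MeasureTheory ProbabilityTheory

namespace Pool.Agent.Q42.UIC

section Op

variable {S : Type} [MeasurableSpace S]

theorem ae_kernel_of_ae (ν : Measure S) (Q : Kernel S S) (hν : ν.bind Q = ν) {p : S → Prop}
    (h : ∀ᵐ x ∂ν, p x) : ∀ᵐ x ∂ν, ∀ᵐ y ∂(Q x), p y := by
  rw [← hν] at h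
  exact Measure.ae_ae_of_ae_bind Q.aemeasurable h

theorem stronglyMeasurable_pop (Q : Kernel S S) [IsMarkovKernel Q] {u : S → ℝ}
    (hu : StronglyMeasurable u) : StronglyMeasurable (fun x => ∫ y, u y ∂(Q x)) :=
  hu.integral_kernel

theorem lintegral_enorm_sq_pop (ν : Measure S) (Q : Kernel S S) [IsMarkovKernel Q]
    (hν : ν.bind Q = ν) (u : S → ℝ) (hu : StronglyMeasurable u) :
    ∫⁻ x, ‖∫ y, u y ∂(Q x)‖ₑ ^ (2 : ℝ) ∂ν ≤ ∫⁻ x, ‖u x‖ₑ ^ (2 : ℝ) ∂ν := by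
  have h1 : ∀ x, ‖∫ y, u y ∂(Q x)‖ₑ ^ (2 : ℝ) ≤ ∫⁻ y, ‖u y‖ₑ ^ (2 : ℝ) ∂(Q x) := by
    intro x
    have h2 : ‖∫ y, u y ∂(Q x)‖ₑ ≤ eLpNorm u 1 (Q x) := by
      rw [eLpNorm_one_eq_lintegral_enorm]
      exact enorm_integral_le_lintegral_enorm _
    have h3 : eLpNorm u 1 (Q x) ≤ eLpNorm u 2 (Q x) :=
      eLpNorm_le_eLpNorm_of_exponent_le (by norm_num) hu.aestronglyMeasurable
    have h4 : eLpNorm u 2 (Q x) ^ (2 : ℝ) = ∫⁻ y, ‖u y‖ₑ ^ (2 : ℝ) ∂(Q x) := by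
      rw [eLpNorm_eq_lintegral_rpow_enorm_toReal (by norm_num) (by norm_num)]
      simp only [ENNReal.toReal_ofNat, one_div]
      rw [← ENNReal.rpow_mul]
      norm_num
    calc ‖∫ y, u y ∂(Q x)‖ₑ ^ (2 : ℝ) ≤ eLpNorm u 2 (Q x) ^ (2 : ℝ) :=
          ENNReal.rpow_le_rpow (h2.trans h3) (by norm_num)
      _ = _ := h4
  have h5 : Measurable (fun x => ‖u x‖ₑ ^ (2 : ℝ)) := by
    have := hu.measurable
    fun_prop
  calc ∫⁻ x, ‖∫ y, u y ∂(Q x)‖ₑ ^ (2 : ℝ) ∂ν ≤ ∫⁻ x, ∫⁻ y, ‖u y‖ₑ ^ (2 : ℝ) ∂(Q x) ∂ν :=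
        lintegral_mono h1
    _ = ∫⁻ x, ‖u x‖ₑ ^ (2 : ℝ) ∂ν := by
        rw [← Measure.lintegral_bind Q.aemeasurable (by rw [hν]; exact h5.aemeasurable), hν]

theorem eLpNorm_pop_le (ν : Measure S) (Q : Kernel S S) [IsMarkovKernel Q]
    (hν : ν.bind Q = ν) (u : S → ℝ) (hu : StronglyMeasurable u) :
    eLpNorm (fun x => ∫ y, u y ∂(Q x)) 2 ν ≤ eLpNorm u 2 ν := by
  rw [eLpNorm_eq_lintegral_rpow_enorm_toReal (by norm_num) (by norm_num),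
    eLpNorm_eq_lintegral_rpow_enorm_toReal (by norm_num) (by norm_num)]
  simp only [ENNReal.toReal_ofNat]
  exact ENNReal.rpow_le_rpow (lintegral_enorm_sq_pop ν Q hν u hu) (by norm_num)

theorem memLp_pop (ν : Measure S) (Q : Kernel S S) [IsMarkovKernel Q]
    (hν : ν.bind Q = ν) (u : S → ℝ) (hu : StronglyMeasurable u) (h : MemLp u 2 ν) :
    MemLp (fun x => ∫ y, u y ∂(Q x)) 2 ν :=
  ⟨(stronglyMeasurable_pop Q hu).aestronglyMeasurable, (eLpNorm_pop_le ν Q hν u hu).trans_lt h.2⟩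

/-- The function `x ↦ ∫ u dQ(x, ·)` as an element of `L²(ν)`. -/
noncomputable def mopFun (ν : Measure S) (Q : Kernel S S) [IsMarkovKernel Q]
    (hν : ν.bind Q = ν) (u : Lp ℝ 2 ν) : Lp ℝ 2 ν :=
  (memLp_pop ν Q hν u (Lp.stronglyMeasurable u) (Lp.memLp u)).toLp (fun x => ∫ y, u y ∂(Q x))

theorem mopFun_coe (ν : Measure S) (Q : Kernel S S) [IsMarkovKernel Q]
    (hν : ν.bind Q = ν) (u : Lp ℝ 2 ν) : (mopFun ν Q hν u : S → ℝ) =ᵐ[ν] fun x => ∫ y, u y ∂(Q x) :=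
  MemLp.coeFn_toLp (memLp_pop ν Q hν u (Lp.stronglyMeasurable u) (Lp.memLp u))

theorem mopFun_add (ν : Measure S) [IsProbabilityMeasure ν] (Q : Kernel S S) [IsMarkovKernel Q]
    (hν : ν.bind Q = ν) (u v : Lp ℝ 2 ν) :
    mopFun ν Q hν (u + v) = mopFun ν Q hν u + mopFun ν Q hν v := by
  ext1
  refine (mopFun_coe ν Q hν _).trans ?_
  refine Filter.EventuallyEq.trans ?_ (Lp.coeFn_add _ _).symm
  have h1 := ae_kernel_of_ae ν Q hν (Lp.coeFn_add u v)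
  have hu : ∀ w : Lp ℝ 2 ν, ∀ᵐ x ∂ν, Integrable w (Q x) := by
    intro w
    have h3 : Integrable w (ν.bind Q) := by
      rw [hν]; exact (Lp.memLp w).integrable (by norm_num)
    exact ((Measure.integrable_comp_iff (μ := ν) (κ := Q)
      (Lp.stronglyMeasurable w).aestronglyMeasurable).1 h3).1
  filter_upwards [h1, hu u, hu v, mopFun_coe ν Q hν u, mopFun_coe ν Q hν v] with x hx hxu hxv hu' hv'
  rw [Pi.add_apply, hu', hv', ← integral_add hxu hxv]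
  exact integral_congr_ae hx

theorem mopFun_smul (ν : Measure S) (Q : Kernel S S) [IsMarkovKernel Q]
    (hν : ν.bind Q = ν) (c : ℝ) (u : Lp ℝ 2 ν) :
    mopFun ν Q hν (c • u) = c • mopFun ν Q hν u := by
  ext1
  refine (mopFun_coe ν Q hν _).trans ?_
  refine Filter.EventuallyEq.trans ?_ (Lp.coeFn_smul _ _).symm
  have h1 := ae_kernel_of_ae ν Q hν (Lp.coeFn_smul c u)
  filter_upwards [h1, mopFun_coe ν Q hν u] with x hx hu'
  rw [Pi.smul_apply, hu', smul_eq_mul, ← integral_const_mul]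
  exact integral_congr_ae hx

theorem norm_mopFun_le (ν : Measure S) [IsProbabilityMeasure ν] (Q : Kernel S S) [IsMarkovKernel Q]
    (hν : ν.bind Q = ν) (u : Lp ℝ 2 ν) : ‖mopFun ν Q hν u‖ ≤ 1 * ‖u‖ := by
  rw [one_mul, Lp.norm_def, Lp.norm_def]
  refine ENNReal.toReal_mono (Lp.memLp u).2.ne ?_
  refine le_trans (le_of_eq ?_) (eLpNorm_pop_le ν Q hν u (Lp.stronglyMeasurable u))
  exact eLpNorm_congr_ae (mopFun_coe ν Q hν u)

/-- The Markov operator on `L²(ν)`: `(mop u) x = ∫ u dQ(x, ·)`. -/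
noncomputable def mop (ν : Measure S) [IsProbabilityMeasure ν] (Q : Kernel S S) [IsMarkovKernel Q]
    (hν : ν.bind Q = ν) : Lp ℝ 2 ν →L[ℝ] Lp ℝ 2 ν :=
  LinearMap.mkContinuous
    { toFun := mopFun ν Q hν
      map_add' := mopFun_add ν Q hν
      map_smul' := mopFun_smul ν Q hν } 1 (norm_mopFun_le ν Q hν)

theorem mop_coe (ν : Measure S) [IsProbabilityMeasure ν] (Q : Kernel S S) [IsMarkovKernel Q]
    (hν : ν.bind Q = ν) (u : Lp ℝ 2 ν) : (mop ν Q hν u : S → ℝ) =ᵐ[ν] fun x => ∫ y, u y ∂(Q x) :=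
  mopFun_coe ν Q hν u

theorem norm_mop_le (ν : Measure S) [IsProbabilityMeasure ν] (Q : Kernel S S) [IsMarkovKernel Q]
    (hν : ν.bind Q = ν) : ‖mop ν Q hν‖ ≤ 1 :=
  LinearMap.mkContinuous_norm_le _ zero_le_one _

end Op

/-- The numbers `δ n` with `√(1 - x) = 1 - ∑_{n ≥ 1} δ n x ^ n` (and `dl 0 = -1`). -/
noncomputable def dl (n : ℕ) : ℝ := (n.centralBinom : ℝ) / (4 ^ n * (2 * n - 1))

/-- `√(1 - T) = 1 - ∑_{n ≥ 1} δ n T ^ n` for a contraction `T`. -/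
noncomputable def sqrtOp {H : Type} [NormedAddCommGroup H] [NormedSpace ℝ H] (T : H →L[ℝ] H) :
    H →L[ℝ] H :=
  1 - ∑' n : ℕ, dl (n + 1) • T ^ (n + 1)

end Pool.Agent.Q42.UIC
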