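import Pool.Agent.Q42.UIC.Ker

/-! Statements of project UIC (lemma jobs). -/

set_option autoImplicit false
set_option linter.unusedVariables false

open MeasureTheory ProbabilityTheory

namespace Pool.Agent.Q42.UIC

/-! ### R1, R2: real inequalities -/

def St_real_ui : Prop :=
  ∀ (A η V V' w w' gb hb g h al rho a a' s s' kt kk N : ℝ)
    (hA : 0 < A) (hη0 : 0 < η) (hη1 : η ≤ 1) (hw0 : 0 ≤ w) (hw0' : 0 ≤ w')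
    (hwV : w ≤ V) (hwV' : w' ≤ V') (hg : 0 < g) (hgb : g ≤ gb) (hgb1 : gb ≤ 1)
    (hh : 0 < h) (hhb : h ≤ hb) (hhb1 : hb ≤ 1)
    (hal : al = kt + g * s) (hrho : rho = kk + h * s')
    (hkt : kt ^ 2 ≤ w * (gb - g)) (hkk : kk ^ 2 ≤ w' * (hb - h))
    (hs : |s - a| ≤ η / 2 * V) (hs' : |s' - a'| ≤ η / 2 * V')
    (hN0 : 0 ≤ N) (hN : N = (w * hb + w' * gb - η ^ 2 / 2 * (w * w') + 2 * (al * rho)) / 2),
    (w * tst A η V V' w h + kap A (tst A η V V' w h)) / 2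
      + (w' * tst A η V V' w' g + kap A (tst A η V V' w' g)) / 2
      - 40 * (a ^ 2 + a' ^ 2) - 40 * (1 + Real.sqrt A) * Real.sqrt η * (V + V')
      ≤ N + A * (2 / g + gb - 3) / 2 + A * (2 / h + hb - 3) / 2

def St_real_var : Prop :=
  ∀ (A₁ A₂ v K t U U' w w' gb hb g h al rho a a' kt kk N cg ch : ℝ)
    (hA₁ : 0 < A₁) (hA₂ : 0 ≤ A₂) (hv : 0 ≤ v) (hK : 0 ≤ K) (h8 : 8 * (K + v) ≤ A₁)
    (ht0 : 0 ≤ t) (ht : t ≤ 1 / 4) (hU : 0 ≤ U) (hU' : 0 ≤ U')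
    (hUw : U ≤ w + 5 / 4 * K) (hUw' : U' ≤ w' + 5 / 4 * K)
    (hg : 0 < g) (hgb : g ≤ gb) (hgb1 : gb ≤ 1 + t)
    (hh : 0 < h) (hhb : h ≤ hb) (hhb1 : hb ≤ 1 + t)
    (hal : al = kt + g * a) (hrho : rho = kk + h * a')
    (hkt : kt ^ 2 ≤ U * (gb - g)) (hkk : kk ^ 2 ≤ U' * (hb - h))
    (hN : N = (w * hb + w' * gb) / 2 + al * rho)
    (hcg : kav A₁ A₂ v (1 / (1 - t)) g + (A₁ - v) * (gb - g) ≤ cg)
    (hch : kav A₁ A₂ v (1 / (1 - t)) h + (A₁ - v) * (hb - h) ≤ ch),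
    (w * tsv (32 * (A₁ + A₂ + K)) U h + kav A₁ A₂ v (1 / (1 - t)) (tsv (32 * (A₁ + A₂ + K)) U h)) / 2
      + (w' * tsv (32 * (A₁ + A₂ + K)) U' g + kav A₁ A₂ v (1 / (1 - t)) (tsv (32 * (A₁ + A₂ + K)) U' g)) / 2
      - 200 * ((A₁ + A₂ + K) / A₁) * (a ^ 2 + a' ^ 2)
      ≤ N + cg / 2 + ch / 2

/-! ### P1, P2: the inequalities at the middle state, for the conditional laws of (value, weight) -/

def St_pt_ui : Prop :=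
  ∀ (P P' : Measure (ℝ × ℝ)) [IsProbabilityMeasure P] [IsProbabilityMeasure P']
    (c : ℝ) (hc : 0 < c) (hP : ∀ᵐ p ∂P, c ≤ p.2 ∧ p.2 ≤ 1) (hP' : ∀ᵐ p ∂P', c ≤ p.2 ∧ p.2 ≤ 1)
    (h2 : Integrable (fun p : ℝ × ℝ => p.1 ^ 2) P) (h2' : Integrable (fun p : ℝ × ℝ => p.1 ^ 2) P')
    (n θ A : ℝ) (hn : 0 < n) (hθ : 0 < θ) (hA : 0 < A) (hη : θ * Real.sqrt n ≤ 1)
    (V V' w w' g h : ℝ) (hV : V = (∫ p, p.1 ^ 2 ∂P) / n) (hV' : V' = (∫ p, p.1 ^ 2 ∂P') / n)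
    (hw : w = ∫ p, Phi θ p.1 / n * p.2 ∂P) (hw' : w' = ∫ p, Phi θ p.1 / n * p.2 ∂P')
    (hg : g = (∫ p, 1 / p.2 ∂P)⁻¹) (hh : h = (∫ p, 1 / p.2 ∂P')⁻¹),
    (w * tst A (θ * Real.sqrt n) V V' w h + kap A (tst A (θ * Real.sqrt n) V V' w h)) / 2
      + (w' * tst A (θ * Real.sqrt n) V V' w' g + kap A (tst A (θ * Real.sqrt n) V V' w' g)) / 2
      - 40 * ((∫ p, p.1 ∂P) ^ 2 / n + (∫ p, p.1 ∂P') ^ 2 / n)
      - 40 * (1 + Real.sqrt A) * Real.sqrt (θ * Real.sqrt n) * (V + V')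
      ≤ ∫ z, Phi θ (z.1.1 + z.2.1) / (2 * n) * z.1.2 * z.2.2 ∂(P.prod P')
        + (∫ p, kap A p.2 ∂P) / 2 + (∫ p, kap A p.2 ∂P') / 2

def St_pt_var : Prop :=
  ∀ (P P' : Measure ((ℝ × ℝ) × ℝ)) [IsProbabilityMeasure P] [IsProbabilityMeasure P']
    (c t K n : ℝ) (hc : 0 < c) (ht0 : 0 ≤ t) (ht : t ≤ 1 / 4) (hn : 0 < n) (hK : 0 ≤ K)
    (hP : ∀ᵐ p ∂P, c ≤ p.2 ∧ p.2 ≤ 1 + t) (hP' : ∀ᵐ p ∂P', c ≤ p.2 ∧ p.2 ≤ 1 + t)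
    (hE : ∀ᵐ p ∂P, 0 ≤ p.1.2 ∧ p.1.2 ≤ K * n) (hE' : ∀ᵐ p ∂P', 0 ≤ p.1.2 ∧ p.1.2 ≤ K * n)
    (h2 : Integrable (fun p : (ℝ × ℝ) × ℝ => p.1.1 ^ 2) P)
    (h2' : Integrable (fun p : (ℝ × ℝ) × ℝ => p.1.1 ^ 2) P')
    (A₁ A₂ v : ℝ) (hA₁ : 0 < A₁) (hA₂ : 0 ≤ A₂) (hv : 0 ≤ v) (h8 : 8 * (K + v) ≤ A₁)
    (U U' w w' g h : ℝ)
    (hU : U = ∫ p, p.1.1 ^ 2 / n * p.2 ∂P) (hU' : U' = ∫ p, p.1.1 ^ 2 / n * p.2 ∂P')
    (hw : w = ∫ p, ((p.1.1 ^ 2 - p.1.2) / n + v) * p.2 ∂P)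
    (hw' : w' = ∫ p, ((p.1.1 ^ 2 - p.1.2) / n + v) * p.2 ∂P')
    (hg : g = (∫ p, 1 / p.2 ∂P)⁻¹) (hh : h = (∫ p, 1 / p.2 ∂P')⁻¹),
    (w * tsv (32 * (A₁ + A₂ + K)) U h + kav A₁ A₂ v (1 / (1 - t)) (tsv (32 * (A₁ + A₂ + K)) U h)) / 2
      + (w' * tsv (32 * (A₁ + A₂ + K)) U' g + kav A₁ A₂ v (1 / (1 - t)) (tsv (32 * (A₁ + A₂ + K)) U' g)) / 2
      - 200 * ((A₁ + A₂ + K) / A₁) * ((∫ p, p.1.1 ∂P) ^ 2 / n + (∫ p, p.1.1 ∂P') ^ 2 / n)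
      ≤ ∫ z, (((z.1.1.1 + z.2.1.1) ^ 2 - (z.1.1.2 + z.2.1.2)) / (2 * n) + v) * z.1.2 * z.2.2 ∂(P.prod P')
        + (∫ p, kav A₁ A₂ v (1 / (1 - t)) p.2 ∂P) / 2
        + (∫ p, kav A₁ A₂ v (1 / (1 - t)) p.2 ∂P') / 2

/-! ### K: algebra of block kernels -/

def St_conc_assoc : Prop :=
  ∀ {S : Type} [MeasurableSpace S] {E : Type} [MeasurableSpace E] [AddMonoid E] [MeasurableAdd₂ E] (b c d : Kernel S (E × S)) [IsMarkovKernel b]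
    [IsMarkovKernel c] [IsMarkovKernel d],
    conc (conc b c) d = conc b (conc c d)

def St_blk_add : Prop :=
  ∀ {S : Type} [MeasurableSpace S] {E : Type} [MeasurableSpace E] [AddMonoid E] [MeasurableAdd₂ E] (b : Kernel S (E × S)) [IsMarkovKernel b] (m n : ℕ),
    blk b (m + n) = conc (blk b m) (blk b n)

def St_lev_eq_blk : Prop :=
  ∀ {S : Type} [MeasurableSpace S] {E : Type} [MeasurableSpace E] [AddMonoid E] [MeasurableAdd₂ E] (b : Kernel S (E × S)) [IsMarkovKernel b] (l : ℕ),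
    lev b l = blk b (2 ^ l)

def St_blk_mul : Prop :=
  ∀ {S : Type} [MeasurableSpace S] {E : Type} [MeasurableSpace E] [AddMonoid E] [MeasurableAdd₂ E] (b : Kernel S (E × S)) [IsMarkovKernel b] (m n : ℕ),
    blk (blk b n) m = blk b (m * n)

def St_pr_conc : Prop :=
  ∀ {S : Type} [MeasurableSpace S] (b c : Kernel S ((ℝ × ℝ) × S)) [IsMarkovKernel b] [IsMarkovKernel c],
    pr (conc b c) = conc (pr b) (pr c)

def St_pr_lev_enr : Prop :=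
  ∀ {S : Type} [MeasurableSpace S] (b : Kernel S (ℝ × S)) [IsMarkovKernel b] (K : ℝ) (j : ℕ),
    pr (lev (enr K b) j) = lev b j

/-- Joint law of left value and weight, middle state, right value and weight. -/
def St_joint : Prop :=
  ∀ {S : Type} [MeasurableSpace S] {E : Type} [MeasurableSpace E] [StandardBorelSpace E] [Nonempty E] (ν : Measure S) [IsProbabilityMeasure ν]
    (b c : Kernel S (E × S)) [IsMarkovKernel b] [IsMarkovKernel c] (hb : EndInv ν b)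
    (G H : S → ℝ) (hG : Measurable G) (hH : Measurable H),
    ∃ L : Kernel S (E × ℝ), IsMarkovKernel L ∧
      (ν ⊗ₘ b).map (fun p : S × (E × S) => (p.2.2, (p.2.1, G p.1))) = ν ⊗ₘ L ∧
      ((ν ⊗ₘ b) ⊗ₘ (c.comap (fun p : S × (E × S) => p.2.2) (by fun_prop))).map
        (fun p : (S × (E × S)) × (E × S) => (p.1.2.2, ((p.1.2.1, G p.1.1), (p.2.1, H p.2.2))))
        = ν ⊗ₘ (L ×ₖ (c.map (fun q : E × S => (q.1, H q.2))))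

/-! ### S: the one step inequalities -/

def St_step_ui : Prop :=
  ∀ {S : Type} [MeasurableSpace S] (ν : Measure S) [IsProbabilityMeasure ν] (b : Kernel S (ℝ × S)) [IsMarkovKernel b]
    (n w α β θ A r : ℝ) (hn : 0 < n) (hw : 0 ≤ w) (hα : 0 ≤ α) (hβ : 0 ≤ β) (hb : Blk ν b n w α β)
    (hθ : 0 < θ) (hA : 0 < A) (hη : θ * Real.sqrt n ≤ 1) (h : LB ν b n θ A r),
    LB ν (conc b b) (2 * n) θ A
      (r - 40 * (α + β) - 80 * (1 + Real.sqrt A) * Real.sqrt (θ * Real.sqrt n) * w)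

def St_step_var : Prop :=
  ∀ {S : Type} [MeasurableSpace S] (ν : Measure S) [IsProbabilityMeasure ν] (c : Kernel S ((ℝ × ℝ) × S)) [IsMarkovKernel c]
    (n w α β K A₁ A₂ v t r : ℝ) (hn : 0 < n) (hw : 0 ≤ w) (hα : 0 ≤ α) (hβ : 0 ≤ β)
    (hinv : EndInv ν c) (hb : Blk ν (pr c) n w α β) (hK : 0 ≤ K)
    (hE : ∀ᵐ p ∂(ν ⊗ₘ c), 0 ≤ p.2.1.2 ∧ p.2.1.2 ≤ K * n)
    (hA₁ : 0 < A₁) (hA₂ : 0 ≤ A₂) (hv : 0 ≤ v) (h8 : 8 * (K + v) ≤ A₁)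
    (ht0 : 0 ≤ t) (ht : t ≤ 1 / 4) (h : LBV ν c n A₁ A₂ v t r),
    LBV ν (conc c c) (2 * n) A₁ A₂ v t (r - 200 * ((A₁ + A₂ + K) / A₁) * (α + β))

/-- Start of the UI functional. -/
def St_init_ui : Prop :=
  ∀ {S : Type} [MeasurableSpace S] (ν : Measure S) [IsProbabilityMeasure ν] (b : Kernel S (ℝ × S)) [IsMarkovKernel b]
    (hinv : EndInv ν b) (hmem : MemLp (fun p : S × (ℝ × S) => p.2.1) 2 (ν ⊗ₘ b))
    (n θ A : ℝ) (hn : 0 < n) (hθ : 0 < θ) (hA : 0 < A),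
    LB ν b n θ A (∫ p, min (Phi θ p.2.1 / n) A ∂(ν ⊗ₘ b))

/-- Start of the variance functional. -/
def St_init_var : Prop :=
  ∀ {S : Type} [MeasurableSpace S] (ν : Measure S) [IsProbabilityMeasure ν] (b : Kernel S (ℝ × S)) [IsMarkovKernel b]
    (hinv : EndInv ν b) (hmem : MemLp (fun p : S × (ℝ × S) => p.2.1) 2 (ν ⊗ₘ b))
    (n K A₁ A₂ v t : ℝ) (hn : 0 < n) (hK : 0 ≤ K) (hv : v = ∫ p, min (p.2.1 ^ 2) (K * n) / n ∂(ν ⊗ₘ b))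
    (hA₁ : 0 < A₁) (h8 : 8 * (K + v) ≤ A₁) (hA₂ : 4 * v ≤ A₂) (ht0 : 0 ≤ t) (ht : t ≤ 1 / 4),
    LBV ν (enr (K * n) b) n A₁ A₂ v t
      (v + (1 - 2 * t) * ∫ p, min (max (p.2.1 ^ 2 / n - K) 0) (A₂ / 2) ∂(ν ⊗ₘ b))

/-- What the variance functional gives. -/
def St_extract_var : Prop :=
  ∀ {S : Type} [MeasurableSpace S] (ν : Measure S) [IsProbabilityMeasure ν] (c : Kernel S ((ℝ × ℝ) × S)) [IsMarkovKernel c]
    (hinv : EndInv ν c) (hmem : MemLp (fun p : S × ((ℝ × ℝ) × S) => p.2.1.1) 2 (ν ⊗ₘ c))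
    (n K A₁ A₂ v t r : ℝ) (hn : 0 < n) (hE : ∀ᵐ p ∂(ν ⊗ₘ c), 0 ≤ p.2.1.2 ∧ p.2.1.2 ≤ K * n)
    (hv : v = ∫ p, p.2.1.2 / n ∂(ν ⊗ₘ c)) (hA₁ : 0 < A₁) (hvA : v ≤ A₁) (hA₂ : 0 ≤ A₂)
    (ht0 : 0 < t) (ht : t ≤ 1 / 4) (h : LBV ν c n A₁ A₂ v t r),
    t * ∫ x, |∫ q, (q.1.1 ^ 2 - q.1.2) / n ∂(c x)| ∂ν
      ≤ ∫ p, p.2.1.1 ^ 2 / n ∂(ν ⊗ₘ c) + 2 * A₁ * t ^ 2 - r

/-- Second moments and merging. -/
def St_sq_conc : Prop :=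
  ∀ {S : Type} [MeasurableSpace S] (ν : Measure S) [IsProbabilityMeasure ν] (b : Kernel S (ℝ × S)) [IsMarkovKernel b]
    (n w α β : ℝ) (hn : 0 < n) (hα : 0 ≤ α) (hβ : 0 ≤ β) (hb : Blk ν b n w α β),
    MemLp (fun p : S × (ℝ × S) => p.2.1) 2 (ν ⊗ₘ conc b b) ∧
    |∫ p, p.2.1 ^ 2 ∂(ν ⊗ₘ conc b b) - 2 * ∫ p, p.2.1 ^ 2 ∂(ν ⊗ₘ b)| ≤ n * (α + β)

/-! ### U, W: uniform integrability and convergence of the conditional variances -/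

/-- Uniform integrability. -/
def St_ui : Prop :=
  ∀ {S : Type} [MeasurableSpace S] (ν : Measure S) [IsProbabilityMeasure ν] (b : Kernel S (ℝ × S)) [IsMarkovKernel b]
    (w : ℝ) (α β : ℕ → ℝ) (hw : 0 ≤ w) (hα0 : ∀ l, 0 ≤ α l) (hβ0 : ∀ l, 0 ≤ β l)
    (hα : Summable α) (hβ : Summable β)
    (hb : ∀ l, Blk ν (lev b l) (2 ^ l) w (α l) (β l)),
    UIL ν b

/-- The conditional variance is close to the conditional expectation of the truncated energy of a lower level. -/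
def St_var_close : Prop :=
  ∀ {S : Type} [MeasurableSpace S] (ν : Measure S) [IsProbabilityMeasure ν] (b : Kernel S (ℝ × S)) [IsMarkovKernel b]
    (w : ℝ) (α β : ℕ → ℝ) (hw : 0 ≤ w) (hα0 : ∀ l, 0 ≤ α l) (hβ0 : ∀ l, 0 ≤ β l)
    (hα : Summable α) (hβ : Summable β)
    (hb : ∀ l, Blk ν (lev b l) (2 ^ l) w (α l) (β l)) (hui : UIL ν b) (δ : ℝ) (hδ : 0 < δ),
    ∃ K : ℝ, 0 < K ∧ ∃ k : ℕ,
      (∀ j, ∫ x, |∫ q, (q.1.1 ^ 2 - q.1.2) / 2 ^ (k + j) ∂(lev (enr (K * 2 ^ k) (lev b k)) j x)| ∂ν ≤ δ) ∧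
      ∀ l, k ≤ l → |∫ p, p.2.1 ^ 2 / 2 ^ l ∂(ν ⊗ₘ lev b l)
        - ∫ p, min (p.2.1 ^ 2) (K * 2 ^ k) / 2 ^ k ∂(ν ⊗ₘ lev b k)| ≤ δ

/-! ### E: ergodic part -/

/-- Mean ergodic theorem for bounded functions. -/
def St_mean_erg : Prop :=
  ∀ {S : Type} [MeasurableSpace S] (ν : Measure S) [IsProbabilityMeasure ν] (Q : Kernel S S) [IsMarkovKernel Q]
    (hν : ν.bind Q = ν)
    (herg : ∀ A : Set S, MeasurableSet A →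
      (∀ᵐ x ∂ν, Q x A = A.indicator (fun _ => (1 : ENNReal)) x) → ν A = 0 ∨ ν A = 1)
    (u : S → ℝ) (hu : Measurable u) (C : ℝ) (hC : ∀ x, |u x| ≤ C),
    Filter.Tendsto (fun N : ℕ => ∫ x, |(∑ i ∈ Finset.range N,
        (fun (h : S → ℝ) => fun y => ∫ z, h z ∂(Q y))^[i] u x) / N - ∫ y, u y ∂ν| ∂ν)
      Filter.atTop (nhds 0)

/-- The conditional variance is asymptotically invariant under one step. -/
def St_near_inv : Prop :=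
  ∀ {S : Type} [MeasurableSpace S] (ν : Measure S) [IsProbabilityMeasure ν] (Q : Kernel S S) [IsMarkovKernel Q]
    (hν : ν.bind Q = ν) (f : S → ℝ) (hf : Measurable f) (hf2 : MemLp f 2 ν) (n : ℕ) (hn : 0 < n)
    (w : ℝ) (hw : 0 ≤ w)
    (hmem : MemLp (fun p : S × (ℝ × S) => p.2.1) 2 (ν ⊗ₘ blk (base Q f) n))
    (hsq : ∫ p, p.2.1 ^ 2 ∂(ν ⊗ₘ blk (base Q f) n) ≤ n * w),
    ∫ x, |∫ q, q.1 ^ 2 / n ∂(blk (base Q f) n x)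
        - ∫ y, (∫ q, q.1 ^ 2 / n ∂(blk (base Q f) n y)) ∂(Q x)| ∂ν
      ≤ (4 * Real.sqrt (w * ∫ x, f x ^ 2 ∂ν) + 2 * ∫ x, f x ^ 2 ∂ν) / Real.sqrt n

/-- Energies: average over one period of the conditional energies. -/
def St_energy_avg : Prop :=
  ∀ {S : Type} [MeasurableSpace S] (Q : Kernel S S) [IsMarkovKernel Q] (f : S → ℝ) (hf : Measurable f)
    (k j : ℕ) (K : ℝ) (hK : 0 ≤ K) (x : S),
    (∑ i ∈ Finset.range (2 ^ k), (fun (h : S → ℝ) => fun y => ∫ z, h z ∂(Q y))^[i]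
        (fun y => ∫ q, q.1.2 ∂(lev (enr K (lev (base Q f) k)) j y)) x)
      = ∑ i ∈ Finset.range (2 ^ (k + j)), (fun (h : S → ℝ) => fun y => ∫ z, h z ∂(Q y))^[i]
        (fun y => ∫ q, min (q.1 ^ 2) K ∂(lev (base Q f) k y)) x

/-- Convergence of the conditional variances in `L¹`. -/
def St_var_tendsto : Prop :=
  ∀ {S : Type} [MeasurableSpace S] (ν : Measure S) [IsProbabilityMeasure ν] (Q : Kernel S S) [IsMarkovKernel Q]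
    (hν : ν.bind Q = ν)
    (herg : ∀ A : Set S, MeasurableSet A →
      (∀ᵐ x ∂ν, Q x A = A.indicator (fun _ => (1 : ENNReal)) x) → ν A = 0 ∨ ν A = 1)
    (f : S → ℝ) (hf : Measurable f) (hf2 : MemLp f 2 ν)
    (w : ℝ) (α β : ℕ → ℝ) (hw : 0 ≤ w) (hα0 : ∀ l, 0 ≤ α l) (hβ0 : ∀ l, 0 ≤ β l)
    (hα : Summable α) (hβ : Summable β)
    (hb : ∀ l, Blk ν (lev (base Q f) l) (2 ^ l) w (α l) (β l)),
    ∃ v : ℝ, 0 ≤ v ∧ Filter.Tendsto (fun l : ℕ =>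
      ∫ x, |∫ q, q.1 ^ 2 / 2 ^ l ∂(lev (base Q f) l x) - v| ∂ν) Filter.atTop (nhds 0)

/-! ### C: the central limit theorem from uniform integrability and convergence of variances -/

def St_char_blocks : Prop :=
  ∀ {S : Type} [MeasurableSpace S] (ν : Measure S) [IsProbabilityMeasure ν] (b : Kernel S (ℝ × S)) [IsMarkovKernel b]
    (hinv : EndInv ν b) (t : ℝ) (ρ : ℂ) (hρ : ‖ρ‖ ≤ 1) (m : ℕ),
    ‖∫ p, Complex.exp (Complex.I * (t * p.2.1)) ∂(ν ⊗ₘ blk b m) - ρ ^ m‖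
      ≤ m * ∫ x, ‖∫ q, Complex.exp (Complex.I * (t * q.1)) ∂(b x) - ρ‖ ∂ν

def St_clt_core : Prop :=
  ∀ {S : Type} [MeasurableSpace S] (ν : Measure S) [IsProbabilityMeasure ν] (b : Kernel S (ℝ × S)) [IsMarkovKernel b]
    (w v : ℝ) (α β : ℕ → ℝ) (hw : 0 ≤ w) (hv : 0 ≤ v) (hα0 : ∀ l, 0 ≤ α l) (hβ0 : ∀ l, 0 ≤ β l)
    (hα : Summable α) (hβ : Summable β)
    (hb : ∀ l, Blk ν (lev b l) (2 ^ l) w (α l) (β l)) (hui : UIL ν b)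
    (hvar : Filter.Tendsto (fun l : ℕ => ∫ x, |∫ q, q.1 ^ 2 / 2 ^ l ∂(lev b l x) - v| ∂ν)
      Filter.atTop (nhds 0)) (τ : ℝ),
    Filter.Tendsto (fun N : ℕ => ∫ p, Complex.exp (Complex.I * (τ / Real.sqrt N * p.2.1)) ∂(ν ⊗ₘ blk b N))
      Filter.atTop (nhds (Complex.exp (-(v * τ ^ 2 / 2 : ℝ))))

def St_var_all : Prop :=
  ∀ {S : Type} [MeasurableSpace S] (ν : Measure S) [IsProbabilityMeasure ν] (b : Kernel S (ℝ × S)) [IsMarkovKernel b]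
    (w v : ℝ) (α β : ℕ → ℝ) (hw : 0 ≤ w) (hα0 : ∀ l, 0 ≤ α l) (hβ0 : ∀ l, 0 ≤ β l)
    (hα : Summable α) (hβ : Summable β)
    (hb : ∀ l, Blk ν (lev b l) (2 ^ l) w (α l) (β l))
    (hvar : Filter.Tendsto (fun l : ℕ => ∫ p, p.2.1 ^ 2 / 2 ^ l ∂(ν ⊗ₘ lev b l)) Filter.atTop (nhds v)),
    Filter.Tendsto (fun N : ℕ => ∫ p, p.2.1 ^ 2 / N ∂(ν ⊗ₘ blk b N)) Filter.atTop (nhds v)

/-! ### F: from the hypotheses of the frozen statement -/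

/-- Hardy type inequality. -/
def St_hardy : Prop :=
  ∀ {S : Type} [MeasurableSpace S] (p : ℕ → ℝ) (hp : ∀ k, 0 ≤ p k) (h : Summable (fun k => p k ^ 2)),
    Summable (fun l : ℕ => (∑ k ∈ Finset.range (2 ^ l), p k) ^ 2 / 2 ^ l)

def St_fwd_drift : Prop :=
  ∀ {S : Type} [MeasurableSpace S] (ν : Measure S) [IsProbabilityMeasure ν] (Q : Kernel S S) [IsMarkovKernel Q]
    (hν : ν.bind Q = ν) (f : S → ℝ) (hf : Measurable f) (hf2 : MemLp f 2 ν) (n : ℕ),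
    ∫ x, (∫ q, q.1 ∂(blk (base Q f) n x)) ^ 2 ∂ν
      ≤ (∑ k ∈ Finset.range n, Real.sqrt (∫ x,
          ((fun (h : S → ℝ) => fun y => ∫ z, h z ∂(Q y))^[k] f x) ^ 2 ∂ν)) ^ 2

def St_bwd_drift : Prop :=
  ∀ {S : Type} [MeasurableSpace S] (ν : Measure S) [IsProbabilityMeasure ν] (Q : Kernel S S) [IsMarkovKernel Q]
    (hν : ν.bind Q = ν) (f : S → ℝ) (hf : Measurable f) (hf2 : MemLp f 2 ν) (n : ℕ)
    (c : ℕ → ℝ) (hc : ∀ k : ℕ, ∀ g : S → ℝ, Measurable g →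
        (∃ C : ℝ, ∀ x, |g x| ≤ C) → ∫ x, g x ^ 2 ∂ν ≤ 1 →
        (∫ x, f x * (fun (h : S → ℝ) => fun y => ∫ z, h z ∂(Q y))^[k+1] g x ∂ν) ^ 2 ≤ c k)
    (u : S → ℝ) (hu : Measurable u) (hC : ∃ C : ℝ, ∀ x, |u x| ≤ C),
    (∫ p, p.2.1 * u p.2.2 ∂(ν ⊗ₘ blk (base Q f) n)) ^ 2
      ≤ (∑ k ∈ Finset.range n, Real.sqrt (c k)) ^ 2 * ∫ x, u x ^ 2 ∂ν

/-- Square integrability of the block sums. -/
def St_mem_blk : Prop :=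
  ∀ {S : Type} [MeasurableSpace S] (ν : Measure S) [IsProbabilityMeasure ν] (Q : Kernel S S) [IsMarkovKernel Q]
    (hν : ν.bind Q = ν) (f : S → ℝ) (hf : Measurable f) (hf2 : MemLp f 2 ν) (n : ℕ),
    MemLp (fun p : S × (ℝ × S) => p.2.1) 2 (ν ⊗ₘ blk (base Q f) n) ∧ EndInv ν (blk (base Q f) n)

/-- The law of the partial sums of the process. -/
def St_proc_law : Prop :=
  ∀ {S : Type} [MeasurableSpace S] (Q : Kernel S S) [IsMarkovKernel Q] (ν : Measure S) [IsProbabilityMeasure ν]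
    (f : S → ℝ) (hf : Measurable f) (Ω : Type) [MeasurableSpace Ω] (μ : Measure Ω) [IsProbabilityMeasure μ]
    (X : ℕ → Ω → S) (hX : ∀ i, Measurable (X i)) (h0 : μ.map (X 0) = ν)
    (hM : ∀ n : ℕ, ∀ A : Set S, MeasurableSet A →
        condExp (⨆ i ≤ n, MeasurableSpace.comap (X i) inferInstance) μ
          ((X (n+1) ⁻¹' A).indicator (fun _ => (1 : ℝ)))
          =ᵐ[μ] fun ω => (Q (X n ω) A).toReal) (N : ℕ),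
    μ.map (fun ω => ∑ i ∈ Finset.range N, f (X i ω))
      = (ν ⊗ₘ blk (base Q f) N).map (fun p : S × (ℝ × S) => p.2.1)

end Pool.Agent.Q42.UIC
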