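import Pool.Agent.Q42.UIC.Stm
import Pool.Agent.Q42.UIC.Op

/-! Statements of project UIC, second part: square root conditions (lemma jobs). -/

set_option autoImplicit false
set_option linter.unusedVariables false

open MeasureTheory ProbabilityTheory

namespace Pool.Agent.Q42.UIC

/-- The coefficients of `√(1 - x)`. -/
def St_sqrt_coef : Prop :=
  (∀ n : ℕ, 0 < dl (n + 1)) ∧ HasSum (fun n : ℕ => dl (n + 1)) 1 ∧
  (∀ z : ℂ, ‖z‖ ≤ 1 → (1 - ∑' n : ℕ, (dl (n + 1) : ℂ) * z ^ (n + 1)) ^ 2 = 1 - z) ∧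
  (∀ x : ℝ, 0 ≤ x → x ≤ 1 → HasSum (fun n : ℕ => dl (n + 1) * x ^ (n + 1)) (1 - Real.sqrt (1 - x)))

/-- Von Neumann type inequality for columns of polynomials of a contraction of a real Hilbert space. -/
def St_vn : Prop :=
  ∀ {H : Type} [NormedAddCommGroup H] [InnerProductSpace ℝ H] (T : H →L[ℝ] H) (hT : ‖T‖ ≤ 1) (g : H)
    (L : ℕ) (P : ℕ → Polynomial ℝ) (C : ℝ)
    (hC : ∀ z : ℂ, ‖z‖ = 1 → ∑ l ∈ Finset.range L, ‖Polynomial.aeval z (P l)‖ ^ 2 ≤ C),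
    ∑ l ∈ Finset.range L, ‖(Polynomial.aeval T (P l) : H →L[ℝ] H) g‖ ^ 2 ≤ C * ‖g‖ ^ 2

/-- The symbol of the dyadic square function. -/
def St_symb : Prop :=
  ∀ (z : ℂ) (L : ℕ), ‖z‖ = 1 →
    ∑ l ∈ Finset.range L, ‖1 - z‖ * ‖∑ k ∈ Finset.range (2 ^ l), z ^ k‖ ^ 2 / 2 ^ l ≤ 16

/-- The dyadic square function of `√(1 - T) g`. -/
def St_col : Prop :=
  ∀ {H : Type} [NormedAddCommGroup H] [InnerProductSpace ℝ H] [CompleteSpace H] (T : H →L[ℝ] H)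
    (hT : ‖T‖ ≤ 1) (g : H) (L : ℕ),
    ∑ l ∈ Finset.range L, ‖(∑ k ∈ Finset.range (2 ^ l), T ^ k) (sqrtOp T g)‖ ^ 2 / 2 ^ l ≤ 16 * ‖g‖ ^ 2

/-- Conditional mean of the block sum at the start, as an element of `L²`. -/
def St_fwd_op : Prop :=
  ∀ {S : Type} [MeasurableSpace S] (ν : Measure S) [IsProbabilityMeasure ν] (Q : Kernel S S) [IsMarkovKernel Q]
    (hν : ν.bind Q = ν) (f : S → ℝ) (hf : Measurable f) (hf2 : MemLp f 2 ν) (n : ℕ),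
    ∫ x, (∫ q, q.1 ∂(blk (base Q f) n x)) ^ 2 ∂ν
      ≤ ‖(∑ k ∈ Finset.range n, mop ν Q hν ^ k) (hf2.toLp f)‖ ^ 2

/-- Conditional mean of the block sum at the end, by duality. -/
def St_bwd_op : Prop :=
  ∀ {S : Type} [MeasurableSpace S] (ν : Measure S) [IsProbabilityMeasure ν] (Q : Kernel S S) [IsMarkovKernel Q]
    (hν : ν.bind Q = ν) (f : S → ℝ) (hf : Measurable f) (hf2 : MemLp f 2 ν) (n : ℕ)
    (u : S → ℝ) (hu : Measurable u) (hC : ∃ C : ℝ, ∀ x, |u x| ≤ C),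
    (∫ p, p.2.1 * u p.2.2 ∂(ν ⊗ₘ blk (base Q f) n)) ^ 2
      ≤ ‖(∑ k ∈ Finset.range n, (ContinuousLinearMap.adjoint (mop ν Q hν)) ^ k) (hf2.toLp f)‖ ^ 2
        * ∫ x, u x ^ 2 ∂ν

/-- A two sided stationary chain restricts to a one sided chain started at time `1`. -/
def St_restrict : Prop :=
  ∀ {S : Type} [MeasurableSpace S] (Q : Kernel S S) [IsMarkovKernel Q]
    (Ω : Type) [MeasurableSpace Ω] (μ : Measure Ω) [IsProbabilityMeasure μ]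
    (ξ : ℤ → Ω → S) (hξ : ∀ i, Measurable (ξ i))
    (hM : ∀ n : ℤ, ∀ A : Set S, MeasurableSet A →
        condExp (⨆ i ≤ n, MeasurableSpace.comap (ξ i) inferInstance) μ
          ((ξ (n+1) ⁻¹' A).indicator (fun _ => (1 : ℝ)))
          =ᵐ[μ] fun ω => (Q (ξ n ω) A).toReal),
    ∀ n : ℕ, ∀ A : Set S, MeasurableSet A →
        condExp (⨆ i ≤ n, MeasurableSpace.comap (ξ ((i : ℤ) + 1)) inferInstance) μ
          ((ξ (((n + 1 : ℕ) : ℤ) + 1) ⁻¹' A).indicator (fun _ => (1 : ℝ)))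
          =ᵐ[μ] fun ω => (Q (ξ ((n : ℤ) + 1) ω) A).toReal

end Pool.Agent.Q42.UIC
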