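import Pool.Agent.Q42.UIC.Stm2
import Pool.Agent.Q184.UIC.Op

/-! Project UIC: the forward drift as an element of `L²` (helper184). -/

set_option autoImplicit false

open MeasureTheory ProbabilityTheory

namespace Pool.Agent.Q42.UIC

open Pool.Agent.Q184.UIC

section
variable {S : Type} [MeasurableSpace S] {ν : Measure S} [IsProbabilityMeasure ν]
    {Q : Kernel S S} [IsMarkovKernel Q]

theorem mop_toLp (hν : ν.bind Q = ν) {h : S → ℝ} (hm : Measurable h) (hh : MemLp h 2 ν) :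
    mop ν Q hν (hh.toLp h) = (TT_sq hν hm hh).1.toLp (TT Q h) := by
  apply Lp.ext
  refine (mop_coe ν Q hν _).trans ?_
  refine Filter.EventuallyEq.trans ?_ (TT_sq hν hm hh).1.coeFn_toLp.symm
  filter_upwards [ae_kernel_of_ae ν Q hν hh.coeFn_toLp] with x hx
  exact integral_congr_ae hx

theorem mop_pow_toLp (hν : ν.bind Q = ν) (n : ℕ) {h : S → ℝ} (hm : Measurable h) (hh : MemLp h 2 ν) :
    (mop ν Q hν ^ n) (hh.toLp h) = (TT_iter_sq hν n hm hh).toLp ((TT Q)^[n] h) := by
  induction n generalizing h with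
  | zero => rfl
  | succ n ih =>
    rw [pow_succ, ContinuousLinearMap.mul_apply, mop_toLp hν hm hh, ih (TT_meas Q hm)]
    rfl

end

theorem fwd_op : St_fwd_op := by
  intro S _ ν _ Q _ hν f hf hf2 n
  have hit : ∀ i, MemLp ((TT Q)^[i] f) 2 ν := fun i => TT_iter_sq hν i hf hf2
  have h0 : ∫ x, (∫ q, q.1 ∂(blk (base Q f) n x)) ^ 2 ∂ν =
      ∫ x, (∑ k ∈ Finset.range n, (TT Q)^[k] f x) ^ 2 ∂ν := by
    refine integral_congr_ae ?_
    filter_upwards [drift_iter hν hf hf2 n] with x hx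
    rw [hx]
  have h1 : MemLp (fun x => ∑ i ∈ Finset.range n, (TT Q)^[i] f x) 2 ν :=
    memLp_finsetSum _ fun i _ => hit i
  have h2 : (∑ k ∈ Finset.range n, mop ν Q hν ^ k) (hf2.toLp f) = h1.toLp _ := by
    rw [ContinuousLinearMap.sum_apply]
    simp only [mop_pow_toLp hν _ hf hf2]
    apply Lp.ext
    refine Filter.EventuallyEq.trans ?_ h1.coeFn_toLp.symm
    have h3 : ∀ i, ((hit i).toLp ((TT Q)^[i] f) : S → ℝ) =ᵐ[ν] (TT Q)^[i] f :=
      fun i => (hit i).coeFn_toLp
    have h4 := Lp.coeFn_finsetSum (Finset.range n) (fun i => (hit i).toLp ((TT Q)^[i] f))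
    refine h4.trans ?_
    filter_upwards [ae_all_iff.2 h3] with x hx
    rw [Finset.sum_apply]
    exact Finset.sum_congr rfl fun i _ => hx i
  rw [h0, h2, norm_toLp_sq]

end Pool.Agent.Q42.UIC
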