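import Pool.Agent.Q42.UIC.Stm2
import Pool.Agent.Q42.UIC.fwd_op
import Pool.Agent.Q42.UIC.bwd_drift

/-! Project UIC: the backward drift by duality in `L²` (helper184). -/

set_option autoImplicit false

open MeasureTheory ProbabilityTheory

namespace Pool.Agent.Q42.UIC

open Pool.Agent.Q184.UIC

theorem adjoint_pow_inner {H : Type} [NormedAddCommGroup H] [InnerProductSpace ℝ H] [CompleteSpace H]
    (T : H →L[ℝ] H) (k : ℕ) (x y : H) :
    inner ℝ ((ContinuousLinearMap.adjoint T ^ k) x) y = inner ℝ x ((T ^ k) y) := by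
  induction k generalizing y with
  | zero => rfl
  | succ k ih =>
    rw [pow_succ', ContinuousLinearMap.mul_apply, ContinuousLinearMap.adjoint_inner_left, ih, pow_succ,
      ContinuousLinearMap.mul_apply]

theorem bwd_op : St_bwd_op := by
  intro S _ ν _ Q _ hν f hf hf2 n u hu hC
  obtain ⟨C, hC⟩ := hC
  have hh : MemLp u 2 ν := MemLp.of_bound hu.aestronglyMeasurable C
    (Filter.Eventually.of_forall fun x => by rw [Real.norm_eq_abs]; exact hC x)
  rw [bwd_sum hν hf hf2 n hu hC, ← norm_toLp_sq hh]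
  set U := hh.toLp u with hU
  set F := hf2.toLp f with hF
  have h1 : ∀ k, ∫ x, f x * (TT Q)^[k + 1] u x ∂ν =
      inner ℝ (((ContinuousLinearMap.adjoint (mop ν Q hν)) ^ k) F) (mop ν Q hν U) := by
    intro k
    rw [adjoint_pow_inner, ← ContinuousLinearMap.mul_apply, ← pow_succ, hU,
      mop_pow_toLp hν (k + 1) hu hh, L2.inner_def]
    refine integral_congr_ae ?_
    filter_upwards [hf2.coeFn_toLp, (TT_iter_sq hν (k + 1) hu hh).coeFn_toLp] with x h2 h3
    rw [hF, h2, h3]
    simp [mul_comm]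
  simp only [h1]
  rw [← sum_inner, ← ContinuousLinearMap.sum_apply]
  set G := (∑ k ∈ Finset.range n, (ContinuousLinearMap.adjoint (mop ν Q hν)) ^ k) F with hG
  have h2 : ‖mop ν Q hν U‖ ≤ ‖U‖ := by
    have := (mop ν Q hν).le_of_opNorm_le (norm_mop_le ν Q hν) U
    linarith
  have h3 : |inner ℝ G (mop ν Q hν U)| ≤ ‖G‖ * ‖U‖ :=
    (abs_real_inner_le_norm _ _).trans (mul_le_mul_of_nonneg_left h2 (norm_nonneg _))
  rw [← mul_pow, ← sq_abs]
  exact pow_le_pow_left₀ (abs_nonneg _) h3 2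

end Pool.Agent.Q42.UIC
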