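import Pool.Agent.Q42.UIC.Stm2

/-! Project UIC: the dyadic square function of `√(1 - T) g` (helper184). -/

set_option autoImplicit false

open MeasureTheory ProbabilityTheory Filter Topology

namespace Pool.Agent.Q42.UIC

section
open Polynomial

/-- partial sums of the series of `√(1 - x)` -/
noncomputable def sP (N : ℕ) : Polynomial ℝ := 1 - ∑ n ∈ Finset.range N, C (dl (n + 1)) * X ^ (n + 1)

/-- geometric sums -/
noncomputable def aP (l : ℕ) : Polynomial ℝ := ∑ k ∈ Finset.range (2 ^ l), X ^ k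

theorem aeval_sP {A : Type} [Ring A] [Algebra ℝ A] (x : A) (N : ℕ) :
    aeval x (sP N) = 1 - ∑ n ∈ Finset.range N, dl (n + 1) • x ^ (n + 1) := by
  unfold sP
  rw [map_sub, map_one, map_sum]
  congr 1
  refine Finset.sum_congr rfl fun n _ => ?_
  rw [map_mul, aeval_C, map_pow, aeval_X, Algebra.smul_def]

theorem aeval_aP {A : Type} [Ring A] [Algebra ℝ A] (x : A) (l : ℕ) :
    aeval x (aP l) = ∑ k ∈ Finset.range (2 ^ l), x ^ k := by
  unfold aP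
  rw [map_sum]
  refine Finset.sum_congr rfl fun n _ => ?_
  rw [map_pow, aeval_X]

end

/-- the tails -/
noncomputable def tl (N : ℕ) : ℝ := 1 - ∑ n ∈ Finset.range N, dl (n + 1)

theorem tl_nonneg (hd0 : ∀ n : ℕ, 0 < dl (n + 1)) (hd1 : HasSum (fun n : ℕ => dl (n + 1)) 1) (N : ℕ) :
    0 ≤ tl N := by
  unfold tl
  have := sum_le_hasSum (Finset.range N) (fun n _ => (hd0 n).le) hd1
  linarith

theorem tl_tendsto (hd1 : HasSum (fun n : ℕ => dl (n + 1)) 1) : Tendsto tl atTop (𝓝 0) := by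
  have := (hd1.tendsto_sum_nat).const_sub 1
  rw [sub_self] at this
  exact this

theorem sP_bd (hd0 : ∀ n : ℕ, 0 < dl (n + 1)) (hd1 : HasSum (fun n : ℕ => dl (n + 1)) 1)
    (hds : ∀ z : ℂ, ‖z‖ ≤ 1 → (1 - ∑' n : ℕ, (dl (n + 1) : ℂ) * z ^ (n + 1)) ^ 2 = 1 - z)
    (z : ℂ) (hz : ‖z‖ = 1) (N : ℕ) :
    ‖Polynomial.aeval z (sP N)‖ ^ 2 ≤ ‖1 - z‖ + (4 * tl N + tl N ^ 2) := by
  set s : ℂ := 1 - ∑' n : ℕ, (dl (n + 1) : ℂ) * z ^ (n + 1) with hs
  have hsq : ‖s‖ ^ 2 = ‖1 - z‖ := by rw [← norm_pow, hds z hz.le]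
  have h2 : ‖1 - z‖ ≤ 2 := by
    have := norm_sub_le (1 : ℂ) z
    rw [norm_one, hz] at this
    linarith
  have hs2 : ‖s‖ ≤ 2 := by
    have := norm_nonneg s
    nlinarith
  have hnf : ∀ n : ℕ, ‖(dl (n + 1) : ℂ) * z ^ (n + 1)‖ = dl (n + 1) := by
    intro n
    rw [norm_mul, norm_pow, hz, one_pow, mul_one, Complex.norm_real, Real.norm_eq_abs,
      abs_of_pos (hd0 n)]
  have hsum : Summable (fun n : ℕ => (dl (n + 1) : ℂ) * z ^ (n + 1)) := by
    refine Summable.of_norm ?_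
    simp only [hnf]
    exact hd1.summable
  have h3 : Polynomial.aeval z (sP N) = s + ∑' n : ℕ, (dl (n + N + 1) : ℂ) * z ^ (n + N + 1) := by
    rw [aeval_sP, hs, ← hsum.sum_add_tsum_nat_add N]
    have h4 : ∀ n : ℕ, dl (n + 1) • z ^ (n + 1) = (dl (n + 1) : ℂ) * z ^ (n + 1) := by
      intro n; rw [Complex.real_smul]
    simp only [h4]
    ring
  have h5 : ‖∑' n : ℕ, (dl (n + N + 1) : ℂ) * z ^ (n + N + 1)‖ ≤ tl N := by
    have h6 : Summable (fun n : ℕ => ‖(dl (n + N + 1) : ℂ) * z ^ (n + N + 1)‖) := by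
      have := (summable_nat_add_iff N).2 hsum.norm
      exact this
    refine (norm_tsum_le_tsum_norm h6).trans (le_of_eq ?_)
    have h7 : ∀ n : ℕ, ‖(dl (n + N + 1) : ℂ) * z ^ (n + N + 1)‖ = dl (n + N + 1) := fun n => hnf (n + N)
    simp only [h7]
    have h8 := hd1.summable.sum_add_tsum_nat_add N
    rw [hd1.tsum_eq] at h8
    unfold tl
    linarith
  have h9 : ‖Polynomial.aeval z (sP N)‖ ≤ ‖s‖ + tl N := by
    rw [h3]
    exact (norm_add_le _ _).trans (by linarith)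
  have h10 := tl_nonneg hd0 hd1 N
  have h11 : ‖Polynomial.aeval z (sP N)‖ ^ 2 ≤ (‖s‖ + tl N) ^ 2 :=
    pow_le_pow_left₀ (norm_nonneg _) h9 2
  nlinarith

theorem col (h1 : St_sqrt_coef) (h2 : St_vn) (h3 : St_symb) : St_col := by
  intro H _ _ _ T hT g L
  obtain ⟨hd0, hd1, hds, -⟩ := h1
  set P : ℕ → ℕ → Polynomial ℝ := fun N l =>
    Polynomial.C ((Real.sqrt (2 ^ l))⁻¹) * (aP l * sP N) with hP
  have hsq : ∀ l : ℕ, ((Real.sqrt (2 ^ l))⁻¹) ^ 2 = ((2 : ℝ) ^ l)⁻¹ := by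
    intro l
    rw [inv_pow, Real.sq_sqrt (by positivity)]
  have hsum2 : ∀ L : ℕ, ∑ l ∈ Finset.range L, (2 : ℝ) ^ l ≤ 2 ^ L := by
    intro L
    induction L with
    | zero => simp
    | succ L ih => rw [Finset.sum_range_succ, pow_succ]; linarith
  -- the bound for the polynomials
  have hbd : ∀ N, ∑ l ∈ Finset.range L, ‖(Polynomial.aeval T (P N l) : H →L[ℝ] H) g‖ ^ 2 ≤
      (16 + (4 * tl N + tl N ^ 2) * 2 ^ L) * ‖g‖ ^ 2 := by
    intro N
    refine h2 T hT g L (P N) _ fun z hz => ?_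
    have ht := tl_nonneg hd0 hd1 N
    have hc0 : 0 ≤ 4 * tl N + tl N ^ 2 := by positivity
    have h4 : ∀ l, ‖Polynomial.aeval z (P N l)‖ ^ 2 ≤
        ‖1 - z‖ * ‖∑ k ∈ Finset.range (2 ^ l), z ^ k‖ ^ 2 / 2 ^ l + (4 * tl N + tl N ^ 2) * 2 ^ l := by
      intro l
      have hp : (0 : ℝ) < 2 ^ l := by positivity
      have e1 : Polynomial.aeval z (P N l) =
          (((Real.sqrt (2 ^ l))⁻¹ : ℝ) : ℂ) * ((∑ k ∈ Finset.range (2 ^ l), z ^ k) *
            Polynomial.aeval z (sP N)) := by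
        simp only [hP]
        rw [map_mul, map_mul, Polynomial.aeval_C, aeval_aP]
        rfl
      have e2 : ‖Polynomial.aeval z (P N l)‖ ^ 2 = ((2 : ℝ) ^ l)⁻¹ *
          (‖∑ k ∈ Finset.range (2 ^ l), z ^ k‖ ^ 2 * ‖Polynomial.aeval z (sP N)‖ ^ 2) := by
        rw [e1, norm_mul, norm_mul, mul_pow, mul_pow, Complex.norm_real, Real.norm_eq_abs, sq_abs, hsq]
      have ha1 : ‖∑ k ∈ Finset.range (2 ^ l), z ^ k‖ ≤ 2 ^ l := by
        refine (norm_sum_le _ _).trans ?_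
        simp [norm_pow, hz]
      have ha2 : ‖∑ k ∈ Finset.range (2 ^ l), z ^ k‖ ^ 2 ≤ (2 ^ l) ^ 2 :=
        pow_le_pow_left₀ (norm_nonneg _) ha1 2
      have h5 := sP_bd hd0 hd1 hds z hz N
      rw [e2]
      set a := ‖∑ k ∈ Finset.range (2 ^ l), z ^ k‖ ^ 2 with ha
      have ha0 : 0 ≤ a := sq_nonneg _
      calc ((2 : ℝ) ^ l)⁻¹ * (a * ‖Polynomial.aeval z (sP N)‖ ^ 2)
          ≤ ((2 : ℝ) ^ l)⁻¹ * (a * (‖1 - z‖ + (4 * tl N + tl N ^ 2))) := by gcongr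
        _ = ‖1 - z‖ * a / 2 ^ l + (4 * tl N + tl N ^ 2) * (((2 : ℝ) ^ l)⁻¹ * a) := by
          field_simp
        _ ≤ ‖1 - z‖ * a / 2 ^ l + (4 * tl N + tl N ^ 2) * 2 ^ l := by
          have : ((2 : ℝ) ^ l)⁻¹ * a ≤ 2 ^ l := by
            rw [inv_mul_le_iff₀ hp]
            linarith
          gcongr
    refine (Finset.sum_le_sum fun l _ => h4 l).trans ?_
    rw [Finset.sum_add_distrib, ← Finset.mul_sum]
    have h6 := h3 z L hz
    have h7 := mul_le_mul_of_nonneg_left (hsum2 L) hc0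
    linarith
  -- the limit
  have hTn : ∀ n : ℕ, ‖dl (n + 1) • T ^ (n + 1)‖ ≤ dl (n + 1) := by
    intro n
    rw [norm_smul, Real.norm_eq_abs, abs_of_pos (hd0 n)]
    have h4 : ‖T ^ (n + 1)‖ ≤ 1 :=
      (norm_pow_le' T n.succ_pos).trans (pow_le_one₀ (norm_nonneg _) hT)
    have := mul_le_mul_of_nonneg_left h4 (hd0 n).le
    linarith
  have hTs : Summable (fun n : ℕ => dl (n + 1) • T ^ (n + 1)) :=
    Summable.of_norm_bounded hd1.summable hTn
  have hlim : Tendsto (fun N => (Polynomial.aeval T (sP N) : H →L[ℝ] H)) atTop (𝓝 (sqrtOp T)) := by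
    simp only [aeval_sP]
    exact (hTs.hasSum.tendsto_sum_nat).const_sub 1
  have hval : ∀ N l, ‖(Polynomial.aeval T (P N l) : H →L[ℝ] H) g‖ ^ 2 =
      ‖(∑ k ∈ Finset.range (2 ^ l), T ^ k) ((Polynomial.aeval T (sP N) : H →L[ℝ] H) g)‖ ^ 2 / 2 ^ l := by
    intro N l
    have e1 : (Polynomial.aeval T (P N l) : H →L[ℝ] H) g =
        (Real.sqrt (2 ^ l))⁻¹ • (∑ k ∈ Finset.range (2 ^ l), T ^ k)
          ((Polynomial.aeval T (sP N) : H →L[ℝ] H) g) := by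
      simp only [hP]
      rw [map_mul, map_mul, Polynomial.aeval_C, aeval_aP, Algebra.algebraMap_eq_smul_one,
        smul_mul_assoc, one_mul]
      rfl
    rw [e1, norm_smul, mul_pow, Real.norm_eq_abs, sq_abs, hsq, div_eq_inv_mul]
  simp only [hval] at hbd
  have hL1 : Tendsto (fun N => ∑ l ∈ Finset.range L,
      ‖(∑ k ∈ Finset.range (2 ^ l), T ^ k) ((Polynomial.aeval T (sP N) : H →L[ℝ] H) g)‖ ^ 2 / 2 ^ l)
      atTop (𝓝 (∑ l ∈ Finset.range L,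
      ‖(∑ k ∈ Finset.range (2 ^ l), T ^ k) (sqrtOp T g)‖ ^ 2 / 2 ^ l)) := by
    refine tendsto_finsetSum _ fun l _ => ?_
    refine Tendsto.div_const (Tendsto.pow (Tendsto.norm ?_) 2) _
    refine ((∑ k ∈ Finset.range (2 ^ l), T ^ k).continuous.tendsto _).comp ?_
    exact ((ContinuousLinearMap.apply ℝ H g).continuous.tendsto _).comp hlim
  have hL2 : Tendsto (fun N => (16 + (4 * tl N + tl N ^ 2) * 2 ^ L) * ‖g‖ ^ 2) atTop
      (𝓝 (16 * ‖g‖ ^ 2)) := by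
    have ht := tl_tendsto hd1
    have h4 : Tendsto (fun N => (16 + (4 * tl N + tl N ^ 2) * 2 ^ L) * ‖g‖ ^ 2) atTop
        (𝓝 ((16 + (4 * 0 + 0 ^ 2) * 2 ^ L) * ‖g‖ ^ 2)) :=
      ((((ht.const_mul 4).add (ht.pow 2)).mul_const _).const_add 16).mul_const _
    simpa using h4
  exact le_of_tendsto_of_tendsto' hL1 hL2 hbd

end Pool.Agent.Q42.UIC
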