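import Pool.Agent.Q42.UIC.Stm2

/-! Project UIC: restriction of a two sided chain (helper184). -/

set_option autoImplicit false

open MeasureTheory ProbabilityTheory

namespace Pool.Agent.Q42.UIC

theorem restrict : St_restrict := by
  intro S mS Q _ Ω mΩ μ _ ξ hξ hM n A hA
  set m1 : MeasurableSpace Ω := ⨆ i ≤ n, MeasurableSpace.comap (ξ ((i : ℤ) + 1)) inferInstance with hm1
  set m2 : MeasurableSpace Ω := ⨆ i ≤ ((n : ℤ) + 1), MeasurableSpace.comap (ξ i) inferInstance with hm2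
  have h12 : m1 ≤ m2 := by
    refine iSup₂_le fun i hi => ?_
    exact le_iSup₂_of_le (f := fun (i : ℤ) (_ : i ≤ (n : ℤ) + 1) =>
      MeasurableSpace.comap (ξ i) inferInstance) ((i : ℤ) + 1) (by omega) le_rfl
  have h20 : m2 ≤ mΩ := iSup₂_le fun i _ => (hξ i).comap_le
  have h10 : m1 ≤ mΩ := h12.trans h20
  have h1 := hM ((n : ℤ) + 1) A hA
  have hcast : (((n + 1 : ℕ) : ℤ) + 1) = (n : ℤ) + 1 + 1 := by push_cast; ring
  rw [hcast]
  set F : Ω → ℝ := (ξ ((n : ℤ) + 1 + 1) ⁻¹' A).indicator (fun _ => (1 : ℝ)) with hF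
  set g : Ω → ℝ := fun ω => (Q (ξ ((n : ℤ) + 1) ω) A).toReal with hg
  have hξm : Measurable[m1] (ξ ((n : ℤ) + 1)) := by
    rw [measurable_iff_comap_le]
    exact le_iSup₂_of_le (f := fun (i : ℕ) (_ : i ≤ n) =>
      MeasurableSpace.comap (ξ ((i : ℤ) + 1)) inferInstance) n le_rfl le_rfl
  have hgm : Measurable[m1] g := ((Q.measurable_coe hA).ennreal_toReal).comp hξm
  have hgi : Integrable g μ := by
    refine Integrable.of_bound (C := 1) (hgm.mono h10 le_rfl).aestronglyMeasurable ?_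
    refine Filter.Eventually.of_forall fun ω => ?_
    rw [Real.norm_eq_abs, abs_of_nonneg ENNReal.toReal_nonneg]
    have h3 : Q (ξ ((n : ℤ) + 1) ω) A ≤ 1 := prob_le_one
    have := ENNReal.toReal_mono ENNReal.one_ne_top h3
    simpa using this
  have e1 : μ[μ[F|m2]|m1] =ᵐ[μ] μ[F|m1] := condExp_condExp_of_le h12 h20
  have e2 : μ[μ[F|m2]|m1] =ᵐ[μ] μ[g|m1] := condExp_congr_ae h1
  have e3 : μ[g|m1] = g := condExp_of_stronglyMeasurable h10 hgm.stronglyMeasurable hgi
  rw [e3] at e2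
  exact e1.symm.trans e2

end Pool.Agent.Q42.UIC
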