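import Pool.Agent.Q42.UIC.Stm2

/-! Project UIC: the coefficients of `√(1 - x)`. -/

set_option autoImplicit false
set_option linter.unusedVariables false

open Finset

namespace Pool.Agent.Q42.UIC

/-- `c n = centralBinom n / 4 ^ n` -/
noncomputable def scc (n : ℕ) : ℝ := (n.centralBinom : ℝ) / 4 ^ n

theorem scc_nonneg (n : ℕ) : 0 ≤ scc n := by
  unfold scc; positivity

theorem scc_zero : scc 0 = 1 := by
  unfold scc; simp

theorem scc_succ (n : ℕ) : scc (n + 1) = scc n * ((2 * n + 1) / (2 * n + 2)) := by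
  unfold scc
  have h : ((n : ℝ) + 1) * ((n + 1).centralBinom : ℝ) = 2 * (2 * n + 1) * (n.centralBinom : ℝ) := by
    exact_mod_cast Nat.succ_mul_centralBinom_succ n
  have h1 : (n : ℝ) + 1 ≠ 0 := by positivity
  have h2 : ((n + 1).centralBinom : ℝ) = 2 * (2 * n + 1) * (n.centralBinom : ℝ) / (n + 1) := by
    rw [eq_div_iff h1, ← h]; ring
  rw [h2, pow_succ]
  field_simp
  ring

theorem dl_succ (n : ℕ) : dl (n + 1) = scc n - scc (n + 1) := by
  have h0 : dl (n + 1) = scc (n + 1) / (2 * n + 1) := by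
    unfold dl scc
    push_cast
    rw [show (2 * ((n : ℝ) + 1) - 1) = 2 * n + 1 by ring, div_div]
  rw [h0, scc_succ]
  have h1 : (2 * (n : ℝ) + 1) ≠ 0 := by positivity
  have h2 : (2 * (n : ℝ) + 2) ≠ 0 := by positivity
  field_simp
  ring

theorem dl_succ_eq_catalan (n : ℕ) : dl (n + 1) = (catalan n : ℝ) / (2 * 4 ^ n) := by
  have h : ((n : ℝ) + 1) * (catalan n : ℝ) = (n.centralBinom : ℝ) := by
    exact_mod_cast succ_mul_catalan_eq_centralBinom n
  rw [dl_succ, scc_succ]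
  unfold scc
  rw [← h]
  have h2 : (2 * (n : ℝ) + 2) ≠ 0 := by positivity
  field_simp
  ring

theorem dl_succ_pos (n : ℕ) : 0 < dl (n + 1) := by
  unfold dl
  have h1 : (0 : ℝ) < ((n + 1).centralBinom : ℝ) := by
    exact_mod_cast Nat.centralBinom_pos (n + 1)
  push_cast
  rw [show (2 * ((n : ℝ) + 1) - 1) = 2 * n + 1 by ring]
  positivity

theorem scc_sq_le (n : ℕ) : scc n ^ 2 ≤ 1 / (2 * n + 1) := by
  induction n with
  | zero => rw [scc_zero]; simp
  | succ n ih =>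
    rw [scc_succ, mul_pow]
    have h1 : (0 : ℝ) < 2 * n + 1 := by positivity
    have h2 : (0 : ℝ) < 2 * n + 2 := by positivity
    calc scc n ^ 2 * ((2 * n + 1) / (2 * n + 2)) ^ 2
        ≤ 1 / (2 * n + 1) * ((2 * n + 1) / (2 * n + 2)) ^ 2 :=
          mul_le_mul_of_nonneg_right ih (sq_nonneg _)
      _ = (2 * n + 1) / (2 * n + 2) ^ 2 := by
          field_simp
      _ ≤ 1 / (2 * ((n + 1 : ℕ) : ℝ) + 1) := by
          push_cast
          rw [div_le_div_iff₀ (by positivity) (by positivity)]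
          nlinarith

theorem scc_tendsto : Filter.Tendsto scc Filter.atTop (nhds 0) := by
  have h1 : Filter.Tendsto (fun n : ℕ => scc n ^ 2) Filter.atTop (nhds 0) := by
    refine squeeze_zero (fun n => sq_nonneg _) (g := fun n : ℕ => 1 / ((n : ℝ) + 1)) ?_
      tendsto_one_div_add_atTop_nhds_zero_nat
    intro n
    refine (scc_sq_le n).trans ?_
    have : (0 : ℝ) ≤ n := Nat.cast_nonneg n
    exact one_div_le_one_div_of_le (by linarith) (by linarith)
  have h2 := (Real.continuous_sqrt.tendsto 0).comp h1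
  rw [Real.sqrt_zero] at h2
  refine h2.congr fun n => ?_
  simp only [Function.comp_apply]
  exact Real.sqrt_sq (scc_nonneg n)

theorem hasSum_dl : HasSum (fun n : ℕ => dl (n + 1)) 1 := by
  rw [hasSum_iff_tendsto_nat_of_nonneg (fun n => (dl_succ_pos n).le)]
  have h1 : ∀ n : ℕ, ∑ i ∈ range n, dl (i + 1) = 1 - scc n := by
    intro n
    rw [sum_congr rfl (fun i _ => dl_succ i), sum_range_sub', scc_zero]
  have h2 : Filter.Tendsto (fun n : ℕ => 1 - scc n) Filter.atTop (nhds (1 - 0)) :=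
    tendsto_const_nhds.sub scc_tendsto
  rw [sub_zero] at h2
  exact h2.congr fun n => (h1 n).symm

theorem sqrt_coef_sq (z : ℂ) (hz : ‖z‖ ≤ 1) :
    (1 - ∑' n : ℕ, (dl (n + 1) : ℂ) * z ^ (n + 1)) ^ 2 = 1 - z := by
  have hs : Summable (fun n : ℕ => ‖((catalan n : ℂ) * (z / 4) ^ n)‖) := by
    refine Summable.of_nonneg_of_le (fun n => norm_nonneg _) (fun n => ?_)
      (hasSum_dl.summable.mul_left 2)
    rw [dl_succ_eq_catalan, norm_mul, norm_pow, norm_div]
    have h4 : ‖(4 : ℂ)‖ = 4 := by norm_num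
    rw [h4, Complex.norm_natCast, div_pow]
    have h5 : ‖z‖ ^ n ≤ 1 := pow_le_one₀ (norm_nonneg _) hz
    calc (catalan n : ℝ) * (‖z‖ ^ n / 4 ^ n) ≤ (catalan n : ℝ) * (1 / 4 ^ n) := by
          gcongr
      _ = 2 * ((catalan n : ℝ) / (2 * 4 ^ n)) := by
          field_simp
  have h1 : ∑' n : ℕ, (dl (n + 1) : ℂ) * z ^ (n + 1)
      = z / 2 * ∑' n : ℕ, (catalan n : ℂ) * (z / 4) ^ n := by
    rw [← tsum_mul_left]
    refine tsum_congr fun n => ?_
    rw [dl_succ_eq_catalan]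
    push_cast
    rw [div_pow, pow_succ]
    field_simp
  have h2 : (z / 4) * ((∑' n : ℕ, (catalan n : ℂ) * (z / 4) ^ n)
      * (∑' n : ℕ, (catalan n : ℂ) * (z / 4) ^ n))
      = (∑' n : ℕ, (catalan n : ℂ) * (z / 4) ^ n) - 1 := by
    rw [tsum_mul_tsum_eq_tsum_sum_antidiagonal_of_summable_norm hs hs, ← tsum_mul_left]
    rw [hs.of_norm.tsum_eq_zero_add]
    rw [catalan_zero, pow_zero, Nat.cast_one, one_mul, add_sub_cancel_left]
    refine tsum_congr fun n => ?_
    rw [catalan_succ']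
    push_cast
    rw [mul_sum, sum_mul]
    refine sum_congr rfl fun p hp => ?_
    rw [HasAntidiagonal.mem_antidiagonal] at hp
    rw [← hp, pow_succ, pow_add]
    ring
  rw [h1]
  linear_combination z * h2

theorem sqrt_coef : St_sqrt_coef := by
  refine ⟨dl_succ_pos, hasSum_dl, sqrt_coef_sq, ?_⟩
  intro x hx0 hx1
  have hle : ∀ n : ℕ, dl (n + 1) * x ^ (n + 1) ≤ dl (n + 1) := fun n =>
    mul_le_of_le_one_right (dl_succ_pos n).le (pow_le_one₀ hx0 hx1)
  have hs : Summable (fun n : ℕ => dl (n + 1) * x ^ (n + 1)) :=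
    Summable.of_nonneg_of_le (fun n => mul_nonneg (dl_succ_pos n).le (pow_nonneg hx0 _)) hle
      hasSum_dl.summable
  have h1 : 0 ≤ 1 - ∑' n : ℕ, dl (n + 1) * x ^ (n + 1) := by
    have h2 := hs.tsum_le_tsum hle hasSum_dl.summable
    rw [hasSum_dl.tsum_eq] at h2
    linarith
  have h2 : (1 - ∑' n : ℕ, dl (n + 1) * x ^ (n + 1)) ^ 2 = 1 - x := by
    have h3 := sqrt_coef_sq (x : ℂ) (by
      rw [Complex.norm_real, Real.norm_eq_abs, abs_of_nonneg hx0]; exact hx1)
    have h4 : (((1 - ∑' n : ℕ, dl (n + 1) * x ^ (n + 1)) ^ 2 : ℝ) : ℂ) = ((1 - x : ℝ) : ℂ) := by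
      push_cast
      exact h3
    exact_mod_cast h4
  have h3 : Real.sqrt (1 - x) = 1 - ∑' n : ℕ, dl (n + 1) * x ^ (n + 1) := by
    rw [← h2, Real.sqrt_sq h1]
  have h4 := hs.hasSum
  rw [show (∑' n : ℕ, dl (n + 1) * x ^ (n + 1)) = 1 - Real.sqrt (1 - x) by rw [h3]; ring] at h4
  exact h4

end Pool.Agent.Q42.UIC
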