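import Pool.Agent.Q42.UIC.Stm2

/-! Project UIC: the symbol of the dyadic square function (helper184). -/

set_option autoImplicit false

open MeasureTheory ProbabilityTheory

namespace Pool.Agent.Q42.UIC

/-- the potential -/
noncomputable def pot (x : ℝ) : ℝ := if x ≤ 2 then x else 6 - 8 / x

theorem pot_step {x t : ℝ} (hx : 0 ≤ x) (h1 : t ≤ x) (h2 : x * t ≤ 4) : pot x + t ≤ pot (2 * x) := by
  unfold pot
  by_cases hx2 : x ≤ 2
  · rw [if_pos hx2]
    by_cases hx1 : 2 * x ≤ 2
    · rw [if_pos hx1]
      linarith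
    · rw [if_neg hx1]
      push Not at hx1
      have hx0 : 0 < x := by linarith
      have h3 : 8 / (2 * x) = 4 / x := by field_simp; ring
      rw [h3]
      have h4 : 4 / x ≤ 6 - 2 * x := by
        rw [div_le_iff₀ hx0]
        nlinarith
      linarith
  · rw [if_neg hx2]
    push Not at hx2
    have hx0 : 0 < x := by linarith
    rw [if_neg (by linarith)]
    have h3 : 8 / (2 * x) = 4 / x := by field_simp; ring
    have h4 : 8 / x = 4 / x + 4 / x := by ring
    have h5 : t ≤ 4 / x := by
      rw [le_div_iff₀ hx0]; linarith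
    rw [h3, h4]
    linarith

theorem pot_le {x : ℝ} (hx : 0 ≤ x) : pot x ≤ 6 := by
  unfold pot
  split_ifs with h
  · linarith
  · have : 0 ≤ 8 / x := by positivity
    linarith

theorem symb : St_symb := by
  intro z L hz
  set D : ℝ := ‖1 - z‖ with hD
  have hD0 : 0 ≤ D := norm_nonneg _
  have hD2 : D ≤ 2 := by
    have := norm_sub_le (1 : ℂ) z
    rw [norm_one, hz] at this
    linarith
  have key : ∑ l ∈ Finset.range L, D * ‖∑ k ∈ Finset.range (2 ^ l), z ^ k‖ ^ 2 / 2 ^ l ≤
      pot (D * 2 ^ L) := by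
    induction L with
    | zero =>
      simp only [Finset.range_zero, Finset.sum_empty, pow_zero, mul_one]
      unfold pot
      rw [if_pos hD2]
      exact hD0
    | succ L ih =>
      rw [Finset.sum_range_succ]
      set a : ℝ := ‖∑ k ∈ Finset.range (2 ^ L), z ^ k‖ with ha
      have ha0 : 0 ≤ a := norm_nonneg _
      have hp : (0 : ℝ) < 2 ^ L := by positivity
      have ha1 : a ≤ 2 ^ L := by
        refine (norm_sum_le _ _).trans ?_
        simp [norm_pow, hz]
      have ha2 : D * a ≤ 2 := by
        rw [hD, ha, ← norm_mul, mul_comm, geom_sum_mul_neg]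
        have := norm_sub_le (1 : ℂ) (z ^ 2 ^ L)
        rw [norm_one, norm_pow, hz, one_pow] at this
        linarith
      have h1 : D * a ^ 2 / 2 ^ L ≤ D * 2 ^ L := by
        rw [div_le_iff₀ hp]
        have : a ^ 2 ≤ (2 ^ L) ^ 2 := pow_le_pow_left₀ ha0 ha1 2
        nlinarith
      have h2 : D * 2 ^ L * (D * a ^ 2 / 2 ^ L) ≤ 4 := by
        have h3 : D * 2 ^ L * (D * a ^ 2 / 2 ^ L) = (D * a) ^ 2 := by
          field_simp
        rw [h3]
        have h4 : 0 ≤ D * a := mul_nonneg hD0 ha0
        nlinarith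
      have h5 := pot_step (mul_nonneg hD0 hp.le) h1 h2
      have h6 : D * 2 ^ (L + 1) = 2 * (D * 2 ^ L) := by ring
      rw [h6]
      linarith
  have := pot_le (mul_nonneg hD0 (pow_nonneg zero_le_two L))
  linarith

end Pool.Agent.Q42.UIC
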