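import Pool.Agent.Q42.UIC.ui

/-! Project UIC, job var_close (helper238): the conditional variances. -/

set_option autoImplicit false
set_option linter.unusedVariables false

open MeasureTheory ProbabilityTheory Filter

namespace Pool.Agent.Q42.UIC

section aux

variable {S : Type} [MeasurableSpace S]

theorem vc_lev_lev (b : Kernel S (ℝ × S)) (k j : ℕ) : lev (lev b k) j = lev b (k + j) := by
  induction j with
  | zero => rfl
  | succ j ih =>
    change conc (lev (lev b k) j) (lev (lev b k) j) = conc (lev b (k + j)) (lev b (k + j))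
    rw [ih]

theorem vc_meas_enr (K : ℝ) :
    Measurable (fun q : ℝ × S => ((q.1, min (q.1 ^ 2) K), q.2)) :=
  (measurable_fst.prodMk ((measurable_fst.pow_const 2).min measurable_const)).prodMk measurable_snd

instance vc_enr_markov (K : ℝ) (b : Kernel S (ℝ × S)) [IsMarkovKernel b] :
    IsMarkovKernel (enr K b) := by
  unfold enr
  exact Kernel.IsMarkovKernel.map _ (vc_meas_enr K)

theorem vc_meas_pr : Measurable (fun q : (ℝ × ℝ) × S => (q.1.1, q.2)) := by fun_prop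

instance vc_pr_markov (c : Kernel S ((ℝ × ℝ) × S)) [IsMarkovKernel c] :
    IsMarkovKernel (pr c) := by
  unfold pr
  exact Kernel.IsMarkovKernel.map _ vc_meas_pr

theorem vc_endInv_enr (ν : Measure S) [IsProbabilityMeasure ν] (b : Kernel S (ℝ × S))
    [IsMarkovKernel b] (K : ℝ) (h : EndInv ν b) : EndInv ν (enr K b) := by
  unfold EndInv at *
  unfold enr
  rw [Measure.compProd_map (vc_meas_enr K), Measure.map_map (by fun_prop)
    (measurable_id.prodMap (vc_meas_enr K))]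
  exact h

theorem vc_endInv_lev (ν : Measure S) [IsProbabilityMeasure ν] (c : Kernel S ((ℝ × ℝ) × S))
    [IsMarkovKernel c] (h : EndInv ν c) : ∀ j, EndInv ν (lev c j)
  | 0 => h
  | j + 1 => endInv_conc ν _ _ (vc_endInv_lev ν c h j) (vc_endInv_lev ν c h j)

theorem vc_set (B : ℝ) : MeasurableSet {q : (ℝ × ℝ) × S | 0 ≤ q.1.2 ∧ q.1.2 ≤ B} := by
  have h1 : Measurable (fun q : (ℝ × ℝ) × S => q.1.2) := by fun_prop
  exact (measurableSet_le measurable_const h1).inter (measurableSet_le h1 measurable_const)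

theorem vc_energy_enr (b : Kernel S (ℝ × S)) [IsMarkovKernel b] (B : ℝ) (hB : 0 ≤ B) (x : S) :
    ∀ᵐ q ∂(enr B b x), 0 ≤ q.1.2 ∧ q.1.2 ≤ B := by
  unfold enr
  rw [Kernel.map_apply _ (vc_meas_enr B)]
  rw [ae_map_iff (vc_meas_enr B).aemeasurable (vc_set B)]
  refine Eventually.of_forall fun q => ?_
  exact ⟨le_min (sq_nonneg _) hB, min_le_right _ _⟩

theorem vc_energy_conc (c : Kernel S ((ℝ × ℝ) × S)) [IsMarkovKernel c] (B : ℝ)
    (h : ∀ x, ∀ᵐ q ∂(c x), 0 ≤ q.1.2 ∧ q.1.2 ≤ B) (x : S) :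
    ∀ᵐ q ∂(conc c c x), 0 ≤ q.1.2 ∧ q.1.2 ≤ 2 * B := by
  unfold conc
  rw [Kernel.map_apply _ measurable_cat, ae_map_iff measurable_cat.aemeasurable (vc_set (2 * B))]
  refine (Kernel.ae_compProd_iff (measurable_cat (vc_set (2 * B)))).2 ?_
  filter_upwards [h x] with q hq
  have h2 := h q.2
  change ∀ᵐ r ∂(c q.2), _
  filter_upwards [h2] with r hr
  simp only [Prod.snd_add]
  constructor
  · linarith [hq.1, hr.1]
  · linarith [hq.2, hr.2]

theorem vc_energy_lev (c : Kernel S ((ℝ × ℝ) × S)) [IsMarkovKernel c] (B : ℝ)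
    (h : ∀ x, ∀ᵐ q ∂(c x), 0 ≤ q.1.2 ∧ q.1.2 ≤ B) :
    ∀ j x, ∀ᵐ q ∂(lev c j x), 0 ≤ q.1.2 ∧ q.1.2 ≤ 2 ^ j * B := by
  intro j
  induction j with
  | zero =>
    intro x
    have := h x
    change ∀ᵐ q ∂(c x), _
    filter_upwards [this] with q hq
    rw [pow_zero, one_mul]
    exact hq
  | succ j ih =>
    intro x
    have := vc_energy_conc (lev c j) (2 ^ j * B) ih x
    change ∀ᵐ q ∂(conc (lev c j) (lev c j) x), _
    filter_upwards [this] with q hq
    refine ⟨hq.1, hq.2.trans (le_of_eq ?_)⟩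
    rw [pow_succ]
    ring

theorem vc_ae_compProd (ν : Measure S) [IsProbabilityMeasure ν] (c : Kernel S ((ℝ × ℝ) × S))
    [IsMarkovKernel c] (B : ℝ) (h : ∀ x, ∀ᵐ q ∂(c x), 0 ≤ q.1.2 ∧ q.1.2 ≤ B) :
    ∀ᵐ p ∂(ν ⊗ₘ c), 0 ≤ p.2.1.2 ∧ p.2.1.2 ≤ B := by
  rw [Measure.ae_compProd_iff (p := fun p : S × ((ℝ × ℝ) × S) => 0 ≤ p.2.1.2 ∧ p.2.1.2 ≤ B)
    (measurable_snd (vc_set B))]
  exact Eventually.of_forall h

theorem vc_energy_integrable (ν : Measure S) [IsProbabilityMeasure ν] (c : Kernel S ((ℝ × ℝ) × S))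
    [IsMarkovKernel c] (B : ℝ) (h : ∀ x, ∀ᵐ q ∂(c x), 0 ≤ q.1.2 ∧ q.1.2 ≤ B) :
    Integrable (fun p : S × ((ℝ × ℝ) × S) => p.2.1.2) (ν ⊗ₘ c) :=
  Integrable.of_mem_Icc 0 B (by fun_prop) (vc_ae_compProd ν c B h)

theorem vc_energy_integrable' (c : Kernel S ((ℝ × ℝ) × S))
    [IsMarkovKernel c] (B : ℝ) (h : ∀ x, ∀ᵐ q ∂(c x), 0 ≤ q.1.2 ∧ q.1.2 ≤ B) (x : S) :
    Integrable (fun q : (ℝ × ℝ) × S => q.1.2) (c x) :=
  Integrable.of_mem_Icc 0 B (by fun_prop) (h x)

theorem vc_energy_int (ν : Measure S) [IsProbabilityMeasure ν] (c : Kernel S ((ℝ × ℝ) × S))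
    [IsMarkovKernel c] (hinv : EndInv ν c) (B : ℝ)
    (h : ∀ x, ∀ᵐ q ∂(c x), 0 ≤ q.1.2 ∧ q.1.2 ≤ B) :
    ∫ p, p.2.1.2 ∂(ν ⊗ₘ conc c c) = 2 * ∫ p, p.2.1.2 ∂(ν ⊗ₘ c) := by
  have hE : StronglyMeasurable (fun x : S => ∫ q, q.1.2 ∂(c x)) :=
    StronglyMeasurable.integral_kernel (by
      have : Measurable (fun q : (ℝ × ℝ) × S => q.1.2) := by fun_prop
      exact this.stronglyMeasurable)
  have hEb : ∀ x, ‖∫ q, q.1.2 ∂(c x)‖ ≤ B := by
    intro x
    have h1 : 0 ≤ ∫ q, q.1.2 ∂(c x) := integral_nonneg_of_ae (by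
      filter_upwards [h x] with q hq
      exact hq.1)
    have h2 : ∫ q, q.1.2 ∂(c x) ≤ ∫ q, B ∂(c x) :=
      integral_mono_ae (vc_energy_integrable' c B h x) (integrable_const _) (by
        filter_upwards [h x] with q hq
        exact hq.2)
    rw [integral_const, probReal_univ, one_smul] at h2
    rw [Real.norm_eq_abs, abs_of_nonneg h1]
    exact h2
  have hm2 : Measurable (fun p : S × ((ℝ × ℝ) × S) => p.2.2) := by fun_prop
  have hi2 : Integrable (fun p : S × ((ℝ × ℝ) × S) => ∫ q, q.1.2 ∂(c p.2.2)) (ν ⊗ₘ c) := by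
    refine Integrable.of_bound (hE.comp_measurable hm2).aestronglyMeasurable B ?_
    exact Eventually.of_forall fun p => hEb _
  have hcc := vc_energy_conc c B h
  rw [Measure.integral_compProd (vc_energy_integrable ν (conc c c) (2 * B) hcc)]
  have e1 : ∀ x, ∫ q, q.1.2 ∂(conc c c x) = ∫ q, (q.1.2 + ∫ r, r.1.2 ∂(c q.2)) ∂(c x) := by
    intro x
    rw [integral_conc c c x (fun q => q.1.2) (vc_energy_integrable' (conc c c) (2 * B) hcc x)]
    refine integral_congr_ae (Eventually.of_forall fun q => ?_)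
    simp only [Prod.snd_add]
    rw [integral_add (integrable_const _) (vc_energy_integrable' c B h q.2), integral_const,
      probReal_univ, one_smul]
  have e2 : ∫ x, ∫ q, q.1.2 ∂(conc c c x) ∂ν
      = ∫ x, ∫ q, (q.1.2 + ∫ r, r.1.2 ∂(c q.2)) ∂(c x) ∂ν := by
    simp only [e1]
  have hi3 : Integrable (fun p : S × ((ℝ × ℝ) × S) => p.2.1.2 + ∫ q, q.1.2 ∂(c p.2.2)) (ν ⊗ₘ c) :=
    (vc_energy_integrable ν c B h).add hi2
  have e3 : ∫ x, ∫ q, (q.1.2 + ∫ r, r.1.2 ∂(c q.2)) ∂(c x) ∂ν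
      = ∫ p, (p.2.1.2 + ∫ q, q.1.2 ∂(c p.2.2)) ∂(ν ⊗ₘ c) := by
    rw [Measure.integral_compProd hi3]
  have e4 : ∫ p, (∫ q, q.1.2 ∂(c p.2.2)) ∂(ν ⊗ₘ c) = ∫ y, (∫ q, q.1.2 ∂(c y)) ∂ν := by
    have hinv' := hinv
    unfold EndInv at hinv'
    conv_rhs => rw [← hinv']
    rw [integral_map hm2.aemeasurable hE.aestronglyMeasurable]
  have e5 : ∫ y, (∫ q, q.1.2 ∂(c y)) ∂ν = ∫ p, p.2.1.2 ∂(ν ⊗ₘ c) := by
    rw [Measure.integral_compProd (vc_energy_integrable ν c B h)]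
  rw [e2, e3, integral_add (vc_energy_integrable ν c B h) hi2, e4, e5]
  ring

theorem vc_pr_map (ν : Measure S) [IsProbabilityMeasure ν] (c : Kernel S ((ℝ × ℝ) × S))
    [IsMarkovKernel c] :
    ν ⊗ₘ pr c = (ν ⊗ₘ c).map (Prod.map id (fun q : (ℝ × ℝ) × S => (q.1.1, q.2))) :=
  Measure.compProd_map vc_meas_pr

theorem vc_mem (ν : Measure S) [IsProbabilityMeasure ν] (c : Kernel S ((ℝ × ℝ) × S))
    [IsMarkovKernel c] (h : MemLp (fun p : S × (ℝ × S) => p.2.1) 2 (ν ⊗ₘ pr c)) :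
    MemLp (fun p : S × ((ℝ × ℝ) × S) => p.2.1.1) 2 (ν ⊗ₘ c) := by
  rw [vc_pr_map] at h
  rw [memLp_map_measure_iff (Measurable.aestronglyMeasurable (by fun_prop))
    (measurable_id.prodMap vc_meas_pr).aemeasurable] at h
  exact h

theorem vc_sq (ν : Measure S) [IsProbabilityMeasure ν] (c : Kernel S ((ℝ × ℝ) × S))
    [IsMarkovKernel c] (n : ℝ) :
    ∫ p, p.2.1.1 ^ 2 / n ∂(ν ⊗ₘ c) = ∫ p, p.2.1 ^ 2 / n ∂(ν ⊗ₘ pr c) := by
  rw [vc_pr_map, integral_map (measurable_id.prodMap vc_meas_pr).aemeasurable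
    (Measurable.aestronglyMeasurable (by fun_prop))]
  rfl

end aux

theorem vc_iter (hstep : St_step_var) (hpr : St_pr_lev_enr) {S : Type} [MeasurableSpace S]
    (ν : Measure S) [IsProbabilityMeasure ν] (b : Kernel S (ℝ × S)) [IsMarkovKernel b]
    (w : ℝ) (α β : ℕ → ℝ) (hw : 0 ≤ w) (hα0 : ∀ l, 0 ≤ α l) (hβ0 : ∀ l, 0 ≤ β l)
    (hb : ∀ l, Blk ν (lev b l) (2 ^ l) w (α l) (β l)) (k : ℕ)
    (K A₁ A₂ v t r : ℝ) (hK : 0 ≤ K) (hA₁ : 0 < A₁) (hA₂ : 0 ≤ A₂) (hv : 0 ≤ v)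
    (h8 : 8 * (K + v) ≤ A₁) (ht0 : 0 ≤ t) (ht : t ≤ 1 / 4)
    (h : LBV ν (enr (K * 2 ^ k) (lev b k)) (2 ^ k) A₁ A₂ v t r) :
    ∀ j : ℕ, LBV ν (lev (enr (K * 2 ^ k) (lev b k)) j) (2 ^ (k + j)) A₁ A₂ v t
      (r - ∑ i ∈ Finset.range j, 200 * ((A₁ + A₂ + K) / A₁) * (α (k + i) + β (k + i))) := by
  have hB : 0 ≤ K * 2 ^ k := by positivity
  intro j
  induction j with
  | zero =>
    simp only [Finset.range_zero, Finset.sum_empty, sub_zero, add_zero]
    exact h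
  | succ j ih =>
    have hprj : pr (lev (enr (K * 2 ^ k) (lev b k)) j) = lev b (k + j) := by
      rw [hpr (lev b k) (K * 2 ^ k) j, vc_lev_lev]
    have hinv := vc_endInv_lev ν (enr (K * 2 ^ k) (lev b k))
      (vc_endInv_enr ν (lev b k) (K * 2 ^ k) (hb k).inv) j
    have hE := vc_ae_compProd ν _ _ (vc_energy_lev (enr (K * 2 ^ k) (lev b k)) (K * 2 ^ k)
      (vc_energy_enr (lev b k) (K * 2 ^ k) hB) j)
    have h3 := hstep ν (lev (enr (K * 2 ^ k) (lev b k)) j) (2 ^ (k + j)) w (α (k + j)) (β (k + j)) K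
      A₁ A₂ v t _ (by positivity) hw (hα0 _) (hβ0 _) hinv (by rw [hprj]; exact hb (k + j)) hK (by
        filter_upwards [hE] with p hp
        refine ⟨hp.1, hp.2.trans (le_of_eq ?_)⟩
        rw [pow_add]
        ring) hA₁ hA₂ hv h8 ht0 ht ih
    have e : (2 : ℝ) * 2 ^ (k + j) = 2 ^ (k + (j + 1)) := by
      rw [← add_assoc, pow_succ']
    rw [e] at h3
    intro G H hG hH
    refine le_trans (le_of_eq ?_) (h3 G H hG hH)
    rw [Finset.sum_range_succ]
    ring

theorem vc_energy_total {S : Type} [MeasurableSpace S]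
    (ν : Measure S) [IsProbabilityMeasure ν] (b : Kernel S (ℝ × S)) [IsMarkovKernel b]
    (hinv : EndInv ν b) (B : ℝ) (hB : 0 ≤ B) :
    ∀ j : ℕ, ∫ p, p.2.1.2 ∂(ν ⊗ₘ lev (enr B b) j) = 2 ^ j * ∫ p, min (p.2.1 ^ 2) B ∂(ν ⊗ₘ b) := by
  intro j
  induction j with
  | zero =>
    rw [pow_zero, one_mul]
    change ∫ p, p.2.1.2 ∂(ν ⊗ₘ enr B b) = _
    unfold enr
    rw [Measure.compProd_map (vc_meas_enr B), integral_map
      (measurable_id.prodMap (vc_meas_enr B)).aemeasurable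
      (Measurable.aestronglyMeasurable (by fun_prop))]
    rfl
  | succ j ih =>
    have h1 := vc_energy_int ν (lev (enr B b) j)
      (vc_endInv_lev ν (enr B b) (vc_endInv_enr ν b B hinv) j) (2 ^ j * B)
      (vc_energy_lev (enr B b) B (vc_energy_enr b B hB) j)
    change ∫ p, p.2.1.2 ∂(ν ⊗ₘ conc (lev (enr B b) j) (lev (enr B b) j)) = _
    rw [h1, ih, pow_succ]
    ring

theorem var_close : St_step_var → St_init_var → St_extract_var → St_sq_conc → St_pr_lev_enr →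
    St_var_close := by
  intro hstep hinit hext hsq hpr S _ ν _ b _ w α β hw hα0 hβ0 hα hβ hb hui δ hδ
  have hσ : Summable (fun l => α l + β l) := hα.add hβ
  have hσ0 : ∀ l, 0 ≤ α l + β l := fun l => add_nonneg (hα0 l) (hβ0 l)
  have hmeas : Measurable (fun p : S × (ℝ × S) => p.2.1) := by fun_prop
  obtain ⟨K0, hK0, l0, hl0⟩ := hui (δ / 16) (by positivity)
  obtain ⟨K, hK⟩ : ∃ K : ℝ, K = max K0 1 := ⟨_, rfl⟩
  have hKK0 : K0 ≤ K := by rw [hK]; exact le_max_left _ _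
  have hK1 : 1 ≤ K := by rw [hK]; exact le_max_right _ _
  have hKp : 0 < K := by linarith
  obtain ⟨A₁, hA₁⟩ : ∃ A₁ : ℝ, A₁ = 8 * (K + w) + 1 := ⟨_, rfl⟩
  have hA₁p : 0 < A₁ := by rw [hA₁]; positivity
  obtain ⟨t, ht⟩ : ∃ t : ℝ, t = min (1 / 4) (δ / (16 * A₁)) := ⟨_, rfl⟩
  have ht4 : t ≤ 1 / 4 := by rw [ht]; exact min_le_left _ _
  have htd : t ≤ δ / (16 * A₁) := by rw [ht]; exact min_le_right _ _
  have htp : 0 < t := by rw [ht]; exact lt_min (by norm_num) (by positivity)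
  obtain ⟨K2, hK2, l1, hl1⟩ := hui (t * δ / 16) (by positivity)
  obtain ⟨A₂, hA₂⟩ : ∃ A₂ : ℝ, A₂ = max (4 * w) (2 * K2) := ⟨_, rfl⟩
  have hA₂w : 4 * w ≤ A₂ := by rw [hA₂]; exact le_max_left _ _
  have hA₂K : 2 * K2 ≤ A₂ := by rw [hA₂]; exact le_max_right _ _
  have hA₂0 : 0 ≤ A₂ := by linarith
  obtain ⟨R, hR⟩ : ∃ R : ℝ, R = 200 * ((A₁ + A₂ + K) / A₁) := ⟨_, rfl⟩
  have hR0 : 0 ≤ R := by rw [hR]; positivity
  -- the tail
  obtain ⟨k, hk0, hk1, hk⟩ : ∃ k : ℕ, l0 ≤ k ∧ l1 ≤ k ∧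
      (1 + R) * ∑' i, (α (i + k) + β (i + k)) ≤ t * δ / 16 := by
    have h := (tendsto_sum_nat_add (fun l => α l + β l)).const_mul (1 + R)
    rw [mul_zero] at h
    have h2 := h.eventually (ge_mem_nhds (show (0 : ℝ) < t * δ / 16 by positivity))
    obtain ⟨k, hk, hk2⟩ := (h2.and (eventually_ge_atTop (max l0 l1))).exists
    exact ⟨k, (le_max_left _ _).trans hk2, (le_max_right _ _).trans hk2, hk⟩
  have hsum : ∀ j, (1 + R) * ∑ i ∈ Finset.range j, (α (k + i) + β (k + i)) ≤ t * δ / 16 := by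
    intro j
    refine le_trans (mul_le_mul_of_nonneg_left ?_ (by linarith)) hk
    have h1 : Summable (fun i => α (i + k) + β (i + k)) :=
      (summable_nat_add_iff (f := fun l => α l + β l) k).2 hσ
    have h2 := h1.sum_le_tsum (Finset.range j) (fun i _ => hσ0 (i + k))
    simpa [add_comm k] using h2
  have hsumσ0 : ∀ j, 0 ≤ ∑ i ∈ Finset.range j, (α (k + i) + β (k + i)) :=
    fun j => Finset.sum_nonneg fun i _ => hσ0 _
  have h2k : (0 : ℝ) < 2 ^ k := by positivity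
  have hB : 0 ≤ K * 2 ^ k := by positivity
  -- integrals at level k
  have hI2 : Integrable (fun p : S × (ℝ × S) => p.2.1 ^ 2) (ν ⊗ₘ lev b k) := (hb k).mem.integrable_sq
  have hI2d : Integrable (fun p : S × (ℝ × S) => p.2.1 ^ 2 / 2 ^ k) (ν ⊗ₘ lev b k) := hI2.div_const _
  have hImin : Integrable (fun p : S × (ℝ × S) => min (p.2.1 ^ 2) (K * 2 ^ k) / 2 ^ k)
      (ν ⊗ₘ lev b k) := by
    refine Integrable.div_const ?_ _
    refine hI2.mono (((hmeas.pow_const 2).min measurable_const).aestronglyMeasurable)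
      (Eventually.of_forall fun p => ?_)
    rw [Real.norm_eq_abs, Real.norm_eq_abs, abs_of_nonneg (le_min (sq_nonneg _) hB),
      abs_of_nonneg (sq_nonneg _)]
    exact min_le_left _ _
  have hImax : Integrable (fun p : S × (ℝ × S) => max (p.2.1 ^ 2 / 2 ^ k - K) 0)
      (ν ⊗ₘ lev b k) := by
    refine hI2d.mono ((((hmeas.pow_const 2).div_const _).sub_const _).max
      measurable_const).aestronglyMeasurable (Eventually.of_forall fun p => ?_)
    rw [Real.norm_eq_abs, Real.norm_eq_abs, abs_of_nonneg (le_max_right _ _),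
      abs_of_nonneg (by positivity)]
    exact max_le (by linarith) (by positivity)
  have hImm : Integrable (fun p : S × (ℝ × S) => min (max (p.2.1 ^ 2 / 2 ^ k - K) 0) (A₂ / 2))
      (ν ⊗ₘ lev b k) := by
    refine hImax.mono (((((hmeas.pow_const 2).div_const _).sub_const _).max
      measurable_const).min measurable_const).aestronglyMeasurable (Eventually.of_forall fun p => ?_)
    rw [Real.norm_eq_abs, Real.norm_eq_abs,
      abs_of_nonneg (le_min (le_max_right _ _) (by linarith)), abs_of_nonneg (le_max_right _ _)]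
    exact min_le_left _ _
  obtain ⟨v, hv⟩ : ∃ v : ℝ, v = ∫ p, min (p.2.1 ^ 2) (K * 2 ^ k) / 2 ^ k ∂(ν ⊗ₘ lev b k) := ⟨_, rfl⟩
  obtain ⟨y, hy⟩ : ∃ y : ℝ, y = ∫ p, max (p.2.1 ^ 2 / 2 ^ k - K) 0 ∂(ν ⊗ₘ lev b k) := ⟨_, rfl⟩
  obtain ⟨Y, hY⟩ : ∃ Y : ℝ, Y = ∫ p, min (max (p.2.1 ^ 2 / 2 ^ k - K) 0) (A₂ / 2) ∂(ν ⊗ₘ lev b k) :=
    ⟨_, rfl⟩
  obtain ⟨V, hV⟩ : ∃ V : ℕ → ℝ, V = fun l => ∫ p, p.2.1 ^ 2 / 2 ^ l ∂(ν ⊗ₘ lev b l) := ⟨_, rfl⟩
  have hv0 : 0 ≤ v := by
    rw [hv]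
    exact integral_nonneg fun p => div_nonneg (le_min (sq_nonneg _) hB) h2k.le
  have hy0 : 0 ≤ y := by
    rw [hy]
    exact integral_nonneg fun p => le_max_right _ _
  have hVk : V k = v + y := by
    rw [hV, hv, hy, ← integral_add hImin hImax]
    refine integral_congr_ae (Eventually.of_forall fun p => ?_)
    simp only
    rcases le_total (p.2.1 ^ 2) (K * 2 ^ k) with hc | hc
    · rw [min_eq_left hc, max_eq_right, add_zero]
      rw [sub_nonpos, div_le_iff₀ h2k]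
      exact hc
    · rw [min_eq_right hc, max_eq_left]
      · field_simp
        ring
      · rw [sub_nonneg, le_div_iff₀ h2k]
        exact hc
  have hVw : V k ≤ w := by
    rw [hV]
    simp only
    rw [integral_div, div_le_iff₀ h2k]
    have := (hb k).sq
    linarith
  have hvw : v ≤ w := by linarith
  -- y is small
  have hysmall : y ≤ δ / 16 := by
    have h1 := hl0 k hk0
    have h2 : y ≤ (∫ p, (if K0 * 2 ^ k ≤ p.2.1 ^ 2 then p.2.1 ^ 2 else 0) ∂(ν ⊗ₘ lev b k)) / 2 ^ k := by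
      rw [hy, ← integral_div]
      refine integral_mono hImax ?_ fun p => ?_
      · refine Integrable.div_const ?_ _
        refine hI2.mono (Measurable.aestronglyMeasurable ?_) (Eventually.of_forall fun p => ?_)
        · exact Measurable.ite (measurableSet_le measurable_const (hmeas.pow_const 2))
            (hmeas.pow_const 2) measurable_const
        · split_ifs
          · exact le_refl _
          · rw [norm_zero]
            exact norm_nonneg _
      · simp only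
        refine max_le ?_ ?_
        · split_ifs with hc
          · linarith
          · rw [zero_div, sub_nonpos, div_le_iff₀ h2k]
            have hc' := not_le.1 hc
            nlinarith
        · refine div_nonneg ?_ h2k.le
          split_ifs
          · positivity
          · exact le_refl _
    refine h2.trans ?_
    rw [div_le_iff₀ h2k]
    exact h1
  have hYy : y - t * δ / 16 ≤ Y := by
    have h1 := hl1 k hk1
    have hI3 : Integrable (fun p : S × (ℝ × S) =>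
        (if K2 * 2 ^ k ≤ p.2.1 ^ 2 then p.2.1 ^ 2 else 0) / 2 ^ k) (ν ⊗ₘ lev b k) := by
      refine Integrable.div_const ?_ _
      refine hI2.mono (Measurable.aestronglyMeasurable ?_) (Eventually.of_forall fun p => ?_)
      · exact Measurable.ite (measurableSet_le measurable_const (hmeas.pow_const 2))
          (hmeas.pow_const 2) measurable_const
      · split_ifs
        · exact le_refl _
        · rw [norm_zero]
          exact norm_nonneg _
    have h2 : y - Y ≤ (∫ p, (if K2 * 2 ^ k ≤ p.2.1 ^ 2 then p.2.1 ^ 2 else 0) ∂(ν ⊗ₘ lev b k)) / 2 ^ k := by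
      rw [hy, hY, ← integral_div, ← integral_sub hImax hImm]
      refine integral_mono (hImax.sub hImm) hI3 fun p => ?_
      simp only
      have hpos : 0 ≤ (if K2 * 2 ^ k ≤ p.2.1 ^ 2 then p.2.1 ^ 2 else 0) / 2 ^ k := by
        refine div_nonneg ?_ h2k.le
        split_ifs
        · positivity
        · exact le_refl _
      rcases le_total (max (p.2.1 ^ 2 / 2 ^ k - K) 0) (A₂ / 2) with hc | hc
      · rw [min_eq_left hc, sub_self]
        exact hpos
      · rw [min_eq_right hc]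
        rcases le_total (p.2.1 ^ 2 / 2 ^ k - K) 0 with hd | hd
        · rw [max_eq_right hd] at hc ⊢
          linarith
        · rw [max_eq_left hd] at hc ⊢
          have h5 : K2 * 2 ^ k ≤ p.2.1 ^ 2 := by
            have : K2 ≤ p.2.1 ^ 2 / 2 ^ k := by linarith
            rwa [le_div_iff₀ h2k] at this
          rw [if_pos h5]
          linarith
    have h3 : (∫ p, (if K2 * 2 ^ k ≤ p.2.1 ^ 2 then p.2.1 ^ 2 else 0) ∂(ν ⊗ₘ lev b k)) / 2 ^ k
        ≤ t * δ / 16 := by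
      rw [div_le_iff₀ h2k]
      exact h1
    linarith
  have hcau : ∀ j, |V (k + j) - V k| ≤ ∑ i ∈ Finset.range j, (α (k + i) + β (k + i)) := by
    intro j
    rw [hV]
    exact ui_cauchy hsq ν b w α β hα0 hβ0 hb k j
  refine ⟨K, hKp, k, ?_, ?_⟩
  · intro j
    have hmem : MemLp (fun p : S × (ℝ × S) => p.2.1) 2 (ν ⊗ₘ lev b k) := (hb k).mem
    have hstart := hinit ν (lev b k) (hb k).inv hmem (2 ^ k) K A₁ A₂ v t h2k hKp.le hv hA₁p
      (by rw [hA₁]; linarith) (by linarith) htp.le ht4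
    have hlb := vc_iter hstep hpr ν b w α β hw hα0 hβ0 hb k K A₁ A₂ v t _ hKp.le hA₁p hA₂0 hv0
      (by rw [hA₁]; linarith) htp.le ht4 hstart j
    have hprj : pr (lev (enr (K * 2 ^ k) (lev b k)) j) = lev b (k + j) := by
      rw [hpr (lev b k) (K * 2 ^ k) j, vc_lev_lev]
    have hinv := vc_endInv_lev ν (enr (K * 2 ^ k) (lev b k))
      (vc_endInv_enr ν (lev b k) (K * 2 ^ k) (hb k).inv) j
    have hE := vc_ae_compProd ν _ _ (vc_energy_lev (enr (K * 2 ^ k) (lev b k)) (K * 2 ^ k)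
      (vc_energy_enr (lev b k) (K * 2 ^ k) hB) j)
    have hmemj := vc_mem ν (lev (enr (K * 2 ^ k) (lev b k)) j) (by rw [hprj]; exact (hb (k + j)).mem)
    have hvj : v = ∫ p, p.2.1.2 / 2 ^ (k + j) ∂(ν ⊗ₘ lev (enr (K * 2 ^ k) (lev b k)) j) := by
      rw [integral_div, vc_energy_total ν (lev b k) (hb k).inv (K * 2 ^ k) hB j, hv, integral_div,
        pow_add]
      have : (0 : ℝ) < 2 ^ j := by positivity
      field_simp
    have hex := hext ν (lev (enr (K * 2 ^ k) (lev b k)) j) hinv hmemj (2 ^ (k + j)) K A₁ A₂ v t _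
      (by positivity) (by
        filter_upwards [hE] with p hp
        refine ⟨hp.1, hp.2.trans (le_of_eq ?_)⟩
        rw [pow_add]
        ring) hvj hA₁p (by rw [hA₁]; linarith) hA₂0 htp ht4 hlb
    rw [vc_sq, hprj, ← hY] at hex
    have hVj : ∫ p, p.2.1 ^ 2 / 2 ^ (k + j) ∂(ν ⊗ₘ lev b (k + j)) = V (k + j) := by rw [hV]
    rw [hVj] at hex
    have hsj : ∑ i ∈ Finset.range j, 200 * ((A₁ + A₂ + K) / A₁) * (α (k + i) + β (k + i))
        = R * ∑ i ∈ Finset.range j, (α (k + i) + β (k + i)) := by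
      rw [hR, Finset.mul_sum]
    rw [hsj] at hex
    have hc := (abs_le.1 (hcau j)).2
    have hs := hsum j
    have hs0 := hsumσ0 j
    have htA : 2 * A₁ * t ^ 2 ≤ t * δ / 8 := by
      rw [le_div_iff₀ (by positivity)] at htd
      nlinarith
    have hty : t * y ≤ t * (δ / 16) := mul_le_mul_of_nonneg_left hysmall htp.le
    have hYm : (1 - 2 * t) * (y - t * δ / 16) ≤ (1 - 2 * t) * Y :=
      mul_le_mul_of_nonneg_left hYy (by linarith)
    have ht2 : 0 ≤ t * (t * δ / 16) := by positivity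
    have hfin : t * ∫ x, |∫ q, (q.1.1 ^ 2 - q.1.2) / 2 ^ (k + j)
        ∂(lev (enr (K * 2 ^ k) (lev b k)) j x)| ∂ν ≤ t * δ := by
      refine hex.trans ?_
      have htδ : 0 ≤ t * δ := by positivity
      linarith
    exact le_of_mul_le_mul_left hfin htp
  · intro l hl
    obtain ⟨j, rfl⟩ : ∃ j, l = k + j := ⟨l - k, by omega⟩
    rw [← hv]
    have hVj : ∫ p, p.2.1 ^ 2 / 2 ^ (k + j) ∂(ν ⊗ₘ lev b (k + j)) = V (k + j) := by rw [hV]
    rw [hVj]
    have hc := abs_le.1 (hcau j)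
    have hs := hsum j
    have hs0 := hsumσ0 j
    have hs1 : ∑ i ∈ Finset.range j, (α (k + i) + β (k + i)) ≤ t * δ / 16 := by
      nlinarith
    have htδ : t * δ ≤ 1 / 4 * δ := mul_le_mul_of_nonneg_right ht4 hδ.le
    rw [abs_le]
    constructor
    · linarith [hc.1]
    · linarith [hc.2]

end Pool.Agent.Q42.UIC
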