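import Pool.Agent.Q42.UIC.Stm2

/-! Project UIC: von Neumann type inequality for columns of polynomials of a contraction. -/

set_option autoImplicit false
set_option linter.unusedVariables false

open Finset

namespace Pool.Agent.Q42.UIC

/-- the distance of two indices -/
def vdd (i j : ℕ) : ℕ := (i - j) + (j - i)

section vnaux

variable {H : Type} [NormedAddCommGroup H] [InnerProductSpace ℝ H]

/-- the moments of a contraction -/
noncomputable def vrr (T : H →L[ℝ] H) (g : H) (k : ℕ) : ℝ := inner ℝ ((T ^ k) g) g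

/-- the quadratic form of the moments -/
noncomputable def vbb (r : ℕ → ℝ) (N : ℕ) (a : ℕ → ℝ) : ℝ :=
  ∑ i ∈ range N, ∑ j ∈ range N, a i * a j * r (vdd i j)

theorem vbb_succ (r : ℕ → ℝ) (N : ℕ) (a : ℕ → ℝ) :
    vbb r (N + 1) a = vbb r N (fun i => a (i + 1)) + 2 * a 0 * (∑ i ∈ range N, a (i + 1) * r (i + 1))
      + a 0 ^ 2 * r 0 := by
  unfold vbb
  rw [sum_range_succ']
  have h1 : ∀ i, ∑ j ∈ range (N + 1), a (i + 1) * a j * r (vdd (i + 1) j)
      = ∑ j ∈ range N, a (i + 1) * a (j + 1) * r (vdd i j) + a (i + 1) * a 0 * r (i + 1) := by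
    intro i
    rw [sum_range_succ', show vdd (i + 1) 0 = i + 1 by unfold vdd; omega]
    congr 1
    refine sum_congr rfl fun j _ => ?_
    rw [show vdd (i + 1) (j + 1) = vdd i j by unfold vdd; omega]
  have h2 : ∑ j ∈ range (N + 1), a 0 * a j * r (vdd 0 j)
      = ∑ j ∈ range N, a 0 * a (j + 1) * r (j + 1) + a 0 * a 0 * r 0 := by
    rw [sum_range_succ', show vdd 0 0 = 0 by unfold vdd; omega]
    congr 1
    refine sum_congr rfl fun j _ => ?_
    rw [show vdd 0 (j + 1) = j + 1 by unfold vdd; omega]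
  rw [h2, sum_congr rfl (fun i _ => h1 i), sum_add_distrib]
  have h3 : ∑ i ∈ range N, a (i + 1) * a 0 * r (i + 1) = a 0 * ∑ i ∈ range N, a (i + 1) * r (i + 1) := by
    rw [mul_sum]
    exact sum_congr rfl fun i _ => by ring
  have h4 : ∑ i ∈ range N, a 0 * a (i + 1) * r (i + 1) = a 0 * ∑ i ∈ range N, a (i + 1) * r (i + 1) := by
    rw [mul_sum]
    exact sum_congr rfl fun i _ => by ring
  rw [h3, h4]
  ring

/-- the dilation inequality -/
theorem vn_dil (T : H →L[ℝ] H) (hT : ‖T‖ ≤ 1) (g : H) :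
    ∀ (N : ℕ) (a : ℕ → ℝ), ‖∑ i ∈ range N, a i • (T ^ i) g‖ ^ 2 ≤ vbb (vrr T g) N a := by
  intro N
  induction N with
  | zero =>
    intro a
    simp [vbb]
  | succ N ih =>
    intro a
    rw [vbb_succ, sum_range_succ']
    have h1 : ∑ i ∈ range N, a (i + 1) • (T ^ (i + 1)) g
        = T (∑ i ∈ range N, a (i + 1) • (T ^ i) g) := by
      rw [map_sum]
      refine sum_congr rfl fun i _ => ?_
      rw [map_smul, pow_succ']
      rfl
    have h2 : inner ℝ (T (∑ i ∈ range N, a (i + 1) • (T ^ i) g)) g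
        = ∑ i ∈ range N, a (i + 1) * vrr T g (i + 1) := by
      rw [← h1, sum_inner]
      refine sum_congr rfl fun i _ => ?_
      rw [real_inner_smul_left]
      rfl
    have h3 : ‖T (∑ i ∈ range N, a (i + 1) • (T ^ i) g)‖ ^ 2
        ≤ vbb (vrr T g) N (fun i => a (i + 1)) := by
      refine le_trans ?_ (ih (fun i => a (i + 1)))
      have h4 := T.le_of_opNorm_le hT (∑ i ∈ range N, a (i + 1) • (T ^ i) g)
      rw [one_mul] at h4
      exact pow_le_pow_left₀ (norm_nonneg _) h4 2
    rw [h1, norm_add_sq_real, pow_zero]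
    have h5 : ((1 : H →L[ℝ] H)) g = g := rfl
    rw [h5, real_inner_smul_right, h2, norm_smul, mul_pow, Real.norm_eq_abs, sq_abs]
    have h6 : vrr T g 0 = ‖g‖ ^ 2 := by
      unfold vrr
      rw [pow_zero]
      exact real_inner_self_eq_norm_sq g
    rw [h6]
    linarith

end vnaux

/-- the hermitian form -/
noncomputable def vhh (r : ℕ → ℝ) (R : ℕ) (c : ℕ → ℂ) : ℂ :=
  ∑ k ∈ range R, ∑ l ∈ range R, (r (vdd k l) : ℂ) * (c k * (starRingEnd ℂ) (c l))

theorem vhh_re (r : ℕ → ℝ) (R : ℕ) (c : ℕ → ℂ) :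
    (vhh r R c).re = vbb r R (fun k => (c k).re) + vbb r R (fun k => (c k).im) := by
  unfold vhh vbb
  rw [Complex.re_sum, ← sum_add_distrib]
  refine sum_congr rfl fun k _ => ?_
  rw [Complex.re_sum, ← sum_add_distrib]
  refine sum_congr rfl fun l _ => ?_
  simp only [Complex.mul_re, Complex.mul_im, Complex.ofReal_re, Complex.ofReal_im, Complex.conj_re,
    Complex.conj_im]
  ring

theorem vhh_mul (r : ℕ → ℝ) (R : ℕ) (c : ℕ → ℂ) (w : ℂ) :
    vhh r R (fun k => w * c k) = ((‖w‖ ^ 2 : ℝ) : ℂ) * vhh r R c := by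
  unfold vhh
  rw [mul_sum]
  refine sum_congr rfl fun k _ => ?_
  rw [mul_sum]
  refine sum_congr rfl fun l _ => ?_
  have h : ((‖w‖ ^ 2 : ℝ) : ℂ) = w * (starRingEnd ℂ) w := by
    rw [Complex.mul_conj, Complex.normSq_eq_norm_sq]
  rw [h, map_mul]
  ring

/-- orthogonality of roots of unity -/
theorem vn_orth (M : ℕ) (hM : M ≠ 0) (i j : ℕ) (hi : i < M) (hj : j < M) :
    ∑ m ∈ range M, (Complex.exp (2 * Real.pi * Complex.I / M) ^ m) ^ i
      * (starRingEnd ℂ) ((Complex.exp (2 * Real.pi * Complex.I / M) ^ m) ^ j)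
      = if i = j then (M : ℂ) else 0 := by
  have hprim := Complex.isPrimitiveRoot_exp M hM
  obtain ⟨ω, hω⟩ : ∃ ω : ℂ, ω = Complex.exp (2 * Real.pi * Complex.I / M) := ⟨_, rfl⟩
  rw [← hω] at hprim ⊢
  have hn : ‖ω‖ = 1 := hprim.norm'_eq_one hM
  have hconj : (starRingEnd ℂ) ω = ω⁻¹ := by
    rw [Complex.inv_def, Complex.normSq_eq_norm_sq, hn]
    simp
  have hω0 : ω ≠ 0 := by
    intro h0
    rw [h0, norm_zero] at hn
    exact zero_ne_one hn
  have h1 : ∀ m, (ω ^ m) ^ i * (starRingEnd ℂ) ((ω ^ m) ^ j) = (ω ^ i * (ω⁻¹) ^ j) ^ m := by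
    intro m
    rw [map_pow, map_pow, hconj]
    ring
  rw [sum_congr rfl (fun m _ => h1 m)]
  by_cases hij : i = j
  · subst hij
    rw [if_pos rfl]
    have : ω ^ i * (ω⁻¹) ^ i = 1 := by
      rw [← mul_pow, mul_inv_cancel₀ hω0, one_pow]
    rw [sum_congr rfl (fun m _ => by rw [this, one_pow])]
    rw [sum_const, card_range, nsmul_eq_mul, mul_one]
  · rw [if_neg hij]
    have hne : ω ^ i * (ω⁻¹) ^ j ≠ 1 := by
      intro h
      have h2 : ω ^ i = ω ^ j := by
        have h3 : ω ^ i * (ω⁻¹) ^ j * ω ^ j = ω ^ j := by rw [h, one_mul]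
        rw [mul_assoc, ← mul_pow, inv_mul_cancel₀ hω0, one_pow, mul_one] at h3
        exact h3
      exact hij (hprim.pow_inj hi hj h2)
    have hM1 : (ω ^ i * (ω⁻¹) ^ j) ^ M = 1 := by
      have e1 : (ω ^ i * (ω⁻¹) ^ j) ^ M = (ω ^ M) ^ i * ((ω ^ M)⁻¹) ^ j := by
        rw [← inv_pow]
        ring
      rw [e1, hprim.pow_eq_one]
      simp
    rw [geom_sum_eq hne, hM1, sub_self, zero_div]

/-- counting pairs with a given difference -/
theorem vn_count (r : ℕ → ℝ) (R i j : ℕ) (h : vdd i j ≤ R) :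
    ∑ k ∈ range R, ∑ l ∈ range R, (if i + k = j + l then r (vdd k l) else 0)
      = ((R : ℝ) - vdd i j) * r (vdd i j) := by
  have key : ∀ d : ℕ, d ≤ R → ∑ l ∈ range R, (if l + d ∈ range R then r d else 0)
      = ((R : ℝ) - d) * r d := by
    intro d hd
    rw [← sum_filter]
    have e : (range R).filter (fun l => l + d ∈ range R) = range (R - d) := by
      ext l
      simp only [mem_filter, mem_range]
      omega
    rw [e, sum_const, card_range, nsmul_eq_mul, Nat.cast_sub hd]
  rcases le_total i j with hij | hij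
  · have hd : vdd i j = j - i := by unfold vdd; omega
    rw [hd] at h ⊢
    rw [sum_comm, ← key (j - i) h]
    refine sum_congr rfl fun l _ => ?_
    rw [← sum_ite_eq' (range R) (l + (j - i)) (fun k => r (j - i))]
    refine sum_congr rfl fun k _ => ?_
    by_cases hc : i + k = j + l
    · rw [if_pos hc, if_pos (by omega)]
      congr 1
      unfold vdd
      omega
    · rw [if_neg hc, if_neg (by omega)]
  · have hd : vdd i j = i - j := by unfold vdd; omega
    rw [hd] at h ⊢
    rw [← key (i - j) h]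
    refine sum_congr rfl fun l _ => ?_
    rw [← sum_ite_eq' (range R) (l + (i - j)) (fun k => r (i - j))]
    refine sum_congr rfl fun k _ => ?_
    by_cases hc : i + l = j + k
    · rw [if_pos hc, if_pos (by omega)]
      congr 1
      unfold vdd
      omega
    · rw [if_neg hc, if_neg (by omega)]

/-- the sum of the hermitian form over the roots of unity -/
theorem vn_sum_one (r : ℕ → ℝ) (R M : ℕ) (hM : M ≠ 0) (hR : R ≤ M) :
    ∑ m ∈ range M, vhh r R (fun k => (Complex.exp (2 * Real.pi * Complex.I / M) ^ m) ^ k)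
      = ((M * R * r 0 : ℝ) : ℂ) := by
  unfold vhh
  rw [sum_comm]
  have h1 : ∀ k ∈ range R, ∑ m ∈ range M, ∑ l ∈ range R, (r (vdd k l) : ℂ)
      * ((Complex.exp (2 * Real.pi * Complex.I / M) ^ m) ^ k
        * (starRingEnd ℂ) ((Complex.exp (2 * Real.pi * Complex.I / M) ^ m) ^ l))
      = ((M * r 0 : ℝ) : ℂ) := by
    intro k hk
    rw [sum_comm]
    have h2 : ∀ l ∈ range R, ∑ m ∈ range M, (r (vdd k l) : ℂ)
      * ((Complex.exp (2 * Real.pi * Complex.I / M) ^ m) ^ k
        * (starRingEnd ℂ) ((Complex.exp (2 * Real.pi * Complex.I / M) ^ m) ^ l))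
        = if k = l then ((M * r 0 : ℝ) : ℂ) else 0 := by
      intro l hl
      rw [← mul_sum, vn_orth M hM k l (lt_of_lt_of_le (mem_range.1 hk) hR)
        (lt_of_lt_of_le (mem_range.1 hl) hR)]
      by_cases h : k = l
      · rw [if_pos h, if_pos h, h, show vdd l l = 0 by unfold vdd; omega]
        push_cast
        ring
      · rw [if_neg h, if_neg h, mul_zero]
    rw [sum_congr rfl h2, sum_ite_eq, if_pos hk]
  rw [sum_congr rfl h1, sum_const, card_range, nsmul_eq_mul]
  push_cast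
  ring

/-- the weighted sum of the hermitian form over the roots of unity -/
theorem vn_sum_two (r : ℕ → ℝ) (R N M : ℕ) (hM : M = N + R) (hN : N ≠ 0) (hNR : N ≤ R) (a : ℕ → ℝ) :
    ∑ m ∈ range M, vhh r R (fun k =>
        (∑ i ∈ range N, (a i : ℂ) * (Complex.exp (2 * Real.pi * Complex.I / M) ^ m) ^ i)
          * (Complex.exp (2 * Real.pi * Complex.I / M) ^ m) ^ k)
      = ((M * ∑ i ∈ range N, ∑ j ∈ range N, a i * a j * (((R : ℝ) - vdd i j) * r (vdd i j)) : ℝ) : ℂ) := by
  have hM0 : M ≠ 0 := by omega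
  unfold vhh
  rw [sum_comm]
  have h1 : ∀ k ∈ range R, ∑ m ∈ range M, ∑ l ∈ range R, (r (vdd k l) : ℂ)
      * ((∑ i ∈ range N, (a i : ℂ) * (Complex.exp (2 * Real.pi * Complex.I / M) ^ m) ^ i)
          * (Complex.exp (2 * Real.pi * Complex.I / M) ^ m) ^ k
        * (starRingEnd ℂ) ((∑ i ∈ range N, (a i : ℂ) * (Complex.exp (2 * Real.pi * Complex.I / M) ^ m) ^ i)
          * (Complex.exp (2 * Real.pi * Complex.I / M) ^ m) ^ l))
      = ∑ l ∈ range R, ∑ i ∈ range N, ∑ j ∈ range N,
          (((M * (a i * a j * (if i + k = j + l then r (vdd k l) else 0)) : ℝ)) : ℂ) := by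
    intro k hk
    rw [sum_comm]
    refine sum_congr rfl fun l hl => ?_
    have h2 : ∀ m, (r (vdd k l) : ℂ)
      * ((∑ i ∈ range N, (a i : ℂ) * (Complex.exp (2 * Real.pi * Complex.I / M) ^ m) ^ i)
          * (Complex.exp (2 * Real.pi * Complex.I / M) ^ m) ^ k
        * (starRingEnd ℂ) ((∑ i ∈ range N, (a i : ℂ) * (Complex.exp (2 * Real.pi * Complex.I / M) ^ m) ^ i)
          * (Complex.exp (2 * Real.pi * Complex.I / M) ^ m) ^ l))
        = ∑ i ∈ range N, ∑ j ∈ range N, ((a i * a j * r (vdd k l) : ℝ) : ℂ)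
          * ((Complex.exp (2 * Real.pi * Complex.I / M) ^ m) ^ (i + k)
            * (starRingEnd ℂ) ((Complex.exp (2 * Real.pi * Complex.I / M) ^ m) ^ (j + l))) := by
      intro m
      rw [map_mul, map_sum, sum_mul, sum_mul, sum_mul, mul_sum]
      refine sum_congr rfl fun i _ => ?_
      rw [mul_sum, mul_sum]
      refine sum_congr rfl fun j _ => ?_
      rw [map_mul, Complex.conj_ofReal, pow_add, pow_add, map_mul]
      push_cast
      ring
    rw [sum_congr rfl (fun m _ => h2 m), sum_comm]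
    refine sum_congr rfl fun i hi => ?_
    rw [sum_comm]
    refine sum_congr rfl fun j hj => ?_
    rw [mem_range] at hk hl hi hj
    rw [← mul_sum, vn_orth M hM0 (i + k) (j + l) (by omega) (by omega)]
    by_cases h : i + k = j + l
    · rw [if_pos h, if_pos h]
      push_cast
      ring
    · rw [if_neg h, if_neg h, mul_zero, mul_zero, mul_zero, Complex.ofReal_zero]
  rw [sum_congr rfl h1]
  have h3 : ∀ k, ∑ l ∈ range R, ∑ i ∈ range N, ∑ j ∈ range N,
          (((M * (a i * a j * (if i + k = j + l then r (vdd k l) else 0)) : ℝ)) : ℂ)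
      = (((∑ l ∈ range R, ∑ i ∈ range N, ∑ j ∈ range N,
          M * (a i * a j * (if i + k = j + l then r (vdd k l) else 0)) : ℝ)) : ℂ) := by
    intro k
    rw [Complex.ofReal_sum]
    refine sum_congr rfl fun l _ => ?_
    rw [Complex.ofReal_sum]
    refine sum_congr rfl fun i _ => ?_
    rw [Complex.ofReal_sum]
  rw [sum_congr rfl (fun k _ => h3 k), ← Complex.ofReal_sum]
  congr 1
  rw [sum_comm' (t' := range R) (s' := fun _ => range R) (h := by intros; rfl)]
  have h4 : ∀ l, ∑ k ∈ range R, ∑ i ∈ range N, ∑ j ∈ range N,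
          M * (a i * a j * (if i + k = j + l then r (vdd k l) else 0))
      = ∑ i ∈ range N, ∑ k ∈ range R, ∑ j ∈ range N,
          M * (a i * a j * (if i + k = j + l then r (vdd k l) else 0)) := by
    intro l
    rw [sum_comm]
  rw [sum_congr rfl (fun l _ => h4 l), sum_comm, mul_sum]
  refine sum_congr rfl fun i hi => ?_
  have h5 : ∀ l, ∑ k ∈ range R, ∑ j ∈ range N,
          M * (a i * a j * (if i + k = j + l then r (vdd k l) else 0))
      = ∑ j ∈ range N, ∑ k ∈ range R,
          M * (a i * a j * (if i + k = j + l then r (vdd k l) else 0)) := by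
    intro l
    rw [sum_comm]
  rw [sum_congr rfl (fun l _ => h5 l), sum_comm, mul_sum]
  refine sum_congr rfl fun j hj => ?_
  rw [mem_range] at hi hj
  rw [← vn_count r R i j (by unfold vdd; omega), sum_comm, ← mul_assoc, mul_sum]
  refine sum_congr rfl fun k _ => ?_
  rw [mul_sum]
  refine sum_congr rfl fun l _ => ?_
  ring

theorem vn_main {H : Type} [NormedAddCommGroup H] [InnerProductSpace ℝ H] (T : H →L[ℝ] H)
    (hT : ‖T‖ ≤ 1) (g : H) (L : ℕ) (P : ℕ → Polynomial ℝ) (C : ℝ)
    (hC : ∀ z : ℂ, ‖z‖ = 1 → ∑ l ∈ Finset.range L, ‖Polynomial.aeval z (P l)‖ ^ 2 ≤ C) :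
    ∑ l ∈ Finset.range L, ‖(Polynomial.aeval T (P l) : H →L[ℝ] H) g‖ ^ 2 ≤ C * ‖g‖ ^ 2 := by
  obtain ⟨N, hN0, hN⟩ : ∃ N : ℕ, N ≠ 0 ∧ ∀ l ∈ range L, (P l).natDegree < N := by
    refine ⟨(range L).sup (fun l => (P l).natDegree) + 1, by omega, fun l hl => ?_⟩
    have := Finset.le_sup (f := fun l => (P l).natDegree) hl
    exact Nat.lt_succ_of_le this
  have hr0 : vrr T g 0 = ‖g‖ ^ 2 := by
    unfold vrr
    rw [pow_zero]
    exact real_inner_self_eq_norm_sq g
  have hX : ∑ l ∈ range L, ‖(Polynomial.aeval T (P l) : H →L[ℝ] H) g‖ ^ 2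
      ≤ ∑ l ∈ range L, vbb (vrr T g) N (fun i => (P l).coeff i) := by
    refine sum_le_sum fun l hl => ?_
    have e : (Polynomial.aeval T (P l) : H →L[ℝ] H) g
        = ∑ i ∈ range N, (P l).coeff i • (T ^ i) g := by
      rw [Polynomial.aeval_eq_sum_range' (hN l hl) T]
      rw [_root_.sum_apply]
      rfl
    rw [e]
    exact vn_dil T hT g N (fun i => (P l).coeff i)
  refine hX.trans ?_
  rw [← hr0]
  -- the key inequality
  have key : ∀ R : ℕ, N ≤ R →
      (∑ l ∈ range L, vbb (vrr T g) N (fun i => (P l).coeff i) - C * vrr T g 0) * R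
        ≤ ∑ l ∈ range L, ∑ i ∈ range N, ∑ j ∈ range N,
            (P l).coeff i * (P l).coeff j * ((vdd i j : ℝ) * vrr T g (vdd i j)) := by
    intro R hR
    obtain ⟨M, hM⟩ : ∃ M : ℕ, M = N + R := ⟨_, rfl⟩
    have hM0 : M ≠ 0 := by omega
    have hz : ∀ m, ‖Complex.exp (2 * Real.pi * Complex.I / M) ^ m‖ = 1 := by
      intro m
      rw [norm_pow, (Complex.isPrimitiveRoot_exp M hM0).norm'_eq_one hM0, one_pow]
    have hpos : ∀ m, 0 ≤ (vhh (vrr T g) R
        (fun k => (Complex.exp (2 * Real.pi * Complex.I / M) ^ m) ^ k)).re := by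
      intro m
      rw [vhh_re]
      exact add_nonneg ((sq_nonneg _).trans (vn_dil T hT g R _))
        ((sq_nonneg _).trans (vn_dil T hT g R _))
    have e1 := congrArg Complex.re (vn_sum_one (vrr T g) R M hM0 (by omega))
    rw [Complex.re_sum, Complex.ofReal_re] at e1
    have e2 : ∀ l ∈ range L, ∑ m ∈ range M,
        ‖Polynomial.aeval (Complex.exp (2 * Real.pi * Complex.I / M) ^ m) (P l)‖ ^ 2
          * (vhh (vrr T g) R
            (fun k => (Complex.exp (2 * Real.pi * Complex.I / M) ^ m) ^ k)).re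
        = M * ∑ i ∈ range N, ∑ j ∈ range N, (P l).coeff i * (P l).coeff j
            * (((R : ℝ) - vdd i j) * vrr T g (vdd i j)) := by
      intro l hl
      have e3 := congrArg Complex.re
        (vn_sum_two (vrr T g) R N M hM hN0 hR (fun i => (P l).coeff i))
      rw [Complex.re_sum, Complex.ofReal_re] at e3
      rw [← e3]
      refine sum_congr rfl fun m _ => ?_
      rw [vhh_mul, Complex.re_ofReal_mul]
      congr 3
      rw [Polynomial.aeval_eq_sum_range' (hN l hl)]
      refine sum_congr rfl fun i _ => ?_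
      rw [Complex.real_smul]
    have h1 : ∑ l ∈ range L, (M : ℝ) * ∑ i ∈ range N, ∑ j ∈ range N, (P l).coeff i * (P l).coeff j
            * (((R : ℝ) - vdd i j) * vrr T g (vdd i j)) ≤ C * (M * R * vrr T g 0) := by
      rw [← sum_congr rfl e2, sum_comm, ← e1, mul_sum]
      refine sum_le_sum fun m _ => ?_
      rw [← sum_mul]
      exact mul_le_mul_of_nonneg_right (hC _ (hz m)) (hpos m)
    have hMpos : (0 : ℝ) < M := by
      exact_mod_cast Nat.pos_of_ne_zero hM0
    rw [← mul_sum] at h1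
    have h2 : ∑ l ∈ range L, ∑ i ∈ range N, ∑ j ∈ range N, (P l).coeff i * (P l).coeff j
            * (((R : ℝ) - vdd i j) * vrr T g (vdd i j)) ≤ C * (R * vrr T g 0) := by
      have h3 : (M : ℝ) * ∑ l ∈ range L, ∑ i ∈ range N, ∑ j ∈ range N, (P l).coeff i * (P l).coeff j
            * (((R : ℝ) - vdd i j) * vrr T g (vdd i j)) ≤ M * (C * (R * vrr T g 0)) := by
        calc _ ≤ C * (M * R * vrr T g 0) := h1
          _ = _ := by ring
      exact le_of_mul_le_mul_left h3 hMpos
    have h4 : ∑ l ∈ range L, ∑ i ∈ range N, ∑ j ∈ range N, (P l).coeff i * (P l).coeff j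
            * (((R : ℝ) - vdd i j) * vrr T g (vdd i j))
        = (∑ l ∈ range L, vbb (vrr T g) N (fun i => (P l).coeff i)) * R
          - ∑ l ∈ range L, ∑ i ∈ range N, ∑ j ∈ range N,
            (P l).coeff i * (P l).coeff j * ((vdd i j : ℝ) * vrr T g (vdd i j)) := by
      rw [sum_mul, ← sum_sub_distrib]
      refine sum_congr rfl fun l _ => ?_
      unfold vbb
      rw [sum_mul, ← sum_sub_distrib]
      refine sum_congr rfl fun i _ => ?_
      rw [sum_mul, ← sum_sub_distrib]
      refine sum_congr rfl fun j _ => ?_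
      ring
    rw [h4] at h2
    linarith
  by_contra hcon
  push Not at hcon
  have hpos : 0 < ∑ l ∈ range L, vbb (vrr T g) N (fun i => (P l).coeff i) - C * vrr T g 0 := by
    linarith
  obtain ⟨R, hR⟩ := exists_nat_gt ((∑ l ∈ range L, ∑ i ∈ range N, ∑ j ∈ range N,
            (P l).coeff i * (P l).coeff j * ((vdd i j : ℝ) * vrr T g (vdd i j)))
      / (∑ l ∈ range L, vbb (vrr T g) N (fun i => (P l).coeff i) - C * vrr T g 0))
  have h5 := key (max N R) (le_max_left _ _)
  rw [div_lt_iff₀ hpos] at hR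
  have h6 : (R : ℝ) ≤ ((max N R : ℕ) : ℝ) := by
    exact_mod_cast le_max_right N R
  have h7 := mul_le_mul_of_nonneg_left h6 hpos.le
  linarith

theorem vn : St_vn := by
  intro H _ _ T hT g L P C hC
  exact vn_main T hT g L P C hC

end Pool.Agent.Q42.UIC
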